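import Pool.Agent.H32.CZ.N0

/-!
# MP_ede373, cubic points, row Pa: pigeonhole (box principle)

Consider the `(H+1)^(m a)` polynomials `P = ∑_{j<a} ∑_{i<m} c_{ji} X^i Y^j` with
`c_{ji} ∈ {0, …, H}`. Their values satisfy `|Re|, |Im| ≤ R := m a H B^(m+a)`. Put
`K = ⌈(H+1)^(m a / 2)⌉ - 1` (natural number): `K^2 < (H+1)^(m a)` and, since `(H+1)^(m a/2) ≥ √2`,
`K ≥ 1` and `K ≥ (H+1)^(m a/2) / 2`. Cut the square `[-R, R]^2` into `K^2` squares of side `2R/K`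
(maps `⌊(Re + R) K / (2R)⌋`, clipped to `{0..K-1}`): two different polynomials have values in the same
square (`Finset.exists_ne_map_eq_of_card_lt_of_maps_to`). Their difference `P ≠ 0` has coefficients in
`[-H, H]`, and `|P(θ)| ≤ √2 · 2R/K ≤ 4 √2 R (H+1)^(-m a/2) ≤ 8 R H^(-m a/2)`.
Construct `P` as `∑_{j<a} ∑_{i<m} monomial j (monomial i c)`.
-/

set_option autoImplicit false

namespace CZ

open Polynomial

theorem Pa_t (t : ℝ) (K : ℕ) (hK : 0 < K) (h0 : 0 ≤ t) (h1 : t ≤ K) :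
    ((min ⌊t⌋₊ (K - 1) : ℕ) : ℝ) ≤ t ∧ t ≤ ((min ⌊t⌋₊ (K - 1) : ℕ) : ℝ) + 1 := by
  constructor
  · exact le_trans (Nat.cast_le.2 (min_le_left _ _)) (Nat.floor_le h0)
  · rcases le_total ⌊t⌋₊ (K - 1) with h | h
    · rw [min_eq_left h]
      exact (Nat.lt_floor_add_one t).le
    · rw [min_eq_right h, Nat.cast_sub (by omega)]
      push_cast
      linarith

theorem Pa_box (K : ℕ) (hK : 0 < K) (R : ℝ) (hR : 0 < R) (x y : ℝ) (hx : |x| ≤ R) (hy : |y| ≤ R)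
    (h : min ⌊(x + R) * K / (2 * R)⌋₊ (K - 1) = min ⌊(y + R) * K / (2 * R)⌋₊ (K - 1)) :
    |x - y| ≤ 2 * R / K := by
  have hK' : (0 : ℝ) < K := Nat.cast_pos.2 hK
  have key : ∀ x : ℝ, |x| ≤ R → 0 ≤ (x + R) * K / (2 * R) ∧ (x + R) * K / (2 * R) ≤ K := by
    intro x hx
    rw [abs_le] at hx
    constructor
    · exact div_nonneg (mul_nonneg (by linarith [hx.1]) hK'.le) (by linarith)
    · rw [div_le_iff₀ (by linarith)]
      nlinarith [hx.2]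
  obtain ⟨a1, a2⟩ := Pa_t _ K hK (key x hx).1 (key x hx).2
  obtain ⟨b1, b2⟩ := Pa_t _ K hK (key y hy).1 (key y hy).2
  rw [h] at a1 a2
  have h1 : |(x + R) * K / (2 * R) - (y + R) * K / (2 * R)| ≤ 1 := by
    rw [abs_le]
    constructor <;> linarith
  have h2 : x - y = ((x + R) * K / (2 * R) - (y + R) * K / (2 * R)) * (2 * R / K) := by
    field_simp
    ring
  have h3 : 0 < 2 * R / K := div_pos (by linarith) hK'
  rw [h2, abs_mul, abs_of_pos h3]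
  nlinarith

/-- The polynomial with given coefficients. -/
noncomputable def Pa_poly {a m : ℕ} (d : Fin a → Fin m → ℤ) : ℤ[X][X] :=
  ∑ j : Fin a, ∑ i : Fin m, monomial (j : ℕ) (monomial (i : ℕ) (d j i))

theorem Pa_coeff {a m : ℕ} (d : Fin a → Fin m → ℤ) (j i : ℕ) :
    ((Pa_poly d).coeff j).coeff i =
      if h : j < a ∧ i < m then d ⟨j, h.1⟩ ⟨i, h.2⟩ else 0 := by
  have h1 : ((Pa_poly d).coeff j).coeff i =
      ∑ j' : Fin a, ∑ i' : Fin m, if (j' : ℕ) = j ∧ (i' : ℕ) = i then d j' i' else 0 := by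
    rw [Pa_poly]
    simp only [finset_sum_coeff]
    refine Finset.sum_congr rfl fun j' _ ↦ Finset.sum_congr rfl fun i' _ ↦ ?_
    rw [coeff_monomial]
    by_cases hj : (j' : ℕ) = j
    · rw [if_pos hj, coeff_monomial]
      by_cases hi : (i' : ℕ) = i
      · rw [if_pos hi, if_pos ⟨hj, hi⟩]
      · rw [if_neg hi, if_neg fun h ↦ hi h.2]
    · rw [if_neg hj, if_neg fun h ↦ hj h.1, coeff_zero]
  rw [h1]
  by_cases h : j < a ∧ i < m
  · rw [dif_pos h, Finset.sum_eq_single (⟨j, h.1⟩ : Fin a), Finset.sum_eq_single (⟨i, h.2⟩ : Fin m)]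
    · rw [if_pos ⟨rfl, rfl⟩]
    · intro b _ hb
      rw [if_neg]
      rintro ⟨_, h3⟩
      exact hb (Fin.ext h3)
    · intro hb
      exact absurd (Finset.mem_univ _) hb
    · intro b _ hb
      refine Finset.sum_eq_zero fun i' _ ↦ ?_
      rw [if_neg]
      rintro ⟨h3, _⟩
      exact hb (Fin.ext h3)
    · intro hb
      exact absurd (Finset.mem_univ _) hb
  · rw [dif_neg h]
    refine Finset.sum_eq_zero fun j' _ ↦ Finset.sum_eq_zero fun i' _ ↦ ?_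
    rw [if_neg]
    rintro ⟨h3, h4⟩
    exact h ⟨h3 ▸ j'.2, h4 ▸ i'.2⟩

theorem Pa_ev {a m : ℕ} (d : Fin a → Fin m → ℤ) (x y : ℂ) :
    evH x y (Pa_poly d) = ∑ j : Fin a, ∑ i : Fin m, (d j i : ℂ) * x ^ (i : ℕ) * y ^ (j : ℕ) := by
  rw [Pa_poly]
  simp only [map_sum]
  refine Finset.sum_congr rfl fun j _ ↦ Finset.sum_congr rfl fun i _ ↦ ?_
  rw [evH, coe_eval₂RingHom, eval₂_monomial, coe_eval₂RingHom, eval₂_monomial]
  rfl

theorem pigeon (θ1 θ2 : ℂ) (B : ℝ) (hB : 1 ≤ B) (h1 : ‖θ1‖ ≤ B) (h2 : ‖θ2‖ ≤ B)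
    (m a H : ℕ) (hm : 0 < m) (ha : 0 < a) (hH : 0 < H) :
    ∃ P : ℤ[X][X], P ≠ 0 ∧ P.natDegree < a ∧ (∀ j, (P.coeff j).natDegree < m) ∧
      (∀ j i, |((P.coeff j).coeff i : ℝ)| ≤ H) ∧
      ‖evH θ1 θ2 P‖ ≤ 8 * (m * a * H) * B ^ (m + a) * (H : ℝ) ^ (-((m * a : ℕ) : ℝ) / 2) := by
  have hB0 : 0 ≤ B := le_trans zero_le_one hB
  have hH' : (0 : ℝ) < H := Nat.cast_pos.2 hH
  have hm' : (0 : ℝ) < m := Nat.cast_pos.2 hm
  have ha' : (0 : ℝ) < a := Nat.cast_pos.2 ha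
  obtain ⟨R, hR⟩ : ∃ R : ℝ, R = m * a * H * B ^ (m + a) := ⟨_, rfl⟩
  have hR0 : 0 < R := by
    rw [hR]
    exact mul_pos (mul_pos (mul_pos hm' ha') hH') (pow_pos (lt_of_lt_of_le zero_lt_one hB) _)
  -- the number of squares
  obtain ⟨s, hs⟩ : ∃ s : ℝ, s = ((H + 1 : ℕ) : ℝ) ^ (((m * a : ℕ) : ℝ) / 2) := ⟨_, rfl⟩
  have hs1 : 1 < s := by
    rw [hs]
    refine Real.one_lt_rpow ?_ (div_pos (Nat.cast_pos.2 (Nat.mul_pos hm ha)) two_pos)
    push_cast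
    linarith
  have hs2 : s ^ 2 = (((H + 1) ^ (m * a) : ℕ) : ℝ) := by
    rw [hs, ← Real.rpow_natCast, ← Real.rpow_mul (Nat.cast_nonneg _)]
    push_cast
    rw [div_mul_cancel₀ _ (two_ne_zero), ← Nat.cast_mul, Real.rpow_natCast]
  obtain ⟨K, hK⟩ : ∃ K : ℕ, K = ⌈s⌉₊ - 1 := ⟨_, rfl⟩
  have hc2 : 2 ≤ ⌈s⌉₊ := by
    have : 1 < ⌈s⌉₊ := Nat.lt_ceil.2 (by exact_mod_cast hs1)
    omega
  have hK1 : 0 < K := by omega
  have hKc : (K : ℝ) = ⌈s⌉₊ - 1 := by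
    rw [hK, Nat.cast_sub (by omega)]
    push_cast
    rfl
  have hKs : (K : ℝ) < s := by
    rw [hKc]
    linarith [Nat.ceil_lt_add_one (le_trans zero_le_one hs1.le)]
  have hKs2 : s / 2 ≤ K := by
    have h3 : s - 1 ≤ K := by
      rw [hKc]
      linarith [Nat.le_ceil s]
    have h4 : (1 : ℝ) ≤ K := by exact_mod_cast hK1
    rcases le_total 2 s with h | h <;> linarith
  have hK2 : K * K < (H + 1) ^ (m * a) := by
    have h3 : ((K * K : ℕ) : ℝ) < (((H + 1) ^ (m * a) : ℕ) : ℝ) := by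
      rw [← hs2]
      push_cast
      have : (0 : ℝ) ≤ K := Nat.cast_nonneg _
      nlinarith
    exact_mod_cast h3
  -- the values
  obtain ⟨g, hg⟩ : ∃ g : (Fin a → Fin m → Fin (H + 1)) → ℂ, g = fun c ↦
      ∑ j : Fin a, ∑ i : Fin m, ((c j i : ℕ) : ℂ) * θ1 ^ (i : ℕ) * θ2 ^ (j : ℕ) := ⟨_, rfl⟩
  have hgn : ∀ c, ‖g c‖ ≤ R := by
    intro c
    have h3 : ∀ j : Fin a, ∀ i : Fin m,
        ‖((c j i : ℕ) : ℂ) * θ1 ^ (i : ℕ) * θ2 ^ (j : ℕ)‖ ≤ H * B ^ (m + a) := by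
      intro j i
      rw [norm_mul, norm_mul, norm_pow, norm_pow, Complex.norm_natCast, mul_assoc, pow_add]
      refine mul_le_mul (Nat.cast_le.2 (Nat.lt_succ_iff.1 (c j i).2)) ?_ (by positivity) hH'.le
      refine mul_le_mul ?_ ?_ (by positivity) (by positivity)
      · exact le_trans (pow_le_pow_left₀ (norm_nonneg _) h1 _) (pow_le_pow_right₀ hB i.2.le)
      · exact le_trans (pow_le_pow_left₀ (norm_nonneg _) h2 _) (pow_le_pow_right₀ hB j.2.le)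
    rw [hg]
    refine le_trans (norm_sum_le _ _) ?_
    refine le_trans (Finset.sum_le_sum fun j _ ↦ le_trans (norm_sum_le _ _)
      (Finset.sum_le_sum fun i _ ↦ h3 j i)) ?_
    rw [Finset.sum_const, Finset.sum_const, Finset.card_univ, Finset.card_univ, Fintype.card_fin,
      Fintype.card_fin, nsmul_eq_mul, nsmul_eq_mul, hR]
    refine le_of_eq ?_
    ring
  have hbox : ∀ x : ℝ, min ⌊(x + R) * K / (2 * R)⌋₊ (K - 1) < K := by
    intro x
    have := min_le_right ⌊(x + R) * K / (2 * R)⌋₊ (K - 1)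
    omega
  obtain ⟨c, c', hcc, hf⟩ := Fintype.exists_ne_map_eq_of_card_lt
    (fun c : Fin a → Fin m → Fin (H + 1) ↦
      ((⟨_, hbox (g c).re⟩, ⟨_, hbox (g c).im⟩) : Fin K × Fin K)) (by
      rw [Fintype.card_prod, Fintype.card_fin, Fintype.card_fun, Fintype.card_fun,
        Fintype.card_fin, Fintype.card_fin, Fintype.card_fin, ← pow_mul]
      exact hK2)
  have hf1 : min ⌊((g c).re + R) * K / (2 * R)⌋₊ (K - 1) =
      min ⌊((g c').re + R) * K / (2 * R)⌋₊ (K - 1) := Fin.ext_iff.1 (Prod.ext_iff.1 hf).1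
  have hf2 : min ⌊((g c).im + R) * K / (2 * R)⌋₊ (K - 1) =
      min ⌊((g c').im + R) * K / (2 * R)⌋₊ (K - 1) := Fin.ext_iff.1 (Prod.ext_iff.1 hf).2
  have hre := Pa_box K hK1 R hR0 _ _ (le_trans (Complex.abs_re_le_norm _) (hgn c))
    (le_trans (Complex.abs_re_le_norm _) (hgn c')) hf1
  have him := Pa_box K hK1 R hR0 _ _ (le_trans (Complex.abs_im_le_norm _) (hgn c))
    (le_trans (Complex.abs_im_le_norm _) (hgn c')) hf2
  obtain ⟨d, hd⟩ : ∃ d : Fin a → Fin m → ℤ, d = fun j i ↦ ((c j i : ℕ) : ℤ) - ((c' j i : ℕ) : ℤ) :=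
    ⟨_, rfl⟩
  have hcz : ∀ j i, 0 < a → ((Pa_poly d).coeff j).coeff i ≠ 0 → j < a ∧ i < m := by
    intro j i _ h
    by_contra hcon
    exact h (by rw [Pa_coeff, dif_neg hcon])
  refine ⟨Pa_poly d, ?_, ?_, ?_, ?_, ?_⟩
  · intro h0
    apply hcc
    funext j i
    have h3 := Pa_coeff d j i
    rw [h0, dif_pos ⟨j.2, i.2⟩, coeff_zero, coeff_zero] at h3
    have h4 : d j i = 0 := h3.symm
    rw [hd] at h4
    exact Fin.ext (by exact_mod_cast sub_eq_zero.1 h4)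
  · refine lt_of_le_of_lt (natDegree_le_iff_coeff_eq_zero.2 fun N hN ↦ ?_)
      (Nat.sub_lt ha one_pos)
    ext i
    rw [coeff_zero]
    by_contra hcon
    have := hcz N i ha hcon
    omega
  · intro j
    refine lt_of_le_of_lt (natDegree_le_iff_coeff_eq_zero.2 fun N hN ↦ ?_)
      (Nat.sub_lt hm one_pos)
    by_contra hcon
    have := hcz j N ha hcon
    omega
  · intro j i
    rw [Pa_coeff]
    split_ifs with h
    · rw [hd]
      have h3 := Nat.lt_succ_iff.1 (c ⟨j, h.1⟩ ⟨i, h.2⟩).2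
      have h4 := Nat.lt_succ_iff.1 (c' ⟨j, h.1⟩ ⟨i, h.2⟩).2
      have h5 : ((c ⟨j, h.1⟩ ⟨i, h.2⟩ : ℕ) : ℝ) ≤ H := Nat.cast_le.2 h3
      have h6 : ((c' ⟨j, h.1⟩ ⟨i, h.2⟩ : ℕ) : ℝ) ≤ H := Nat.cast_le.2 h4
      have h7 : (0 : ℝ) ≤ ((c ⟨j, h.1⟩ ⟨i, h.2⟩ : ℕ) : ℝ) := Nat.cast_nonneg _
      have h8 : (0 : ℝ) ≤ ((c' ⟨j, h.1⟩ ⟨i, h.2⟩ : ℕ) : ℝ) := Nat.cast_nonneg _
      push_cast
      rw [abs_le]
      constructor <;> linarith
    · rw [Int.cast_zero, abs_zero]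
      exact hH'.le
  · have h3 : evH θ1 θ2 (Pa_poly d) = g c - g c' := by
      rw [Pa_ev, hg, hd]
      simp only
      rw [← Finset.sum_sub_distrib]
      refine Finset.sum_congr rfl fun j _ ↦ ?_
      rw [← Finset.sum_sub_distrib]
      refine Finset.sum_congr rfl fun i _ ↦ ?_
      push_cast
      ring
    rw [h3]
    have h4 : ‖g c - g c'‖ ≤ 4 * R / K := by
      refine le_trans (Complex.norm_le_abs_re_add_abs_im _) ?_
      rw [Complex.sub_re, Complex.sub_im]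
      refine le_trans (add_le_add hre him) (le_of_eq ?_)
      ring
    have hs0 : 0 < s := by linarith
    have h5 : 4 * R / K ≤ 8 * R * s⁻¹ := by
      rw [div_le_iff₀ (Nat.cast_pos.2 hK1)]
      have h6 : 4 * R = 8 * R * s⁻¹ * (s / 2) := by
        field_simp
        norm_num
      calc 4 * R = 8 * R * s⁻¹ * (s / 2) := h6
        _ ≤ 8 * R * s⁻¹ * K := mul_le_mul_of_nonneg_left hKs2 (by positivity)
    have h6 : s⁻¹ ≤ (H : ℝ) ^ (-((m * a : ℕ) : ℝ) / 2) := by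
      rw [neg_div, Real.rpow_neg hH'.le, hs]
      refine inv_anti₀ (Real.rpow_pos_of_pos hH' _) (Real.rpow_le_rpow hH'.le ?_ (by positivity))
      push_cast
      linarith
    calc ‖g c - g c'‖ ≤ 8 * R * s⁻¹ := le_trans h4 h5
      _ ≤ 8 * R * (H : ℝ) ^ (-((m * a : ℕ) : ℝ) / 2) :=
          mul_le_mul_of_nonneg_left h6 (by positivity)
      _ = _ := by
          rw [hR]
          ring

end CZ
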