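import Pool.Agent.H32.CZ.Nb

/-!
# MP_ede373, cubic points, row Pb: Gelfond's inequality in two variables

`∑_{A ∈ s} log (nr2 A) ≤ log (nr2 P) + 2 (m + a) log 2`, `P = s.prod`, `a ≥ deg_Y P`, `m ≥ deg_X P`.

Proof. For `A ∈ s` let `a_A = natDegree A`, `m_A = dX A`; `∑ a_A = natDegree P ≤ a`, `∑ m_A = dX P ≤ m`
(`dX_multiset_prod`). Let `sup A` be the largest absolute value of a coefficient of `A`, attained in
the coefficient polynomial `A_k(X) = A.coeff k` (`k = k_A`); `1 ≤ sup A`.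
(1) `sup A ≤ 2^(m_A) · M(A_k)` (`Polynomial.norm_coeff_le_choose_mul_mahlerMeasure` and
`Nat.choose_le_two_pow`), `M` = Mahler measure.
(2) `B(X) = ∏_A A_k(X)` over `ℂ`: `M(B) = ∏ M(A_k)` (`prod_mahlerMeasure_eq_mahlerMeasure_prod`), and there
is `ξ` with `‖ξ‖ = 1` and `‖B(ξ)‖ ≥ M(B)`: take `ξ` maximising the continuous function `‖B‖` on the
(compact) unit circle; `log M(B)` is a circle average of `log ‖B‖ ≤ log ‖B(ξ)‖`
(`Real.circleAverage_mono_on_of_le_circle` or `intervalIntegral` monotonicity;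
`circleIntegrable_log_norm...` is in Mathlib: see `Polynomial.intervalIntegrable_mahlerMeasure`).
(3) For `A ∈ s` let `A(ξ, Y) ∈ ℂ[Y]` (map the coefficients by `X ↦ ξ`): it is not `0`, because its
`k`-th coefficient `A_k(ξ) ≠ 0` (`B(ξ) ≠ 0`), its degree is `≤ a_A`, and
`‖A_k(ξ)‖ ≤ 2^(a_A) M(A(ξ, Y))`.
(4) `∏_A M(A(ξ, Y)) = M(P(ξ, Y)) ≤ ∑_j ‖P_j(ξ)‖ ≤ nr2 P` (`mahlerMeasure_le_sum_norm_coeff`, `‖ξ‖ = 1`).
So `∑ log sup A ≤ m log 2 + log ‖B(ξ)‖ ≤ m log 2 + a log 2 + log (nr2 P)`. Finally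
`nr2 A ≤ (m_A + 1)(a_A + 1) sup A ≤ 2^(m_A + a_A) sup A`. Sum.
-/

set_option autoImplicit false

namespace CZ

open Polynomial

/-- A polynomial is at some point of the unit circle at least its Mahler measure. -/
theorem pb_exists_circle (B : ℂ[X]) (hB : B ≠ 0) :
    ∃ ξ : ℂ, ‖ξ‖ = 1 ∧ B.mahlerMeasure ≤ ‖B.eval ξ‖ := by
  obtain ⟨ξ, hξ, hmax⟩ := (isCompact_sphere (0 : ℂ) 1).exists_isMaxOn
    ⟨1, by simp⟩ (f := fun z ↦ ‖B.eval z‖) (by fun_prop)
  refine ⟨ξ, by simpa using hξ, ?_⟩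
  by_contra hcon
  push Not at hcon
  set M := B.mahlerMeasure with hM
  have hMpos : 0 < M := mahlerMeasure_pos_of_ne_zero hB
  set t : ℝ := (‖B.eval ξ‖ + M) / 2 with ht
  have htpos : 0 < t := by have := norm_nonneg (B.eval ξ); rw [ht]; linarith
  have h1 : ‖B.eval ξ‖ < t := by rw [ht]; linarith
  have h2 : t < M := by rw [ht]; linarith
  have htc : ((t⁻¹ : ℝ) : ℂ) ≠ 0 := by
    exact_mod_cast inv_ne_zero htpos.ne'
  have hle : (C ((t⁻¹ : ℝ) : ℂ) * B).logMahlerMeasure ≤ 0 := by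
    rw [logMahlerMeasure_def]
    refine Real.circleAverage_mono_on_of_le_circle ?_ ?_
    · have := (C ((t⁻¹ : ℝ) : ℂ) * B).intervalIntegrable_mahlerMeasure
      exact this
    · intro z hz
      have hz1 : z ∈ Metric.sphere (0 : ℂ) 1 := by simpa using hz
      have h3 : ‖B.eval z‖ ≤ ‖B.eval ξ‖ := hmax hz1
      have h4 : ‖(C ((t⁻¹ : ℝ) : ℂ) * B).eval z‖ ≤ 1 := by
        rw [eval_mul, eval_C, norm_mul, Complex.norm_real, Real.norm_eq_abs,
          abs_of_pos (inv_pos.2 htpos), inv_mul_le_iff₀ htpos]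
        linarith
      exact Real.log_nonpos (norm_nonneg _) h4
  have h5 : (C ((t⁻¹ : ℝ) : ℂ) * B).mahlerMeasure ≤ 1 := by
    rw [mahlerMeasure_def_of_ne_zero (mul_ne_zero (by simpa using htc) hB)]
    exact Real.exp_le_one_iff.2 hle
  rw [mahlerMeasure_mul, mahlerMeasure_const, Complex.norm_real, Real.norm_eq_abs,
    abs_of_pos (inv_pos.2 htpos), inv_mul_le_iff₀ htpos] at h5
  linarith

theorem pb_coeff_le (Q : ℂ[X]) (i n : ℕ) (hn : Q.natDegree ≤ n) :
    ‖Q.coeff i‖ ≤ 2 ^ n * Q.mahlerMeasure := by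
  refine (norm_coeff_le_choose_mul_mahlerMeasure i Q).trans ?_
  refine mul_le_mul_of_nonneg_right ?_ (mahlerMeasure_nonneg Q)
  calc ((Q.natDegree.choose i : ℕ) : ℝ) ≤ ((2 ^ Q.natDegree : ℕ) : ℝ) := by
        exact_mod_cast Nat.choose_le_two_pow _ _
    _ ≤ 2 ^ n := by
        push_cast
        exact pow_le_pow_right₀ (by norm_num) hn

theorem pb_log_prod {α : Type*} (s : Multiset α) (f : α → ℝ) (hf : ∀ a ∈ s, f a ≠ 0) :
    Real.log (s.map f).prod = (s.map fun a ↦ Real.log (f a)).sum := by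
  induction s using Multiset.induction_on with
  | empty => simp
  | cons a s ih =>
    have h1 : f a ≠ 0 := hf a (Multiset.mem_cons_self _ _)
    have h2 : ∀ b ∈ s, f b ≠ 0 := fun b hb ↦ hf b (Multiset.mem_cons_of_mem hb)
    have h3 : (s.map f).prod ≠ 0 := by
      refine Multiset.prod_ne_zero (fun h0 ↦ ?_)
      obtain ⟨b, hb, h4⟩ := Multiset.mem_map.1 h0
      exact h2 b hb h4
    rw [Multiset.map_cons, Multiset.prod_cons, Real.log_mul h1 h3, ih h2, Multiset.map_cons,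
      Multiset.sum_cons]

/-- The coefficient of largest absolute value. -/
theorem pb_exists_max (A : ℤ[X][X]) (hA : A ≠ 0) :
    ∃ k i : ℕ, (A.coeff k).coeff i ≠ 0 ∧
      ∀ j l, |((A.coeff j).coeff l : ℝ)| ≤ |((A.coeff k).coeff i : ℝ)| := by
  obtain ⟨p, hp, hmax⟩ := (Finset.range (A.natDegree + 1) ×ˢ Finset.range (dX A + 1)).exists_max_image
    (fun p ↦ |((A.coeff p.1).coeff p.2 : ℝ)|) ⟨(0, 0), by simp⟩
  have hall : ∀ j l, |((A.coeff j).coeff l : ℝ)| ≤ |((A.coeff p.1).coeff p.2 : ℝ)| := by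
    intro j l
    by_cases hj : j < A.natDegree + 1
    · by_cases hl : l < dX A + 1
      · exact hmax (j, l) (by simp; omega)
      · have : (A.coeff j).coeff l = 0 := by
          refine coeff_eq_zero_of_natDegree_lt ?_
          have := coeff_le_dX A j
          omega
        rw [this]; simp
    · have : A.coeff j = 0 := coeff_eq_zero_of_natDegree_lt (by omega)
      rw [this]; simp
  refine ⟨p.1, p.2, ?_, hall⟩
  intro h0
  apply hA
  ext j l
  have := hall j l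
  rw [h0] at this
  simp at this
  simp [this]

theorem pb_ring (ξ : ℂ) (f : ℤ[X]) :
    eval₂RingHom (Int.castRingHom ℂ) ξ f = (f.map (Int.castRingHom ℂ)).eval ξ := by
  simp [eval_map]

theorem gelfond2 (s : Multiset ℤ[X][X]) (hs : ∀ A ∈ s, A ≠ 0) (m a : ℕ)
    (ha : s.prod.natDegree ≤ a) (hm : dX s.prod ≤ m) :
    (s.map fun A ↦ Real.log (nr2 A)).sum ≤ Real.log (nr2 s.prod) + 2 * (m + a) * Real.log 2 := by
  classical
  have hmx : ∀ A : ℤ[X][X], ∃ p : ℕ × ℕ, A ≠ 0 → ((A.coeff p.1).coeff p.2 ≠ 0 ∧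
      ∀ j l, |((A.coeff j).coeff l : ℝ)| ≤ |((A.coeff p.1).coeff p.2 : ℝ)|) := by
    intro A
    by_cases hA : A = 0
    · exact ⟨(0, 0), fun h ↦ absurd hA h⟩
    · obtain ⟨k, i, h1, h2⟩ := pb_exists_max A hA
      exact ⟨(k, i), fun _ ↦ ⟨h1, h2⟩⟩
  choose p hp using hmx
  have hP0 : s.prod ≠ 0 := by
    refine Multiset.prod_ne_zero (fun h0 ↦ ?_)
    exact hs 0 h0 rfl
  set Q : ℤ[X][X] → ℂ[X] := fun A ↦ (A.coeff (p A).1).map (Int.castRingHom ℂ) with hQ
  have hQc : ∀ A i, (Q A).coeff i = (((A.coeff (p A).1).coeff i : ℤ) : ℂ) := by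
    intro A i; simp [hQ]
  have hQ0 : ∀ A ∈ s, Q A ≠ 0 := by
    intro A hA h0
    have h1 := hQc A (p A).2
    rw [h0, coeff_zero] at h1
    exact (hp A (hs A hA)).1 (by exact_mod_cast h1.symm)
  have hB0 : (s.map Q).prod ≠ 0 := by
    refine Multiset.prod_ne_zero (fun h0 ↦ ?_)
    obtain ⟨A, hA, h1⟩ := Multiset.mem_map.1 h0
    exact hQ0 A hA h1
  obtain ⟨ξ, hξ, hMB⟩ := pb_exists_circle _ hB0
  have hBev : (s.map Q).prod.eval ξ = (s.map fun A ↦ (Q A).eval ξ).prod := by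
    rw [eval_multiset_prod, Multiset.map_map]; rfl
  have hBne : (s.map Q).prod.eval ξ ≠ 0 := by
    intro h0
    rw [h0, norm_zero] at hMB
    exact absurd hMB (not_le.2 (mahlerMeasure_pos_of_ne_zero hB0))
  have hQev : ∀ A ∈ s, (Q A).eval ξ ≠ 0 := by
    intro A hA h0
    apply hBne
    rw [hBev]
    exact Multiset.prod_eq_zero (Multiset.mem_map.2 ⟨A, hA, h0⟩)
  set R : ℤ[X][X] → ℂ[X] := fun A ↦ A.map (eval₂RingHom (Int.castRingHom ℂ) ξ) with hR
  have hRc : ∀ A, (R A).coeff (p A).1 = (Q A).eval ξ := by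
    intro A
    simp only [hR, hQ, coeff_map]
    exact pb_ring ξ _
  have hR0 : ∀ A ∈ s, R A ≠ 0 := by
    intro A hA h0
    have := hRc A
    rw [h0, coeff_zero] at this
    exact hQev A hA this.symm
  -- step (i)
  have hi : ∀ A ∈ s, Real.log (nr2 A) ≤
      ((dX A + A.natDegree + dX A : ℕ) : ℝ) * Real.log 2 + Real.log (Q A).mahlerMeasure := by
    intro A hA
    obtain ⟨h1, h2⟩ := hp A (hs A hA)
    have hMQ := mahlerMeasure_pos_of_ne_zero (hQ0 A hA)
    have h3 : nr2 A ≤ ((dX A + 1 : ℕ) : ℝ) * ((A.natDegree + 1 : ℕ) : ℝ) *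
        |((A.coeff (p A).1).coeff (p A).2 : ℝ)| := by
      refine nr2_le_of_coeff (Nat.lt_succ_self _) (fun j ↦ ?_) h2
      have := coeff_le_dX A j
      omega
    have h4 : |((A.coeff (p A).1).coeff (p A).2 : ℝ)| ≤ 2 ^ (dX A) * (Q A).mahlerMeasure := by
      have h5 := pb_coeff_le (Q A) (p A).2 (dX A) ((natDegree_map_le).trans (coeff_le_dX A _))
      rw [hQc] at h5
      rwa [Complex.norm_intCast] at h5
    have h6 : ((dX A + 1 : ℕ) : ℝ) ≤ 2 ^ (dX A) := by
      exact_mod_cast Nat.lt_two_pow_self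
    have h7 : ((A.natDegree + 1 : ℕ) : ℝ) ≤ 2 ^ A.natDegree := by
      exact_mod_cast Nat.lt_two_pow_self
    have h8 : nr2 A ≤ 2 ^ (dX A + A.natDegree + dX A) * (Q A).mahlerMeasure := by
      calc nr2 A ≤ _ := h3
        _ ≤ (2 ^ (dX A) * 2 ^ A.natDegree) * (2 ^ (dX A) * (Q A).mahlerMeasure) := by
            gcongr
        _ = _ := by rw [pow_add, pow_add]; ring
    have h9 : 0 < nr2 A := lt_of_lt_of_le one_pos (one_le_nr2 (hs A hA))
    calc Real.log (nr2 A) ≤ Real.log (2 ^ (dX A + A.natDegree + dX A) * (Q A).mahlerMeasure) :=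
          Real.log_le_log h9 h8
      _ = _ := by rw [Real.log_mul (by positivity) hMQ.ne', Real.log_pow]
  -- step (ii)
  have hii : (s.map fun A ↦ Real.log (Q A).mahlerMeasure).sum ≤
      (s.map fun A ↦ Real.log ‖(Q A).eval ξ‖).sum := by
    have h1 : (s.map fun A ↦ Real.log (Q A).mahlerMeasure).sum =
        Real.log (s.map Q).prod.mahlerMeasure := by
      rw [prod_mahlerMeasure_eq_mahlerMeasure_prod, Multiset.map_map, pb_log_prod]
      · rfl
      · intro A hA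
        exact (mahlerMeasure_pos_of_ne_zero (hQ0 A hA)).ne'
    have h2 : (s.map fun A ↦ Real.log ‖(Q A).eval ξ‖).sum =
        Real.log ‖(s.map Q).prod.eval ξ‖ := by
      rw [hBev]
      have h3 : ‖(s.map fun A ↦ (Q A).eval ξ).prod‖ = (s.map fun A ↦ ‖(Q A).eval ξ‖).prod := by
        have := map_multiset_prod (normHom : ℂ →*₀ ℝ) (s.map fun A ↦ (Q A).eval ξ)
        rw [Multiset.map_map] at this
        exact this
      rw [h3, pb_log_prod]
      intro A hA
      exact norm_ne_zero_iff.2 (hQev A hA)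
    rw [h1, h2]
    exact Real.log_le_log (mahlerMeasure_pos_of_ne_zero hB0) hMB
  -- step (iii)
  have hiii : ∀ A ∈ s, Real.log ‖(Q A).eval ξ‖ ≤
      (A.natDegree : ℝ) * Real.log 2 + Real.log (R A).mahlerMeasure := by
    intro A hA
    have hMR := mahlerMeasure_pos_of_ne_zero (hR0 A hA)
    have h1 := pb_coeff_le (R A) (p A).1 A.natDegree natDegree_map_le
    rw [hRc] at h1
    calc Real.log ‖(Q A).eval ξ‖ ≤ Real.log (2 ^ A.natDegree * (R A).mahlerMeasure) :=
          Real.log_le_log (norm_pos_iff.2 (hQev A hA)) h1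
      _ = _ := by rw [Real.log_mul (by positivity) hMR.ne', Real.log_pow]
  -- step (iv)
  have hRP : R s.prod = (s.map R).prod := by
    have := map_multiset_prod (mapRingHom (eval₂RingHom (Int.castRingHom ℂ) ξ)) s
    exact this
  have hRP0 : R s.prod ≠ 0 := by
    rw [hRP]
    refine Multiset.prod_ne_zero (fun h0 ↦ ?_)
    obtain ⟨A, hA, h1⟩ := Multiset.mem_map.1 h0
    exact hR0 A hA h1
  have hiv : (s.map fun A ↦ Real.log (R A).mahlerMeasure).sum ≤ Real.log (nr2 s.prod) := by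
    have h1 : (s.map fun A ↦ Real.log (R A).mahlerMeasure).sum =
        Real.log (R s.prod).mahlerMeasure := by
      rw [hRP, prod_mahlerMeasure_eq_mahlerMeasure_prod, Multiset.map_map, pb_log_prod]
      · rfl
      · intro A hA
        exact (mahlerMeasure_pos_of_ne_zero (hR0 A hA)).ne'
    rw [h1]
    refine Real.log_le_log (mahlerMeasure_pos_of_ne_zero hRP0) ?_
    refine (mahlerMeasure_le_sum_norm_coeff _).trans ?_
    rw [Polynomial.sum_def]
    refine le_trans (Finset.sum_le_sum (g := fun j ↦ nr (s.prod.coeff j)) ?_)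
      (sum_nr_coeff_le_nr2 s.prod _)
    intro j _
    have h2 : (R s.prod).coeff j = aeval ξ (s.prod.coeff j) := by
      simp only [hR, coeff_map]
      rw [pb_ring, eval_map, aeval_def]
      rfl
    rw [h2]
    have := norm_aeval_le (s.prod.coeff j) ξ 1 le_rfl hξ.le
    simpa using this
  -- step (v)
  have hv1 : ((s.map fun A ↦ ((dX A : ℕ) : ℝ)).sum) ≤ m := by
    have h1 := dX_multiset_prod s hs
    have h2 : (s.map fun A ↦ ((dX A : ℕ) : ℝ)).sum = (((s.map dX).sum : ℕ) : ℝ) := by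
      rw [Nat.cast_multiset_sum, Multiset.map_map]; rfl
    rw [h2, ← h1]
    exact_mod_cast hm
  have hv2 : ((s.map fun A ↦ ((A.natDegree : ℕ) : ℝ)).sum) ≤ a := by
    have h1 := natDegree_multiset_prod s (fun h0 ↦ hs 0 h0 rfl)
    have h2 : (s.map fun A ↦ ((A.natDegree : ℕ) : ℝ)).sum =
        (((s.map natDegree).sum : ℕ) : ℝ) := by
      rw [Nat.cast_multiset_sum, Multiset.map_map]; rfl
    rw [h2, ← h1]
    exact_mod_cast ha
  have hlog2 : 0 ≤ Real.log 2 := Real.log_nonneg (by norm_num)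
  have e1 : (s.map fun A ↦ Real.log (nr2 A)).sum ≤
      (s.map fun A ↦ (((dX A : ℕ) : ℝ) * (2 * Real.log 2) + (((A.natDegree : ℕ) : ℝ) * Real.log 2 +
        Real.log (Q A).mahlerMeasure))).sum := by
    refine Multiset.sum_map_le_sum_map _ _ (fun A hA ↦ ?_)
    have := hi A hA
    push_cast at this
    linarith
  have e2 : (s.map fun A ↦ Real.log ‖(Q A).eval ξ‖).sum ≤
      (s.map fun A ↦ ((A.natDegree : ℝ) * Real.log 2 + Real.log (R A).mahlerMeasure)).sum :=
    Multiset.sum_map_le_sum_map _ _ hiii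
  simp only [Multiset.sum_map_add, Multiset.sum_map_mul_right] at e1 e2
  nlinarith [mul_le_mul_of_nonneg_right hv1 hlog2, mul_le_mul_of_nonneg_right hv2 hlog2]

end CZ
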