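import Pool.Agent.H32.CZ.Nb
import Pool.Agent.H32.CZ.Pa
import Pool.Agent.H32.CZ.Pb

/-!
# MP_ede373, cubic points, row Pc: a good irreducible polynomial

Proof. `B = max 1 (max ‖θ1‖ ‖θ2‖)`. For `T` large apply `pigeon` with `m = a = T`, `H = 3^T`:
`P ≠ 0`, `natDegree P < T`, `dX P ≤ T`, `nr2 P ≤ T^2 3^T` (`nr2_le_of_coeff`), so
`log (nr2 P) ≤ 3 T`, and `log ‖P(θ)‖ ≤ log 8 + 2 log T + T log 3 + 2 T log B - (T^3 / 2) log 3 ≤ -T^3/4` for
`T ≥ T0`. `s = UniqueFactorizationMonoid.factors P` (or `normalizedFactors`): irreducible, `s.prod`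
associated to `P`, the unit `u` satisfies `u = ±1` (units of `ℤ[X][X]`: `Polynomial.isUnit_iff` twice and
`Int.isUnit_iff`), so `natDegree`, `dX`, `nr2` and `‖evH θ1 θ2 ·‖` of `s.prod` and of `P` agree
(or avoid units: `IsUnit` implies that it is `± 1`).
Sizes: `∑_{A ∈ s} (natDegree A + dX A) ≤ 2 T`, `∑_{A ∈ s} log (nr2 A) ≤ 3 T + 4 T log 2 ≤ 6 T` (`gelfond2`), so
`∑_{A ∈ s} mu2 A ≤ 8 T`, and every `mu2 A ≥ 0`.
Values: `∑_{A ∈ s} -log ‖A(θ)‖ = -log ‖P(θ)‖ ≥ T^3 / 4` (all values `≠ 0`, `evH_ne_zero`). An `A ∈ s` with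
`natDegree A + dX A = 0` is an integer constant, not zero, so `-log ‖A(θ)‖ ≤ 0`. Hence the sum over the
nonconstant `A ∈ s` is `≥ T^3 / 4`; if all of them had `-log ‖A(θ)‖ < (T^2/32) mu2 A` the sum would be
`< T^3/4` (or empty, `0 < T^3/4`): contradiction. Take `c = 1/32`, `C = 8`.
-/

set_option autoImplicit false

namespace CZ

open Polynomial

theorem Pc_prod_ne {s : Multiset ℤ[X][X]} (hs : ∀ A ∈ s, A ≠ 0) : s.prod ≠ 0 :=
  Multiset.prod_ne_zero fun h => hs 0 h rfl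

theorem Pc_mu (s : Multiset ℤ[X][X]) (hs : ∀ A ∈ s, A ≠ 0) :
    (s.map mu2).sum = s.prod.natDegree + dX s.prod + (s.map fun A ↦ Real.log (nr2 A)).sum := by
  induction s using Multiset.induction with
  | empty =>
    have h : dX (1 : ℤ[X][X]) = 0 := by
      refine Nat.le_zero.1 (dX_le_iff.2 fun j => ?_)
      rw [coeff_one]
      split_ifs <;> simp
    simp [h]
  | cons A s ih =>
    have hA : A ≠ 0 := hs A (Multiset.mem_cons_self A s)
    have hs' : ∀ B ∈ s, B ≠ 0 := fun B hB => hs B (Multiset.mem_cons_of_mem hB)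
    rw [Multiset.map_cons, Multiset.sum_cons, ih hs', Multiset.map_cons, Multiset.sum_cons,
      Multiset.prod_cons, natDegree_mul hA (Pc_prod_ne hs'), dX_mul hA (Pc_prod_ne hs')]
    unfold mu2
    push_cast
    ring

theorem Pc_val (θ1 θ2 : ℂ) (c : ℝ) (s : Multiset ℤ[X][X]) (hne : ∀ A ∈ s, evH θ1 θ2 A ≠ 0)
    (h : ∀ A ∈ s, -Real.log ‖evH θ1 θ2 A‖ ≤ c * mu2 A) :
    evH θ1 θ2 s.prod ≠ 0 ∧ -Real.log ‖evH θ1 θ2 s.prod‖ ≤ c * (s.map mu2).sum := by
  induction s using Multiset.induction with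
  | empty => simp
  | cons A s ih =>
    obtain ⟨i1, i2⟩ := ih (fun B hB => hne B (Multiset.mem_cons_of_mem hB))
      (fun B hB => h B (Multiset.mem_cons_of_mem hB))
    have hA := hne A (Multiset.mem_cons_self A s)
    have hA' := h A (Multiset.mem_cons_self A s)
    rw [Multiset.prod_cons, map_mul]
    refine ⟨mul_ne_zero hA i1, ?_⟩
    rw [norm_mul, Real.log_mul (norm_ne_zero_iff.2 hA) (norm_ne_zero_iff.2 i1), Multiset.map_cons,
      Multiset.sum_cons]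
    linarith

/-- units are `± 1` -/
theorem Pc_unit {u : ℤ[X][X]} (hu : IsUnit u) : u = 1 ∨ u = -1 := by
  obtain ⟨r, hr, rfl⟩ := Polynomial.isUnit_iff.1 hu
  obtain ⟨n, hn, rfl⟩ := Polynomial.isUnit_iff.1 hr
  rcases Int.isUnit_iff.1 hn with rfl | rfl
  · left
    simp
  · right
    simp

theorem Pc_const {A : ℤ[X][X]} (hA : A ≠ 0) (h : A.natDegree + dX A = 0) (θ1 θ2 : ℂ) :
    1 ≤ ‖evH θ1 θ2 A‖ := by
  have h1 : A.natDegree = 0 := by omega
  have h2 : dX A ≤ 0 := by omega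
  have h3 : A = C (A.coeff 0) := eq_C_of_natDegree_eq_zero h1
  have h4 : (A.coeff 0).natDegree = 0 := Nat.le_zero.1 (dX_le_iff.1 h2 0)
  have h5 : A.coeff 0 = C ((A.coeff 0).coeff 0) := eq_C_of_natDegree_eq_zero h4
  obtain ⟨n, hn⟩ : ∃ n : ℤ, n = (A.coeff 0).coeff 0 := ⟨_, rfl⟩
  rw [← hn] at h5
  rw [h5] at h3
  have hn0 : n ≠ 0 := by
    rintro rfl
    apply hA
    rw [h3]
    simp
  have h6 : evH θ1 θ2 A = (n : ℂ) := by
    rw [h3]
    simp [evH]
  rw [h6, Complex.norm_intCast]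
  have : (1 : ℤ) ≤ |n| := Int.one_le_abs hn0
  exact_mod_cast this

theorem Pc_poly (θ1 θ2 : ℂ) : ∃ T0 : ℕ, ∀ T : ℕ, T0 ≤ T → ∃ P : ℤ[X][X], P ≠ 0 ∧
    P.natDegree ≤ T ∧ dX P ≤ T ∧ Real.log (nr2 P) ≤ 3 * T ∧
    ‖evH θ1 θ2 P‖ ≤ Real.exp (-((T : ℝ) ^ 3 / 3)) ∧ 1 ≤ T := by
  obtain ⟨B, hBd⟩ : ∃ B : ℝ, B = max 1 (max ‖θ1‖ ‖θ2‖) := ⟨_, rfl⟩
  have hB1 : 1 ≤ B := by rw [hBd]; exact le_max_left _ _
  have hBt1 : ‖θ1‖ ≤ B := by rw [hBd]; exact (le_max_left _ _).trans (le_max_right _ _)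
  have hBt2 : ‖θ2‖ ≤ B := by rw [hBd]; exact (le_max_right _ _).trans (le_max_right _ _)
  have hb : 0 ≤ Real.log B := Real.log_nonneg hB1
  refine ⟨⌈36 + 12 * Real.log B⌉₊ + 5, fun T hT => ?_⟩
  have hT1 : 1 ≤ T := by omega
  have hTb : 36 + 12 * Real.log B ≤ (T : ℝ) :=
    (Nat.le_ceil _).trans (by exact_mod_cast (by omega : ⌈36 + 12 * Real.log B⌉₊ ≤ T))
  obtain ⟨P, hP0, hPd, hPm, hPc, hPv⟩ := pigeon θ1 θ2 B hB1 hBt1 hBt2 T T (3 ^ T) (by omega)
    (by omega) (by positivity)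
  obtain ⟨t, ht⟩ : ∃ t : ℝ, t = T := ⟨_, rfl⟩
  have ht36 : 36 ≤ t := by rw [ht]; linarith
  have ht0 : 0 < t := by linarith
  have hlog3a : 1 ≤ Real.log 3 := by
    rw [Real.le_log_iff_exp_le (by norm_num)]
    have := Real.exp_one_lt_d9
    linarith
  have hlog3b : Real.log 3 ≤ 2 := by
    have := Real.log_le_sub_one_of_pos (show (0 : ℝ) < 3 by norm_num)
    linarith
  have hlogt : Real.log t ≤ t / 2 := by
    have h1 : Real.log t = Real.log (t / 2) + Real.log 2 := by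
      rw [← Real.log_mul (by positivity) (by norm_num)]
      congr 1
      ring
    have h2 := Real.log_le_sub_one_of_pos (show 0 < t / 2 by positivity)
    have h3 := Real.log_two_lt_d9
    linarith
  have hnr : nr2 P ≤ t * t * (3 : ℝ) ^ T := by
    rw [ht]
    have := nr2_le_of_coeff (m := T) (a := T) (H := ((3 ^ T : ℕ) : ℝ)) hPd hPm hPc
    push_cast at this
    exact this
  have hlog : Real.log (t * t * (3 : ℝ) ^ T) = 2 * Real.log t + t * Real.log 3 := by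
    rw [Real.log_mul (by positivity) (by positivity), Real.log_mul (by positivity) (by positivity),
      Real.log_pow, ← ht]
    ring
  refine ⟨P, hP0, hPd.le, dX_le_iff.2 fun j => (hPm j).le, ?_, ?_, hT1⟩
  · have h1 : Real.log (nr2 P) ≤ Real.log (t * t * (3 : ℝ) ^ T) :=
      Real.log_le_log (lt_of_lt_of_le one_pos (one_le_nr2 hP0)) hnr
    rw [hlog] at h1
    rw [← ht]
    nlinarith
  · refine hPv.trans ?_
    push_cast
    rw [← ht]
    have e1 : ((3 : ℝ) ^ T) ^ (-(t * t) / 2) = Real.exp (-(t * t * t / 2 * Real.log 3)) := by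
      rw [← Real.rpow_natCast 3 T, ← ht, ← Real.rpow_mul (by norm_num),
        Real.rpow_def_of_pos (by norm_num)]
      congr 1
      ring
    have e2 : B ^ (T + T) = Real.exp (2 * t * Real.log B) := by
      rw [← Real.rpow_natCast B (T + T), Real.rpow_def_of_pos (by linarith)]
      congr 1
      push_cast
      rw [← ht]
      ring
    have e3 : 8 * (t * t * (3 : ℝ) ^ T) = Real.exp (Real.log 8 + (2 * Real.log t + t * Real.log 3)) := by
      rw [Real.exp_add, ← hlog, Real.exp_log (by norm_num), Real.exp_log (by positivity)]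
    have hlog8 : Real.log 8 ≤ 3 := by
      have h8 : (8 : ℝ) = 2 ^ 3 := by norm_num
      rw [h8, Real.log_pow]
      have h3 := Real.log_two_lt_d9
      push_cast
      linarith
    rw [e1, e2, e3, ← Real.exp_add, ← Real.exp_add]
    refine Real.exp_le_exp.2 ?_
    rw [← ht] at hTb
    have h5 : t * t * t / 2 ≤ t * t * t / 2 * Real.log 3 :=
      le_mul_of_one_le_right (by positivity) hlog3a
    have h6 : t * (36 + 12 * Real.log B) ≤ t * t := mul_le_mul_of_nonneg_left hTb ht0.le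
    have h7 : t * t ≤ t * t * t := by nlinarith [mul_pos ht0 ht0]
    have h8 : t * Real.log 3 ≤ t * 2 := mul_le_mul_of_nonneg_left hlog3b ht0.le
    have h9 : t ^ 3 = t * t * t := by ring
    rw [h9]
    nlinarith

theorem exists_irred (θ1 θ2 : ℂ) (hθ : AlgebraicIndependent ℚ ![θ1, θ2]) :
    ∃ T0 : ℕ, ∀ T : ℕ, T0 ≤ T → ∃ A : ℤ[X][X], Irreducible A ∧ 0 < A.natDegree + dX A ∧
      mu2 A ≤ 8 * T ∧ ‖evH θ1 θ2 A‖ ≤ Real.exp (-((T : ℝ) ^ 2 / 32 * mu2 A)) := by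
  obtain ⟨T0, hT0⟩ := Pc_poly θ1 θ2
  refine ⟨T0, fun T hT => ?_⟩
  obtain ⟨P, hP0, hPd, hPX, hPn, hPv, hT1⟩ := hT0 T hT
  obtain ⟨s, hs, u, hu⟩ := WfDvdMonoid.exists_factors P hP0
  have hs0 : ∀ A ∈ s, A ≠ 0 := fun A hA => (hs A hA).ne_zero
  -- transfer to `s.prod`
  have hQ : s.prod.natDegree ≤ T ∧ dX s.prod ≤ T ∧ Real.log (nr2 s.prod) ≤ 3 * T ∧
      ‖evH θ1 θ2 s.prod‖ ≤ Real.exp (-((T : ℝ) ^ 3 / 3)) := by
    rcases Pc_unit u.isUnit with h | h
    · rw [h, mul_one] at hu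
      rw [hu]
      exact ⟨hPd, hPX, hPn, hPv⟩
    · rw [h] at hu
      have hu' : s.prod = -P := by
        rw [← hu]
        ring
      rw [hu']
      refine ⟨by rwa [natDegree_neg], ?_, by rwa [nr2_neg], ?_⟩
      · rw [dX_le_iff] at hPX ⊢
        intro j
        rw [coeff_neg, natDegree_neg]
        exact hPX j
      · rw [map_neg, norm_neg]
        exact hPv
  obtain ⟨hQd, hQX, hQn, hQv⟩ := hQ
  have hT0' : (1 : ℝ) ≤ T := by exact_mod_cast hT1
  have hsum : (s.map mu2).sum ≤ 8 * T := by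
    rw [Pc_mu s hs0]
    have h1 := gelfond2 s hs0 T T hQd hQX
    have h2 : ((s.prod.natDegree : ℕ) : ℝ) ≤ T := by exact_mod_cast hQd
    have h3 : ((dX s.prod : ℕ) : ℝ) ≤ T := by exact_mod_cast hQX
    have h4 := Real.log_two_lt_d9
    nlinarith
  by_contra hcon
  push Not at hcon
  have hne : ∀ A ∈ s, evH θ1 θ2 A ≠ 0 := fun A hA => evH_ne_zero hθ (hs0 A hA)
  have hval : ∀ A ∈ s, -Real.log ‖evH θ1 θ2 A‖ ≤ (T : ℝ) ^ 2 / 32 * mu2 A := by
    intro A hA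
    rcases Nat.eq_zero_or_pos (A.natDegree + dX A) with h | h
    · have h1 := Real.log_nonneg (Pc_const (hs0 A hA) h θ1 θ2)
      have h2 : 0 ≤ (T : ℝ) ^ 2 / 32 * mu2 A := mul_nonneg (by positivity) (mu2_nonneg A)
      linarith
    · have h1 : mu2 A ≤ 8 * T := by
        refine le_trans ?_ hsum
        refine Multiset.single_le_sum ?_ _ (Multiset.mem_map_of_mem mu2 hA)
        intro x hx
        obtain ⟨A', _, rfl⟩ := Multiset.mem_map.1 hx
        exact mu2_nonneg A'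
      have h2 := hcon A (hs A hA) h h1
      have h3 := Real.log_lt_log (Real.exp_pos _) h2
      rw [Real.log_exp] at h3
      linarith
  obtain ⟨hn0, hv⟩ := Pc_val θ1 θ2 ((T : ℝ) ^ 2 / 32) s hne hval
  have h5 : Real.log ‖evH θ1 θ2 s.prod‖ ≤ -((T : ℝ) ^ 3 / 3) := by
    have := Real.log_le_log (norm_pos_iff.2 hn0) hQv
    rwa [Real.log_exp] at this
  have h6 : (T : ℝ) ^ 2 / 32 * (s.map mu2).sum ≤ (T : ℝ) ^ 2 / 32 * (8 * T) :=
    mul_le_mul_of_nonneg_left hsum (by positivity)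
  have h7 : 0 < (T : ℝ) ^ 3 := by positivity
  nlinarith

end CZ
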