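import Pool.Agent.H32.CZ.Pl
import Pool.Agent.H32.CZ.Pc

/-!
# MP_ede373, cubic points, row Pm: the plane theorem

`ApprAt_swap`: exchange the two coordinates of `x`.

`plane`: Let `C, T1` work in `plane_of_A` for both `(θ1, θ2)` and `(θ2, θ1)` (maximum;
`AlgebraicIndependent` is invariant under the swap of `Fin 2`). Given `U0` and `κ < 3/2`, we may assume
`κ > 1` (`t ≥ 1`, `t ^ κ` is monotone in `κ`). Take `T` large, `A` from `exists_irred`. If `dX A ≤ natDegree A`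
(then `natDegree A > 0`) apply `plane_of_A` to `A`; otherwise apply it to `swap A` and `(θ2, θ1)`:
`natDegree (swap A) = dX A`, `dX (swap A) = natDegree A`, `nr2 (swap A) = nr2 A`, `mu2` equal,
`evH θ2 θ1 (swap A) = evH θ1 θ2 A`, `swap A` irreducible (`Bivariate.swap` is an equivalence), and swap
back the result. In both cases: `Y ≥ T/6`, `1 ≤ t ≤ C Y^2 (log Y)^2`, `Y t ≤ C (log Y)^2 W`, so
`W ≥ Y t / (C (log Y)^2) ≥ Y / (C (log Y)^2) ≥ U0` for `T` large, and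
`t ^ κ = t t^(κ-1) ≤ t (C Y^2 (log Y)^2)^(κ-1) ≤ t Y / (C (log Y)^2) ≤ W` for `Y` large, because
`2 (κ - 1) < 1`.
-/

set_option autoImplicit false

namespace CZ

open Polynomial

theorem approxAt_swap {θ1 θ2 : ℂ} {t V : ℝ} (h : ApprAt ![θ1, θ2] t V) :
    ApprAt ![θ2, θ1] t V := by
  obtain ⟨E, iF, iN, x, S, d, h1, h2, h3, h4⟩ := h
  refine ⟨E, iF, iN, ![x 1, x 0], S, d, h1, ?_, ?_, h4⟩
  · intro i
    fin_cases i
    · exact h2 1
    · exact h2 0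
  · intro φ hφ
    obtain ⟨h5, h6⟩ := h3 φ hφ
    refine ⟨h5, ?_⟩
    intro i
    fin_cases i
    · exact h6 1
    · exact h6 0

theorem Pm_ind {θ1 θ2 : ℂ} (hθ : AlgebraicIndependent ℚ ![θ1, θ2]) :
    AlgebraicIndependent ℚ ![θ2, θ1] := by
  have h := hθ.comp (Equiv.swap (0 : Fin 2) 1) (Equiv.injective _)
  have e : (![θ1, θ2] : Fin 2 → ℂ) ∘ (Equiv.swap (0 : Fin 2) 1) = ![θ2, θ1] := by
    funext i
    fin_cases i
    · simp
    · simp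
  rwa [e] at h

theorem Pm_mu2_swap (A : ℤ[X][X]) : mu2 (Bivariate.swap A) = mu2 A := by
  unfold mu2
  rw [natDegree_swap, dX_swap, nr2_swap]
  ring

theorem Pm_ev (C U0 δ : ℝ) (hδ : δ < 1 / 2) :
    ∃ Y0 : ℝ, ∀ Y : ℝ, Y0 ≤ Y → 1 ≤ Y ∧ 1 ≤ Real.log Y ∧ C ^ 2 * Real.log Y ^ 4 ≤ Y ^ (1 - 2 * δ) ∧
      U0 * (C * Real.log Y ^ 2) ≤ Y := by
  have h1 : ∀ᶠ Y : ℝ in Filter.atTop, 1 ≤ Y := Filter.eventually_ge_atTop 1
  have h2 : ∀ᶠ Y : ℝ in Filter.atTop, 1 ≤ Real.log Y :=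
    Real.tendsto_log_atTop.eventually_ge_atTop 1
  have h3 : ∀ᶠ Y : ℝ in Filter.atTop, C ^ 2 * Real.log Y ^ 4 ≤ Y ^ (1 - 2 * δ) := by
    have ho := (isLittleO_log_rpow_rpow_atTop (4 : ℝ) (show 0 < 1 - 2 * δ by linarith)).const_mul_left (C ^ 2)
    have := ho.bound (show (0 : ℝ) < 1 by norm_num)
    filter_upwards [this, h1, h2] with Y hY h1 h2
    have e1 : Real.log Y ^ (4 : ℝ) = Real.log Y ^ 4 := by
      rw [← Real.rpow_natCast]
      norm_num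
    rw [e1, one_mul, Real.norm_eq_abs, Real.norm_eq_abs,
      abs_of_nonneg (Real.rpow_nonneg (by linarith) _)] at hY
    exact (le_abs_self _).trans hY
  have h4 : ∀ᶠ Y : ℝ in Filter.atTop, U0 * (C * Real.log Y ^ 2) ≤ Y := by
    have ho := (isLittleO_log_rpow_rpow_atTop (2 : ℝ) (show (0 : ℝ) < 1 by norm_num)).const_mul_left (U0 * C)
    have := ho.bound (show (0 : ℝ) < 1 by norm_num)
    filter_upwards [this, h1, h2] with Y hY h1 h2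
    have e1 : Real.log Y ^ (2 : ℝ) = Real.log Y ^ 2 := by
      rw [← Real.rpow_natCast]
      norm_num
    rw [e1, one_mul, Real.norm_eq_abs, Real.norm_eq_abs, Real.rpow_one,
      abs_of_nonneg (show (0 : ℝ) ≤ Y by linarith)] at hY
    calc U0 * (C * Real.log Y ^ 2) = U0 * C * Real.log Y ^ 2 := by ring
      _ ≤ _ := le_abs_self _
      _ ≤ Y := hY
  exact Filter.eventually_atTop.1 (h1.and (h2.and (h3.and h4)))

theorem Pm_fin {C U0 κ κ' Y t W : ℝ} (hC : 1 ≤ C) (hκ : κ ≤ κ') (h1κ : 1 ≤ κ') (hκ' : κ' < 3 / 2)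
    (hY1 : 1 ≤ Y) (hL : 1 ≤ Real.log Y) (hY2 : C ^ 2 * Real.log Y ^ 4 ≤ Y ^ (1 - 2 * (κ' - 1)))
    (hY3 : U0 * (C * Real.log Y ^ 2) ≤ Y) (ht : 1 ≤ t)
    (ht2 : t ≤ C * Y ^ 2 * Real.log Y ^ 2) (hYt : Y * t ≤ C * Real.log Y ^ 2 * W) :
    U0 ≤ W ∧ t ^ κ ≤ W := by
  set L := Real.log Y with hLdef
  have hD : 0 < C * L ^ 2 := by positivity
  have hD1 : 1 ≤ C * L ^ 2 := by
    have : 1 ≤ L ^ 2 := one_le_pow₀ hL
    nlinarith
  have hY0 : 0 < Y := by linarith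
  have ht0 : 0 < t := by linarith
  constructor
  · have h1 : U0 * (C * L ^ 2) ≤ W * (C * L ^ 2) := by
      calc U0 * (C * L ^ 2) ≤ Y := hY3
        _ ≤ Y * t := by nlinarith
        _ ≤ C * L ^ 2 * W := hYt
        _ = W * (C * L ^ 2) := by ring
    exact le_of_mul_le_mul_right h1 hD
  · have h1 : t ^ κ ≤ t ^ κ' := Real.rpow_le_rpow_of_exponent_le ht hκ
    refine h1.trans ?_
    have hδ0 : 0 ≤ κ' - 1 := by linarith
    have h2 : t ^ κ' = t * t ^ (κ' - 1) := by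
      rw [← Real.rpow_one_add' ht0.le (by linarith)]
      congr 1
      ring
    have h3 : t ^ (κ' - 1) ≤ (C * L ^ 2) * Y ^ (2 * (κ' - 1)) := by
      calc t ^ (κ' - 1) ≤ (C * Y ^ 2 * L ^ 2) ^ (κ' - 1) := Real.rpow_le_rpow ht0.le ht2 hδ0
        _ = ((C * L ^ 2) * Y ^ 2) ^ (κ' - 1) := by ring_nf
        _ = (C * L ^ 2) ^ (κ' - 1) * (Y ^ 2) ^ (κ' - 1) := Real.mul_rpow hD.le (by positivity)
        _ ≤ (C * L ^ 2) * (Y ^ 2) ^ (κ' - 1) := by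
          refine mul_le_mul_of_nonneg_right ?_ (by positivity)
          calc (C * L ^ 2) ^ (κ' - 1) ≤ (C * L ^ 2) ^ (1 : ℝ) :=
                Real.rpow_le_rpow_of_exponent_le hD1 (by linarith)
            _ = _ := Real.rpow_one _
        _ = (C * L ^ 2) * Y ^ (2 * (κ' - 1)) := by
          rw [← Real.rpow_natCast Y 2, ← Real.rpow_mul hY0.le]
          norm_num
    have h4 : t ^ κ' * (C * L ^ 2) ≤ W * (C * L ^ 2) := by
      calc t ^ κ' * (C * L ^ 2) = t * t ^ (κ' - 1) * (C * L ^ 2) := by rw [h2]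
        _ ≤ t * ((C * L ^ 2) * Y ^ (2 * (κ' - 1))) * (C * L ^ 2) := by gcongr
        _ = t * ((C ^ 2 * L ^ 4) * Y ^ (2 * (κ' - 1))) := by ring
        _ ≤ t * (Y ^ (1 - 2 * (κ' - 1)) * Y ^ (2 * (κ' - 1))) := by gcongr
        _ = t * Y := by
          rw [← Real.rpow_add hY0]
          congr 1
          rw [show 1 - 2 * (κ' - 1) + 2 * (κ' - 1) = 1 by ring, Real.rpow_one]
        _ = Y * t := by ring
        _ ≤ C * L ^ 2 * W := hYt
        _ = W * (C * L ^ 2) := by ring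
    exact le_of_mul_le_mul_right h4 hD

theorem plane (θ1 θ2 : ℂ) (hθ : AlgebraicIndependent ℚ ![θ1, θ2]) (κ : ℝ) (hκ : κ < 3 / 2) :
    Appr ![θ1, θ2] κ := by
  intro U0
  obtain ⟨C1, T1, hC1, hT1⟩ := plane_of_A θ1 θ2 hθ
  obtain ⟨C2, T2, hC2, hT2⟩ := plane_of_A θ2 θ1 (Pm_ind hθ)
  obtain ⟨T0, hT0⟩ := exists_irred θ1 θ2 hθ
  obtain ⟨C, hCdef⟩ : ∃ C : ℝ, C = max C1 C2 := ⟨_, rfl⟩
  have hC : 1 ≤ C := by rw [hCdef]; exact hC1.trans (le_max_left _ _)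
  have hCC1 : C1 ≤ C := by rw [hCdef]; exact le_max_left _ _
  have hCC2 : C2 ≤ C := by rw [hCdef]; exact le_max_right _ _
  obtain ⟨κ', hκ'def⟩ : ∃ κ' : ℝ, κ' = max κ 1 := ⟨_, rfl⟩
  have hκκ' : κ ≤ κ' := by rw [hκ'def]; exact le_max_left _ _
  have h1κ' : 1 ≤ κ' := by rw [hκ'def]; exact le_max_right _ _
  have hκ' : κ' < 3 / 2 := by rw [hκ'def]; exact max_lt hκ (by norm_num)
  obtain ⟨Y0, hY0⟩ := Pm_ev C U0 (κ' - 1) (by linarith)
  obtain ⟨T3, hT3⟩ := exists_nat_ge (6 * Y0)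
  obtain ⟨T, hTdef⟩ : ∃ T : ℕ, T = max (max T0 T1) (max T2 T3) := ⟨_, rfl⟩
  have hTT0 : T0 ≤ T := by rw [hTdef]; exact (le_max_left _ _).trans (le_max_left _ _)
  have hTT1 : T1 ≤ T := by rw [hTdef]; exact (le_max_right _ _).trans (le_max_left _ _)
  have hTT2 : T2 ≤ T := by rw [hTdef]; exact (le_max_left _ _).trans (le_max_right _ _)
  have hTT3 : T3 ≤ T := by rw [hTdef]; exact (le_max_right _ _).trans (le_max_right _ _)
  obtain ⟨A, hA, hApos, hAmu, hAev⟩ := hT0 T hTT0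
  -- the common output
  have key : ∃ Y t W : ℝ, (T : ℝ) ≤ 6 * Y ∧ 1 ≤ t ∧ ApprAt ![θ1, θ2] t W ∧
        (∃ C' : ℝ, 1 ≤ C' ∧ C' ≤ C ∧ t ≤ C' * Y ^ 2 * Real.log Y ^ 2 ∧ Y * t ≤ C' * Real.log Y ^ 2 * W) := by
    by_cases hd : dX A ≤ A.natDegree
    · obtain ⟨Y, t, W, h1, h2, h3, h4, h5⟩ := hT1 T hTT1 A hA (by omega) hd hAmu hAev
      exact ⟨Y, t, W, h1, h2, h3, C1, hC1, hCC1, h4, h5⟩
    · have hd' : A.natDegree < dX A := not_le.1 hd
      have hirr : Irreducible (Bivariate.swap A) := (MulEquiv.irreducible_iff _).2 hA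
      obtain ⟨Y, t, W, h1, h2, h3, h4, h5⟩ := hT2 T hTT2 (Bivariate.swap A) hirr
        (by rw [natDegree_swap]; omega) (by rw [natDegree_swap, dX_swap]; exact hd'.le)
        (by rw [Pm_mu2_swap]; exact hAmu) (by rw [evH_swap, Pm_mu2_swap]; exact hAev)
      exact ⟨Y, t, W, h1, h2, approxAt_swap h3, C2, hC2, hCC2, h4, h5⟩
  obtain ⟨Y, t, W, h1, h2, h3, C', hC'1, hC'C, h4, h5⟩ := key
  have hYY0 : Y0 ≤ Y := by
    have : ((T3 : ℕ) : ℝ) ≤ (T : ℝ) := by exact_mod_cast hTT3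
    linarith
  obtain ⟨g1, g2, g3, g4⟩ := hY0 Y hYY0
  have hL2 : 0 ≤ Real.log Y ^ 2 := by positivity
  have hW : 0 ≤ W := by
    have h6 : 0 < C' * Real.log Y ^ 2 := by positivity
    have h7 : 0 ≤ C' * Real.log Y ^ 2 * W := le_trans (by positivity) h5
    exact nonneg_of_mul_nonneg_right h7 h6
  have h4' : t ≤ C * Y ^ 2 * Real.log Y ^ 2 := h4.trans (by gcongr)
  have h5' : Y * t ≤ C * Real.log Y ^ 2 * W := h5.trans (by gcongr)
  obtain ⟨r1, r2⟩ := Pm_fin hC hκκ' h1κ' hκ' g1 g2 g3 g4 h2 h4' h5'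
  exact ⟨t, W, h2, r1, r2, h3⟩

end CZ
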