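import Pool.Agent.H32.CZ.Xd
import Pool.Agent.H32.CZ.Pm

/-!
# MP_ede373, cubic points, row Xe: tuples algebraic over a pure field of degree 2

`appr_reindex`: compose `x` with `f`.

`appr_of_alg`: we may assume `κ > 1` (`Appr P κ → Appr P κ'` for `κ' ≤ κ`, as `t ≥ 1`). By induction on `j ≤ k`: for
all `κ' < 3/2`, `Appr (Fin.append ![θ1, θ2] (fun i : Fin j ↦ P i)) κ'` (any tuple `Q : Fin (j+2) → ℂ` whose
range contains `θ1, θ2, P 0, …, P (j-1)`). Start: `plane`. Step: `appr_ext` from `κ''` with `max κ' 1 < κ'' < 3/2`: the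
next `P j` is algebraic over `ℚ(θ1, θ2) ⊆ ℚ(range Q)` (`IsAlgebraic.tower_top`-like for intermediate
fields `K ≤ L`: `isAlgebraic ... of_tower`/`IsAlgebraic.extendScalars`). Finally `appr_reindex`.
It may be easier to do the induction on lists/`Fin.snoc`: for all `m` and `Q : Fin m → ℂ` with
`θ1, θ2 ∈ range Q` and `Appr Q κ` for all `κ < 3/2`, adding one element keeps the property.
-/

set_option autoImplicit false

namespace CZ

theorem appr_reindex {k m : ℕ} (P : Fin k → ℂ) (f : Fin m → Fin k) (κ : ℝ) (hA : Appr P κ) :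
    Appr (fun i ↦ P (f i)) κ := by
  intro U0
  obtain ⟨t, V, ht, hU, hV, E, _, _, x, S, d, h1, h2, h3, h4⟩ := hA U0
  exact ⟨t, V, ht, hU, hV, E, inferInstance, inferInstance, fun i ↦ x (f i), S, d, h1,
    fun i ↦ h2 (f i), fun φ hφ ↦ ⟨(h3 φ hφ).1, fun i ↦ (h3 φ hφ).2 (f i)⟩, h4⟩

theorem appr_mono_exp {k : ℕ} (P : Fin k → ℂ) {κ κ' : ℝ} (h : κ' ≤ κ) (hA : Appr P κ) :
    Appr P κ' := by
  intro U0
  obtain ⟨t, V, ht, hU, hV, hA'⟩ := hA U0
  exact ⟨t, V, ht, hU, (Real.rpow_le_rpow_of_exponent_le ht h).trans hV, hA'⟩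

theorem isAlgebraic_of_adjoin_le {A B : Set ℂ} (h : A ⊆ B) (y : ℂ)
    (hy : IsAlgebraic (IntermediateField.adjoin ℚ A) y) :
    IsAlgebraic (IntermediateField.adjoin ℚ B) y := by
  have hle : IntermediateField.adjoin ℚ A ≤ IntermediateField.adjoin ℚ B :=
    IntermediateField.adjoin.mono ℚ A B h
  let _ : Algebra (IntermediateField.adjoin ℚ A) (IntermediateField.adjoin ℚ B) :=
    (IntermediateField.inclusion hle).toRingHom.toAlgebra
  have _ : IsScalarTower (IntermediateField.adjoin ℚ A) (IntermediateField.adjoin ℚ B) ℂ :=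
    IsScalarTower.of_algebraMap_eq (fun _ ↦ rfl)
  exact hy.tower_top _

theorem appr_of_alg_aux {k : ℕ} (θ1 θ2 : ℂ) (hθ : AlgebraicIndependent ℚ ![θ1, θ2])
    (P : Fin k → ℂ)
    (hP : ∀ i, IsAlgebraic (IntermediateField.adjoin ℚ (Set.range ![θ1, θ2])) (P i)) (j : ℕ) :
    ∃ (m : ℕ) (Q : Fin m → ℂ), Set.range ![θ1, θ2] ⊆ Set.range Q ∧
      (∀ i : Fin k, (i : ℕ) < j → P i ∈ Set.range Q) ∧ ∀ κ : ℝ, κ < 3 / 2 → Appr Q κ := by
  induction j with
  | zero => exact ⟨2, ![θ1, θ2], subset_rfl, fun i hi ↦ absurd hi (Nat.not_lt_zero _),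
      fun κ hκ ↦ plane θ1 θ2 hθ κ hκ⟩
  | succ j ih =>
    obtain ⟨m, Q, hQ, hQP, hA⟩ := ih
    by_cases hj : j < k
    · refine ⟨m + 1, (Fin.snoc Q (P ⟨j, hj⟩) : Fin (m + 1) → ℂ), ?_, ?_, ?_⟩
      · intro z hz
        obtain ⟨i, rfl⟩ := hQ hz
        exact ⟨i.castSucc, by simp⟩
      · intro i hi
        rcases Nat.lt_succ_iff_lt_or_eq.mp hi with h | h
        · obtain ⟨l, hl⟩ := hQP i h
          exact ⟨l.castSucc, by simpa using hl⟩
        · refine ⟨Fin.last m, ?_⟩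
          have : i = ⟨j, hj⟩ := Fin.ext h
          simp [this]
      · intro κ hκ
        have hmax : max κ 1 < (3 / 2 : ℝ) := max_lt hκ (by norm_num)
        obtain ⟨κ2, h1, h2⟩ := exists_between hmax
        exact appr_ext Q _ (isAlgebraic_of_adjoin_le hQ _ (hP ⟨j, hj⟩)) κ2 κ
          ((le_max_right _ _).trans_lt h1) ((le_max_left _ _).trans_lt h1) (hA κ2 h2)
    · refine ⟨m, Q, hQ, fun i hi ↦ hQP i ?_, hA⟩
      have := i.2
      omega

theorem appr_of_alg {k : ℕ} (θ1 θ2 : ℂ) (hθ : AlgebraicIndependent ℚ ![θ1, θ2]) (P : Fin k → ℂ)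
    (hP : ∀ i, IsAlgebraic (IntermediateField.adjoin ℚ (Set.range ![θ1, θ2])) (P i))
    (κ : ℝ) (hκ : κ < 3 / 2) : Appr P κ := by
  obtain ⟨m, Q, -, hQP, hA⟩ := appr_of_alg_aux θ1 θ2 hθ P hP k
  choose f hf using fun i : Fin k ↦ hQP i i.2
  have h := appr_reindex Q f κ (hA κ hκ)
  have hPQ : (fun i ↦ Q (f i)) = P := funext hf
  rwa [hPQ] at h

end CZ
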