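import Pool.Agent.H32.CZ.Cf
import Pool.Agent.H32.CZ.Xe

/-!
# MP_ede373, cubic points: the criterion (Interface 1 of `Pool/Agent/H22/CZ/If.lean`)
-/

set_option autoImplicit false

namespace CZ

open MvPolynomial
open H32.T3 (nrm)

theorem criterion {k : ℕ} (P : Fin k → ℂ)
    (hyp : ∃ M0 : ℕ, ∀ M : ℕ, M0 ≤ M → ∃ (Λ : Type) (_ : Fintype Λ) (R : Type)
      (W : R → Λ → MvPolynomial (Fin k) ℤ),
      0 < Fintype.card Λ ∧ Real.log (Fintype.card Λ) ≤ M ∧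
      (∀ s l, ((W s l).totalDegree : ℝ) ≤ (M : ℝ) ^ 1410 ∧
        nrm (W s l) ≤ Real.exp ((M : ℝ) ^ 1410)) ∧
      (∀ c : Λ → ℂ, (∀ l, ‖c l‖ ≤ 1) → (∃ l, ‖c l‖ = 1) →
        ∃ s, Real.exp (-(M : ℝ) ^ 4430) ≤ ‖∑ l, c l * aeval P (W s l)‖) ∧
      (∃ V : Submodule ℂ (Λ → ℂ), Fintype.card Λ ≤ 2 * Module.finrank ℂ V ∧
        ∀ c ∈ V, (∀ l, ‖c l‖ ≤ 1) → ∀ s,
          ‖∑ l, c l * aeval P (W s l)‖ ≤ Real.exp (-(M : ℝ) ^ 4398))) :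
    ∃ f : Fin 3 → Fin k, AlgebraicIndependent ℚ (fun i ↦ P (f i)) := by
  by_contra hcon
  obtain ⟨θ1, θ2, hθ, halg⟩ := exists_basis P hcon
  exact not_appr P hyp (appr_of_alg θ1 θ2 hθ P halg (149 / 100) (by norm_num))

end CZ
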