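import Pool.Agent.H32.CZ.Qa

/-!
# MP_ede373, cubic points, row Qd: the jets of `Φ_l` are values of the polynomials `jP`

Notation: `a_j = c.A1 nu j zb + c.A2 nu j r m`, so `c.u j ζ (mζ) 0 = a_j ζ` (`CData.u`). Let `ρ > 0` be such
that `‖a_j ζ‖ < ε` for `‖ζ‖ < ρ` and all `j`; `U` = ball of radius `ρ`. Functions `f : Vr → ℂ → ℂ`:
`inl (0,j) ↦ X (a_j ζ)`, `inl (1,j) ↦ X1 (a_j ζ)`, `inl (2,j) ↦ Y (a_j ζ)`, `inr 0 ↦ lam ζ`, the others constant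
with the values of `cst` (`inr 1 ↦ z`, `inr 2 ↦ zb`, `inr 3 ↦ r`, `inr 4 ↦ 1/N`, `inr 5 ↦ h`, `inr 6 ↦ kap`,
`inr 7 ↦ 2πi/lam^2`).
(1) `aeval (f · ζ) (alP m j) = a_j`, and `HasDerivAt (f i) (lam * aeval (f · ζ) (dvP m i)) ζ` for `ζ ∈ U`: chain rule
with `dX, dX1, dY`.
(2) Multiplier `M(ζ) = ∏_j A(a_j ζ)^(nnE j) * exp(π i q ζ^2)`, `q = ∑_{b=0,1} n_b (be_b(zb) A1 + m^2 be_b(r) A2)`, `n_0 = l 5`,
`n_1 = l 6`. `deriv A s = lam A(s) Y(s)` for `‖s‖ < ε` (`hA`, `hmu`), so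
`M' = M (∑_j nnE_j a_j lam Y(a_j ζ) + 2 π i q ζ) = lam M * aeval (f · ζ) (gP c D m l)` since
`2 π i q ζ = lam * (2πi/lam^2) (lam ζ) q`, and `aeval (beP c b (kv 2)) = be_b(zb)` (`be = N f' x^b`).
(3) For `ζ ∈ U`: `Phi c b D l (ζ, m ζ) = M(ζ) * aeval (f · ζ) (polP c m l)`. Blocks: `B(u_j)^{l_j} (A(u_j)^2)^{D - l_j} =
A(u_j)^{2D} X^{l_j}` (`hB`); `ZZ x v = W (∑_j cc_j(x) Y(u_j) + mu 2πi f'(x) v)` (`mu * deriv A (u_j) = A(u_j) Y(u_j)`), and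
`mu * 2πi v = (2πi/lam^2) (lam v)` with `v = ζ` resp. `m ζ`; so `ZZ^{l} W^{D-l} = W^D (..)^l`, `W = A(u_0)A(u_1)A(u_2)`;
`EE^{n} TT^{D-n} = ∏_j A(u_j)^{hp n + hm (D-n)} exp(n π i (..) ζ^2)`. No division is needed.
(4) `J s m Φ = iteratedDeriv s (ζ ↦ Φ(ζ, mζ)) 0`; the two functions of `ζ` agree on `U`, so their iterated
derivatives at `0` agree (`Filter.EventuallyEq.iteratedDeriv_eq`), and `iteratedDeriv_TD` at `u = 0`:
`M(0) = 1` (`A 0 = 1`), `f · 0 = cst` (`X 0 = ep`, `X1 0 = 0`, `Y 0 = 0`, `lam 0 = 0`).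
You may split (2), (3) into lemmas.
-/

set_option autoImplicit false

namespace CZ

open MvPolynomial
open H32.T3 (nrm)

/-- The coefficient of `u_j` in the direction `(1, m)`. -/
noncomputable def Qd_a (c : CData) (m : ℕ) (j : Fin 6) : ℂ :=
  c.A1 * nu j c.zb + c.A2 * nu j c.r * m

/-- The values of the variables. -/
noncomputable def Qd_f (c : CData) (lam h kap : ℂ) (X X1 Y : ℂ → ℂ) (m : ℕ) (ζ : ℂ) : Vr → ℂ
  | Sum.inl (0, j) => X (Qd_a c m j * ζ)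
  | Sum.inl (1, j) => X1 (Qd_a c m j * ζ)
  | Sum.inl (2, j) => Y (Qd_a c m j * ζ)
  | Sum.inr i => (![lam * ζ, c.z, c.zb, c.r, 1 / c.N, h, kap,
      2 * Real.pi * Complex.I / lam ^ 2] : Fin 8 → ℂ) i

theorem Qd_u (c : CData) (m : ℕ) (j : Fin 6) (ζ : ℂ) :
    c.u j ζ ((m : ℂ) * ζ) 0 = Qd_a c m j * ζ := by
  rw [CData.u, Qd_a]
  ring

theorem Qd_nu (f : Vr → ℂ) (j : Fin 6) (x : MvPolynomial Vr ℤ) :
    aeval f (nuP j x) = nu j (aeval f x) := by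
  fin_cases j <;> simp [nuP, nu]

theorem Qd_kv (f : Vr → ℂ) (i : Fin 8) : aeval f (kv i) = f (Sum.inr i) := by
  rw [kv, aeval_X]

theorem Qd_xv (f : Vr → ℂ) (a : Fin 3) (j : Fin 6) : aeval f (xv a j) = f (Sum.inl (a, j)) := by
  rw [xv, aeval_X]

theorem Qd_C (f : Vr → ℂ) (a : ℤ) : aeval f (C a : MvPolynomial Vr ℤ) = (a : ℂ) := by
  rw [aeval_C]
  simp

theorem Qd_fp (c : CData) (f : Vr → ℂ) (h4 : f (Sum.inr 4) = 1 / c.N) (x : MvPolynomial Vr ℤ) :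
    aeval f (fpP c x) = c.fp (aeval f x) := by
  rw [fpP, CData.fp]
  simp only [map_add, map_mul, map_pow, Qd_C, Qd_kv, h4]
  push_cast
  ring

theorem Qd_cc (c : CData) (f : Vr → ℂ) (h4 : f (Sum.inr 4) = 1 / c.N) (j : Fin 3)
    (x : MvPolynomial Vr ℤ) : aeval f (ccP c j x) = c.cc j (aeval f x) := by
  fin_cases j
  · simp only [ccP, CData.cc, Fin.zero_eta, Matrix.cons_val_zero, map_add, map_mul, map_pow, Qd_C,
      Qd_kv, h4]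
    ring
  · simp only [ccP, CData.cc, Fin.mk_one, Matrix.cons_val_one, Matrix.cons_val_zero, map_add,
      map_mul, Qd_C, Qd_kv, h4]
    ring
  · simp [ccP, CData.cc]

theorem Qd_be (c : CData) (f : Vr → ℂ) (l : Fin 2) (x : MvPolynomial Vr ℤ) :
    aeval f (beP c l x) = c.be l (aeval f x) := by
  have hN : (c.N : ℂ) ≠ 0 := Nat.cast_ne_zero.2 c.hN.ne'
  rw [beP, CData.be, CData.fp]
  simp only [map_add, map_mul, map_pow, Qd_C]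
  push_cast
  field_simp

section

variable (c : CData) (b : BaseFn c.z) {lam h kap ep : ℂ} {ε : ℝ} {X X1 Y : ℂ → ℂ}

theorem Qd_al (m : ℕ) (j : Fin 6) (ζ : ℂ) :
    aeval (Qd_f c lam h kap X X1 Y m ζ) (alP m j) = Qd_a c m j := by
  rw [alP, Qd_a, CData.A1, CData.A2]
  simp only [map_add, map_sub, map_mul, Qd_nu, Qd_kv, Qd_C]
  have h1 : Qd_f c lam h kap X X1 Y m ζ (Sum.inr 1) = c.z := rfl
  have h2 : Qd_f c lam h kap X X1 Y m ζ (Sum.inr 2) = c.zb := rfl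
  have h3 : Qd_f c lam h kap X X1 Y m ζ (Sum.inr 3) = c.r := rfl
  rw [h1, h2, h3]
  push_cast
  ring

variable {b}

theorem Qd_dA (hs : BaseSys b lam h kap ep ε X X1 Y) (s : ℂ) (h1 : ‖s‖ < ε) :
    HasDerivAt b.A (lam * (b.A s * Y s)) s := by
  have h2 := (b.dA s).hasDerivAt
  have h3 := hs.hA s h1
  rw [hs.hmu] at h3
  have h4 : deriv b.A s = lam * (b.A s * Y s) := by
    rw [← h3, mul_inv_cancel_left₀ hs.hlam]
  rwa [h4] at h2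

theorem Qd_hf (hs : BaseSys b lam h kap ep ε X X1 Y) (m : ℕ) (ζ : ℂ)
    (hζ : ∀ j, ‖Qd_a c m j * ζ‖ < ε) (i : Vr) :
    HasDerivAt (fun v ↦ Qd_f c lam h kap X X1 Y m v i)
      (lam * aeval (fun j ↦ Qd_f c lam h kap X X1 Y m ζ j) (dvP m i)) ζ := by
  have hlin : ∀ a : ℂ, HasDerivAt (fun v : ℂ ↦ a * v) a ζ := by
    intro a
    simpa using (hasDerivAt_id ζ).const_mul a
  rcases i with ⟨a, j⟩ | i
  · fin_cases a
    · have h1 := (hs.dX _ (hζ j)).comp ζ (hlin (Qd_a c m j))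
      refine h1.congr_deriv ?_
      simp only [dvP, map_mul, Qd_xv, Qd_al]
      simp only [Qd_f]
      ring
    · have h1 := (hs.dX1 _ (hζ j)).comp ζ (hlin (Qd_a c m j))
      refine h1.congr_deriv ?_
      simp only [dvP, map_mul, map_sub, map_pow, Qd_xv, Qd_kv, Qd_C, Qd_al]
      have h2 : Qd_f c lam h kap X X1 Y m ζ (Sum.inr 5) = h := rfl
      simp only [h2]
      simp only [Qd_f]
      push_cast
      ring
    · have h1 := (hs.dY _ (hζ j)).comp ζ (hlin (Qd_a c m j))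
      refine h1.congr_deriv ?_
      simp only [dvP, map_mul, map_sub, map_neg, Qd_xv, Qd_kv, Qd_al]
      have h2 : Qd_f c lam h kap X X1 Y m ζ (Sum.inr 6) = kap := rfl
      simp only [h2]
      simp only [Qd_f]
      ring
  · fin_cases i
    · have h1 := hlin lam
      refine h1.congr_deriv ?_
      simp [dvP]
    all_goals
      refine (hasDerivAt_const ζ _).congr_deriv ?_
      simp [dvP]

theorem Qd_prod {ι : Type*} (s : Finset ι) (g : ι → ℂ → ℂ) (e : ι → ℂ) (u : ℂ)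
    (hg : ∀ j ∈ s, HasDerivAt (g j) (g j u * e j) u) :
    HasDerivAt (fun v ↦ ∏ j ∈ s, g j v) ((∏ j ∈ s, g j u) * ∑ j ∈ s, e j) u := by
  classical
  induction s using Finset.induction_on with
  | empty => simpa using hasDerivAt_const u (1 : ℂ)
  | insert a s ha ih =>
    have h1 := ih fun j hj ↦ hg j (Finset.mem_insert_of_mem hj)
    have h2 := (hg a (Finset.mem_insert_self a s)).mul h1
    have h3 : (fun v ↦ ∏ j ∈ insert a s, g j v) = fun v ↦ g a v * ∏ j ∈ s, g j v := by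
      funext v
      rw [Finset.prod_insert ha]
    rw [h3, Finset.prod_insert ha, Finset.sum_insert ha]
    refine h2.congr_deriv ?_
    ring

/-- The quadratic coefficient in the exponent. -/
noncomputable def Qd_q (c : CData) (m : ℕ) {D : ℕ} (l : Fin 7 → Fin (D + 1)) : ℂ :=
  ((l 5 : ℕ) : ℂ) * (c.be 0 c.zb * c.A1 + (m : ℂ) ^ 2 * (c.be 0 c.r * c.A2)) +
    ((l 6 : ℕ) : ℂ) * (c.be 1 c.zb * c.A1 + (m : ℂ) ^ 2 * (c.be 1 c.r * c.A2))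

/-- The multiplier. -/
noncomputable def Qd_M (c : CData) (b : BaseFn c.z) (m : ℕ) {D : ℕ} (l : Fin 7 → Fin (D + 1))
    (ζ : ℂ) : ℂ :=
  (∏ j : Fin 6, b.A (Qd_a c m j * ζ) ^ nnE c D l j) *
    Complex.exp (Real.pi * Complex.I * (Qd_q c m l * ζ ^ 2))

theorem Qd_hm (hs : BaseSys b lam h kap ep ε X X1 Y) (m : ℕ) {D : ℕ} (l : Fin 7 → Fin (D + 1))
    (ζ : ℂ) (hζ : ∀ j, ‖Qd_a c m j * ζ‖ < ε) :
    HasDerivAt (Qd_M c b m l)
      (lam * (Qd_M c b m l ζ * aeval (fun j ↦ Qd_f c lam h kap X X1 Y m ζ j) (gP c D m l))) ζ := by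
  have hlin : ∀ a : ℂ, HasDerivAt (fun v : ℂ ↦ a * v) a ζ := by
    intro a
    simpa using (hasDerivAt_id ζ).const_mul a
  have h1 : HasDerivAt (fun v ↦ ∏ j : Fin 6, b.A (Qd_a c m j * v) ^ nnE c D l j)
      ((∏ j : Fin 6, b.A (Qd_a c m j * ζ) ^ nnE c D l j) *
        ∑ j : Fin 6, (nnE c D l j : ℂ) * (lam * (Qd_a c m j * Y (Qd_a c m j * ζ)))) ζ := by
    refine Qd_prod Finset.univ (fun j v ↦ b.A (Qd_a c m j * v) ^ nnE c D l j) _ ζ fun j _ ↦ ?_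
    have h2 := ((Qd_dA c hs _ (hζ j)).comp ζ (hlin (Qd_a c m j))).pow (nnE c D l j)
    refine h2.congr_deriv ?_
    rcases Nat.eq_zero_or_pos (nnE c D l j) with h0 | h0
    · rw [h0]
      simp
    · obtain ⟨n, hn⟩ := Nat.exists_eq_succ_of_ne_zero h0.ne'
      rw [hn]
      simp only [Function.comp_apply, Nat.succ_eq_add_one, Nat.add_sub_cancel]
      push_cast
      ring
  have h2 : HasDerivAt (fun v : ℂ ↦ Complex.exp (Real.pi * Complex.I * (Qd_q c m l * v ^ 2)))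
      (Complex.exp (Real.pi * Complex.I * (Qd_q c m l * ζ ^ 2)) *
        (2 * Real.pi * Complex.I * Qd_q c m l * ζ)) ζ := by
    have h3 : HasDerivAt (fun v : ℂ ↦ Real.pi * Complex.I * (Qd_q c m l * v ^ 2))
        (2 * Real.pi * Complex.I * Qd_q c m l * ζ) ζ := by
      have h4 := (((hasDerivAt_id ζ).pow 2).const_mul (Qd_q c m l)).const_mul
        ((Real.pi : ℂ) * Complex.I)
      refine h4.congr_deriv ?_
      simp
      ring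
    exact h3.cexp
  have h3 := h1.mul h2
  refine h3.congr_deriv ?_
  have hg : aeval (fun j ↦ Qd_f c lam h kap X X1 Y m ζ j) (gP c D m l) =
      (∑ j : Fin 6, (nnE c D l j : ℂ) * (Qd_a c m j * Y (Qd_a c m j * ζ))) +
      2 * Real.pi * Complex.I / lam ^ 2 * (lam * ζ) * Qd_q c m l := by
    rw [gP, Qd_q, CData.A1, CData.A2]
    simp only [map_add, map_sub, map_mul, map_sum, map_pow, Qd_al, Qd_be, Qd_kv, Qd_C, Qd_xv]
    have h0 : Qd_f c lam h kap X X1 Y m ζ (Sum.inr 0) = lam * ζ := rfl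
    have h1 : Qd_f c lam h kap X X1 Y m ζ (Sum.inr 1) = c.z := rfl
    have h2 : Qd_f c lam h kap X X1 Y m ζ (Sum.inr 2) = c.zb := rfl
    have h3 : Qd_f c lam h kap X X1 Y m ζ (Sum.inr 3) = c.r := rfl
    have h7 : Qd_f c lam h kap X X1 Y m ζ (Sum.inr 7) = 2 * Real.pi * Complex.I / lam ^ 2 := rfl
    rw [h0, h1, h2, h3, h7]
    push_cast
    rfl
  have hsum : ∑ j : Fin 6, (nnE c D l j : ℂ) * (lam * (Qd_a c m j * Y (Qd_a c m j * ζ))) =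
      lam * ∑ j : Fin 6, (nnE c D l j : ℂ) * (Qd_a c m j * Y (Qd_a c m j * ζ)) := by
    rw [Finset.mul_sum]
    exact Finset.sum_congr rfl fun j _ ↦ by ring
  rw [hg, hsum, Qd_M]
  have hl := hs.hlam
  have h5 : lam * (2 * Real.pi * Complex.I / lam ^ 2 * (lam * ζ) * Qd_q c m l) =
      2 * Real.pi * Complex.I * Qd_q c m l * ζ := by
    field_simp
  linear_combination (-(∏ j : Fin 6, b.A (Qd_a c m j * ζ) ^ nnE c D l j) *
    Complex.exp (Real.pi * Complex.I * (Qd_q c m l * ζ ^ 2))) * h5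

/-- Blocks with a quotient. -/
theorem Qd_block (N W x : ℂ) (D n : ℕ) (hn : n ≤ D) (hN : N = W * x) :
    N ^ n * W ^ (D - n) = W ^ D * x ^ n := by
  rw [hN, mul_pow]
  calc W ^ n * x ^ n * W ^ (D - n) = W ^ (n + (D - n)) * x ^ n := by
        rw [pow_add]
        ring
    _ = _ := by rw [Nat.add_sub_cancel' hn]

theorem Qd_ZZ (hs : BaseSys b lam h kap ep ε X X1 Y) (x v w t y : ℂ)
    (hu : ∀ j, ‖c.u j w t y‖ < ε) :
    ZZ c b x v w t y = WW c b w t y *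
      ((∑ j : Fin 3, c.cc j x * Y (c.u (i3 j) w t y)) + lam⁻¹ * (2 * Real.pi * Complex.I * c.fp x * v)) := by
  classical
  rw [ZZ, mul_add, Finset.mul_sum, mul_add, Finset.mul_sum]
  congr 1
  · refine Finset.sum_congr rfl fun j _ ↦ ?_
    have h1 := hs.hA _ (hu (i3 j))
    have h2 : WW c b w t y = b.A (c.u (i3 j) w t y) *
        ∏ i ∈ Finset.univ.erase j, b.A (c.u (i3 i) w t y) := by
      rw [WW, Finset.mul_prod_erase Finset.univ (fun i ↦ b.A (c.u (i3 i) w t y))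
        (Finset.mem_univ j)]
    rw [h2]
    linear_combination (c.cc j x * ∏ i ∈ Finset.univ.erase j, b.A (c.u (i3 i) w t y)) * h1
  · rw [hs.hmu]
    ring

theorem Qd_ET (m : ℕ) (D : ℕ) (n : ℕ) (q : Fin 2) (ζ : ℂ) :
    EE c b q ζ ((m : ℂ) * ζ) 0 ^ n * TT c b q ζ ((m : ℂ) * ζ) 0 ^ (D - n) =
      (∏ j : Fin 6, b.A (Qd_a c m j * ζ) ^ (c.hp q j * n + c.hm q j * (D - n))) *
        Complex.exp (Real.pi * Complex.I * ((n : ℂ) *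
          (c.be q c.zb * c.A1 + (m : ℂ) ^ 2 * (c.be q c.r * c.A2)) * ζ ^ 2)) := by
  have h1 : Complex.exp (Real.pi * Complex.I * (c.be q c.zb * c.A1 * ζ ^ 2 +
      c.be q c.r * c.A2 * ((m : ℂ) * ζ) ^ 2)) ^ n = Complex.exp (Real.pi * Complex.I * ((n : ℂ) *
          (c.be q c.zb * c.A1 + (m : ℂ) ^ 2 * (c.be q c.r * c.A2)) * ζ ^ 2)) := by
    rw [← Complex.exp_nat_mul]
    congr 1
    ring
  rw [EE, TT, mul_pow, h1]
  simp only [Qd_u]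
  have h2 : ∏ j : Fin 6, b.A (Qd_a c m j * ζ) ^ (c.hp q j * n + c.hm q j * (D - n)) =
      (∏ j : Fin 6, b.A (Qd_a c m j * ζ) ^ c.hp q j) ^ n *
      (∏ j : Fin 6, b.A (Qd_a c m j * ζ) ^ c.hm q j) ^ (D - n) := by
    rw [← Finset.prod_pow, ← Finset.prod_pow, ← Finset.prod_mul_distrib]
    refine Finset.prod_congr rfl fun j _ ↦ ?_
    rw [pow_add, pow_mul, pow_mul]
  rw [h2]
  ring

theorem Qd_Phi (hs : BaseSys b lam h kap ep ε X X1 Y) (m : ℕ) {D : ℕ} (l : Fin 7 → Fin (D + 1))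
    (ζ : ℂ) (hζ : ∀ j, ‖Qd_a c m j * ζ‖ < ε) :
    Phi c b D l (ζ, (m : ℂ) * ζ) = Qd_M c b m l ζ *
      aeval (fun j ↦ Qd_f c lam h kap X X1 Y m ζ j) (polP c m l) := by
  have hu : ∀ j, ‖c.u j ζ ((m : ℂ) * ζ) 0‖ < ε := fun j ↦ by
    rw [Qd_u]
    exact hζ j
  have hle : ∀ a, (l a : ℕ) ≤ D := fun a ↦ Nat.lt_succ_iff.1 (l a).2
  have h4 : Qd_f c lam h kap X X1 Y m ζ (Sum.inr 4) = 1 / c.N := rfl
  obtain ⟨W, hW⟩ : ∃ W, W = WW c b ζ ((m : ℂ) * ζ) 0 := ⟨_, rfl⟩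
  have hWp : W = b.A (Qd_a c m 0 * ζ) * b.A (Qd_a c m 1 * ζ) * b.A (Qd_a c m 2 * ζ) := by
    rw [hW, WW, Fin.prod_univ_three, Qd_u, Qd_u, Qd_u]
    rfl
  -- the blocks
  have hB : ∀ j : Fin 6, ∀ n : ℕ, n ≤ D → b.B (c.u j ζ ((m : ℂ) * ζ) 0) ^ n *
      (b.A (c.u j ζ ((m : ℂ) * ζ) 0) ^ 2) ^ (D - n) =
      (b.A (Qd_a c m j * ζ) ^ 2) ^ D * X (Qd_a c m j * ζ) ^ n := by
    intro j n hn
    rw [Qd_u]
    exact Qd_block _ _ _ D n hn (hs.hB _ (hζ j))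
  have hZ1 := Qd_ZZ c hs c.zb ζ ζ ((m : ℂ) * ζ) 0 hu
  have hZ2 := Qd_ZZ c hs c.r ((m : ℂ) * ζ) ζ ((m : ℂ) * ζ) 0 hu
  have hz1 : aeval (fun j ↦ Qd_f c lam h kap X X1 Y m ζ j) (zP1 c) =
      (∑ j : Fin 3, c.cc j c.zb * Y (c.u (i3 j) ζ ((m : ℂ) * ζ) 0)) +
        lam⁻¹ * (2 * Real.pi * Complex.I * c.fp c.zb * ζ) := by
    rw [zP1]
    simp only [map_add, map_mul, map_sum, Qd_cc c _ h4, Qd_fp c _ h4, Qd_kv, Qd_xv]
    have h0 : Qd_f c lam h kap X X1 Y m ζ (Sum.inr 0) = lam * ζ := rfl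
    have h2 : Qd_f c lam h kap X X1 Y m ζ (Sum.inr 2) = c.zb := rfl
    have h7 : Qd_f c lam h kap X X1 Y m ζ (Sum.inr 7) = 2 * Real.pi * Complex.I / lam ^ 2 := rfl
    have h5 : ∀ j : Fin 3, Qd_f c lam h kap X X1 Y m ζ (Sum.inl (2, i3 j)) =
      Y (c.u (i3 j) ζ ((m : ℂ) * ζ) 0) := fun j ↦ by rw [Qd_u]; rfl
    rw [h0, h2, h7]
    simp only [h5]
    congr 1
    have hl := hs.hlam
    field_simp
  have hz2 : aeval (fun j ↦ Qd_f c lam h kap X X1 Y m ζ j) (zP2 c m) =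
      (∑ j : Fin 3, c.cc j c.r * Y (c.u (i3 j) ζ ((m : ℂ) * ζ) 0)) +
        lam⁻¹ * (2 * Real.pi * Complex.I * c.fp c.r * ((m : ℂ) * ζ)) := by
    rw [zP2]
    simp only [map_add, map_mul, map_sum, Qd_cc c _ h4, Qd_fp c _ h4, Qd_kv, Qd_xv, Qd_C]
    have h0 : Qd_f c lam h kap X X1 Y m ζ (Sum.inr 0) = lam * ζ := rfl
    have h3 : Qd_f c lam h kap X X1 Y m ζ (Sum.inr 3) = c.r := rfl
    have h7 : Qd_f c lam h kap X X1 Y m ζ (Sum.inr 7) = 2 * Real.pi * Complex.I / lam ^ 2 := rfl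
    have h5 : ∀ j : Fin 3, Qd_f c lam h kap X X1 Y m ζ (Sum.inl (2, i3 j)) =
      Y (c.u (i3 j) ζ ((m : ℂ) * ζ) 0) := fun j ↦ by rw [Qd_u]; rfl
    rw [h0, h3, h7]
    simp only [h5]
    congr 1
    have hl := hs.hlam
    push_cast
    field_simp
  rw [← hz1, ← hW] at hZ1
  rw [← hz2, ← hW] at hZ2
  have e3 := Qd_block _ _ _ D (l 3) (hle 3) hZ1
  have e4 := Qd_block _ _ _ D (l 4) (hle 4) hZ2
  have e5 := Qd_ET c (b := b) m D (l 5) 0 ζ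
  have e6 := Qd_ET c (b := b) m D (l 6) 1 ζ
  have e0 := hB 0 (l 0) (hle 0)
  have e1 := hB 1 (l 1) (hle 1)
  have e2 := hB 2 (l 2) (hle 2)
  have hPhi : Phi c b D l (ζ, (m : ℂ) * ζ) =
      (b.B (c.u 0 ζ ((m : ℂ) * ζ) 0) ^ (l 0 : ℕ) * (b.A (c.u 0 ζ ((m : ℂ) * ζ) 0) ^ 2) ^ (D - (l 0 : ℕ))) *
      (b.B (c.u 1 ζ ((m : ℂ) * ζ) 0) ^ (l 1 : ℕ) * (b.A (c.u 1 ζ ((m : ℂ) * ζ) 0) ^ 2) ^ (D - (l 1 : ℕ))) *
      (b.B (c.u 2 ζ ((m : ℂ) * ζ) 0) ^ (l 2 : ℕ) * (b.A (c.u 2 ζ ((m : ℂ) * ζ) 0) ^ 2) ^ (D - (l 2 : ℕ))) *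
      (ZZ c b c.zb ζ ζ ((m : ℂ) * ζ) 0 ^ (l 3 : ℕ) * W ^ (D - (l 3 : ℕ))) *
      (ZZ c b c.r ((m : ℂ) * ζ) ζ ((m : ℂ) * ζ) 0 ^ (l 4 : ℕ) * W ^ (D - (l 4 : ℕ))) *
      (EE c b 0 ζ ((m : ℂ) * ζ) 0 ^ (l 5 : ℕ) * TT c b 0 ζ ((m : ℂ) * ζ) 0 ^ (D - (l 5 : ℕ))) *
      (EE c b 1 ζ ((m : ℂ) * ζ) 0 ^ (l 6 : ℕ) * TT c b 1 ζ ((m : ℂ) * ζ) 0 ^ (D - (l 6 : ℕ))) := by
    rw [Phi, Fin.prod_univ_seven, hW]
    rfl
  rw [hPhi, e0, e1, e2, e3, e4, e5, e6]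
  have hpol : aeval (fun j ↦ Qd_f c lam h kap X X1 Y m ζ j) (polP c m l) =
      X (Qd_a c m 0 * ζ) ^ (l 0 : ℕ) * X (Qd_a c m 1 * ζ) ^ (l 1 : ℕ) *
      X (Qd_a c m 2 * ζ) ^ (l 2 : ℕ) *
      aeval (fun j ↦ Qd_f c lam h kap X X1 Y m ζ j) (zP1 c) ^ (l 3 : ℕ) *
      aeval (fun j ↦ Qd_f c lam h kap X X1 Y m ζ j) (zP2 c m) ^ (l 4 : ℕ) := by
    rw [polP]
    simp only [map_mul, map_pow, Qd_xv]
    rfl
  have hexp : Complex.exp (Real.pi * Complex.I * (Qd_q c m l * ζ ^ 2)) =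
      Complex.exp (Real.pi * Complex.I * (((l 5 : ℕ) : ℂ) *
          (c.be 0 c.zb * c.A1 + (m : ℂ) ^ 2 * (c.be 0 c.r * c.A2)) * ζ ^ 2)) *
      Complex.exp (Real.pi * Complex.I * (((l 6 : ℕ) : ℂ) *
          (c.be 1 c.zb * c.A1 + (m : ℂ) ^ 2 * (c.be 1 c.r * c.A2)) * ζ ^ 2)) := by
    rw [← Complex.exp_add, Qd_q]
    congr 1
    ring
  have hA : ∏ j : Fin 6, b.A (Qd_a c m j * ζ) ^ nnE c D l j =
      (W ^ 4) ^ D *
      (∏ j : Fin 6, b.A (Qd_a c m j * ζ) ^ (c.hp 0 j * (l 5 : ℕ) + c.hm 0 j * (D - (l 5 : ℕ)))) *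
      (∏ j : Fin 6, b.A (Qd_a c m j * ζ) ^ (c.hp 1 j * (l 6 : ℕ) + c.hm 1 j * (D - (l 6 : ℕ)))) := by
    have h8 : (W ^ 4) ^ D = ∏ j : Fin 6, b.A (Qd_a c m j * ζ) ^ (if (j : ℕ) < 3 then 4 * D else 0) := by
      rw [Fin.prod_univ_six, hWp]
      simp only [Fin.isValue, Fin.val_zero, Fin.val_one]
      norm_num
      rw [← mul_pow, ← mul_pow, ← pow_mul]
    rw [h8, ← Finset.prod_mul_distrib, ← Finset.prod_mul_distrib]
    refine Finset.prod_congr rfl fun j _ ↦ ?_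
    rw [nnE, pow_add, pow_add]
  rw [hpol, Qd_M, hexp, hA]
  have hWD : (b.A (Qd_a c m 0 * ζ) ^ 2) ^ D * (b.A (Qd_a c m 1 * ζ) ^ 2) ^ D *
      (b.A (Qd_a c m 2 * ζ) ^ 2) ^ D * W ^ D * W ^ D = (W ^ 4) ^ D := by
    rw [← mul_pow, ← mul_pow, ← mul_pow, ← mul_pow]
    congr 1
    rw [hWp]
    ring
  rw [← hWD]
  ring

end

theorem J_Phi (c : CData) (b : BaseFn c.z) {lam h kap ep : ℂ} {ε : ℝ} {X X1 Y : ℂ → ℂ}
    (hs : BaseSys b lam h kap ep ε X X1 Y) (D s m : ℕ) (l : Fin 7 → Fin (D + 1)) :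
    J s m (Phi c b D l) = lam ^ s * aeval (cst c lam h kap ep) (jP c D s m l) := by
  obtain ⟨U, hUd⟩ : ∃ U : Set ℂ, U = {ζ | ∀ j, ‖Qd_a c m j * ζ‖ < ε} := ⟨_, rfl⟩
  have hU : IsOpen U := by
    have h1 : U = ⋂ j, {ζ | ‖Qd_a c m j * ζ‖ < ε} := by
      rw [hUd]
      ext ζ
      simp
    rw [h1]
    exact isOpen_iInter_of_finite fun j ↦ isOpen_lt (by fun_prop) continuous_const
  have h0 : (0 : ℂ) ∈ U := by
    rw [hUd]
    intro j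
    rw [mul_zero, norm_zero]
    exact hs.hε
  have h1 : (fun x : ℂ ↦ Phi c b D l (x, (m : ℂ) * x)) =ᶠ[nhds 0]
      (fun v ↦ Qd_M c b m l v * aeval (fun j ↦ Qd_f c lam h kap X X1 Y m v j) (polP c m l)) := by
    filter_upwards [hU.mem_nhds h0] with ζ hζ
    rw [hUd] at hζ
    exact Qd_Phi c hs m l ζ hζ
  rw [J, h1.iteratedDeriv_eq]
  have h2 := iteratedDeriv_TD (f := fun i v ↦ Qd_f c lam h kap X X1 Y m v i) (m := Qd_M c b m l)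
    (lam := lam) (dvP m) (gP c D m l) U hU
    (fun u hu i ↦ Qd_hf c hs m u (by rw [hUd] at hu; exact hu) i)
    (fun u hu ↦ Qd_hm c hs m l u (by rw [hUd] at hu; exact hu)) (polP c m l) s 0 h0
  rw [h2, jP]
  have h3 : Qd_M c b m l 0 = 1 := by
    rw [Qd_M]
    simp [b.A0]
  have h4 : (fun j ↦ Qd_f c lam h kap X X1 Y m 0 j) = cst c lam h kap ep := by
    funext i
    rcases i with ⟨a, j⟩ | i
    · fin_cases a
      · simp [Qd_f, cst, hs.X0]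
      · simp [Qd_f, cst, hs.X10]
      · simp [Qd_f, cst, hs.Y0]
    · simp [Qd_f, cst]
  rw [h3, h4, one_mul]

end CZ
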