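import Pool.Agent.H32.CZ.Q0
import Pool.Agent.H32.T3.Wp3

/-!
# MP_ede373, cubic points, row Qe: existence of the base functions

`τ : ℍ`, `E₄ τ ≠ 0`, `E₆ τ ≠ 0`. `p = pp τ = e^{π i τ}`, `ee s = e^{2 π i s}` (`T3/Wp2.lean`), `th p w = AA p w * AA p w⁻¹`
(`T3/Theta2.lean`), `lam` a square root of `g₃/g₂ ≠ 0` (`Complex.cpow` or `IsAlgClosed.exists_pow_nat_eq`;
`g2_eq`, `g3_eq` of `T3/Wp.lean`). Define
`A s = th p (ee s) / th p 1`, `B s = P2 lam (G2 τ) p (ee s) / th p 1 ^ 2`, `mu = lam⁻¹`.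
`th p 1 ≠ 0` (`th_ne_zero` with `ee 0 = 1 ∈ Reg`). Differentiability: `diff_th`, `diff_P2` composed with the
entire nonvanishing `ee`. `A 0 = 1`. `ee (s+1) = ee s`, `ee (s + τ) = p^2 ee s`: `th_q`, `P2_q` give
`A (s+τ) = -(p w)⁻¹ A s` with `(p w)⁻¹ = exp (-(π i τ) - 2 π i s)`.
`nc`: if `B = k A^2` near `0` then `X = ℘(· + τ/2)/lam^2` (from `system`: `P2 = th^2 X`) is constant near `0` (as
`th ≠ 0` there), so `℘'` vanishes near `τ/2`, hence on the strip (`wp_not_const` in `T3/Wp3.lean` and the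
identity theorem, `isPreconnected_Strip`, `hasDerivAt_wp`): contradiction.
`BaseSys`: from `system` (`ε = τ.im / 2`, `|s.im| ≤ ‖s‖ < ε`): `B s = P2/th(1)^2 = A s^2 X s`;
`deriv A s = (2 π i w deriv (th p) w) / th p 1 = th1 p w / th p 1` (`Dw`, chain rule), and `P1 = lam⁻¹ th1 = th Y`, so
`mu * deriv A s = A s * Y s`. `h = 27/2 E₄^3/E₆^2`, `kap = 3/2 E2 E₄/E₆`, `ep = X 0`.
`lam^2`: `2 π i / lam^2 = 9 i E₄ / (π E₆)` from `g2_eq`, `g3_eq`.
-/

set_option autoImplicit false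

open EisensteinSeries ModularForm UpperHalfPlane

namespace CZ

open H32.T3 Filter Topology

theorem Qe_im0 (τ : ℍ) : |(0 : ℂ).im| < τ.im / 2 := by
  have := τ.im_pos
  simpa using this

theorem Qe_ee0 : ee 0 = 1 := by simp [ee]

theorem Qe_th1 (τ : ℍ) : th (pp τ) 1 ≠ 0 := by
  have h := th_ne_zero (norm_pp_lt τ) (ee_mem_Reg (Qe_im0 τ))
  rwa [Qe_ee0] at h

theorem Qe_ee_one (s : ℂ) : ee (s + 1) = ee s := by
  unfold ee
  have e : 2 * (Real.pi : ℂ) * Complex.I * (s + 1) = 2 * Real.pi * Complex.I * s + 2 * Real.pi * Complex.I := by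
    ring
  rw [e, Complex.exp_add, Complex.exp_two_pi_mul_I, mul_one]

theorem Qe_ee_tau (τ : ℍ) (s : ℂ) : ee (s + τ) = pp τ ^ 2 * ee s := by
  unfold ee pp
  rw [← Complex.exp_nat_mul, ← Complex.exp_add]
  congr 1
  push_cast
  ring

theorem Qe_inv (τ : ℍ) (s : ℂ) :
    (pp τ * ee s)⁻¹ = Complex.exp (-(Real.pi * Complex.I * τ) - 2 * Real.pi * Complex.I * s) := by
  unfold ee pp
  rw [← Complex.exp_add, ← Complex.exp_neg]
  congr 1
  ring

theorem Qe_hasDerivAt {f : ℂ → ℂ} (hf : DifferentiableOn ℂ f {0}ᶜ) (s : ℂ) :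
    HasDerivAt (fun s => f (ee s)) (Dw f (ee s)) s := by
  have h1 : DifferentiableAt ℂ f (ee s) :=
    hf.differentiableAt (isOpen_U.mem_nhds (mem_U.2 (ee_ne s)))
  have h2 := h1.hasDerivAt.comp s (hasDerivAt_ee s)
  refine h2.congr_deriv ?_
  unfold Dw
  ring

theorem Qe_nc (τ : ℍ) {lam : ℂ} (hlam0 : lam ≠ 0) :
    ¬ ∃ k : ℂ, ∀ᶠ s in 𝓝 (0 : ℂ), P2 lam (G2 τ) (pp τ) (ee s) / th (pp τ) 1 ^ 2 =
      k * (th (pp τ) (ee s) / th (pp τ) 1) ^ 2 := by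
  rintro ⟨k, hk⟩
  have hθ := Qe_th1 τ
  have him : ∀ᶠ s in 𝓝 (0 : ℂ), |s.im| < τ.im / 2 := by
    have hc : Continuous fun s : ℂ => |s.im| := Complex.continuous_im.abs
    exact (isOpen_lt hc continuous_const).mem_nhds (Qe_im0 τ)
  have h1 : ∀ᶠ s in 𝓝 (0 : ℂ), (LL τ).weierstrassP (s + τ / 2) = lam ^ 2 * k := by
    filter_upwards [hk, him] with s h1 h2
    have h3 := th_ne_zero (norm_pp_lt τ) (ee_mem_Reg h2)
    rw [P2_wp h2] at h1
    generalize (LL τ).weierstrassP (s + τ / 2) = W at h1 ⊢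
    field_simp at h1
    exact h1
  have htend : Tendsto (fun u : ℂ => u - (τ : ℂ) / 2) (𝓝 ((τ : ℂ) / 2)) (𝓝 0) := by
    have : Tendsto (fun u : ℂ => u - (τ : ℂ) / 2) (𝓝 ((τ : ℂ) / 2)) (𝓝 ((τ : ℂ) / 2 - (τ : ℂ) / 2)) :=
      (continuous_id.sub continuous_const).tendsto _
    rwa [sub_self] at this
  have h2 : (LL τ).weierstrassP =ᶠ[𝓝 ((τ : ℂ) / 2)] fun _ => lam ^ 2 * k := by
    filter_upwards [htend.eventually h1] with u hu
    rwa [sub_add_cancel] at hu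
  have h3 : (LL τ).derivWeierstrassP =ᶠ[𝓝 ((τ : ℂ) / 2)] 0 := by
    have h4 := h2.deriv
    rw [PeriodPair.deriv_weierstrassP] at h4
    refine h4.trans ?_
    filter_upwards with u
    simp
  have han : AnalyticOnNhd ℂ (LL τ).derivWeierstrassP (Strip τ) := fun z hz ↦
    (LL τ).analyticOnNhd_derivWeierstrassP z (Strip_lattice hz)
  have hmem : (τ : ℂ) / 2 ∈ Strip τ := by
    have h := half_mem (Qe_im0 τ)
    rwa [zero_add] at h
  have h5 := han.eqOn_zero_of_preconnected_of_eventuallyEq_zero (isPreconnected_Strip τ) hmem h3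
  exact wp_not_const τ fun z hz => h5 hz

theorem exists_base (τ : ℍ) (h4 : E₄ τ ≠ 0) (h6 : E₆ τ ≠ 0) :
    ∃ (b : BaseFn (τ : ℂ)) (lam ep : ℂ) (ε : ℝ) (X X1 Y : ℂ → ℂ),
      BaseSys b lam (27 / 2 * (E₄ τ ^ 3 / E₆ τ ^ 2)) (3 / 2 * (E2 τ * E₄ τ / E₆ τ)) ep ε X X1 Y ∧
      2 * Real.pi * Complex.I / lam ^ 2 = 9 * Complex.I * (E₄ τ / (Real.pi * E₆ τ)) ∧
      4 * ep ^ 3 - 2 * (27 / 2 * (E₄ τ ^ 3 / E₆ τ ^ 2)) * ep -
        2 * (27 / 2 * (E₄ τ ^ 3 / E₆ τ ^ 2)) = 0 := by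
  have hpi : (Real.pi : ℂ) ≠ 0 := by exact_mod_cast Real.pi_ne_zero
  have hg2 := g2_eq τ
  have hg3 := g3_eq τ
  have hg20 : (LL τ).g₂ ≠ 0 := by
    rw [hg2]
    exact mul_ne_zero (div_ne_zero (mul_ne_zero (by norm_num) (pow_ne_zero _ hpi)) (by norm_num)) h4
  have hg30 : (LL τ).g₃ ≠ 0 := by
    rw [hg3]
    exact mul_ne_zero (div_ne_zero (mul_ne_zero (by norm_num) (pow_ne_zero _ hpi)) (by norm_num)) h6
  obtain ⟨lam, hlam⟩ := IsAlgClosed.exists_pow_nat_eq ((LL τ).g₃ / (LL τ).g₂) (n := 2) (by norm_num)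
  have hlam0 : lam ≠ 0 := by
    rintro rfl
    rw [zero_pow (by norm_num)] at hlam
    exact div_ne_zero hg30 hg20 hlam.symm
  obtain ⟨X, X1, Y, hsys, hX10, hY0, hcub⟩ := system h4 h6 hlam
  have hp := norm_pp_lt τ
  have hp0 := pp_ne τ
  have hθ := Qe_th1 τ
  have hdA : ∀ s, HasDerivAt (fun s => th (pp τ) (ee s) / th (pp τ) 1) (th1 (pp τ) (ee s) / th (pp τ) 1) s :=
    fun s => (Qe_hasDerivAt (diff_th hp) s).div_const _
  let b : BaseFn (τ : ℂ) :=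
    { A := fun s => th (pp τ) (ee s) / th (pp τ) 1
      B := fun s => P2 lam (G2 τ) (pp τ) (ee s) / th (pp τ) 1 ^ 2
      mu := lam⁻¹
      hmu := inv_ne_zero hlam0
      dA := fun s => (hdA s).differentiableAt
      dB := fun s => ((Qe_hasDerivAt (diff_P2 hp lam (G2 τ)) s).div_const _).differentiableAt
      A0 := by
        show th (pp τ) (ee 0) / th (pp τ) 1 = 1
        rw [Qe_ee0]
        exact div_self hθ
      A1 := fun s => by
        show th (pp τ) (ee (s + 1)) / th (pp τ) 1 = th (pp τ) (ee s) / th (pp τ) 1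
        rw [Qe_ee_one]
      Az := fun s => by
        show th (pp τ) (ee (s + τ)) / th (pp τ) 1 = _
        rw [Qe_ee_tau, th_q hp hp0 (ee_ne s), Qe_inv]
        ring
      B1 := fun s => by
        show P2 lam (G2 τ) (pp τ) (ee (s + 1)) / th (pp τ) 1 ^ 2 = _
        rw [Qe_ee_one]
      Bz := fun s => by
        show P2 lam (G2 τ) (pp τ) (ee (s + τ)) / th (pp τ) 1 ^ 2 = _
        rw [Qe_ee_tau, P2_q hp hp0 lam (G2 τ) (ee_ne s), Qe_inv, neg_sq, ← Complex.exp_nat_mul]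
        push_cast
        ring
      nc := Qe_nc τ hlam0 }
  have him : ∀ s : ℂ, ‖s‖ < τ.im / 2 → |s.im| < τ.im / 2 := fun s hs =>
    (Complex.abs_im_le_norm s).trans_lt hs
  refine ⟨b, lam, X 0, τ.im / 2, X, X1, Y, ?_, ?_, hcub⟩
  · refine ⟨half_pos τ.im_pos, hlam0, rfl, ?_, ?_, fun s hs => (hsys s (him s hs)).2.2.1,
      fun s hs => (hsys s (him s hs)).2.2.2.1, fun s hs => (hsys s (him s hs)).2.2.2.2, rfl, hX10, hY0⟩
    · intro s hs
      show P2 lam (G2 τ) (pp τ) (ee s) / th (pp τ) 1 ^ 2 = (th (pp τ) (ee s) / th (pp τ) 1) ^ 2 * X s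
      rw [(hsys s (him s hs)).1]
      ring
    · intro s hs
      show lam⁻¹ * deriv (fun s => th (pp τ) (ee s) / th (pp τ) 1) s = (th (pp τ) (ee s) / th (pp τ) 1) * Y s
      rw [(hdA s).deriv]
      have h1 := (hsys s (him s hs)).2.1
      unfold P1 at h1
      have h2 : lam⁻¹ * (th1 (pp τ) (ee s) / th (pp τ) 1) = (lam⁻¹ * th1 (pp τ) (ee s)) / th (pp τ) 1 := by ring
      rw [h2, h1]
      ring
  · rw [hlam, hg2, hg3]
    field_simp
    ring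

end CZ
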