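import Pool.Agent.H32.CZ.Q0
import Pool.Agent.H32.JDeriv

/-!
# MP_ede373, cubic points, row Qf: the constants are algebraic over `ℚ(j, j', j'')`

`K = adjoin ℚ {J z, J' z, J'' z}`, `w = z = τ`. `H32.J_values` (in `Pool/Agent/H32/JDeriv.lean`) gives, with
`e4 w = E₄ τ` etc. (`UpperHalfPlane.ofComplex`), `J = 1728 e4^3/(e4^3 - e6^2)`, `J' = J1 w`, `J'' = J2 w`. Put
`Δ = e4^3 - e6^2 ≠ 0`, `J ≠ 0`, `J' ≠ 0` (as `e4, e6 ≠ 0`).
* `e4^3/e6^2 = J/(J - 1728)` (`J - 1728 = 1728 e6^2/Δ ≠ 0`), in `K`; so `h ∈ K` and `ep` is a root of a monic (up to the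
factor 4) cubic over `K`, so algebraic.
* `J'/J = -2πi e6/e4`, so `e4/(π e6) = -2 i J/J'`, algebraic over `K` (`i` is algebraic), so `2πi/lam^2` is.
* `J''/J' = 2πi (e2/6 - (2/3) e6/e4 ... )`: from the definitions
`J2/J1 = 2πi ((1/6) e2 - (2/3) e6/e4 - (1/2) e4^2/e6)` (check with `ring`/`field_simp` from `J1`, `J2`). Multiply by
`e4/(2πi e6)` (algebraic over `K` by the previous point): `(1/6) e2 e4/e6 - 2/3 - (1/2) e4^3/e6^2` is algebraic, so
`kap = (3/2) e2 e4/e6` is.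
* `z, conj z, r` are algebraic over `ℚ`: they are roots of `N X^3 + b2 X^2 + b1 X + b0` (`he1, he2, he3`), `N ≠ 0`;
`1/N`, `0` rational.
Sums, products, inverses of algebraic elements: `IsAlgebraic.add` etc. (algebraic closure of `K` in `ℂ`
is a subfield: `algebraicClosure K ℂ`), elements of `K` are algebraic (`isAlgebraic_algebraMap`).
-/

set_option autoImplicit false

open EisensteinSeries ModularForm UpperHalfPlane

namespace CZ

open Polynomial in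
theorem Qf_cubic {N b2 b1 b0 : ℤ} (hN : N ≠ 0) {x : ℂ}
    (h : (N : ℂ) * x ^ 3 + b2 * x ^ 2 + b1 * x + b0 = 0) : IsAlgebraic ℤ x := by
  refine ⟨C N * X ^ 3 + C b2 * X ^ 2 + C b1 * X + C b0, ?_, ?_⟩
  · intro h0
    have h1 := congrArg (fun p => Polynomial.coeff p 3) h0
    simp only [coeff_add, coeff_C_mul, coeff_X_pow, coeff_X, coeff_C, coeff_zero] at h1
    norm_num at h1
    exact hN h1
  · simpa using h

theorem Qf_roots (c : CData) : IsAlgebraic ℤ c.z ∧ IsAlgebraic ℤ c.zb ∧ IsAlgebraic ℤ (c.r : ℂ) := by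
  have hN : (c.N : ℤ) ≠ 0 := by
    have := c.hN
    omega
  have h1 := c.he1
  have h2 := c.he2
  have h3 := c.he3
  have e1 : (c.b2 : ℂ) = -((c.N : ℂ) * (c.z + c.zb + c.r)) := by
    rw [CData.zb, h1]; ring
  have e2 : (c.b1 : ℂ) = (c.N : ℂ) * (c.z * c.zb + (c.z + c.zb) * c.r) := by
    rw [CData.zb, h2]
  have e3 : (c.b0 : ℂ) = -((c.N : ℂ) * (c.z * c.zb * c.r)) := by
    rw [CData.zb, h3]; ring
  refine ⟨Qf_cubic hN (b2 := c.b2) (b1 := c.b1) (b0 := c.b0) ?_,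
    Qf_cubic hN (b2 := c.b2) (b1 := c.b1) (b0 := c.b0) ?_,
    Qf_cubic hN (b2 := c.b2) (b1 := c.b1) (b0 := c.b0) ?_⟩ <;>
  · rw [e1, e2, e3]
    push_cast
    ring

open Polynomial in
theorem Qf_ep {K : Type*} [Field K] [Algebra K ℂ] {h ep : ℂ} (hh : IsAlgebraic K h)
    (he : 4 * ep ^ 3 - 2 * h * ep - 2 * h = 0) : IsAlgebraic K ep := by
  have hh' : h ∈ algebraicClosure K ℂ := mem_algebraicClosure_iff.2 hh
  have h1 : IsAlgebraic (algebraicClosure K ℂ) ep := by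
    refine ⟨C 4 * X ^ 3 - C (2 * ⟨h, hh'⟩) * X - C (2 * ⟨h, hh'⟩), ?_, ?_⟩
    · intro h0
      have h1 := congrArg (fun p => Polynomial.coeff p 3) h0
      simp at h1
    · have e : (algebraMap (algebraicClosure K ℂ) ℂ) ⟨h, hh'⟩ = h := rfl
      simp only [map_sub, map_mul, map_pow, aeval_C, aeval_X, map_ofNat, e]
      exact he
  exact h1.restrictScalars K

theorem cst_alg (c : CData) (τ : ℍ) (hτ : (τ : ℂ) = c.z) (he4 : E₄ τ ≠ 0) (he6 : E₆ τ ≠ 0)
    (E4 E6 Jf : ℂ → ℂ)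
    (h4 : ∀ τ : ℂ, E4 τ = 1 + 240 * ∑' m : ℕ, ((ArithmeticFunction.sigma 3 (m + 1) : ℕ) : ℂ) *
          Complex.exp (2 * (Real.pi : ℂ) * Complex.I * ((m : ℂ) + 1) * τ))
    (h6 : ∀ τ : ℂ, E6 τ = 1 - 504 * ∑' m : ℕ, ((ArithmeticFunction.sigma 5 (m + 1) : ℕ) : ℂ) *
          Complex.exp (2 * (Real.pi : ℂ) * Complex.I * ((m : ℂ) + 1) * τ))
    (hJ : ∀ τ : ℂ, Jf τ = 1728 * E4 τ ^ 3 / (E4 τ ^ 3 - E6 τ ^ 2)) (lam ep : ℂ)
    (hlam : 2 * Real.pi * Complex.I / lam ^ 2 = 9 * Complex.I * (E₄ τ / (Real.pi * E₆ τ)))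
    (hep : 4 * ep ^ 3 - 2 * (27 / 2 * (E₄ τ ^ 3 / E₆ τ ^ 2)) * ep -
        2 * (27 / 2 * (E₄ τ ^ 3 / E₆ τ ^ 2)) = 0) (v : Vr) :
    IsAlgebraic (IntermediateField.adjoin ℚ
      ({Jf c.z, deriv Jf c.z, deriv (deriv Jf) c.z} : Set ℂ))
      (cst c lam (27 / 2 * (E₄ τ ^ 3 / E₆ τ ^ 2)) (3 / 2 * (E2 τ * E₄ τ / E₆ τ)) ep v) := by
  obtain ⟨v0, v1, v2⟩ := H32.J_values h4 h6 hJ c.hz
  have hof : ofComplex c.z = τ := by rw [← hτ]; exact ofComplex_apply τ
  have ha : H32.e4 c.z = E₄ τ := by rw [H32.e4, hof]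
  have hb : H32.e6 c.z = E₆ τ := by rw [H32.e6, hof]
  have hg : H32.e2 c.z = E2 τ := by rw [H32.e2, hof]
  have hΔ : E₄ τ ^ 3 - E₆ τ ^ 2 ≠ 0 := by
    have := H32.disc_ne (w := c.z)
    rwa [ha, hb] at this
  rw [ha, hb] at v0
  rw [H32.J1, ha, hb] at v1
  rw [H32.J2, ha, hb, hg] at v2
  generalize hK : IntermediateField.adjoin ℚ
      ({Jf c.z, deriv Jf c.z, deriv (deriv Jf) c.z} : Set ℂ) = K
  have m0 : IsAlgebraic K (Jf c.z) := by
    have : Jf c.z ∈ K := by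
      rw [← hK]; exact IntermediateField.subset_adjoin _ _ (by simp)
    exact isAlgebraic_algebraMap (⟨_, this⟩ : K)
  have m1 : IsAlgebraic K (deriv Jf c.z) := by
    have : deriv Jf c.z ∈ K := by
      rw [← hK]; exact IntermediateField.subset_adjoin _ _ (by simp)
    exact isAlgebraic_algebraMap (⟨_, this⟩ : K)
  have m2 : IsAlgebraic K (deriv (deriv Jf) c.z) := by
    have : deriv (deriv Jf) c.z ∈ K := by
      rw [← hK]; exact IntermediateField.subset_adjoin _ _ (by simp)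
    exact isAlgebraic_algebraMap (⟨_, this⟩ : K)
  obtain ⟨M, hM⟩ : ∃ M : IntermediateField K ℂ, ∀ x, x ∈ M ↔ IsAlgebraic K x :=
    ⟨algebraicClosure K ℂ, fun x => mem_algebraicClosure_iff⟩
  rw [← hM] at m0 m1 m2
  have nat_mem : ∀ n : ℕ, (n : ℂ) ∈ M := fun n => natCast_mem M n
  have mI : Complex.I ∈ M := by
    rw [hM]
    refine IsAlgebraic.of_pow (n := 2) (by norm_num) ?_
    rw [Complex.I_sq, ← hM]
    exact neg_mem (one_mem M)
  have hπ : (Real.pi : ℂ) ≠ 0 := by exact_mod_cast Real.pi_ne_zero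
  have hI := Complex.I_ne_zero
  have i1728 : (1728 : ℂ) ∈ M := by exact_mod_cast nat_mem 1728
  have i2 : (2 : ℂ) ∈ M := by exact_mod_cast nat_mem 2
  have i3 : (3 : ℂ) ∈ M := by exact_mod_cast nat_mem 3
  have i6 : (6 : ℂ) ∈ M := by exact_mod_cast nat_mem 6
  have i9 : (9 : ℂ) ∈ M := by exact_mod_cast nat_mem 9
  have i27 : (27 : ℂ) ∈ M := by exact_mod_cast nat_mem 27
  generalize E₄ τ = a at *
  generalize E₆ τ = b at *
  generalize E2 τ = g at *
  have mt : a ^ 3 / b ^ 2 ∈ M := by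
    have e : a ^ 3 / b ^ 2 = Jf c.z / (Jf c.z - 1728) := by
      have e1 : Jf c.z - 1728 = 1728 * b ^ 2 / (a ^ 3 - b ^ 2) := by
        rw [v0]; field_simp; ring
      rw [e1, v0]
      field_simp
    rw [e]
    exact div_mem m0 (sub_mem m0 i1728)
  have mu : a / (Real.pi * b) ∈ M := by
    have e : a / (Real.pi * b) = -2 * Complex.I * (Jf c.z / deriv Jf c.z) := by
      rw [v0, v1]
      field_simp
    rw [e]
    exact mul_mem (mul_mem (neg_mem i2) mI) (div_mem m0 m1)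
  have mk : g * a / b ∈ M := by
    have e : g * a / b = 6 * ((deriv (deriv Jf) c.z / deriv Jf c.z) * (a / (Real.pi * b)) /
        (2 * Complex.I) + 2 / 3 + (a ^ 3 / b ^ 2) / 2) := by
      rw [v1, v2]
      field_simp
      ring
    rw [e]
    exact mul_mem i6 (add_mem (add_mem (div_mem (mul_mem (div_mem m2 m1) mu) (mul_mem i2 mI))
      (div_mem i2 i3)) (div_mem mt i2))
  have mh : 27 / 2 * (a ^ 3 / b ^ 2) ∈ M := mul_mem (div_mem i27 i2) mt
  have mep : ep ∈ M := by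
    rw [hM]
    exact Qf_ep ((hM _).1 mh) hep
  obtain ⟨z1, z2, z3⟩ := Qf_roots c
  have inj : Function.Injective (algebraMap ℤ K) := (algebraMap ℤ K).injective_int
  have mz : c.z ∈ M := (hM _).2 (z1.extendScalars inj)
  have mzb : c.zb ∈ M := (hM _).2 (z2.extendScalars inj)
  have mr : (c.r : ℂ) ∈ M := (hM _).2 (z3.extendScalars inj)
  rw [← hM]
  rcases v with ⟨i, j⟩ | i
  · fin_cases i
    · exact mep
    · exact zero_mem M
    · exact zero_mem M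
  · fin_cases i
    · exact zero_mem M
    · exact mz
    · exact mzb
    · exact mr
    · exact div_mem (one_mem M) (nat_mem c.N)
    · exact mh
    · exact mul_mem (div_mem i3 i2) mk
    · show 2 * Real.pi * Complex.I / lam ^ 2 ∈ M
      rw [hlam]
      exact mul_mem (mul_mem i9 mI) mu

end CZ
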