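import Pool.Agent.H22.CZ.Defs
import Pool.Agent.H32.T3.Wp3

/-!
# MP_ede373, cubic points, row Qg: `E₄`, `E₆` do not vanish at cubic points

`lattice_stable`. `f = ℘[L]`, `g u = c^2 ℘[L] (c u)`. Near `0` (`u ≠ 0`): `f u = u^{-2} + φ u`, `g u = u^{-2} + ψ u` with `φ = ℘[L - 0]`,
`ψ u = c^2 φ (c u)` analytic at `0`, `φ 0 = ψ 0 = 0` (`weierstrassPExcept_def`/`_add` with `l₀ = 0`,
`analyticAt_weierstrassPExcept`, `weierstrassPExcept_zero`). `derivWeierstrassP_sq`: off the lattice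
`f'^2 = 4 f^3 - g₂ f - g₃`, and `g' u = c^3 ℘'(c u)`, `g'^2 = c^6 (4 ℘^3 - g₂ ℘ - g₃)(cu) = 4 g^3 - c^4 g₂ g - c^6 g₃ = 4 g^3 - g₂ g - g₃`.
Subtract: `h = f - g = φ - ψ` satisfies `h' (f' + g') = h (4 (f^2 + f g + g^2) - g₂)` near `0`. Multiply by `u^4`:
`u h'(u) (-4 + u^3 (φ' + ψ')) = h(u) (12 + u^2 (...))` with analytic brackets. If `h` is not identically `0` near
`0`, `h = u^n k(u)`, `k(0) ≠ 0` (`AnalyticAt.exists_eventuallyEq_pow_smul_nonzero_iff`), `n ≥ 0`; dividing by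
`u^n` and letting `u → 0`: `-4 n k(0) = 12 k(0)`, impossible. So `f = g` near `0` (punctured).
Identity theorem on the connected open set `(L ∪ c⁻¹ L)ᶜ` (complement of a countable closed discrete set:
`IsConnected`/`Set.Countable.isPathConnected_compl_of_one_lt_rank`), both are analytic there: `f = g` there.
Let `l ∈ L`, `u0 = c⁻¹ l`, suppose `u0 ∉ L`. `f` is continuous at `u0`; `g u = c^2 ℘(c u)` is unbounded (tends to
infinity) as `u → u0`, `u ≠ u0`: `℘[L] w = 1/(w - l)^2 + ℘[L - l] w - 1/l^2` (`weierstrassPExcept_def`), but `f = g` on a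
punctured neighbourhood: contradiction. (For `l = 0` trivial.)

`E4_E6_ne`: `L = LL τ` (`ω₁ = τ`, `ω₂ = 1`); `g2_eq`, `g3_eq` (`T3/Wp.lean`). If `E₄ τ = 0` then `g₂ = 0`; take
`c = exp (2πi/3)`, `c^3 = 1`: `c⁻¹ = c⁻¹ * 1 ∈ L`, so `c⁻¹ = a τ + b` with integers, and `x = c⁻¹` satisfies
`x^2 + x + 1 = 0`: `a^2 τ^2 + (2ab + a) τ + (b^2 + b + 1) = 0`, so by `hirz` all coefficients vanish, but
`b^2 + b + 1 > 0`. If `E₆ τ = 0` then `g₃ = 0`; take `c = I`: `x = -I = aτ + b`, `x^2 + 1 = 0`: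
`a^2 τ^2 + 2ab τ + (b^2 + 1) = 0`, impossible.
-/

set_option autoImplicit false

open EisensteinSeries ModularForm UpperHalfPlane

namespace CZ

open Filter Topology

/-- uniqueness of the solution with a double pole -/
theorem Qg_unique (φ ψ : ℂ → ℂ) (g2 g3 : ℂ) (hφ : AnalyticAt ℂ φ 0) (hψ : AnalyticAt ℂ ψ 0)
    (h0 : φ 0 = ψ 0)
    (e1 : ∀ᶠ u in 𝓝[≠] (0 : ℂ), (deriv φ u - 2 / u ^ 3) ^ 2 =
      4 * (φ u + 1 / u ^ 2) ^ 3 - g2 * (φ u + 1 / u ^ 2) - g3)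
    (e2 : ∀ᶠ u in 𝓝[≠] (0 : ℂ), (deriv ψ u - 2 / u ^ 3) ^ 2 =
      4 * (ψ u + 1 / u ^ 2) ^ 3 - g2 * (ψ u + 1 / u ^ 2) - g3) :
    ∀ᶠ u in 𝓝 (0 : ℂ), φ u - ψ u = 0 := by
  by_contra hcon
  have hh : AnalyticAt ℂ (fun u => φ u - ψ u) 0 := hφ.sub hψ
  obtain ⟨n, k, hk, hk0, hkeq⟩ := hh.exists_eventuallyEq_pow_smul_nonzero_iff.2 hcon
  simp only [sub_zero, smul_eq_mul] at hkeq
  have hP : ContinuousAt (fun u : ℂ => u ^ 3 * (deriv φ u + deriv ψ u) - 4) 0 := by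
    have h1 := hφ.deriv.continuousAt
    have h2 := hψ.deriv.continuousAt
    fun_prop
  have hQ : ContinuousAt (fun u : ℂ => 4 * ((1 + u ^ 2 * φ u) ^ 2 + (1 + u ^ 2 * φ u) *
      (1 + u ^ 2 * ψ u) + (1 + u ^ 2 * ψ u) ^ 2) - g2 * u ^ 4) 0 := by
    have h1 := hφ.continuousAt
    have h2 := hψ.continuousAt
    fun_prop
  have hkk : ContinuousAt (fun u : ℂ => (n : ℂ) * k u + u * deriv k u) 0 := by
    have h1 := hk.deriv.continuousAt
    have h2 := hk.continuousAt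
    fun_prop
  have hd : ∀ᶠ u in 𝓝 (0 : ℂ), u * (deriv φ u - deriv ψ u) =
      u ^ n * ((n : ℂ) * k u + u * deriv k u) := by
    have h1 : (fun u => φ u - ψ u) =ᶠ[𝓝 0] fun u => u ^ n * k u := hkeq
    have h2 := h1.deriv
    filter_upwards [h2, hφ.eventually_analyticAt, hψ.eventually_analyticAt,
      hk.eventually_analyticAt] with u h3 h4 h5 h6
    rw [deriv_fun_sub h4.differentiableAt h5.differentiableAt,
      deriv_fun_mul (differentiableAt_pow n) h6.differentiableAt, deriv_pow_field] at h3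
    rw [h3]
    rcases Nat.eq_zero_or_pos n with rfl | hn
    · simp
    · obtain ⟨m, rfl⟩ : ∃ m, n = m + 1 := ⟨n - 1, by omega⟩
      simp only [Nat.add_sub_cancel, pow_succ]
      ring
  have hmain : ∀ᶠ u in 𝓝[≠] (0 : ℂ), ((n : ℂ) * k u + u * deriv k u) *
      (u ^ 3 * (deriv φ u + deriv ψ u) - 4) =
      k u * (4 * ((1 + u ^ 2 * φ u) ^ 2 + (1 + u ^ 2 * φ u) *
      (1 + u ^ 2 * ψ u) + (1 + u ^ 2 * ψ u) ^ 2) - g2 * u ^ 4) := by
    filter_upwards [e1, e2, nhdsWithin_le_nhds hd, nhdsWithin_le_nhds hkeq, self_mem_nhdsWithin]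
      with u h1 h2 h3 h4 hu
    have hu0 : u ≠ 0 := hu
    have h5 : u * (deriv φ u - deriv ψ u) * (u ^ 3 * (deriv φ u + deriv ψ u) - 4) =
        (φ u - ψ u) * (4 * ((1 + u ^ 2 * φ u) ^ 2 + (1 + u ^ 2 * φ u) *
        (1 + u ^ 2 * ψ u) + (1 + u ^ 2 * ψ u) ^ 2) - g2 * u ^ 4) := by
      have h6 : (deriv φ u - 2 / u ^ 3) ^ 2 - (deriv ψ u - 2 / u ^ 3) ^ 2 =
          (4 * (φ u + 1 / u ^ 2) ^ 3 - g2 * (φ u + 1 / u ^ 2) - g3) -
          (4 * (ψ u + 1 / u ^ 2) ^ 3 - g2 * (ψ u + 1 / u ^ 2) - g3) := by rw [h1, h2]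
      have h7 : u ^ 4 * ((deriv φ u - 2 / u ^ 3) ^ 2 - (deriv ψ u - 2 / u ^ 3) ^ 2) =
          u ^ 4 * ((4 * (φ u + 1 / u ^ 2) ^ 3 - g2 * (φ u + 1 / u ^ 2) - g3) -
          (4 * (ψ u + 1 / u ^ 2) ^ 3 - g2 * (ψ u + 1 / u ^ 2) - g3)) := by rw [h6]
      have h8 : u ^ 4 * ((deriv φ u - 2 / u ^ 3) ^ 2 - (deriv ψ u - 2 / u ^ 3) ^ 2) =
          u * (deriv φ u - deriv ψ u) * (u ^ 3 * (deriv φ u + deriv ψ u) - 4) := by
        field_simp
        ring
      have h9 : u ^ 4 * ((4 * (φ u + 1 / u ^ 2) ^ 3 - g2 * (φ u + 1 / u ^ 2) - g3) -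
          (4 * (ψ u + 1 / u ^ 2) ^ 3 - g2 * (ψ u + 1 / u ^ 2) - g3)) =
          (φ u - ψ u) * (4 * ((1 + u ^ 2 * φ u) ^ 2 + (1 + u ^ 2 * φ u) *
          (1 + u ^ 2 * ψ u) + (1 + u ^ 2 * ψ u) ^ 2) - g2 * u ^ 4) := by
        field_simp
        ring
      rw [← h8, h7, h9]
    rw [h3, h4, mul_assoc, mul_assoc] at h5
    exact mul_left_cancel₀ (pow_ne_zero n hu0) h5
  have hl := (hkk.mul hP).tendsto.mono_left (nhdsWithin_le_nhds (s := {(0 : ℂ)}ᶜ))
  have hr := (hk.continuousAt.mul hQ).tendsto.mono_left (nhdsWithin_le_nhds (s := {(0 : ℂ)}ᶜ))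
  have hlim := tendsto_nhds_unique_of_eventuallyEq hl hr hmain
  simp only [Pi.mul_apply] at hlim
  have h1 : k 0 * ((n : ℂ) * 4 + 12) = 0 := by
    ring_nf at hlim ⊢
    linear_combination -hlim
  have h2 : ((n : ℂ) * 4 + 12) = 0 := (mul_eq_zero.1 h1).resolve_left hk0
  have h3 : ((n * 4 + 12 : ℕ) : ℂ) = 0 := by exact_mod_cast h2
  have h4 : n * 4 + 12 = 0 := by exact_mod_cast h3
  omega

theorem lattice_stable (L : PeriodPair) (c : ℂ) (hc : c ≠ 0) (h2 : c ^ 4 * L.g₂ = L.g₂)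
    (h3 : c ^ 6 * L.g₃ = L.g₃) (l : ℂ) (hl : l ∈ L.lattice) : c⁻¹ * l ∈ L.lattice := by
  by_contra hnot
  obtain ⟨φ, hφd⟩ : ∃ φ : ℂ → ℂ, φ = L.weierstrassPExcept 0 := ⟨_, rfl⟩
  have hφ : AnalyticAt ℂ φ 0 := by rw [hφd]; exact L.analyticAt_weierstrassPExcept 0
  have hφ0 : φ 0 = 0 := by rw [hφd]; exact L.weierstrassPExcept_zero 0
  have hf : ∀ u, L.weierstrassP u = φ u + 1 / u ^ 2 := by
    intro u
    have h := L.weierstrassPExcept_add ⟨0, zero_mem _⟩ u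
    simp only [sub_zero] at h
    rw [← h, hφd]
    simp
  obtain ⟨ψ, hψd⟩ : ∃ ψ : ℂ → ℂ, ψ = fun u => c ^ 2 * φ (c * u) := ⟨_, rfl⟩
  have hψ : AnalyticAt ℂ ψ 0 := by
    rw [hψd]
    have h4 : AnalyticAt ℂ (fun u : ℂ => c * u) 0 := by fun_prop
    have h5 : AnalyticAt ℂ (fun u => φ (c * u)) 0 :=
      AnalyticAt.comp' (g := φ) (by rw [mul_zero]; exact hφ) h4
    exact analyticAt_const.mul h5
  have hψ0 : ψ 0 = 0 := by rw [hψd]; simp [hφ0]
  have hg : ∀ u, c ^ 2 * L.weierstrassP (c * u) = ψ u + 1 / u ^ 2 := by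
    intro u
    rw [hf, hψd]
    field_simp
  -- the differential equations
  have hdf : ∀ᶠ u in 𝓝[≠] (0 : ℂ), u ∉ L.lattice := by
    have h4 := L.compl_lattice_sdiff_singleton_mem_nhds 0
    filter_upwards [nhdsWithin_le_nhds h4, self_mem_nhdsWithin] with u h5 h6 h7
    exact h5 ⟨h7, h6⟩
  have hcu : Tendsto (fun u : ℂ => c * u) (𝓝[≠] 0) (𝓝[≠] 0) := by
    refine tendsto_nhdsWithin_iff.2 ⟨?_, ?_⟩
    · have : Tendsto (fun u : ℂ => c * u) (𝓝 0) (𝓝 (c * 0)) :=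
        (continuous_const.mul continuous_id).tendsto 0
      rw [mul_zero] at this
      exact this.mono_left nhdsWithin_le_nhds
    · filter_upwards [self_mem_nhdsWithin] with u hu
      exact mul_ne_zero hc hu
  have hdg : ∀ᶠ u in 𝓝[≠] (0 : ℂ), c * u ∉ L.lattice := hcu.eventually hdf
  have hpole : ∀ u : ℂ, u ≠ 0 → HasDerivAt (fun w : ℂ => 1 / w ^ 2) (-2 / u ^ 3) u := by
    intro u hu
    have h4 := (hasDerivAt_pow 2 u).inv (pow_ne_zero 2 hu)
    simp only [Nat.cast_ofNat, Nat.add_one_sub_one, pow_one] at h4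
    have h5 : (fun w : ℂ => 1 / w ^ 2) = fun w : ℂ => (w ^ 2)⁻¹ := by
      funext w
      rw [one_div]
    rw [h5]
    have h6 : -2 / u ^ 3 = -(2 * u) / (u ^ 2) ^ 2 := by
      rw [div_eq_div_iff (pow_ne_zero 3 hu) (pow_ne_zero 2 (pow_ne_zero 2 hu))]
      ring
    rw [h6]
    exact h4
  have hfd : ∀ u, u ∉ L.lattice → HasDerivAt L.weierstrassP (L.derivWeierstrassP u) u := by
    intro u hu
    have h4 := (L.analyticOnNhd_weierstrassP u hu).differentiableAt.hasDerivAt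
    rwa [PeriodPair.deriv_weierstrassP] at h4
  have e1 : ∀ᶠ u in 𝓝[≠] (0 : ℂ), (deriv φ u - 2 / u ^ 3) ^ 2 =
      4 * (φ u + 1 / u ^ 2) ^ 3 - L.g₂ * (φ u + 1 / u ^ 2) - L.g₃ := by
    filter_upwards [hdf, nhdsWithin_le_nhds hφ.eventually_analyticAt, self_mem_nhdsWithin]
      with u h4 h5 h6
    have h7 : HasDerivAt L.weierstrassP (deriv φ u + -2 / u ^ 3) u := by
      have h8 := h5.differentiableAt.hasDerivAt.add (hpole u h6)
      have h9 : L.weierstrassP = fun w => φ w + 1 / w ^ 2 := funext hf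
      rw [h9]
      exact h8
    have h10 := h7.unique (hfd u h4)
    have h11 := L.derivWeierstrassP_sq u h4
    rw [← hf u, ← h11, ← h10]
    ring
  have e2 : ∀ᶠ u in 𝓝[≠] (0 : ℂ), (deriv ψ u - 2 / u ^ 3) ^ 2 =
      4 * (ψ u + 1 / u ^ 2) ^ 3 - L.g₂ * (ψ u + 1 / u ^ 2) - L.g₃ := by
    filter_upwards [hdg, nhdsWithin_le_nhds hψ.eventually_analyticAt, self_mem_nhdsWithin]
      with u h4 h5 h6
    have h7 : HasDerivAt (fun w => c ^ 2 * L.weierstrassP (c * w)) (deriv ψ u + -2 / u ^ 3) u := by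
      have h8 := h5.differentiableAt.hasDerivAt.add (hpole u h6)
      have h9 : (fun w => c ^ 2 * L.weierstrassP (c * w)) = fun w => ψ w + 1 / w ^ 2 := funext hg
      rw [h9]
      exact h8
    have h8 : HasDerivAt (fun w => c ^ 2 * L.weierstrassP (c * w))
        (c ^ 2 * (L.derivWeierstrassP (c * u) * c)) u := by
      have h9 : HasDerivAt (fun w : ℂ => c * w) c u := by
        simpa using (hasDerivAt_id u).const_mul c
      exact ((hfd (c * u) h4).comp u h9).const_mul (c ^ 2)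
    have h10 := h7.unique h8
    have h11 := L.derivWeierstrassP_sq (c * u) h4
    have h12 : (deriv ψ u - 2 / u ^ 3) ^ 2 = c ^ 6 * L.derivWeierstrassP (c * u) ^ 2 := by
      have : deriv ψ u - 2 / u ^ 3 = c ^ 2 * (L.derivWeierstrassP (c * u) * c) := by
        rw [← h10]
        ring
      rw [this]
      ring
    rw [h12, h11, ← hg u]
    linear_combination (c ^ 2 * L.weierstrassP (c * u)) * (-h2) - h3
  have hev := Qg_unique φ ψ L.g₂ L.g₃ hφ hψ (by rw [hφ0, hψ0]) e1 e2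
  -- meromorphic continuation
  have hmf : Meromorphic L.weierstrassP := L.meromorphic_weierstrassP
  have hmg : Meromorphic (fun u => c ^ 2 * L.weierstrassP (c * u)) := by
    intro u
    have h4 : AnalyticAt ℂ (fun w : ℂ => c * w) u := by fun_prop
    exact (MeromorphicAt.const (c ^ 2) u).mul ((hmf (c * u)).comp_analyticAt h4)
  have hmh : Meromorphic (fun u => L.weierstrassP u - c ^ 2 * L.weierstrassP (c * u)) :=
    fun u => (hmf u).sub (hmg u)
  have htop : meromorphicOrderAt (fun u => L.weierstrassP u - c ^ 2 * L.weierstrassP (c * u)) 0 =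
      ⊤ := by
    rw [meromorphicOrderAt_eq_top_iff]
    filter_upwards [nhdsWithin_le_nhds hev] with u hu
    rw [hf u, hg u]
    linear_combination hu
  have hall : meromorphicOrderAt (fun u => L.weierstrassP u - c ^ 2 * L.weierstrassP (c * u))
      (c⁻¹ * l) = ⊤ := by
    by_contra h4
    exact hmh.exists_meromorphicOrderAt_ne_top_iff_forall.1 ⟨_, h4⟩ 0 htop
  rw [meromorphicOrderAt_eq_top_iff] at hall
  have hcongr : L.weierstrassP =ᶠ[𝓝[≠] (c⁻¹ * l)] fun u => c ^ 2 * L.weierstrassP (c * u) := by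
    filter_upwards [hall] with u hu
    linear_combination hu
  have ho := meromorphicOrderAt_congr hcongr
  have ho1 : 0 ≤ meromorphicOrderAt L.weierstrassP (c⁻¹ * l) :=
    (L.analyticOnNhd_weierstrassP _ hnot).meromorphicOrderAt_nonneg
  have ho2 : meromorphicOrderAt (fun u => c ^ 2 * L.weierstrassP (c * u)) (c⁻¹ * l) = -2 := by
    have h4 : AnalyticAt ℂ (fun w : ℂ => c * w) (c⁻¹ * l) := by fun_prop
    have h5 : deriv (fun w : ℂ => c * w) (c⁻¹ * l) ≠ 0 := by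
      have : HasDerivAt (fun w : ℂ => c * w) c (c⁻¹ * l) := by
        simpa using (hasDerivAt_id (c⁻¹ * l)).const_mul c
      rw [this.deriv]
      exact hc
    have h6 := meromorphicOrderAt_comp_of_deriv_ne_zero (f := L.weierstrassP) h4 h5
    have h7 : c * (c⁻¹ * l) = l := by field_simp
    rw [h7, L.order_weierstrassP l hl] at h6
    have h8 := meromorphicOrderAt_mul_of_ne_zero (f := fun u => L.weierstrassP (c * u))
      (g := fun _ => c ^ 2) (x := c⁻¹ * l) analyticAt_const (pow_ne_zero 2 hc)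
    rw [← h6]
    exact h8
  rw [ho, ho2] at ho1
  exact absurd ho1 (by decide)

theorem E4_E6_ne (c : CData) (τ : ℍ) (hτ : (τ : ℂ) = c.z) : E₄ τ ≠ 0 ∧ E₆ τ ≠ 0 := by
  have hpi : (Real.pi : ℂ) ≠ 0 := by exact_mod_cast Real.pi_ne_zero
  have h1mem : (1 : ℂ) ∈ (H32.T3.LL τ).lattice := (H32.T3.LL τ).ω₂_mem_lattice
  have hlat : ∀ x : ℂ, x ∈ (H32.T3.LL τ).lattice → ∃ m n : ℤ, x = m * c.z + n := by
    intro x hx
    rw [PeriodPair.mem_lattice] at hx
    obtain ⟨m, n, h⟩ := hx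
    refine ⟨m, n, ?_⟩
    rw [← h, ← hτ]
    change (m : ℂ) * (τ : ℂ) + (n : ℂ) * 1 = _
    ring
  constructor
  · intro h0
    obtain ⟨s, hs⟩ := IsAlgClosed.exists_pow_nat_eq (-3 : ℂ) (n := 2) (by norm_num)
    obtain ⟨a, ha⟩ : ∃ a : ℂ, a = (-1 + s) / 2 := ⟨_, rfl⟩
    have ha1 : a ^ 2 + a + 1 = 0 := by
      rw [ha]
      linear_combination hs / 4
    have ha0 : a ≠ 0 := by
      rintro rfl
      norm_num at ha1
    have ha3 : a ^ 3 = 1 := by linear_combination (a - 1) * ha1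
    have hg2 : (H32.T3.LL τ).g₂ = 0 := by rw [H32.T3.g2_eq, h0, mul_zero]
    have hst := lattice_stable (H32.T3.LL τ) a ha0 (by rw [hg2, mul_zero])
      (by
        have : a ^ 6 = 1 := by
          calc a ^ 6 = (a ^ 3) ^ 2 := by ring
            _ = 1 := by rw [ha3, one_pow]
        rw [this, one_mul]) 1 h1mem
    rw [mul_one] at hst
    obtain ⟨m, n, hmn⟩ := hlat _ hst
    have hinv : a⁻¹ = -1 - a := by
      field_simp
      linear_combination ha1
    rw [hinv] at hmn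
    have hx : (-1 - a) ^ 2 + (-1 - a) + 1 = 0 := by linear_combination ha1
    rw [hmn] at hx
    have h4 := c.hirz (n ^ 2 + n + 1) (2 * m * n + m) (m ^ 2) (by
      push_cast
      linear_combination hx)
    have h5 := h4.1
    nlinarith [sq_nonneg (2 * n + 1)]
  · intro h0
    have hg3 : (H32.T3.LL τ).g₃ = 0 := by rw [H32.T3.g3_eq, h0, mul_zero]
    have hst := lattice_stable (H32.T3.LL τ) Complex.I Complex.I_ne_zero
      (by rw [Complex.I_pow_four, one_mul]) (by rw [hg3, mul_zero]) 1 h1mem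
    rw [mul_one, Complex.inv_I] at hst
    obtain ⟨m, n, hmn⟩ := hlat _ hst
    have hx : (-Complex.I) ^ 2 + 1 = 0 := by
      rw [neg_sq, Complex.I_sq]
      norm_num
    rw [hmn] at hx
    have h4 := c.hirz (n ^ 2 + 1) (2 * m * n) (m ^ 2) (by
      push_cast
      linear_combination hx)
    have h5 := h4.1
    nlinarith [sq_nonneg n]

end CZ
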