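import Pool.Agent.H32.CZ.Qc
import Pool.Agent.H32.CZ.Qd
import Pool.Agent.H32.CZ.Qe
import Pool.Agent.H32.CZ.Qf
import Pool.Agent.H32.CZ.Qg

/-!
# MP_ede373, cubic points: the arithmetic interface (assembly)
-/

set_option autoImplicit false

open EisensteinSeries ModularForm UpperHalfPlane

namespace CZ

open MvPolynomial
open H32.T3 (nrm)

theorem arith (c : CData) (E4 E6 Jf : ℂ → ℂ)
    (h4 : ∀ τ : ℂ, E4 τ = 1 + 240 * ∑' m : ℕ, ((ArithmeticFunction.sigma 3 (m + 1) : ℕ) : ℂ) *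
          Complex.exp (2 * (Real.pi : ℂ) * Complex.I * ((m : ℂ) + 1) * τ))
    (h6 : ∀ τ : ℂ, E6 τ = 1 - 504 * ∑' m : ℕ, ((ArithmeticFunction.sigma 5 (m + 1) : ℕ) : ℂ) *
          Complex.exp (2 * (Real.pi : ℂ) * Complex.I * ((m : ℂ) + 1) * τ))
    (hJ : ∀ τ : ℂ, Jf τ = 1728 * E4 τ ^ 3 / (E4 τ ^ 3 - E6 τ ^ 2)) :
    ∃ (b : BaseFn c.z) (k : ℕ) (P : Fin k → ℂ) (lam : ℂ) (C : ℝ), lam ≠ 0 ∧ 1 ≤ C ∧
      (∀ i, IsAlgebraic (IntermediateField.adjoin ℚ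
        ({Jf c.z, deriv Jf c.z, deriv (deriv Jf) c.z} : Set ℂ)) (P i)) ∧
      (∀ (D s m : ℕ) (l : Fin 7 → Fin (D + 1)), m ≤ s → ∃ W : MvPolynomial (Fin k) ℤ,
        (W.totalDegree : ℝ) ≤ C * (D + s + 1) ∧
        nrm W ≤ Real.exp (C * (D + s + 1) * Real.log (D + s + 2)) ∧
        J s m (Phi c b D l) = lam ^ s * aeval P W) := by
  obtain ⟨τ, hτ⟩ : ∃ τ : ℍ, (τ : ℂ) = c.z := ⟨⟨c.z, c.hz⟩, rfl⟩
  obtain ⟨n4, n6⟩ := E4_E6_ne c τ hτ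
  obtain ⟨b0, lam, ep, ε, X, X1, Y, hs, hl, hp⟩ := exists_base τ n4 n6
  have key : ∀ (z : ℂ) (hz : (τ : ℂ) = z), ∃ b : BaseFn z, BaseSys b lam
      (27 / 2 * (E₄ τ ^ 3 / E₆ τ ^ 2)) (3 / 2 * (E2 τ * E₄ τ / E₆ τ)) ep ε X X1 Y := by
    rintro z rfl
    exact ⟨b0, hs⟩
  obtain ⟨b, hb⟩ := key c.z hτ
  obtain ⟨C, hC1, hC⟩ := jP_bounds c
  set e : Vr ≃ Fin (Fintype.card Vr) := Fintype.equivFin Vr with he
  refine ⟨b, Fintype.card Vr, fun i ↦ cst c lam (27 / 2 * (E₄ τ ^ 3 / E₆ τ ^ 2))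
    (3 / 2 * (E2 τ * E₄ τ / E₆ τ)) ep (e.symm i), lam, C, hb.hlam, hC1, ?_, ?_⟩
  · intro i
    exact cst_alg c τ hτ n4 n6 E4 E6 Jf h4 h6 hJ lam ep hl hp _
  · intro D s m l hm
    refine ⟨rename e (jP c D s m l), ?_, ?_, ?_⟩
    · refine le_trans ?_ (hC D s m l hm).1
      exact_mod_cast totalDegree_rename_le _ _
    · rw [nrm_rename]
      exact (hC D s m l hm).2
    · rw [J_Phi c b hb D s m l, aeval_rename]
      congr 3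
      ext v
      simp

end CZ
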