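import Pool.Agent.H22.CZ.Defs
import Pool.Agent.H32.T3.Ht

/-!
# MP_ede373, cubic points: polynomials for the jets (definitions)

Variables `Vr`: for `j : Fin 6` the values `X_j, X1_j, Y_j` at the `j`-th form; then
`inr 0 = ξ = λ ζ`, `inr 1 = z`, `inr 2 = conj z`, `inr 3 = r`, `inr 4 = 1/N`, `inr 5 = h`, `inr 6 = κ`,
`inr 7 = 2 π i / λ^2`.
-/

set_option autoImplicit false

namespace CZ

open MvPolynomial
open H32.T3 (nrm)

/-- The variables. -/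
abbrev Vr : Type := (Fin 3 × Fin 6) ⊕ Fin 8

/-- Twisted derivation. -/
noncomputable def TD {σ : Type*} (dv : σ → MvPolynomial σ ℤ) (g P : MvPolynomial σ ℤ) :
    MvPolynomial σ ℤ := mkDerivation ℤ dv P + g * P

/-- Variables `X_j`, `X1_j`, `Y_j`. -/
noncomputable def xv (a : Fin 3) (j : Fin 6) : MvPolynomial Vr ℤ := X (Sum.inl (a, j))

/-- The other variables. -/
noncomputable def kv (i : Fin 8) : MvPolynomial Vr ℤ := X (Sum.inr i)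

/-- The six forms, as polynomials. -/
noncomputable def nuP (j : Fin 6) (x : MvPolynomial Vr ℤ) : MvPolynomial Vr ℤ :=
  (![1, x, x ^ 2, 1 + x, 1 + x ^ 2, x + x ^ 2] : Fin 6 → MvPolynomial Vr ℤ) j

/-- `u_j` in the direction `(1, m)`. -/
noncomputable def alP (m : ℕ) (j : Fin 6) : MvPolynomial Vr ℤ :=
  (kv 1 - kv 2) * nuP j (kv 2) + C (m : ℤ) * ((kv 1 - kv 3) * nuP j (kv 3))

/-- The derivation on the variables. -/
noncomputable def dvP (m : ℕ) : Vr → MvPolynomial Vr ℤ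
  | Sum.inl (0, j) => alP m j * xv 1 j
  | Sum.inl (1, j) => alP m j * (C 6 * xv 0 j ^ 2 - kv 5)
  | Sum.inl (2, j) => alP m j * (-xv 0 j - kv 6)
  | Sum.inr 0 => 1
  | Sum.inr _ => 0

section

variable (c : CData)

/-- `f'`. -/
noncomputable def fpP (x : MvPolynomial Vr ℤ) : MvPolynomial Vr ℤ :=
  C 3 * x ^ 2 + C (2 * c.b2) * kv 4 * x + C c.b1 * kv 4

/-- `N f' x^l`. -/
noncomputable def beP (l : Fin 2) (x : MvPolynomial Vr ℤ) : MvPolynomial Vr ℤ :=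
  (C (3 * (c.N : ℤ)) * x ^ 2 + C (2 * c.b2) * x + C c.b1) * x ^ (l : ℕ)

/-- The coefficients of `(f x - f y)/(x - y)`. -/
noncomputable def ccP (j : Fin 3) (x : MvPolynomial Vr ℤ) : MvPolynomial Vr ℤ :=
  (![x ^ 2 + C c.b2 * kv 4 * x + C c.b1 * kv 4, x + C c.b2 * kv 4, 1] :
    Fin 3 → MvPolynomial Vr ℤ) j

/-- `Z_1 / W`. -/
noncomputable def zP1 : MvPolynomial Vr ℤ :=
  ∑ j : Fin 3, ccP c j (kv 2) * xv 2 (i3 j) + kv 7 * fpP c (kv 2) * kv 0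

/-- `Z_2 / W` in the direction `(1, m)`. -/
noncomputable def zP2 (m : ℕ) : MvPolynomial Vr ℤ :=
  ∑ j : Fin 3, ccP c j (kv 3) * xv 2 (i3 j) + C (m : ℤ) * (kv 7 * fpP c (kv 3) * kv 0)

/-- The algebraic part of `Φ_l`. -/
noncomputable def polP {D : ℕ} (m : ℕ) (l : Fin 7 → Fin (D + 1)) : MvPolynomial Vr ℤ :=
  xv 0 0 ^ (l 0 : ℕ) * xv 0 1 ^ (l 1 : ℕ) * xv 0 2 ^ (l 2 : ℕ) * zP1 c ^ (l 3 : ℕ) *
    zP2 c m ^ (l 4 : ℕ)

/-- The exponent of `A(u_j)` in `Φ_l`. -/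
def nnE (D : ℕ) (l : Fin 7 → Fin (D + 1)) (j : Fin 6) : ℕ :=
  (if (j : ℕ) < 3 then 4 * D else 0) +
    (c.hp 0 j * (l 5 : ℕ) + c.hm 0 j * (D - (l 5 : ℕ))) +
    (c.hp 1 j * (l 6 : ℕ) + c.hm 1 j * (D - (l 6 : ℕ)))

/-- The factor of the twisted derivation. -/
noncomputable def gP (D m : ℕ) (l : Fin 7 → Fin (D + 1)) : MvPolynomial Vr ℤ :=
  ∑ j : Fin 6, C (nnE c D l j : ℤ) * (alP m j * xv 2 j) +
    kv 7 * kv 0 * (C ((l 5 : ℕ) : ℤ) * (beP c 0 (kv 2) * (kv 1 - kv 2) +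
        C ((m : ℤ) ^ 2) * (beP c 0 (kv 3) * (kv 1 - kv 3))) +
      C ((l 6 : ℕ) : ℤ) * (beP c 1 (kv 2) * (kv 1 - kv 2) +
        C ((m : ℤ) ^ 2) * (beP c 1 (kv 3) * (kv 1 - kv 3))))

/-- The polynomial of the jet `J s m (Φ_l)`. -/
noncomputable def jP (D s m : ℕ) (l : Fin 7 → Fin (D + 1)) : MvPolynomial Vr ℤ :=
  (TD (dvP m) (gP c D m l))^[s] (polP c m l)

end

/-- The analytic data near `0` attached to base functions: `X = B / A ^ 2` etc. -/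
structure BaseSys {z : ℂ} (b : BaseFn z) (lam h kap ep : ℂ) (ε : ℝ) (X X1 Y : ℂ → ℂ) : Prop where
  hε : 0 < ε
  hlam : lam ≠ 0
  hmu : b.mu = lam⁻¹
  hB : ∀ s : ℂ, ‖s‖ < ε → b.B s = b.A s ^ 2 * X s
  hA : ∀ s : ℂ, ‖s‖ < ε → b.mu * deriv b.A s = b.A s * Y s
  dX : ∀ s : ℂ, ‖s‖ < ε → HasDerivAt X (lam * X1 s) s
  dX1 : ∀ s : ℂ, ‖s‖ < ε → HasDerivAt X1 (lam * (6 * X s ^ 2 - h)) s
  dY : ∀ s : ℂ, ‖s‖ < ε → HasDerivAt Y (lam * (-X s - kap)) s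
  X0 : X 0 = ep
  X10 : X1 0 = 0
  Y0 : Y 0 = 0

/-- The constants. -/
noncomputable def cst (c : CData) (lam h kap ep : ℂ) : Vr → ℂ
  | Sum.inl (0, _) => ep
  | Sum.inl (_, _) => 0
  | Sum.inr i => (![0, c.z, c.zb, c.r, 1 / c.N, h, kap, 2 * Real.pi * Complex.I / lam ^ 2] :
      Fin 8 → ℂ) i

end CZ
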