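import Mathlib
import Pool.Agent.H32.T3.Ht

/-!
# MP_ede373, cubic points: definitions of the number theory part

* `LocBd x a`: the natural number `a` bounds the denominators of `x` in a number field.
* `hE x`: height of `x` in the number field `E` (not normalised).
* `Appr P κ`: the tuple `P` has approximations by algebraic points of exponent `κ`.
* polynomials in two variables are elements of `ℤ[X][X]`; the INNER variable is the first one.
-/

set_option autoImplicit false

namespace CZ

open Polynomial

/-- `a` bounds the denominators of `x`: for all `p` the `p`-adic part of the height of `x`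
(product over all embeddings in an algebraic closure of `ℚ_p`) is at most `|a|_p⁻¹`. -/
def LocBd {E : Type*} [Field E] [NumberField E] (x : E) (a : ℕ) : Prop :=
  ∀ (p : ℕ) [Fact p.Prime], ∏ σ : E →+* PadicAlgCl p, max 1 ‖σ x‖ ≤ ‖((a : ℕ) : PadicAlgCl p)‖⁻¹

/-- The denominator of `x`. -/
noncomputable def den {E : Type*} [Field E] [NumberField E] (x : E) : ℕ :=
  sInf {a : ℕ | 0 < a ∧ LocBd x a}

/-- The (not normalised) logarithmic height. -/
noncomputable def hE {E : Type*} [Field E] [NumberField E] (x : E) : ℝ :=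
  Real.log (den x) + ∑ φ : E →+* ℂ, Real.log (max 1 ‖φ x‖)

/-- There is an algebraic point (a tuple `x` of elements of a number field `E`) of size at most `t`
and a set of embeddings for which the images of `x` are close to `P`, of total closeness `≥ V`. -/
def ApprAt {k : ℕ} (P : Fin k → ℂ) (t V : ℝ) : Prop :=
  ∃ (E : Type) (_ : Field E) (_ : NumberField E) (x : Fin k → E)
    (S : Finset (E →+* ℂ)) (d : (E →+* ℂ) → ℝ),
    (Module.finrank ℚ E : ℝ) ≤ t ∧ (∀ i, hE (x i) ≤ t) ∧
    (∀ φ ∈ S, 0 ≤ d φ ∧ ∀ i, ‖φ (x i) - P i‖ ≤ Real.exp (-d φ)) ∧ V ≤ ∑ φ ∈ S, d φ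

/-- Approximations by algebraic points with exponent `κ`. -/
def Appr {k : ℕ} (P : Fin k → ℂ) (κ : ℝ) : Prop :=
  ∀ U0 : ℝ, ∃ t V : ℝ, 1 ≤ t ∧ U0 ≤ V ∧ t ^ κ ≤ V ∧ ApprAt P t V

/-- Sum of the absolute values of the coefficients, one variable. -/
noncomputable def nr (f : ℤ[X]) : ℝ := f.sum fun _ a ↦ |(a : ℝ)|

/-- Sum of the absolute values of the coefficients, two variables. -/
noncomputable def nr2 (P : ℤ[X][X]) : ℝ := P.sum fun _ f ↦ nr f

/-- Degree in the inner variable. -/
noncomputable def dX (P : ℤ[X][X]) : ℕ := P.support.sup fun j ↦ (P.coeff j).natDegree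

/-- Total degree. -/
noncomputable def dT (P : ℤ[X][X]) : ℕ := P.support.sup fun j ↦ j + (P.coeff j).natDegree

/-- Size of a polynomial in two variables. -/
noncomputable def mu2 (P : ℤ[X][X]) : ℝ := P.natDegree + dX P + Real.log (nr2 P)

/-- Mahler measure of an integer polynomial. -/
noncomputable def mah (f : ℤ[X]) : ℝ := (f.map (Int.castRingHom ℂ)).mahlerMeasure

/-- Value at `(x, y)`, where `x` is put in the inner variable. -/
noncomputable def evH {A : Type*} [CommRing A] (x y : A) : ℤ[X][X] →+* A :=
  eval₂RingHom (eval₂RingHom (Int.castRingHom A) x) y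

/-- The shear: inner variable `X ↦ X - k Y`, outer variable fixed. -/
noncomputable def shr (k : ℤ) : ℤ[X][X] →+* ℤ[X][X] :=
  eval₂RingHom (eval₂RingHom (Int.castRingHom ℤ[X][X]) (C X - C (C k) * X)) X

end CZ
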