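import Pool.Agent.H32.CZ.Q0

/-!
# MP_ede373, cubic points, row Qa: bounds for iterates of a twisted derivation

Model: `Pool/Agent/H32/T3/Der.lean` (lemmas `DD_monomial`, `nrm_DD_monomial`, `nrm_DD_le`,
`deg_DD_monomial`, `deg_DD_le`, `deg_iter`, `nrm_iter`, `hasDerivAt_aeval`), with `Fin 5` replaced by any
finite `σ`, `7` by `c`, and the extra term `g * P` (`nrm_mul_le`, `totalDegree_mul`).
`deg_TD_iter`: one step adds `e` to the degree: the derivation of a monomial of degree `d` has degree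
`≤ d - 1 + (e + 1)`. `nrm_TD_iter`: `nrm (TD P) ≤ (c deg P + cg) nrm P`, iterate with
`deg ≤ deg P + e t`.
`nrm_rename`: `rename` by an equivalence permutes the monomials.
`iteratedDeriv_TD`: induction on `s`: on the open set `U` the function `iteratedDeriv s` is equal to the
formula for `s`, so its derivative at `u ∈ U` is the derivative of the formula (product rule,
`hasDerivAt_aeval'`), which is the formula for `s + 1` (`Function.iterate_succ_apply'`,
`iteratedDeriv_succ`, `Filter.EventuallyEq.deriv_eq`, `IsOpen.mem_nhds`).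
-/

set_option autoImplicit false

namespace CZ

open MvPolynomial
open H32.T3 (nrm)

variable {σ : Type*} [Fintype σ]

private lemma der_monomial' (dv : σ → MvPolynomial σ ℤ) (s : σ →₀ ℕ) (r : ℤ) :
    mkDerivation ℤ dv (monomial s r) =
      r • ∑ i, monomial (s - Finsupp.single i 1) ((s i : ℕ) : ℤ) * dv i := by
  rw [mkDerivation_monomial, Finsupp.sum_fintype _ _ (by simp)]
  simp [smul_eq_mul]

private lemma nrm_der_monomial (dv : σ → MvPolynomial σ ℤ) (a : ℝ) (hc : ∀ i, nrm (dv i) ≤ a)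
    (s : σ →₀ ℕ) (r : ℤ) :
    nrm (mkDerivation ℤ dv (monomial s r)) ≤ |(r : ℝ)| * (a * s.degree) := by
  rw [der_monomial', smul_eq_C_mul]
  refine (H32.T3.nrm_mul_le _ _).trans ?_
  rw [H32.T3.nrm_C]
  gcongr
  refine (H32.T3.nrm_sum_le _ _).trans ?_
  calc ∑ i, nrm (monomial (s - Finsupp.single i 1) ((s i : ℕ) : ℤ) * dv i)
      ≤ ∑ i, (s i : ℝ) * a := by
        refine Finset.sum_le_sum fun i _ ↦ (H32.T3.nrm_monomial_mul _ _ _).trans ?_
        have := hc i
        have h0 : (0 : ℝ) ≤ s i := by positivity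
        simp only [Int.cast_natCast, abs_of_nonneg h0]
        gcongr
    _ = a * s.degree := by
        rw [← Finset.sum_mul, Finsupp.degree_eq_sum]
        push_cast
        ring

private lemma degree_le_of_mem (P : MvPolynomial σ ℤ) {m : σ →₀ ℕ} (hm : m ∈ P.support) :
    m.degree ≤ P.totalDegree := by
  have := le_totalDegree hm
  rw [Finsupp.sum_fintype _ _ (by simp)] at this
  rwa [Finsupp.degree_eq_sum]

private lemma nrm_der_le (dv : σ → MvPolynomial σ ℤ) (a : ℝ) (ha : 0 ≤ a)
    (hc : ∀ i, nrm (dv i) ≤ a) (P : MvPolynomial σ ℤ) :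
    nrm (mkDerivation ℤ dv P) ≤ a * P.totalDegree * nrm P := by
  conv_lhs => rw [P.as_sum, map_sum]
  refine (H32.T3.nrm_sum_le _ _).trans ?_
  rw [nrm, Finset.mul_sum]
  refine Finset.sum_le_sum fun m hm ↦ (nrm_der_monomial dv a hc _ _).trans ?_
  have h1 := degree_le_of_mem P hm
  have h2 : (m.degree : ℝ) ≤ P.totalDegree := by exact_mod_cast h1
  have h3 := abs_nonneg ((coeff m P : ℤ) : ℝ)
  rw [mul_comm]
  gcongr

private lemma deg_der_monomial (dv : σ → MvPolynomial σ ℤ) (e : ℕ)
    (hdv : ∀ i, (dv i).totalDegree ≤ e + 1) (s : σ →₀ ℕ) (r : ℤ) :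
    (mkDerivation ℤ dv (monomial s r)).totalDegree ≤ s.degree + e := by
  rw [der_monomial']
  refine (totalDegree_smul_le _ _).trans ?_
  refine totalDegree_finsetSum_le fun i _ ↦ ?_
  rcases Nat.eq_zero_or_pos (s i) with h | h
  · simp [h]
  refine (totalDegree_mul _ _).trans ?_
  have h1 := hdv i
  have h2 : (monomial (s - Finsupp.single i 1) ((s i : ℕ) : ℤ)).totalDegree + 1 ≤ s.degree := by
    rw [totalDegree_monomial _ (by exact_mod_cast h.ne')]
    have h3 : (s - Finsupp.single i 1) + Finsupp.single i 1 = s :=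
      tsub_add_cancel_of_le (by
        rw [Finsupp.single_le_iff]; exact h)
    have h4 := congrArg Finsupp.degree h3
    rw [map_add, Finsupp.degree_single] at h4
    rw [Finsupp.degree_eq_sum, ← Finsupp.sum_fintype (f := s - Finsupp.single i 1)
      (fun _ e ↦ e) (by simp)] at h4
    exact h4.le
  omega

private lemma deg_der_le (dv : σ → MvPolynomial σ ℤ) (e : ℕ)
    (hdv : ∀ i, (dv i).totalDegree ≤ e + 1) (P : MvPolynomial σ ℤ) :
    (mkDerivation ℤ dv P).totalDegree ≤ P.totalDegree + e := by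
  conv_lhs => rw [P.as_sum, map_sum]
  refine totalDegree_finsetSum_le fun m hm ↦ (deg_der_monomial dv e hdv _ _).trans ?_
  have h1 := degree_le_of_mem P hm
  omega

private lemma deg_TD_le (dv : σ → MvPolynomial σ ℤ) (g : MvPolynomial σ ℤ) (e : ℕ)
    (hdv : ∀ i, (dv i).totalDegree ≤ e + 1) (hg : g.totalDegree ≤ e) (P : MvPolynomial σ ℤ) :
    (TD dv g P).totalDegree ≤ P.totalDegree + e := by
  rw [TD]
  refine (totalDegree_add _ _).trans (max_le (deg_der_le dv e hdv P) ?_)
  have := totalDegree_mul g P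
  omega

theorem deg_TD_iter (dv : σ → MvPolynomial σ ℤ) (g : MvPolynomial σ ℤ) (e : ℕ)
    (hdv : ∀ i, (dv i).totalDegree ≤ e + 1) (hg : g.totalDegree ≤ e) (P : MvPolynomial σ ℤ)
    (t : ℕ) : ((TD dv g)^[t] P).totalDegree ≤ P.totalDegree + e * t := by
  induction t with
  | zero => simp
  | succ t ih =>
    rw [Function.iterate_succ_apply']
    have := deg_TD_le dv g e hdv hg ((TD dv g)^[t] P)
    rw [mul_add, mul_one]
    omega

private lemma nrm_TD_le (dv : σ → MvPolynomial σ ℤ) (g : MvPolynomial σ ℤ) (a ag : ℝ)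
    (ha : 0 ≤ a) (hc : ∀ i, nrm (dv i) ≤ a) (hcg : nrm g ≤ ag) (P : MvPolynomial σ ℤ) :
    nrm (TD dv g P) ≤ (a * P.totalDegree + ag) * nrm P := by
  rw [TD]
  refine (H32.T3.nrm_add_le _ _).trans ?_
  have h1 := nrm_der_le dv a ha hc P
  have h2 := H32.T3.nrm_mul_le g P
  have h3 := mul_le_mul_of_nonneg_right hcg (H32.T3.nrm_nonneg P)
  rw [add_mul]
  linarith

theorem nrm_TD_iter (dv : σ → MvPolynomial σ ℤ) (g : MvPolynomial σ ℤ) (e : ℕ)
    (hdv : ∀ i, (dv i).totalDegree ≤ e + 1) (hg : g.totalDegree ≤ e) (a ag : ℝ) (ha : 0 ≤ a)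
    (hc : ∀ i, nrm (dv i) ≤ a) (hcg : nrm g ≤ ag) (P : MvPolynomial σ ℤ) (t : ℕ) :
    nrm ((TD dv g)^[t] P) ≤ (a * (P.totalDegree + e * t) + ag) ^ t * nrm P := by
  have hag : 0 ≤ ag := (H32.T3.nrm_nonneg g).trans hcg
  have key : ∀ s, s ≤ t →
      nrm ((TD dv g)^[s] P) ≤ (a * ((P.totalDegree : ℝ) + e * t) + ag) ^ s * nrm P := by
    intro s
    induction s with
    | zero => intro _; simp
    | succ s ih =>
      intro hs
      rw [Function.iterate_succ_apply']
      refine (nrm_TD_le dv g a ag ha hc hcg _).trans ?_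
      have h1 : (((TD dv g)^[s] P).totalDegree : ℝ) ≤ P.totalDegree + e * t := by
        have h := deg_TD_iter dv g e hdv hg P s
        have h' : e * s ≤ e * t := Nat.mul_le_mul_left e (by omega)
        exact_mod_cast (show ((TD dv g)^[s] P).totalDegree ≤ P.totalDegree + e * t by omega)
      have h2 := ih (by omega)
      have h3 := H32.T3.nrm_nonneg ((TD dv g)^[s] P)
      calc (a * (((TD dv g)^[s] P).totalDegree : ℝ) + ag) * nrm ((TD dv g)^[s] P)
          ≤ (a * ((P.totalDegree : ℝ) + e * t) + ag) *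
              ((a * ((P.totalDegree : ℝ) + e * t) + ag) ^ s * nrm P) := by gcongr
        _ = _ := by rw [pow_succ]; ring
  exact key t le_rfl

theorem nrm_rename {τ : Type*} [Fintype τ] (e : σ ≃ τ) (P : MvPolynomial σ ℤ) :
    nrm (rename e P) = nrm P := by
  classical
  unfold nrm
  rw [support_rename_of_injective e.injective,
    Finset.sum_image (fun x _ y _ h ↦ Finsupp.mapDomain_injective e.injective h)]
  refine Finset.sum_congr rfl fun m _ ↦ ?_
  rw [coeff_rename_mapDomain _ e.injective]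

theorem hasDerivAt_aeval' {f : σ → ℂ → ℂ} {lam u : ℂ} (dv : σ → MvPolynomial σ ℤ)
    (hf : ∀ i, HasDerivAt (f i) (lam * aeval (fun j ↦ f j u) (dv i)) u)
    (P : MvPolynomial σ ℤ) :
    HasDerivAt (fun v ↦ aeval (fun j ↦ f j v) P)
      (lam * aeval (fun j ↦ f j u) (mkDerivation ℤ dv P)) u := by
  induction P using MvPolynomial.induction_on with
  | C a =>
    simp only [algHom_C, derivation_C, map_zero, mul_zero]
    exact hasDerivAt_const _ _
  | add p q hp hq =>
    simp only [map_add, mul_add]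
    exact hp.add hq
  | mul_X p i hp =>
    have h := hp.mul (hf i)
    have e : (fun u ↦ aeval (fun j ↦ f j u) (p * X i)) =
        (fun u ↦ aeval (fun j ↦ f j u) p) * f i := by
      ext u; simp
    have hD : mkDerivation ℤ dv (X i) = dv i := mkDerivation_X _ _ _
    have e2 : lam * aeval (fun j ↦ f j u) (mkDerivation ℤ dv (p * X i)) =
        lam * aeval (fun j ↦ f j u) (mkDerivation ℤ dv p) * f i u +
          aeval (fun j ↦ f j u) p * (lam * aeval (fun j ↦ f j u) (dv i)) := by
      rw [Derivation.leibniz, hD]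
      simp only [smul_eq_mul, map_add, map_mul, aeval_X]
      ring
    rw [e, e2]
    exact h

theorem iteratedDeriv_TD {f : σ → ℂ → ℂ} {m : ℂ → ℂ} {lam : ℂ} (dv : σ → MvPolynomial σ ℤ)
    (g : MvPolynomial σ ℤ) (U : Set ℂ) (hU : IsOpen U)
    (hf : ∀ u ∈ U, ∀ i, HasDerivAt (f i) (lam * aeval (fun j ↦ f j u) (dv i)) u)
    (hm : ∀ u ∈ U, HasDerivAt m (lam * (m u * aeval (fun j ↦ f j u) g)) u)
    (P : MvPolynomial σ ℤ) (s : ℕ) (u : ℂ) (hu : u ∈ U) :
    iteratedDeriv s (fun v ↦ m v * aeval (fun j ↦ f j v) P) u =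
      lam ^ s * (m u * aeval (fun j ↦ f j u) ((TD dv g)^[s] P)) := by
  induction s generalizing u with
  | zero => simp
  | succ s ih =>
    rw [iteratedDeriv_succ]
    have heq : iteratedDeriv s (fun v ↦ m v * aeval (fun j ↦ f j v) P) =ᶠ[nhds u]
        fun v ↦ lam ^ s * (m v * aeval (fun j ↦ f j v) ((TD dv g)^[s] P)) := by
      filter_upwards [hU.mem_nhds hu] with v hv
      exact ih v hv
    rw [heq.deriv_eq, Function.iterate_succ_apply']
    have h1 := ((hm u hu).mul (hasDerivAt_aeval' dv (hf u hu) ((TD dv g)^[s] P))).const_mul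
      (lam ^ s)
    have h2 := h1.deriv
    have h3 : (fun v ↦ lam ^ s * (m v * aeval (fun j ↦ f j v) ((TD dv g)^[s] P))) =
        fun y ↦ lam ^ s * (m * fun v ↦ aeval (fun j ↦ f j v) ((TD dv g)^[s] P)) y := rfl
    rw [h3, h2]
    simp only [TD, map_add, map_mul]
    ring

end CZ
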