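import Pool.Agent.H32.CZ.Ha

/-!
# MP_ede373, cubic points, row Hb: Liouville inequality for a set of embeddings

Tools: `H32.T3.abv_aeval_le` (archimedean) and `H32.T3.abv_aeval_le_nonarch` of
`Pool/Agent/H32/T3/Ht.lean`, applied to the absolute value `v y = ‖σ y‖` on `E`
(`σ : E →+* PadicAlgCl p`, or `φ : E →+* ℂ`; for instance
`(NormedField.toAbsoluteValue _).comp σ.injective`), with exponents `d i = N` (every monomial `m` of
`F` has `m i ≤ N`, from `totalDegree F ≤ N`).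

Proof. `n = finrank ℚ E`, `a_i = den (x i)`, `y = aeval x F ≠ 0`, `ν = Algebra.norm ℚ y ≠ 0`,
`A = (∏ a_i) ^ N`.
For every prime `p`: `‖ν‖_p = ∏_σ ‖σ y‖ ≤ ∏_σ ∏_i (max 1 ‖σ (x i)‖) ^ N = ∏_i (∏_σ max 1 ‖σ (x i)‖) ^ N
≤ ∏_i ‖a_i‖_p⁻¹ ^ N = ‖A‖_p⁻¹`, so `‖A ν‖_p ≤ 1`. By `int_of_padic`, `A ν` is an integer, not zero,
so `|A ν| ≥ 1`: `∑_φ log ‖φ y‖ = log |ν| ≥ - N ∑_i log a_i` (`prod_emb_complex`).
For every `φ`: `‖φ y‖ ≤ nrm F ∏_i (max 1 ‖φ (x i)‖) ^ N`, and `nrm F ≥ 1` (`one_le_nrm`), so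
`log ‖φ y‖ ≤ log (nrm F) + N ∑_i log (max 1 ‖φ (x i)‖)`, the right side being `≥ 0`. Hence
`-∑_{φ ∈ S} log ‖φ y‖ = -∑_φ log ‖φ y‖ + ∑_{φ ∉ S} log ‖φ y‖
 ≤ N ∑_i log a_i + ∑_φ (log (nrm F) + N ∑_i log (max 1 ‖φ (x i)‖)) = n log (nrm F) + N ∑_i hE (x i)`.
-/

set_option autoImplicit false

namespace CZ

open Polynomial

variable {E : Type*} [Field E] [NumberField E]

theorem liouville {k : ℕ} (x : Fin k → E) (F : MvPolynomial (Fin k) ℤ) (N : ℕ)
    (hN : F.totalDegree ≤ N) (hF : MvPolynomial.aeval x F ≠ 0) (S : Finset (E →+* ℂ)) :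
    -∑ φ ∈ S, Real.log ‖φ (MvPolynomial.aeval x F)‖ ≤
      Module.finrank ℚ E * Real.log (H32.T3.nrm F) + N * ∑ i, hE (x i) := by
  classical
  have hdeg : ∀ m ∈ F.support, ∀ i, m i ≤ (fun _ : Fin k => N) i := fun m hm i =>
    (MvPolynomial.monomial_le_degreeOf i hm).trans
      ((MvPolynomial.degreeOf_le_totalDegree F i).trans hN)
  have hF0 : F ≠ 0 := by
    rintro rfl
    exact hF (map_zero _)
  set y : E := MvPolynomial.aeval x F with hy
  have hnrm : 1 ≤ H32.T3.nrm F := H32.T3.one_le_nrm hF0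
  have hden : ∀ i, 0 < den (x i) := fun i => (den_spec (x i)).1
  set A : ℕ := (∏ i, den (x i)) ^ N with hA
  have hA0 : 0 < A := pow_pos (Finset.prod_pos fun i _ => hden i) _
  set ν : ℚ := Algebra.norm ℚ y with hν
  have hν0 : ν ≠ 0 := Algebra.norm_ne_zero_iff.2 hF
  -- the p-adic part
  have hpad : ∀ (p : ℕ) [Fact p.Prime], ‖(((A : ℚ) * ν : ℚ) : PadicAlgCl p)‖ ≤ 1 := by
    intro p _
    have h1 : ∀ σ : E →+* PadicAlgCl p, ‖σ y‖ ≤ ∏ i, (max 1 ‖σ (x i)‖) ^ N := by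
      intro σ
      have hna : IsNonarchimedean
          ((NormedField.toAbsoluteValue (PadicAlgCl p)).comp σ.injective) := by
        intro a b
        have h2 := PadicAlgCl.isNonarchimedean p (σ a) (σ b)
        rw [← map_add] at h2
        exact h2
      have h3 := H32.T3.abv_aeval_le_nonarch hna x F (d := fun _ => N) hdeg
      refine le_trans h3 (le_of_eq ?_)
      refine Finset.prod_congr rfl fun i _ => ?_
      rw [max_comm]
      rfl
    have h4 : ‖(ν : PadicAlgCl p)‖ = ∏ σ : E →+* PadicAlgCl p, ‖σ y‖ := by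
      rw [← norm_prod, prod_emb_padic]
    have h5 : ‖(ν : PadicAlgCl p)‖ ≤ ‖((A : ℕ) : PadicAlgCl p)‖⁻¹ := by
      rw [h4]
      calc ∏ σ : E →+* PadicAlgCl p, ‖σ y‖
          ≤ ∏ σ : E →+* PadicAlgCl p, ∏ i, (max 1 ‖σ (x i)‖) ^ N :=
            Finset.prod_le_prod (fun σ _ => norm_nonneg _) fun σ _ => h1 σ
        _ = ∏ i, (∏ σ : E →+* PadicAlgCl p, max 1 ‖σ (x i)‖) ^ N := by
            rw [Finset.prod_comm]
            exact Finset.prod_congr rfl fun i _ => Finset.prod_pow _ _ _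
        _ ≤ ∏ i, (‖((den (x i) : ℕ) : PadicAlgCl p)‖⁻¹) ^ N := by
            refine Finset.prod_le_prod (fun i _ => ?_) fun i _ => ?_
            · exact pow_nonneg (Finset.prod_nonneg fun σ _ =>
                zero_le_one.trans (le_max_left _ _)) _
            · exact pow_le_pow_left₀ (Finset.prod_nonneg fun σ _ =>
                zero_le_one.trans (le_max_left _ _)) ((den_spec (x i)).2 p) _
        _ = ‖((A : ℕ) : PadicAlgCl p)‖⁻¹ := by
            rw [hA, Finset.prod_pow, Finset.prod_inv_distrib, inv_pow]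
            push_cast
            rw [norm_pow, norm_prod]
    push_cast
    rw [norm_mul]
    calc ‖((A : ℕ) : PadicAlgCl p)‖ * ‖(ν : PadicAlgCl p)‖
        ≤ ‖((A : ℕ) : PadicAlgCl p)‖ * ‖((A : ℕ) : PadicAlgCl p)‖⁻¹ :=
          mul_le_mul_of_nonneg_left h5 (norm_nonneg _)
      _ ≤ 1 := mul_inv_le_one
  obtain ⟨m, hm⟩ := int_of_padic ((A : ℚ) * ν) (fun p _ => hpad p)
  have hm0 : m ≠ 0 := by
    rintro rfl
    have h6 : (A : ℚ) * ν = 0 := by simpa using hm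
    rcases mul_eq_zero.1 h6 with h7 | h7
    · exact hA0.ne' (by exact_mod_cast h7)
    · exact hν0 h7
  have hAν : (1 : ℝ) ≤ (A : ℝ) * |(ν : ℝ)| := by
    have h8 : ((A : ℝ) * (ν : ℝ)) = (m : ℝ) := by
      have := congrArg (fun q : ℚ => (q : ℝ)) hm
      push_cast at this
      exact this
    have h9 : (1 : ℝ) ≤ |(m : ℝ)| := by
      have := Int.one_le_abs hm0
      exact_mod_cast this
    rw [← h8, abs_mul, abs_of_nonneg (Nat.cast_nonneg A)] at h9
    exact h9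
  have hlogν : -(Real.log A) ≤ Real.log |(ν : ℝ)| := by
    have h10 : (0 : ℝ) < A := by exact_mod_cast hA0
    have h11 : (0 : ℝ) < |(ν : ℝ)| := abs_pos.2 (by exact_mod_cast hν0)
    have h12 := Real.log_nonneg hAν
    rw [Real.log_mul h10.ne' h11.ne'] at h12
    linarith
  have hlogA : Real.log A = N * ∑ i, Real.log (den (x i)) := by
    rw [hA]
    push_cast
    rw [Real.log_pow, Real.log_prod]
    intro i _
    exact_mod_cast (hden i).ne'
  -- the archimedean part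
  have hne : ∀ φ : E →+* ℂ, 0 < ‖φ y‖ := fun φ =>
    norm_pos_iff.2 ((map_ne_zero φ).2 hF)
  have hall : ∑ φ : E →+* ℂ, Real.log ‖φ y‖ = Real.log |(ν : ℝ)| := by
    rw [← Real.log_prod (fun φ _ => (hne φ).ne'), ← norm_prod, prod_emb_complex]
    congr 1
    rw [← hν]
    simp
  set B : (E →+* ℂ) → ℝ := fun φ =>
    Real.log (H32.T3.nrm F) + N * ∑ i, Real.log (max 1 ‖φ (x i)‖) with hB
  have hB0 : ∀ φ, 0 ≤ B φ := by
    intro φ
    refine add_nonneg (Real.log_nonneg hnrm) (mul_nonneg (Nat.cast_nonneg _) ?_)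
    exact Finset.sum_nonneg fun i _ => Real.log_nonneg (le_max_left _ _)
  have hBle : ∀ φ : E →+* ℂ, Real.log ‖φ y‖ ≤ B φ := by
    intro φ
    have h13 := H32.T3.abv_aeval_le
      ((NormedField.toAbsoluteValue ℂ).comp φ.injective) x F (d := fun _ => N) hdeg
    have h14 : ‖φ y‖ ≤ H32.T3.nrm F * ∏ i, (max 1 ‖φ (x i)‖) ^ N := by
      refine le_trans h13 (le_of_eq ?_)
      congr 1
      refine Finset.prod_congr rfl fun i _ => ?_
      rw [max_comm]
      rfl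
    have h15 : (0 : ℝ) < ∏ i, (max 1 ‖φ (x i)‖) ^ N :=
      Finset.prod_pos fun i _ => pow_pos (lt_of_lt_of_le one_pos (le_max_left _ _)) _
    calc Real.log ‖φ y‖ ≤ Real.log (H32.T3.nrm F * ∏ i, (max 1 ‖φ (x i)‖) ^ N) :=
          Real.log_le_log (hne φ) h14
      _ = B φ := by
          rw [Real.log_mul (by linarith) h15.ne', Real.log_prod
            (fun i _ => (pow_pos (lt_of_lt_of_le one_pos (le_max_left _ _)) _).ne'), hB]
          simp only [Real.log_pow, Finset.mul_sum]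
  have hsplit : ∑ φ : E →+* ℂ, Real.log ‖φ y‖ =
      ∑ φ ∈ S, Real.log ‖φ y‖ + ∑ φ ∈ Sᶜ, Real.log ‖φ y‖ :=
    (Finset.sum_add_sum_compl S _).symm
  have h16 : ∑ φ ∈ Sᶜ, Real.log ‖φ y‖ ≤ ∑ φ : E →+* ℂ, B φ :=
    (Finset.sum_le_sum fun φ _ => hBle φ).trans
      (Finset.sum_le_sum_of_subset_of_nonneg (Finset.subset_univ _) fun φ _ _ => hB0 φ)
  have h17 : ∑ φ : E →+* ℂ, B φ = Module.finrank ℚ E * Real.log (H32.T3.nrm F) +
      N * ∑ i, ∑ φ : E →+* ℂ, Real.log (max 1 ‖φ (x i)‖) := by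
    rw [hB, Finset.sum_add_distrib, Finset.sum_const, Finset.card_univ,
      NumberField.Embeddings.card E ℂ, nsmul_eq_mul, ← Finset.mul_sum, Finset.sum_comm]
  have h18 : (N : ℝ) * ∑ i, hE (x i) = N * ∑ i, Real.log (den (x i)) +
      N * ∑ i, ∑ φ : E →+* ℂ, Real.log (max 1 ‖φ (x i)‖) := by
    rw [← mul_add, ← Finset.sum_add_distrib]
    rfl
  rw [h18]
  rw [hlogA] at hlogν
  linarith

end CZ
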