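import Pool.Agent.H32.CZ.Nb

/-!
# MP_ede373, cubic points, row Pj: a good irreducible factor, one variable

Proof. `s = UniqueFactorizationMonoid.factors R` (irreducible, product associated to `R`; the units of
`ℤ[X]` are `± 1`). `natDegree` and `log mah` are additive (`Polynomial.natDegree_mul`,
`mahlerMeasure_mul`, all measures are `≥ 1`: `one_le_mahlerMeasure_of_ne_zero`); so
`∑_{r ∈ s} μ(r) = μ(R)`, `μ(r) = natDegree r + log (mah r) ≥ 0`, and `∑_{r ∈ s} -log ‖r(u)‖ = -log ‖R(u)‖ ≥ V`. Constant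
factors are integers `≠ 0`, so their `-log ‖·‖` is `≤ 0`. If every nonconstant `r ∈ s` had
`μ(R) (-log ‖r(u)‖) < V μ(r)`, summing over them (nonempty, because otherwise `0 ≥ V`):
`μ(R) V ≤ μ(R) ∑_{nonconst} -log ‖r(u)‖ < V ∑_{nonconst} μ(r) ≤ V μ(R)`, contradiction. `μ(r) ≤ μ(R)` since `r ∣ R`.
-/

set_option autoImplicit false

namespace CZ

open Polynomial

/-- Mahler measure and norm. -/
theorem mah_le_nr (R : ℤ[X]) : mah R ≤ nr R := by
  unfold mah
  refine (mahlerMeasure_le_sum_norm_coeff _).trans (le_of_eq ?_)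
  unfold nr
  rw [sum_over_range _ (fun _ => norm_zero), sum_over_range _ (fun _ => by simp),
    natDegree_map_eq_of_injective (RingHom.injective_int (Int.castRingHom ℂ))]
  refine Finset.sum_congr rfl (fun i _ => ?_)
  rw [coeff_map, eq_intCast, Complex.norm_intCast]

theorem one_le_mah {R : ℤ[X]} (hR : R ≠ 0) : 1 ≤ mah R := one_le_mahlerMeasure_of_ne_zero hR

lemma pj_mah_mul (R S : ℤ[X]) : mah (R * S) = mah R * mah S := by
  unfold mah
  rw [Polynomial.map_mul, mahlerMeasure_mul]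

lemma pj_mu_mul {R S : ℤ[X]} (hR : R ≠ 0) (hS : S ≠ 0) :
    ((R * S).natDegree : ℝ) + Real.log (mah (R * S)) =
      (R.natDegree + Real.log (mah R)) + (S.natDegree + Real.log (mah S)) := by
  have h1 := one_le_mah hR
  have h2 := one_le_mah hS
  rw [natDegree_mul hR hS, pj_mah_mul, Real.log_mul (by linarith) (by linarith)]
  push_cast
  ring

lemma pj_sum (u : ℂ) (s : Multiset ℤ[X]) (hs : ∀ r ∈ s, r ≠ 0 ∧ aeval u r ≠ 0) :
    s.prod ≠ 0 ∧ aeval u s.prod ≠ 0 ∧
    (s.prod.natDegree : ℝ) + Real.log (mah s.prod) =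
      (s.map (fun r : ℤ[X] => (r.natDegree : ℝ) + Real.log (mah r))).sum ∧
    -Real.log ‖aeval u s.prod‖ = (s.map (fun r : ℤ[X] => -Real.log ‖aeval u r‖)).sum := by
  induction s using Multiset.induction_on with
  | empty =>
    have : mah (1 : ℤ[X]) = 1 := by
      unfold mah
      rw [Polynomial.map_one, mahlerMeasure_one]
    simp [this]
  | cons a s ih =>
    obtain ⟨h0, h1, h2, h3⟩ := ih (fun r hr => hs r (Multiset.mem_cons_of_mem hr))
    obtain ⟨a0, a1⟩ := hs a (Multiset.mem_cons_self a s)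
    rw [Multiset.prod_cons, Multiset.map_cons, Multiset.sum_cons, Multiset.map_cons,
      Multiset.sum_cons]
    refine ⟨mul_ne_zero a0 h0, ?_, ?_, ?_⟩
    · rw [map_mul]
      exact mul_ne_zero a1 h1
    · rw [pj_mu_mul a0 h0, h2]
    · rw [map_mul, norm_mul, Real.log_mul (norm_ne_zero_iff.2 a1) (norm_ne_zero_iff.2 h1), ← h3]
      ring

theorem good_factor (R : ℤ[X]) (hR : R ≠ 0) (u : ℂ) (V : ℝ) (hV : 0 < V) (hu : aeval u R ≠ 0)
    (h : ‖aeval u R‖ ≤ Real.exp (-V)) :
    ∃ r : ℤ[X], Irreducible r ∧ 0 < r.natDegree ∧ r ∣ R ∧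
      r.natDegree + Real.log (mah r) ≤ R.natDegree + Real.log (mah R) ∧
      V * (r.natDegree + Real.log (mah r)) ≤
        (R.natDegree + Real.log (mah R)) * (-Real.log ‖aeval u r‖) := by
  set s := UniqueFactorizationMonoid.factors R with hs
  have hdvd : ∀ r ∈ s, r ∣ R := fun r hr => UniqueFactorizationMonoid.dvd_of_mem_factors hr
  have hne : ∀ r ∈ s, r ≠ 0 ∧ aeval u r ≠ 0 := by
    intro r hr
    obtain ⟨t, ht⟩ := hdvd r hr
    refine ⟨?_, ?_⟩
    · rintro rfl
      exact hR (by rw [ht, zero_mul])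
    · intro h0
      exact hu (by rw [ht, map_mul, h0, zero_mul])
  obtain ⟨p0, p1, p2, p3⟩ := pj_sum u s hne
  obtain ⟨c, hc⟩ := UniqueFactorizationMonoid.factors_prod hR
  rw [← hs] at hc
  -- the unit
  have hcu : (c : ℤ[X]).natDegree = 0 ∧ mah (c : ℤ[X]) = 1 ∧ ‖aeval u (c : ℤ[X])‖ = 1 := by
    obtain ⟨r, hr, hrc⟩ := Polynomial.isUnit_iff.1 c.isUnit
    rw [← hrc]
    refine ⟨natDegree_C r, ?_, ?_⟩
    · unfold mah
      rw [map_C, mahlerMeasure_const, eq_intCast, Complex.norm_intCast]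
      rcases Int.isUnit_iff.1 hr with rfl | rfl <;> simp
    · rw [aeval_C, eq_intCast, Complex.norm_intCast]
      rcases Int.isUnit_iff.1 hr with rfl | rfl <;> simp
  have hμ : (R.natDegree : ℝ) + Real.log (mah R) =
      (s.map (fun r : ℤ[X] => (r.natDegree : ℝ) + Real.log (mah r))).sum := by
    rw [← hc, pj_mu_mul p0 c.ne_zero, p2, hcu.1, hcu.2.1]
    simp
  have hν : -Real.log ‖aeval u R‖ = (s.map (fun r : ℤ[X] => -Real.log ‖aeval u r‖)).sum := by
    rw [← hc, map_mul, norm_mul, hcu.2.2, mul_one, p3]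
  have hνV : V ≤ -Real.log ‖aeval u R‖ := by
    have h1 := Real.log_le_log (norm_pos_iff.2 hu) h
    rw [Real.log_exp] at h1
    linarith
  have hμ0 : ∀ r ∈ s, 0 ≤ (r.natDegree : ℝ) + Real.log (mah r) := by
    intro r hr
    have := Real.log_nonneg (one_le_mah (hne r hr).1)
    positivity
  have hμR : 0 ≤ (R.natDegree : ℝ) + Real.log (mah R) := by
    have := Real.log_nonneg (one_le_mah hR)
    positivity
  by_contra hcon
  push Not at hcon
  -- constant factors
  have hconst : ∀ r ∈ s, r.natDegree = 0 → -Real.log ‖aeval u r‖ ≤ 0 := by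
    intro r hr h0
    rw [eq_C_of_natDegree_eq_zero h0, aeval_C, eq_intCast, Complex.norm_intCast]
    have hr0 : r.coeff 0 ≠ 0 := by
      intro h1
      apply (hne r hr).1
      rw [eq_C_of_natDegree_eq_zero h0, h1, C_0]
    have : (1 : ℝ) ≤ |((r.coeff 0 : ℤ) : ℝ)| := by
      have := Int.one_le_abs hr0
      exact_mod_cast this
    have := Real.log_nonneg this
    linarith
  have hle : ∀ r ∈ s, (R.natDegree + Real.log (mah R)) * (-Real.log ‖aeval u r‖) ≤
      V * ((r.natDegree : ℝ) + Real.log (mah r)) := by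
    intro r hr
    rcases Nat.eq_zero_or_pos r.natDegree with h0 | h0
    · have h1 := mul_nonneg hμR (neg_nonneg.2 (hconst r hr h0))
      have h2 := mul_nonneg hV.le (hμ0 r hr)
      linarith
    · refine (hcon r (UniqueFactorizationMonoid.irreducible_of_factor r hr) h0 (hdvd r hr) ?_).le
      rw [hμ]
      refine Multiset.single_le_sum ?_ _ (Multiset.mem_map_of_mem _ hr)
      intro x hx
      obtain ⟨r', hr', rfl⟩ := Multiset.mem_map.1 hx
      exact hμ0 r' hr'
  have hex : ∃ r ∈ s, 0 < r.natDegree := by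
    by_contra hno
    push Not at hno
    have h1 : (s.map (fun r : ℤ[X] => -Real.log ‖aeval u r‖)).sum ≤ 0 := by
      have h2 := Multiset.sum_map_le_sum_map (s := s) (fun r : ℤ[X] => -Real.log ‖aeval u r‖)
        (fun _ => (0 : ℝ)) (fun r' hr' => hconst r' hr' (Nat.le_zero.1 (hno r' hr')))
      refine h2.trans (le_of_eq ?_)
      simp
    linarith
  have hlt : (s.map (fun r : ℤ[X] => (R.natDegree + Real.log (mah R)) *
      (-Real.log ‖aeval u r‖))).sum <
      (s.map (fun r : ℤ[X] => V * ((r.natDegree : ℝ) + Real.log (mah r)))).sum := by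
    obtain ⟨r, hr, h0⟩ := hex
    refine Multiset.sum_lt_sum hle ⟨r, hr, ?_⟩
    refine hcon r (UniqueFactorizationMonoid.irreducible_of_factor r hr) h0 (hdvd r hr) ?_
    rw [hμ]
    refine Multiset.single_le_sum ?_ _ (Multiset.mem_map_of_mem _ hr)
    intro x hx
    obtain ⟨r', hr', rfl⟩ := Multiset.mem_map.1 hx
    exact hμ0 r' hr'
  rw [Multiset.sum_map_mul_left, Multiset.sum_map_mul_left, ← hμ, ← hν] at hlt
  have := mul_le_mul_of_nonneg_left hνV hμR
  linarith

end CZ
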