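import Pool.Agent.H32.T3.Ht

/-!
# MP_ede373, cubic points, row Cc: values and determinants of integer polynomials

`aeval_le`: `MvPolynomial.aeval_def`, `eval₂_eq'`: `F(P) = ∑_m c_m ∏_i P_i^{m_i}`, `‖∏_i P_i^{m_i}‖ ≤ B^{|m|} ≤ B^N`.
`aeval_sub_le`: for a monomial of degree `≤ N`, the difference of two products of `≤ N` factors of norm
`≤ B` which differ factor by factor by at most `δ` is `≤ N B^N δ` (telescoping; induction: write the
product over a multiset/`Finsupp.prod`, `x^a - y^a`, or induct on `m : Fin k →₀ ℕ` with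
`Finsupp.induction_linear`: `|x u - y v| ≤ |x| |u - v| + |v| |x - y|`).
`nrm_det_le`, `totalDegree_det_le`: `Matrix.det_apply`, `H32.T3.nrm_sum_le`, `nrm_mul_le`
(a `nrm_prod_le` by induction), `#Perm Λ = L! ≤ L^L`;
`MvPolynomial.totalDegree_finset_prod`, `totalDegree_finsetSum_le`.
-/

set_option autoImplicit false

namespace CZ

open MvPolynomial H32.T3

theorem Cc_deg {k : ℕ} (F : MvPolynomial (Fin k) ℤ) (N : ℕ) (hN : F.totalDegree ≤ N) {m : Fin k →₀ ℕ}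
    (hm : m ∈ F.support) : ∑ i, m i ≤ N := by
  have h1 := MvPolynomial.le_totalDegree hm
  rw [Finsupp.sum_fintype _ _ (fun _ => rfl)] at h1
  exact h1.trans hN

theorem Cc_aeval {k : ℕ} (F : MvPolynomial (Fin k) ℤ) (P : Fin k → ℂ) :
    aeval P F = ∑ m ∈ F.support, ((F.coeff m : ℤ) : ℂ) * ∏ i, P i ^ m i := by
  rw [MvPolynomial.aeval_def, MvPolynomial.eval₂_eq']
  rfl

theorem aeval_le {k : ℕ} (F : MvPolynomial (Fin k) ℤ) (N : ℕ) (hN : F.totalDegree ≤ N)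
    (P : Fin k → ℂ) (B : ℝ) (hB : 1 ≤ B) (hP : ∀ i, ‖P i‖ ≤ B) :
    ‖aeval P F‖ ≤ nrm F * B ^ N := by
  rw [Cc_aeval]
  refine (norm_sum_le _ _).trans ?_
  unfold nrm
  rw [Finset.sum_mul]
  refine Finset.sum_le_sum fun m hm => ?_
  rw [norm_mul, Complex.norm_intCast, norm_prod]
  have h1 : ∏ i, ‖P i ^ m i‖ ≤ ∏ i, B ^ m i := by
    refine Finset.prod_le_prod (fun i _ => norm_nonneg _) (fun i _ => ?_)
    rw [norm_pow]
    exact pow_le_pow_left₀ (norm_nonneg _) (hP i) _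
  have h2 : ∏ i, B ^ m i ≤ B ^ N := by
    rw [Finset.prod_pow_eq_pow_sum]
    exact pow_le_pow_right₀ hB (Cc_deg F N hN hm)
  exact mul_le_mul_of_nonneg_left (h1.trans h2) (abs_nonneg _)

/-- two products of `n` factors which are close factor by factor -/
def Cc_St (B δ : ℝ) (n : ℕ) (u v : ℂ) : Prop := ‖u‖ ≤ B ^ n ∧ ‖v‖ ≤ B ^ n ∧ ‖u - v‖ ≤ n * B ^ n * δ

theorem Cc_St_one (B δ : ℝ) : Cc_St B δ 0 1 1 := by
  unfold Cc_St
  simp

theorem Cc_St_mul {B δ : ℝ} (hB : 1 ≤ B) {a b : ℕ} {u v x y : ℂ} (h1 : Cc_St B δ a u v)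
    (h2 : Cc_St B δ b x y) : Cc_St B δ (a + b) (u * x) (v * y) := by
  obtain ⟨hu, hv, huv⟩ := h1
  obtain ⟨hx, hy, hxy⟩ := h2
  have hB0 : 0 < B := by linarith
  refine ⟨?_, ?_, ?_⟩
  · rw [norm_mul, pow_add]
    exact mul_le_mul hu hx (norm_nonneg _) (by positivity)
  · rw [norm_mul, pow_add]
    exact mul_le_mul hv hy (norm_nonneg _) (by positivity)
  · have e : u * x - v * y = (u - v) * x + v * (x - y) := by ring
    rw [e]
    refine (norm_add_le _ _).trans ?_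
    rw [norm_mul, norm_mul]
    have h3 : ‖u - v‖ * ‖x‖ ≤ (a * B ^ a * δ) * B ^ b :=
      mul_le_mul huv hx (norm_nonneg _) ((norm_nonneg _).trans huv)
    have h4 : ‖v‖ * ‖x - y‖ ≤ B ^ a * (b * B ^ b * δ) :=
      mul_le_mul hv hxy (norm_nonneg _) (by positivity)
    have h5 : (a * B ^ a * δ) * B ^ b + B ^ a * (b * B ^ b * δ) = ((a + b : ℕ) : ℝ) * B ^ (a + b) * δ := by
      push_cast
      ring
    linarith

theorem Cc_St_pow {B δ : ℝ} (hB : 1 ≤ B) {u v : ℂ} (h : Cc_St B δ 1 u v) (n : ℕ) :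
    Cc_St B δ n (u ^ n) (v ^ n) := by
  induction n with
  | zero => simpa using Cc_St_one B δ
  | succ n ih =>
    rw [pow_succ, pow_succ]
    exact Cc_St_mul hB ih h

theorem Cc_St_prod {B δ : ℝ} (hB : 1 ≤ B) {ι : Type*} (s : Finset ι) (m : ι → ℕ) (u v : ι → ℂ)
    (h : ∀ i, Cc_St B δ 1 (u i) (v i)) :
    Cc_St B δ (∑ i ∈ s, m i) (∏ i ∈ s, u i ^ m i) (∏ i ∈ s, v i ^ m i) := by
  classical
  induction s using Finset.induction_on with
  | empty => simpa using Cc_St_one B δ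
  | insert a s ha ih =>
    rw [Finset.sum_insert ha, Finset.prod_insert ha, Finset.prod_insert ha]
    exact Cc_St_mul hB (Cc_St_pow hB (h a) _) ih

/-- (`0 ≤ δ` is needed only for `k = 0`.) -/
theorem aeval_sub_le {k : ℕ} (F : MvPolynomial (Fin k) ℤ) (N : ℕ) (hN : F.totalDegree ≤ N)
    (P Q : Fin k → ℂ) (B δ : ℝ) (hB : 1 ≤ B) (hP : ∀ i, ‖P i‖ ≤ B) (hQ : ∀ i, ‖Q i‖ ≤ B)
    (hδ : ∀ i, ‖Q i - P i‖ ≤ δ) (hδ0 : 0 ≤ δ) :
    ‖aeval Q F - aeval P F‖ ≤ nrm F * (N * B ^ N * δ) := by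
  rw [Cc_aeval, Cc_aeval, ← Finset.sum_sub_distrib]
  refine (norm_sum_le _ _).trans ?_
  unfold nrm
  rw [Finset.sum_mul]
  refine Finset.sum_le_sum fun m hm => ?_
  rw [← mul_sub, norm_mul, Complex.norm_intCast]
  refine mul_le_mul_of_nonneg_left ?_ (abs_nonneg _)
  have h1 : ∀ i, Cc_St B δ 1 (Q i) (P i) := by
    intro i
    refine ⟨by rw [pow_one]; exact hQ i, by rw [pow_one]; exact hP i, ?_⟩
    refine (hδ i).trans ?_
    rw [Nat.cast_one, one_mul, pow_one]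
    exact le_mul_of_one_le_left hδ0 hB
  have h2 := (Cc_St_prod hB Finset.univ m Q P h1).2.2
  refine h2.trans ?_
  have h3 : ∑ i, m i ≤ N := Cc_deg F N hN hm
  have h4 : ((∑ i, m i : ℕ) : ℝ) ≤ N := by exact_mod_cast h3
  have h5 : B ^ (∑ i, m i) ≤ B ^ N := pow_le_pow_right₀ hB h3
  have hB0 : 0 < B := by linarith
  gcongr

theorem Cc_nrm_one {k : ℕ} : nrm (1 : MvPolynomial (Fin k) ℤ) = 1 := by
  have h := nrm_monomial (0 : Fin k →₀ ℕ) (1 : ℤ)
  rw [← MvPolynomial.C_apply, MvPolynomial.C_1] at h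
  rw [h]
  norm_num

theorem Cc_nrm_prod {k : ℕ} {ι : Type*} (s : Finset ι) (f : ι → MvPolynomial (Fin k) ℤ) (B : ℝ) (hB : 0 ≤ B)
    (h : ∀ i ∈ s, nrm (f i) ≤ B) : nrm (∏ i ∈ s, f i) ≤ B ^ s.card := by
  classical
  induction s using Finset.induction_on with
  | empty => simp [Cc_nrm_one]
  | insert a s ha ih =>
    rw [Finset.prod_insert ha, Finset.card_insert_of_notMem ha, pow_succ, mul_comm (B ^ s.card)]
    refine (nrm_mul_le _ _).trans ?_
    exact mul_le_mul (h a (Finset.mem_insert_self _ _)) (ih fun i hi => h i (Finset.mem_insert_of_mem hi))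
      (nrm_nonneg _) hB

theorem Cc_nrm_sign {k : ℕ} (u : ℤˣ) (p : MvPolynomial (Fin k) ℤ) : nrm (u • p) = nrm p := by
  rcases Int.units_eq_one_or u with h | h
  · rw [h, one_smul]
  · rw [h]
    have e : ((-1 : ℤˣ) • p) = -p := by simp
    rw [e]
    unfold nrm
    rw [MvPolynomial.support_neg]
    refine Finset.sum_congr rfl fun m _ => ?_
    rw [MvPolynomial.coeff_neg]
    push_cast
    rw [abs_neg]

theorem nrm_det_le {k : ℕ} {Λ : Type*} [Fintype Λ] [DecidableEq Λ]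
    (M : Matrix Λ Λ (MvPolynomial (Fin k) ℤ)) (B : ℝ) (hB : 0 ≤ B) (h : ∀ i j, nrm (M i j) ≤ B) :
    nrm M.det ≤ (Fintype.card Λ : ℝ) ^ Fintype.card Λ * B ^ Fintype.card Λ := by
  rw [Matrix.det_apply]
  refine (nrm_sum_le _ _).trans ?_
  have h1 : ∀ σ ∈ (Finset.univ : Finset (Equiv.Perm Λ)),
      nrm (Equiv.Perm.sign σ • ∏ i, M (σ i) i) ≤ B ^ Fintype.card Λ := by
    intro σ _
    rw [Cc_nrm_sign]
    exact Cc_nrm_prod Finset.univ _ B hB fun i _ => h _ _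
  refine (Finset.sum_le_sum h1).trans ?_
  rw [Finset.sum_const, nsmul_eq_mul, Finset.card_univ, Fintype.card_perm]
  have h2 : ((Fintype.card Λ).factorial : ℝ) ≤ (Fintype.card Λ : ℝ) ^ Fintype.card Λ := by
    exact_mod_cast Nat.factorial_le_pow _
  exact mul_le_mul_of_nonneg_right h2 (by positivity)

theorem totalDegree_det_le {k : ℕ} {Λ : Type*} [Fintype Λ] [DecidableEq Λ]
    (M : Matrix Λ Λ (MvPolynomial (Fin k) ℤ)) (N : ℕ) (h : ∀ i j, (M i j).totalDegree ≤ N) :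
    M.det.totalDegree ≤ Fintype.card Λ * N := by
  rw [Matrix.det_apply]
  refine MvPolynomial.totalDegree_finsetSum_le fun σ _ => ?_
  have h1 : (Equiv.Perm.sign σ • ∏ i, M (σ i) i).totalDegree ≤ (∏ i, M (σ i) i).totalDegree :=
    MvPolynomial.totalDegree_smul_le _ _
  refine h1.trans ((MvPolynomial.totalDegree_finsetProd _ _).trans ?_)
  refine (Finset.sum_le_sum fun i _ => h _ _).trans ?_
  rw [Finset.sum_const, Finset.card_univ, smul_eq_mul]

end CZ
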