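import Pool.Agent.H32.CZ.Ha

/-!
# MP_ede373, cubic points, row Hd: heights from two linear forms; change of field

`hE_two`. Let `y = x1 + k x2`, `y' = x1 + k' x2` with naturals `k ≠ k'`, both in `[1, K]`. Then
`x2 = (y - y') / (k - k')`, `x1 = (k y' - k' y) / (k - k')`. Put `δ = |k - k'| ∈ [1, K]`, `n = finrank ℚ E`.
p-adic part: for every `σ`, `‖σ x1‖, ‖σ x2‖ ≤ (max 1 ‖σ y‖) (max 1 ‖σ y'‖) ‖δ‖_p⁻¹` and `1 ≤` the right side,
so `LocBd x_i (den y * den y' * δ ^ n)` and `den x_i ≤ den y * den y' * δ ^ n`.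
Archimedean part: `‖φ x_i‖ ≤ 2 K (max 1 ‖φ y‖) (max 1 ‖φ y'‖)` (for `x1`: `|k| ‖φ y'‖ + |k'| ‖φ y‖`), hence
`log (max 1 ‖φ x_i‖) ≤ log (2 K) + log (max 1 ‖φ y‖) + log (max 1 ‖φ y'‖)`. Sum:
`hE x_i ≤ hE y + hE y' + n log K + n log (2 K) ≤ hE y + hE y' + 2 n log (2 K)`.

`hE_algebraMap`. `E ⊆ E'` number fields, `m = finrank E E'`: every `σ : E →+* A` (`A = PadicAlgCl p` or
`ℂ`) has exactly `m` extensions to `E'` (`A` algebraically closed of characteristic `0`; the fibres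
of the restriction map; for instance `Algebra.IsSeparable`/`AlgHom.card`, or: all fibres have at most
... use `Field.finSepDegree`/`AlgHom.card_of_splits`/`Fintype.card_sigma` as you like). So
`∏_{σ' : E' →+* A} g (σ' restricted to E) = (∏_σ g σ) ^ m`. Hence `LocBd_{E'} (x) ((den x) ^ m)`,
`den_{E'} x ≤ (den x) ^ m`, and `hE_{E'} x ≤ m hE x`.
-/

set_option autoImplicit false

namespace CZ

open Polynomial

variable {E : Type*} [Field E] [NumberField E]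

theorem Hd_main (x y y' : E) (K δ : ℕ) (hδ : 1 ≤ δ) (hδK : δ ≤ K)
    (hp : ∀ (p : ℕ) [Fact p.Prime] (σ : E →+* PadicAlgCl p),
      max 1 ‖σ x‖ ≤ max 1 ‖σ y‖ * max 1 ‖σ y'‖ * ‖((δ : ℕ) : PadicAlgCl p)‖⁻¹)
    (hc : ∀ φ : E →+* ℂ, max 1 ‖φ x‖ ≤ 2 * K * (max 1 ‖φ y‖ * max 1 ‖φ y'‖)) :
    hE x ≤ hE y + hE y' + 2 * Module.finrank ℚ E * Real.log (2 * K) := by
  obtain ⟨hy0, hy⟩ := den_spec y
  obtain ⟨hy'0, hy'⟩ := den_spec y'
  obtain ⟨hx0, -⟩ := den_spec x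
  have hK1 : (1 : ℝ) ≤ K := by exact_mod_cast hδ.trans hδK
  have hden : den x ≤ den y * den y' * δ ^ Module.finrank ℚ E := by
    refine den_le (by positivity) ?_
    intro p hpp
    have h1 : ∏ σ : E →+* PadicAlgCl p, max 1 ‖σ x‖ ≤
        ∏ σ : E →+* PadicAlgCl p, (max 1 ‖σ y‖ * max 1 ‖σ y'‖ * ‖((δ : ℕ) : PadicAlgCl p)‖⁻¹) :=
      Finset.prod_le_prod (fun σ _ => by positivity) fun σ _ => hp p σ
    refine h1.trans ?_
    rw [Finset.prod_mul_distrib, Finset.prod_mul_distrib, Finset.prod_const, Finset.card_univ,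
      NumberField.Embeddings.card]
    push_cast
    rw [norm_mul, norm_mul, norm_pow, mul_inv, mul_inv, inv_pow]
    have h2 := hy p
    have h3 := hy' p
    have h4 : (0 : ℝ) ≤ ∏ σ : E →+* PadicAlgCl p, max 1 ‖σ y'‖ :=
      Finset.prod_nonneg fun σ _ => by positivity
    exact mul_le_mul_of_nonneg_right (mul_le_mul h2 h3 h4 (by positivity)) (by positivity)
  have hlog : Real.log (den x) ≤ Real.log (den y) + Real.log (den y') +
      Module.finrank ℚ E * Real.log (2 * K) := by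
    have h1 : (den x : ℝ) ≤ den y * den y' * (2 * K) ^ Module.finrank ℚ E := by
      have h2 : (den x : ℝ) ≤ den y * den y' * δ ^ Module.finrank ℚ E := by exact_mod_cast hden
      refine h2.trans ?_
      have h3 : (δ : ℝ) ≤ 2 * K := by
        have : (δ : ℝ) ≤ K := by exact_mod_cast hδK
        linarith
      gcongr
    have hx1 : (0 : ℝ) < den x := by exact_mod_cast hx0
    have hy1 : (0 : ℝ) < den y := by exact_mod_cast hy0
    have hy1' : (0 : ℝ) < den y' := by exact_mod_cast hy'0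
    have h4 := Real.log_le_log hx1 h1
    rwa [Real.log_mul (by positivity) (by positivity), Real.log_mul (by positivity) (by positivity),
      Real.log_pow] at h4
  have hsum : ∑ φ : E →+* ℂ, Real.log (max 1 ‖φ x‖) ≤ ∑ φ : E →+* ℂ, Real.log (max 1 ‖φ y‖) +
      ∑ φ : E →+* ℂ, Real.log (max 1 ‖φ y'‖) + Module.finrank ℚ E * Real.log (2 * K) := by
    have h1 : ∀ φ : E →+* ℂ, Real.log (max 1 ‖φ x‖) ≤
        Real.log (max 1 ‖φ y‖) + Real.log (max 1 ‖φ y'‖) + Real.log (2 * K) := by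
      intro φ
      have a1 : 0 < max 1 ‖φ x‖ := lt_max_of_lt_left one_pos
      have a2 : 0 < max 1 ‖φ y‖ := lt_max_of_lt_left one_pos
      have a3 : 0 < max 1 ‖φ y'‖ := lt_max_of_lt_left one_pos
      have h2 := Real.log_le_log a1 (hc φ)
      rw [Real.log_mul (by positivity) (by positivity), Real.log_mul a2.ne' a3.ne'] at h2
      linarith
    refine (Finset.sum_le_sum fun φ _ => h1 φ).trans ?_
    rw [Finset.sum_add_distrib, Finset.sum_add_distrib, Finset.sum_const, Finset.card_univ,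
      NumberField.Embeddings.card, nsmul_eq_mul]
  unfold hE
  linarith

/-- the case of two linear forms over one nonarchimedean field -/
theorem Hd_pad {A : Type*} [NormedField A] [IsUltrametricDist A] (X1 X2 : A) (k k' δ : ℕ)
    (hδ : (δ : A) = (k : A) - k' ∨ (δ : A) = (k' : A) - k) (h0 : (δ : A) ≠ 0) :
    max 1 ‖X1‖ ≤ max 1 ‖X1 + k * X2‖ * max 1 ‖X1 + k' * X2‖ * ‖(δ : A)‖⁻¹ ∧
    max 1 ‖X2‖ ≤ max 1 ‖X1 + k * X2‖ * max 1 ‖X1 + k' * X2‖ * ‖(δ : A)‖⁻¹ := by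
  have hd1 : ‖(δ : A)‖ ≤ 1 := IsUltrametricDist.norm_natCast_le_one A δ
  have hk1 : ‖(k : A)‖ ≤ 1 := IsUltrametricDist.norm_natCast_le_one A k
  have hk1' : ‖(k' : A)‖ ≤ 1 := IsUltrametricDist.norm_natCast_le_one A k'
  have hd0 : 0 < ‖(δ : A)‖ := norm_pos_iff.2 h0
  obtain ⟨Y, hY⟩ : ∃ Y, Y = X1 + k * X2 := ⟨_, rfl⟩
  obtain ⟨Z, hZ⟩ : ∃ Z, Z = X1 + k' * X2 := ⟨_, rfl⟩
  rw [← hY, ← hZ]
  have hM1 : (1 : ℝ) ≤ max 1 ‖Y‖ := le_max_left _ _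
  have hM2 : (1 : ℝ) ≤ max 1 ‖Z‖ := le_max_left _ _
  have hYM : ‖Y‖ ≤ max 1 ‖Y‖ * max 1 ‖Z‖ :=
    (le_max_right 1 ‖Y‖).trans (le_mul_of_one_le_right (by linarith) hM2)
  have hZM : ‖Z‖ ≤ max 1 ‖Y‖ * max 1 ‖Z‖ :=
    (le_max_right 1 ‖Z‖).trans (le_mul_of_one_le_left (by linarith) hM1)
  have h1M : (1 : ℝ) ≤ max 1 ‖Y‖ * max 1 ‖Z‖ := one_le_mul_of_one_le_of_one_le hM1 hM2
  have hone : (1 : ℝ) ≤ max 1 ‖Y‖ * max 1 ‖Z‖ * ‖(δ : A)‖⁻¹ :=
    one_le_mul_of_one_le_of_one_le h1M (by rw [one_le_inv₀ hd0]; exact hd1)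
  have hkey : ∀ X W : A, X * (δ : A) = W → ‖W‖ ≤ max 1 ‖Y‖ * max 1 ‖Z‖ →
      max 1 ‖X‖ ≤ max 1 ‖Y‖ * max 1 ‖Z‖ * ‖(δ : A)‖⁻¹ := by
    intro X W hXW hW
    refine max_le hone ?_
    rw [← hXW, norm_mul] at hW
    rwa [← div_eq_mul_inv, le_div_iff₀ hd0]
  have hsub : ∀ U V : A, ‖U‖ ≤ max 1 ‖Y‖ * max 1 ‖Z‖ → ‖V‖ ≤ max 1 ‖Y‖ * max 1 ‖Z‖ →
      ‖U - V‖ ≤ max 1 ‖Y‖ * max 1 ‖Z‖ := fun U V h1 h2 =>
    by
    rw [sub_eq_add_neg]
    exact (IsUltrametricDist.norm_add_le_max U (-V)).trans (max_le h1 (by rw [norm_neg]; exact h2))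
  have hkZ : ‖(k : A) * Z‖ ≤ max 1 ‖Y‖ * max 1 ‖Z‖ := by
    rw [norm_mul]
    exact (mul_le_of_le_one_left (norm_nonneg _) hk1).trans hZM
  have hkY : ‖(k' : A) * Y‖ ≤ max 1 ‖Y‖ * max 1 ‖Z‖ := by
    rw [norm_mul]
    exact (mul_le_of_le_one_left (norm_nonneg _) hk1').trans hYM
  rcases hδ with hδ | hδ
  · refine ⟨hkey X1 (k * Z - k' * Y) ?_ (hsub _ _ hkZ hkY), hkey X2 (Y - Z) ?_ (hsub _ _ hYM hZM)⟩
    · rw [hδ, hY, hZ]
      ring
    · rw [hδ, hY, hZ]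
      ring
  · refine ⟨hkey X1 (k' * Y - k * Z) ?_ (hsub _ _ hkY hkZ), hkey X2 (Z - Y) ?_ (hsub _ _ hZM hYM)⟩
    · rw [hδ, hY, hZ]
      ring
    · rw [hδ, hY, hZ]
      ring

/-- the complex case -/
theorem Hd_cpx (X1 X2 : ℂ) (K k k' δ : ℕ) (hkK : k ≤ K) (hkK' : k' ≤ K) (hδ1 : 1 ≤ δ) (hK : 1 ≤ K)
    (hδ : (δ : ℂ) = (k : ℂ) - k' ∨ (δ : ℂ) = (k' : ℂ) - k) :
    max 1 ‖X1‖ ≤ 2 * K * (max 1 ‖X1 + k * X2‖ * max 1 ‖X1 + k' * X2‖) ∧
    max 1 ‖X2‖ ≤ 2 * K * (max 1 ‖X1 + k * X2‖ * max 1 ‖X1 + k' * X2‖) := by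
  have hkr : (k : ℝ) ≤ K := by exact_mod_cast hkK
  have hkr' : (k' : ℝ) ≤ K := by exact_mod_cast hkK'
  have hK1 : (1 : ℝ) ≤ K := by exact_mod_cast hK
  have hd1 : 1 ≤ ‖(δ : ℂ)‖ := by
    rw [Complex.norm_natCast]
    exact_mod_cast hδ1
  obtain ⟨Y, hY⟩ : ∃ Y, Y = X1 + k * X2 := ⟨_, rfl⟩
  obtain ⟨Z, hZ⟩ : ∃ Z, Z = X1 + k' * X2 := ⟨_, rfl⟩
  rw [← hY, ← hZ]
  have hM1 : (1 : ℝ) ≤ max 1 ‖Y‖ := le_max_left _ _
  have hM2 : (1 : ℝ) ≤ max 1 ‖Z‖ := le_max_left _ _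
  have hYM : ‖Y‖ ≤ max 1 ‖Y‖ * max 1 ‖Z‖ :=
    (le_max_right 1 ‖Y‖).trans (le_mul_of_one_le_right (by linarith) hM2)
  have hZM : ‖Z‖ ≤ max 1 ‖Y‖ * max 1 ‖Z‖ :=
    (le_max_right 1 ‖Z‖).trans (le_mul_of_one_le_left (by linarith) hM1)
  have h1M : (1 : ℝ) ≤ max 1 ‖Y‖ * max 1 ‖Z‖ := one_le_mul_of_one_le_of_one_le hM1 hM2
  obtain ⟨M, hM⟩ : ∃ M, M = max 1 ‖Y‖ * max 1 ‖Z‖ := ⟨_, rfl⟩
  rw [← hM] at hYM hZM h1M ⊢
  have hone : (1 : ℝ) ≤ 2 * K * M := by nlinarith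
  have hkey : ∀ X W : ℂ, X * (δ : ℂ) = W → ‖W‖ ≤ 2 * K * M → max 1 ‖X‖ ≤ 2 * K * M := by
    intro X W hXW hW
    refine max_le hone ?_
    rw [← hXW, norm_mul] at hW
    have h2 : ‖X‖ ≤ ‖X‖ * ‖(δ : ℂ)‖ := le_mul_of_one_le_right (norm_nonneg _) hd1
    linarith
  have hsub : ∀ U V : ℂ, ‖U‖ ≤ K * M → ‖V‖ ≤ K * M → ‖U - V‖ ≤ 2 * K * M := fun U V h1 h2 => by
    have := norm_sub_le U V
    linarith
  have hkZ : ‖(k : ℂ) * Z‖ ≤ K * M := by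
    rw [norm_mul, Complex.norm_natCast]
    exact mul_le_mul hkr hZM (norm_nonneg _) (by linarith)
  have hkY : ‖(k' : ℂ) * Y‖ ≤ K * M := by
    rw [norm_mul, Complex.norm_natCast]
    exact mul_le_mul hkr' hYM (norm_nonneg _) (by linarith)
  have hY1 : ‖Y‖ ≤ K * M := by nlinarith [norm_nonneg Y]
  have hZ1 : ‖Z‖ ≤ K * M := by nlinarith [norm_nonneg Z]
  rcases hδ with hδ | hδ
  · refine ⟨hkey X1 (k * Z - k' * Y) ?_ (hsub _ _ hkZ hkY), hkey X2 (Y - Z) ?_ (hsub _ _ hY1 hZ1)⟩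
    · rw [hδ, hY, hZ]
      ring
    · rw [hδ, hY, hZ]
      ring
  · refine ⟨hkey X1 (k' * Y - k * Z) ?_ (hsub _ _ hkY hkZ), hkey X2 (Z - Y) ?_ (hsub _ _ hZ1 hY1)⟩
    · rw [hδ, hY, hZ]
      ring
    · rw [hδ, hY, hZ]
      ring

theorem hE_two (x1 x2 : E) (K k k' : ℕ) (hk : 1 ≤ k) (hk' : 1 ≤ k') (hkK : k ≤ K) (hkK' : k' ≤ K)
    (hne : k ≠ k') :
    hE x1 ≤ hE (x1 + k * x2) + hE (x1 + k' * x2) +
        2 * Module.finrank ℚ E * Real.log (2 * K) ∧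
      hE x2 ≤ hE (x1 + k * x2) + hE (x1 + k' * x2) +
        2 * Module.finrank ℚ E * Real.log (2 * K) := by
  obtain ⟨δ, h1, h2, h3⟩ : ∃ δ : ℕ, 1 ≤ δ ∧ δ ≤ K ∧ (k = k' + δ ∨ k' = k + δ) := by
    rcases lt_or_gt_of_ne hne with h | h
    · exact ⟨k' - k, by omega, by omega, Or.inr (by omega)⟩
    · exact ⟨k - k', by omega, by omega, Or.inl (by omega)⟩
  have hA : ∀ (A : Type) [NormedField A] , (δ : A) = (k : A) - k' ∨ (δ : A) = (k' : A) - k := by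
    intro A _
    rcases h3 with h | h
    · left
      rw [h]
      push_cast
      ring
    · right
      rw [h]
      push_cast
      ring
  have hp : ∀ (p : ℕ) [Fact p.Prime] (σ : E →+* PadicAlgCl p),
      max 1 ‖σ x1‖ ≤ max 1 ‖σ (x1 + k * x2)‖ * max 1 ‖σ (x1 + k' * x2)‖ *
        ‖((δ : ℕ) : PadicAlgCl p)‖⁻¹ ∧
      max 1 ‖σ x2‖ ≤ max 1 ‖σ (x1 + k * x2)‖ * max 1 ‖σ (x1 + k' * x2)‖ *
        ‖((δ : ℕ) : PadicAlgCl p)‖⁻¹ := by
    intro p hpp σ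
    have h := Hd_pad (σ x1) (σ x2) k k' δ (hA _) (Nat.cast_ne_zero.2 (by omega))
    rw [map_add, map_add, map_mul, map_mul, map_natCast, map_natCast]
    exact h
  have hc : ∀ φ : E →+* ℂ,
      max 1 ‖φ x1‖ ≤ 2 * K * (max 1 ‖φ (x1 + k * x2)‖ * max 1 ‖φ (x1 + k' * x2)‖) ∧
      max 1 ‖φ x2‖ ≤ 2 * K * (max 1 ‖φ (x1 + k * x2)‖ * max 1 ‖φ (x1 + k' * x2)‖) := by
    intro φ
    have h := Hd_cpx (φ x1) (φ x2) K k k' δ hkK hkK' h1 (hk.trans hkK) (hA _)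
    rw [map_add, map_add, map_mul, map_mul, map_natCast, map_natCast]
    exact h
  exact ⟨Hd_main x1 _ _ K δ h1 h2 (fun p _ σ => (hp p σ).1) (fun φ => (hc φ).1),
    Hd_main x2 _ _ K δ h1 h2 (fun p _ σ => (hp p σ).2) (fun φ => (hc φ).2)⟩

open Classical in
theorem Hd_fib {E' : Type*} [Field E'] [NumberField E'] [Algebra E E'] {A : Type*}
    [Field A] [CharZero A] [IsAlgClosed A] (τ : E →+* A) :
    (Finset.univ.filter fun σ : E' →+* A => σ.comp (algebraMap E E') = τ).card =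
      Module.finrank E E' := by
  let _ := τ.toAlgebra
  have hfd : FiniteDimensional E E' := Module.Finite.right ℚ E E'
  rw [← AlgHom.card E E' A, ← Fintype.card_subtype]
  refine Fintype.card_congr ⟨fun σ => ⟨σ.1, fun x => ?_⟩, fun σ => ⟨σ.toRingHom, ?_⟩, ?_, ?_⟩
  · exact RingHom.congr_fun σ.2 x
  · ext x
    exact σ.commutes x
  · intro σ
    rfl
  · intro σ
    rfl

theorem prod_restrict {E' : Type*} [Field E'] [NumberField E'] [Algebra E E'] {A : Type*}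
    [Field A] [CharZero A] [IsAlgClosed A] (g : (E →+* A) → ℝ) :
    ∏ σ : E' →+* A, g (σ.comp (algebraMap E E')) = (∏ σ : E →+* A, g σ) ^ Module.finrank E E' := by
  classical
  rw [← Finset.prod_pow, ← Finset.prod_fiberwise Finset.univ
    (fun σ : E' →+* A => σ.comp (algebraMap E E')) (fun σ => g (σ.comp (algebraMap E E')))]
  refine Finset.prod_congr rfl fun τ _ => ?_
  rw [← Hd_fib (E' := E') τ, ← Finset.prod_const]
  refine Finset.prod_congr rfl fun σ hσ => ?_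
  rw [(Finset.mem_filter.1 hσ).2]

theorem hE_algebraMap {E' : Type*} [Field E'] [NumberField E'] [Algebra E E'] (x : E) :
    hE (algebraMap E E' x) ≤ Module.finrank E E' * hE x := by
  obtain ⟨hx0, hx⟩ := den_spec x
  obtain ⟨hx0', -⟩ := den_spec (algebraMap E E' x)
  have hden : den (algebraMap E E' x) ≤ den x ^ Module.finrank E E' := by
    refine den_le (pow_pos hx0 _) ?_
    intro p hp
    have h1 := prod_restrict (E := E) (E' := E') (A := PadicAlgCl p) (fun σ => max 1 ‖σ x‖)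
    have h2 : ∏ σ : E' →+* PadicAlgCl p, max 1 ‖σ (algebraMap E E' x)‖ =
        (∏ σ : E →+* PadicAlgCl p, max 1 ‖σ x‖) ^ Module.finrank E E' := h1
    rw [h2]
    push_cast
    rw [norm_pow, ← inv_pow]
    exact pow_le_pow_left₀ (Finset.prod_nonneg fun σ _ => by positivity) (hx p) _
  have hlog : Real.log (den (algebraMap E E' x)) ≤ Module.finrank E E' * Real.log (den x) := by
    rw [← Real.log_pow]
    refine Real.log_le_log (by exact_mod_cast hx0') (by exact_mod_cast hden)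
  have h3 := prod_restrict (E := E) (E' := E') (A := ℂ) (fun σ => max 1 ‖σ x‖)
  have h4 : ∏ σ : E' →+* ℂ, max 1 ‖σ (algebraMap E E' x)‖ =
      (∏ σ : E →+* ℂ, max 1 ‖σ x‖) ^ Module.finrank E E' := h3
  have hsum : ∑ φ : E' →+* ℂ, Real.log (max 1 ‖φ (algebraMap E E' x)‖) =
      Module.finrank E E' * ∑ φ : E →+* ℂ, Real.log (max 1 ‖φ x‖) := by
    rw [← Real.log_prod (fun φ _ => (lt_max_of_lt_left one_pos).ne'),
      ← Real.log_prod (fun φ _ => (lt_max_of_lt_left one_pos).ne'), h4, Real.log_pow]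
  unfold hE
  rw [hsum]
  nlinarith

end CZ
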