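import Pool.Agent.H32.CZ.Ha

/-!
# MP_ede373, cubic points, row He: height of a root

Let `x : Fin k → E`, polynomials `G 0, …, G n` over `ℤ` in `k` variables with `totalDegree ≤ N`,
`nrm ≤ B` (`B ≥ 1`), `y ∈ E` with `∑ G_j(x) y ^ j = 0` and `G_n(x) ≠ 0`. Then
`hE y ≤ finrank ℚ E * log (n B) + N ∑ hE (x i)` (note that `n ≥ 1`, because `n = 0` gives `G_0(x) = 0`).

Proof. Root bound: for an absolute value `v` on `E` put `M = max_j v (G_j(x))`, `g = v (G_n(x)) > 0`;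
`max 1 (v y) ≤ n M / g` in general and `max 1 (v y) ≤ M / g` if `v` is nonarchimedean (if `v y > 1`:
`g (v y) ^ n ≤ (∑ or max)_{j<n} M (v y) ^ (n-1)`; and `M / g ≥ 1`). See the proof of
`mulHeight₁_root_le` in `Pool/Agent/H32/T3/Ht.lean`.
`p`-adic: `M ≤ ∏_i (max 1 ‖σ (x i)‖) ^ N` (`abv_aeval_le_nonarch`). Product over `σ : E →+* PadicAlgCl p`:
`∏_σ max 1 ‖σ y‖ ≤ ∏_i ‖den (x i)‖⁻¹ ^ N * ‖ν‖_p⁻¹`, `ν = Algebra.norm ℚ (G_n(x)) ≠ 0` (`prod_emb_padic`).
Put `A = (∏ den (x i)) ^ N`. As in row `Hb`, `A ν` is an integer (its `p`-adic norms are `≤ 1`), not zero;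
`a = |A ν|` is a positive natural number and `‖a‖_p⁻¹ = ‖A‖_p⁻¹ ‖ν‖_p⁻¹`, so `LocBd y a` and `den y ≤ a`,
`log (den y) ≤ log A + ∑_φ log ‖φ (G_n(x))‖` (`prod_emb_complex`).
Archimedean: `log (max 1 ‖φ y‖) ≤ log (n M_φ) - log ‖φ (G_n(x))‖` with
`M_φ ≤ B ∏_i (max 1 ‖φ (x i)‖) ^ N` (`abv_aeval_le`). Add: the terms `log ‖φ (G_n(x))‖` cancel:
`hE y ≤ N ∑_i log (den (x i)) + ∑_φ (log (n B) + N ∑_i log (max 1 ‖φ (x i)‖))`.
-/

set_option autoImplicit false

namespace CZ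

open Polynomial

variable {E : Type*} [Field E] [NumberField E]

/-- The absolute value `y ↦ ‖σ y‖`. -/
noncomputable def He_av {A : Type*} [NormedField A] (σ : E →+* A) : AbsoluteValue E ℝ where
  toFun y := ‖σ y‖
  map_mul' := by
    intro x y
    rw [map_mul, norm_mul]
  nonneg' := fun x => norm_nonneg _
  eq_zero' := by
    intro x
    rw [norm_eq_zero, map_eq_zero]
  add_le' := by
    intro x y
    rw [map_add]
    exact norm_add_le _ _

theorem He_av_apply {A : Type*} [NormedField A] (σ : E →+* A) (y : E) : He_av σ y = ‖σ y‖ := rfl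

theorem He_pow {a b M : ℝ} {k : ℕ} (ha : 1 < a) (h : b * a ^ (k + 1) ≤ M * a ^ k) :
    a * b ≤ M := by
  have hk : 0 < a ^ k := by
    have : 0 < a := by linarith
    positivity
  have h4 : a ^ k * (a * b) ≤ a ^ k * M := by
    rw [pow_succ] at h
    linarith
  exact le_of_mul_le_mul_left h4 hk

theorem He_root (v : AbsoluteValue E ℝ) (n : ℕ) (c : ℕ → E) (y : E) (M : ℝ)
    (h0 : ∑ j ∈ Finset.range (n + 1), c j * y ^ j = 0) (hn : 1 ≤ n)
    (hM : ∀ j ≤ n, v (c j) ≤ M) : max 1 (v y) * v (c n) ≤ n * M := by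
  have hM0 : 0 ≤ M := (v.nonneg _).trans (hM n le_rfl)
  have hn1 : (1 : ℝ) ≤ n := by exact_mod_cast hn
  rcases le_or_gt (v y) 1 with h | h
  · rw [max_eq_left h, one_mul]
    refine (hM n le_rfl).trans ?_
    nlinarith
  · rw [max_eq_right h.le]
    rw [Finset.sum_range_succ] at h0
    have h1 : c n * y ^ n = -∑ j ∈ Finset.range n, c j * y ^ j := by linear_combination h0
    have h2 : v (c n) * v y ^ n ≤ n * M * v y ^ (n - 1) := by
      rw [← v.map_pow, ← v.map_mul, h1, v.map_neg]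
      refine (v.sum_le _ _).trans ?_
      calc ∑ j ∈ Finset.range n, v (c j * y ^ j) ≤ ∑ _j ∈ Finset.range n, M * v y ^ (n - 1) := by
            refine Finset.sum_le_sum fun j hj => ?_
            rw [v.map_mul, v.map_pow]
            have := Finset.mem_range.1 hj
            exact mul_le_mul (hM j (by omega)) (pow_le_pow_right₀ h.le (by omega)) (by positivity)
              hM0
        _ = _ := by
            rw [Finset.sum_const, Finset.card_range, nsmul_eq_mul]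
            ring
    obtain ⟨k, rfl⟩ := Nat.exists_eq_succ_of_ne_zero (by omega : n ≠ 0)
    rw [Nat.succ_sub_one] at h2
    exact He_pow h h2

theorem He_rootN (v : AbsoluteValue E ℝ) (hv : IsNonarchimedean v) (n : ℕ) (c : ℕ → E) (y : E)
    (M : ℝ) (h0 : ∑ j ∈ Finset.range (n + 1), c j * y ^ j = 0) (hn : 1 ≤ n)
    (hM : ∀ j ≤ n, v (c j) ≤ M) : max 1 (v y) * v (c n) ≤ M := by
  have hM0 : 0 ≤ M := (v.nonneg _).trans (hM n le_rfl)
  rcases le_or_gt (v y) 1 with h | h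
  · rw [max_eq_left h, one_mul]
    exact hM n le_rfl
  · rw [max_eq_right h.le]
    rw [Finset.sum_range_succ] at h0
    have h1 : c n * y ^ n = -∑ j ∈ Finset.range n, c j * y ^ j := by linear_combination h0
    have hvy : 0 < v y := by linarith
    have hle : ∀ s : Finset ℕ, (∀ j ∈ s, j < n) → v (∑ j ∈ s, c j * y ^ j) ≤
        M * v y ^ (n - 1) := by
      intro s
      induction s using Finset.induction_on with
      | empty =>
        intro _
        rw [Finset.sum_empty, v.map_zero]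
        positivity
      | insert i t hi ih =>
        intro hs
        rw [Finset.sum_insert hi]
        refine (hv _ _).trans (max_le ?_ (ih fun j hj => hs j (Finset.mem_insert_of_mem hj)))
        rw [v.map_mul, v.map_pow]
        have := hs i (Finset.mem_insert_self _ _)
        exact mul_le_mul (hM i (by omega)) (pow_le_pow_right₀ h.le (by omega)) (by positivity) hM0
    have h2 : v (c n) * v y ^ n ≤ M * v y ^ (n - 1) := by
      rw [← v.map_pow, ← v.map_mul, h1, v.map_neg]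
      exact hle _ fun j hj => Finset.mem_range.1 hj
    obtain ⟨k, rfl⟩ := Nat.exists_eq_succ_of_ne_zero (by omega : n ≠ 0)
    rw [Nat.succ_sub_one] at h2
    exact He_pow h h2

theorem He_deg {k : ℕ} (F : MvPolynomial (Fin k) ℤ) (N : ℕ) (hN : F.totalDegree ≤ N) :
    ∀ m ∈ F.support, ∀ i, m i ≤ N := by
  intro m hm i
  have h1 := MvPolynomial.le_totalDegree hm
  refine le_trans ?_ (h1.trans hN)
  by_cases h : i ∈ m.support
  · exact Finset.single_le_sum (f := fun i => m i) (fun _ _ => Nat.zero_le _) h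
  · rw [Finsupp.notMem_support_iff.1 h]
    exact Nat.zero_le _

theorem He_padic {k : ℕ} (x : Fin k → E) (N : ℕ) (p : ℕ) [Fact p.Prime] :
    ∏ σ : E →+* PadicAlgCl p, ∏ i, max ‖σ (x i)‖ 1 ^ N ≤
      ‖(((∏ i, den (x i)) ^ N : ℕ) : PadicAlgCl p)‖⁻¹ := by
  rw [Finset.prod_comm]
  push_cast
  rw [norm_pow, norm_prod, ← inv_pow, ← Finset.prod_inv_distrib, ← Finset.prod_pow]
  refine Finset.prod_le_prod (fun i _ => by positivity) fun i _ => ?_
  rw [Finset.prod_pow]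
  refine pow_le_pow_left₀ (by positivity) ?_ _
  have h := (den_spec (x i)).2 p
  have h2 : ∏ σ : E →+* PadicAlgCl p, max ‖σ (x i)‖ 1 =
      ∏ σ : E →+* PadicAlgCl p, max 1 ‖σ (x i)‖ :=
    Finset.prod_congr rfl fun σ _ => max_comm _ _
  rw [h2]
  exact h

theorem hE_root_le {k : ℕ} (x : Fin k → E) (n : ℕ) (G : ℕ → MvPolynomial (Fin k) ℤ) (N : ℕ) (B : ℝ)
    (hB : 1 ≤ B) (hN : ∀ j ≤ n, (G j).totalDegree ≤ N) (hG : ∀ j ≤ n, H32.T3.nrm (G j) ≤ B) (y : E)
    (h0 : ∑ j ∈ Finset.range (n + 1), MvPolynomial.aeval x (G j) * y ^ j = 0)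
    (hn : MvPolynomial.aeval x (G n) ≠ 0) :
    hE y ≤ Module.finrank ℚ E * Real.log (n * B) + N * ∑ i, hE (x i) := by
  have hn1 : 1 ≤ n := by
    rcases Nat.eq_zero_or_pos n with h | h
    · exfalso
      subst h
      rw [Finset.sum_range_one, pow_zero, mul_one] at h0
      exact hn h0
    · exact h
  have hnR : (1 : ℝ) ≤ n := by exact_mod_cast hn1
  obtain ⟨z, hz⟩ : ∃ z, z = MvPolynomial.aeval x (G n) := ⟨_, rfl⟩
  obtain ⟨ν, hν⟩ : ∃ ν : ℚ, ν = Algebra.norm ℚ z := ⟨_, rfl⟩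
  have hz0 : z ≠ 0 := by rw [hz]; exact hn
  have hν0 : ν ≠ 0 := by rw [hν]; exact Algebra.norm_ne_zero_iff.2 hz0
  obtain ⟨A, hA⟩ : ∃ A : ℕ, A = (∏ i, den (x i)) ^ N := ⟨_, rfl⟩
  have hA0 : A ≠ 0 := by
    rw [hA]
    exact pow_ne_zero _ (Finset.prod_ne_zero_iff.2 fun i _ => (den_spec (x i)).1.ne')
  -- the p-adic estimate
  have hpad : ∀ (p : ℕ) [Fact p.Prime], ‖((A : ℕ) : PadicAlgCl p)‖ ≠ 0 ∧
      ‖(ν : PadicAlgCl p)‖ ≠ 0 ∧
      (∏ σ : E →+* PadicAlgCl p, max 1 ‖σ y‖) * ‖(ν : PadicAlgCl p)‖ ≤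
        ‖((A : ℕ) : PadicAlgCl p)‖⁻¹ := by
    intro p _
    refine ⟨?_, ?_, ?_⟩
    · rw [norm_ne_zero_iff]
      exact_mod_cast hA0
    · rw [norm_ne_zero_iff]
      exact_mod_cast hν0
    · rw [hν, ← prod_emb_padic p z, norm_prod, ← Finset.prod_mul_distrib]
      rw [hA]
      refine le_trans (Finset.prod_le_prod (fun σ _ => by positivity) fun σ _ => ?_)
        (He_padic x N p)
      have hv : IsNonarchimedean (He_av σ) := by
        intro a b
        rw [He_av_apply, He_av_apply, He_av_apply, map_add]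
        exact PadicAlgCl.isNonarchimedean p _ _
      have h1 := He_rootN (He_av σ) hv n (fun j => MvPolynomial.aeval x (G j)) y
        (∏ i, max ‖σ (x i)‖ 1 ^ N) h0 hn1 (fun j hj =>
          H32.T3.abv_aeval_le_nonarch hv x (G j) (d := fun _ => N) (He_deg (G j) N (hN j hj)))
      rw [hz]
      exact h1
  obtain ⟨n0, hn0⟩ := int_of_padic ((A : ℚ) * ν) (fun p hp => by
    obtain ⟨h1, h2, h3⟩ := hpad p
    push_cast
    rw [norm_mul]
    have h4 : ‖(ν : PadicAlgCl p)‖ ≤ ‖((A : ℕ) : PadicAlgCl p)‖⁻¹ := by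
      refine le_trans ?_ h3
      have h5 : (1 : ℝ) ≤ ∏ σ : E →+* PadicAlgCl p, max 1 ‖σ y‖ :=
        Finset.one_le_prod fun σ _ => le_max_left _ _
      have := mul_le_mul_of_nonneg_right h5 (norm_nonneg (ν : PadicAlgCl p))
      linarith
    calc ‖((A : ℕ) : PadicAlgCl p)‖ * ‖(ν : PadicAlgCl p)‖ ≤
          ‖((A : ℕ) : PadicAlgCl p)‖ * ‖((A : ℕ) : PadicAlgCl p)‖⁻¹ :=
          mul_le_mul_of_nonneg_left h4 (norm_nonneg _)
      _ = 1 := mul_inv_cancel₀ h1)
  have hn00 : n0 ≠ 0 := by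
    intro h
    rw [h, Int.cast_zero, mul_eq_zero] at hn0
    rcases hn0 with h | h
    · exact hA0 (by exact_mod_cast h)
    · exact hν0 h
  have ha0 : 0 < n0.natAbs := Int.natAbs_pos.2 hn00
  have hloc : LocBd y n0.natAbs := by
    intro p hp
    obtain ⟨h1, h2, h3⟩ := hpad p
    have hnorm : ‖((n0.natAbs : ℕ) : PadicAlgCl p)‖ = ‖((n0 : ℤ) : PadicAlgCl p)‖ := by
      rcases Int.natAbs_eq n0 with h | h
      · conv_rhs => rw [h]
        rw [Int.cast_natCast]
      · conv_rhs => rw [h]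
        rw [Int.cast_neg, norm_neg, Int.cast_natCast]
    have h4 : ((n0 : ℤ) : PadicAlgCl p) = ((A : ℕ) : PadicAlgCl p) * (ν : PadicAlgCl p) := by
      have h5 : ((((A : ℚ) * ν : ℚ)) : PadicAlgCl p) = (((n0 : ℤ) : ℚ) : PadicAlgCl p) := by
        rw [hn0]
      rw [Rat.cast_intCast] at h5
      rw [← h5]
      push_cast
      ring
    rw [hnorm, h4, norm_mul, mul_inv]
    have hνpos : 0 < ‖(ν : PadicAlgCl p)‖ := lt_of_le_of_ne (norm_nonneg _) (Ne.symm h2)
    rw [← div_eq_mul_inv, le_div_iff₀ hνpos]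
    exact h3
  have hden : den y ≤ n0.natAbs := den_le ha0 hloc
  have hdy : 0 < den y := (den_spec y).1
  -- the archimedean size
  have hνabs : |(ν : ℝ)| = ∏ φ : E →+* ℂ, ‖φ z‖ := by
    rw [← norm_prod, prod_emb_complex z, ← hν, Complex.norm_ratCast]
  have hφz : ∀ φ : E →+* ℂ, 0 < ‖φ z‖ := fun φ => norm_pos_iff.2 ((map_ne_zero φ).2 hz0)
  have hlogν : Real.log |(ν : ℝ)| = ∑ φ : E →+* ℂ, Real.log ‖φ z‖ := by
    rw [hνabs, Real.log_prod fun φ _ => (hφz φ).ne']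
  have hna : ((n0.natAbs : ℕ) : ℝ) = A * |(ν : ℝ)| := by
    have h5 : (((n0 : ℤ) : ℚ) : ℝ) = (((A : ℚ) * ν : ℚ) : ℝ) := by rw [hn0]
    push_cast at h5
    rw [Nat.cast_natAbs, Int.cast_abs, h5, abs_mul, Nat.abs_cast]
  have hAR : (0 : ℝ) < A := by exact_mod_cast Nat.pos_of_ne_zero hA0
  have hνR : (0 : ℝ) < |(ν : ℝ)| := abs_pos.2 (by exact_mod_cast hν0)
  have hlogA : Real.log (A : ℝ) = N * ∑ i, Real.log (den (x i)) := by
    rw [hA]
    push_cast
    rw [Real.log_pow, Real.log_prod fun i _ => by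
      have := (den_spec (x i)).1
      positivity]
  have hlogden : Real.log (den y) ≤ N * ∑ i, Real.log (den (x i)) +
      ∑ φ : E →+* ℂ, Real.log ‖φ z‖ := by
    rw [← hlogA, ← hlogν, ← Real.log_mul hAR.ne' hνR.ne', ← hna]
    exact Real.log_le_log (by exact_mod_cast hdy) (by exact_mod_cast hden)
  have hnB : (0 : ℝ) < n * B := by positivity
  have harch : ∀ φ : E →+* ℂ, Real.log (max 1 ‖φ y‖) + Real.log ‖φ z‖ ≤
      Real.log (n * B) + N * ∑ i, Real.log (max 1 ‖φ (x i)‖) := by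
    intro φ
    have hP : 0 < ∏ i, max ‖φ (x i)‖ 1 ^ N :=
      Finset.prod_pos fun i _ => pow_pos (lt_of_lt_of_le one_pos (le_max_right _ _)) _
    have h1 := He_root (He_av φ) n (fun j => MvPolynomial.aeval x (G j)) y
      (B * ∏ i, max ‖φ (x i)‖ 1 ^ N) h0 hn1 (fun j hj =>
        (H32.T3.abv_aeval_le (He_av φ) x (G j) (d := fun _ => N) (He_deg (G j) N (hN j hj))).trans
          (mul_le_mul_of_nonneg_right (hG j hj) hP.le))
    have h2 : max 1 ‖φ y‖ * ‖φ z‖ ≤ n * (B * ∏ i, max ‖φ (x i)‖ 1 ^ N) := by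
      rw [hz]
      exact h1
    have hm : (0 : ℝ) < max 1 ‖φ y‖ := lt_of_lt_of_le one_pos (le_max_left _ _)
    rw [← Real.log_mul hm.ne' (hφz φ).ne']
    refine (Real.log_le_log (mul_pos hm (hφz φ)) h2).trans (le_of_eq ?_)
    rw [← mul_assoc, Real.log_mul hnB.ne' hP.ne', Real.log_prod fun i _ =>
      (pow_pos (lt_of_lt_of_le one_pos (le_max_right _ _)) _).ne', Finset.mul_sum]
    congr 1
    refine Finset.sum_congr rfl fun i _ => ?_
    rw [Real.log_pow, max_comm]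
  have hsum := Finset.sum_le_sum fun (φ : E →+* ℂ) (_ : φ ∈ Finset.univ) => harch φ
  rw [Finset.sum_add_distrib, Finset.sum_add_distrib, Finset.sum_const, Finset.card_univ,
    NumberField.Embeddings.card E ℂ, nsmul_eq_mul, ← Finset.mul_sum, Finset.sum_comm] at hsum
  unfold hE
  rw [Finset.sum_add_distrib, mul_add]
  linarith

end CZ
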