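import Mathlib

/-!
# MP_ede373, cubic points, row Xc: clearing denominators; small transcendence degree

`alg_rel`. `y` is a root of a nonzero polynomial over the field `ℚ(P)`; each element of `ℚ(P)` is a
quotient of two elements `aeval P a / aeval P b` with `a, b` integer polynomials, `aeval P b ≠ 0`
(the set of such quotients is an intermediate field containing `P`:
`IntermediateField.adjoin_induction`, or `IntermediateField.mem_adjoin_range_iff` which gives
rational polynomials; then clear the rational denominators). Multiply by a common denominator. `n` is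
the degree, `n ≥ 1` because a nonzero constant has no root.

`exists_basis`. Let `T ⊆ range P` be maximal algebraically independent (`ℚ`-transcendence basis of
`ℚ(P)`: `exists_isTranscendenceBasis_subset` or Zorn); every `P i` is algebraic over `adjoin ℚ T`. If
`T` had 3 elements we would get `f : Fin 3 → Fin k` with `P ∘ f` algebraically independent. So `T` has
at most 2 elements. If fewer, add complex numbers transcendental over the (countable) algebraic
closure of `adjoin ℚ T` (`ℂ` is uncountable; algebraic closures of countable fields are countable: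
`Algebra.IsAlgebraic.cardinalMk_le_max`, or use that the transcendence degree of `ℂ` over `ℚ` is
infinite), with `AlgebraicIndependent` for `insert`/`Fin.snoc`
(`algebraicIndependent_insert`/`AlgebraicIndependent.option_iff`).
-/

set_option autoImplicit false

namespace CZ

open MvPolynomial in
theorem Xc_frac {k : ℕ} (P : Fin k → ℂ) {x : ℂ} (hx : x ∈ IntermediateField.adjoin ℚ (Set.range P)) :
    ∃ a b : MvPolynomial (Fin k) ℤ, aeval P b ≠ 0 ∧ x * aeval P b = aeval P a := by
  induction hx using IntermediateField.adjoin_induction with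
  | mem x hx =>
    obtain ⟨i, rfl⟩ := hx
    exact ⟨X i, 1, by rw [map_one]; exact one_ne_zero, by rw [map_one, mul_one, aeval_X]⟩
  | algebraMap q =>
    refine ⟨C q.num, C (q.den : ℤ), ?_, ?_⟩
    · rw [aeval_C]
      simp
    · rw [aeval_C, aeval_C]
      simp only [eq_ratCast, algebraMap_int_eq, eq_intCast, Int.cast_natCast]
      exact_mod_cast Rat.mul_den_eq_num q
  | add x y _ _ hx hy =>
    obtain ⟨a1, b1, h1, e1⟩ := hx
    obtain ⟨a2, b2, h2, e2⟩ := hy
    refine ⟨a1 * b2 + a2 * b1, b1 * b2, ?_, ?_⟩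
    · rw [map_mul]
      exact mul_ne_zero h1 h2
    · rw [map_add, map_mul, map_mul, map_mul, ← e1, ← e2]
      ring
  | inv x _ hx =>
    obtain ⟨a, b, h1, e1⟩ := hx
    rcases eq_or_ne x 0 with h | h
    · refine ⟨0, 1, by rw [map_one]; exact one_ne_zero, ?_⟩
      rw [h, inv_zero, zero_mul, map_zero]
    · refine ⟨b, a, ?_, ?_⟩
      · rw [← e1]
        exact mul_ne_zero h h1
      · rw [← e1, inv_mul_cancel_left₀ h]
  | mul x y _ _ hx hy =>
    obtain ⟨a1, b1, h1, e1⟩ := hx
    obtain ⟨a2, b2, h2, e2⟩ := hy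
    refine ⟨a1 * a2, b1 * b2, ?_, ?_⟩
    · rw [map_mul]
      exact mul_ne_zero h1 h2
    · rw [map_mul, map_mul, ← e1, ← e2]
      ring

theorem alg_rel {k : ℕ} (P : Fin k → ℂ) (y : ℂ)
    (h : IsAlgebraic (IntermediateField.adjoin ℚ (Set.range P)) y) :
    ∃ (n : ℕ) (G : ℕ → MvPolynomial (Fin k) ℤ), 0 < n ∧ MvPolynomial.aeval P (G n) ≠ 0 ∧
      ∑ j ∈ Finset.range (n + 1), MvPolynomial.aeval P (G j) * y ^ j = 0 := by
  obtain ⟨p, hp, hy⟩ := h
  have h1 : ∀ j, ∃ a b : MvPolynomial (Fin k) ℤ, MvPolynomial.aeval P b ≠ 0 ∧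
      (p.coeff j : ℂ) * MvPolynomial.aeval P b = MvPolynomial.aeval P a := fun j => Xc_frac P (p.coeff j).2
  choose a b hb hab using h1
  have hlead : (p.coeff p.natDegree : ℂ) ≠ 0 := by
    intro h0
    apply hp
    rw [← Polynomial.leadingCoeff_eq_zero]
    exact Subtype.ext h0
  obtain ⟨B, hB⟩ : ∃ B : ℂ, B = ∏ i ∈ Finset.range (p.natDegree + 1), MvPolynomial.aeval P (b i) := ⟨_, rfl⟩
  have hB0 : B ≠ 0 := by
    rw [hB]
    exact Finset.prod_ne_zero_iff.2 fun i _ => hb i
  have hG : ∀ j ∈ Finset.range (p.natDegree + 1), MvPolynomial.aeval P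
      (a j * ∏ i ∈ (Finset.range (p.natDegree + 1)).erase j, b i) = (p.coeff j : ℂ) * B := by
    intro j hj
    rw [map_mul, map_prod, ← hab j, hB, ← Finset.mul_prod_erase _ _ hj, mul_assoc]
  have hsum : ∑ j ∈ Finset.range (p.natDegree + 1), (p.coeff j : ℂ) * y ^ j = 0 := by
    rw [Polynomial.aeval_eq_sum_range] at hy
    exact hy
  refine ⟨p.natDegree, fun j => a j * ∏ i ∈ (Finset.range (p.natDegree + 1)).erase j, b i, ?_, ?_, ?_⟩
  · rcases Nat.eq_zero_or_pos p.natDegree with h0 | h0
    · exfalso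
      rw [h0, zero_add, Finset.sum_range_one, pow_zero, mul_one] at hsum
      rw [h0] at hlead
      exact hlead hsum
    · exact h0
  · rw [hG _ (Finset.self_mem_range_succ _)]
    exact mul_ne_zero hlead hB0
  · have e : ∑ j ∈ Finset.range (p.natDegree + 1), MvPolynomial.aeval P
        (a j * ∏ i ∈ (Finset.range (p.natDegree + 1)).erase j, b i) * y ^ j =
        B * ∑ j ∈ Finset.range (p.natDegree + 1), (p.coeff j : ℂ) * y ^ j := by
      rw [Finset.mul_sum]
      refine Finset.sum_congr rfl fun j hj => ?_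
      rw [hG j hj]
      ring
    rw [e, hsum, mul_zero]

theorem Xc_up {S : Subalgebra ℚ ℂ} {L : IntermediateField ℚ ℂ} (hSL : ∀ x ∈ S, x ∈ L) {y : ℂ}
    (h : IsAlgebraic S y) : IsAlgebraic L y := by
  obtain ⟨p, hp, hy⟩ := h
  let i : S →+* L := ((algebraMap S ℂ).codRestrict L fun x => hSL x x.2)
  have hi : Function.Injective i := by
    intro x x' hx
    exact Subtype.ext (congrArg (fun z : L => (z : ℂ)) hx)
  have hc : (algebraMap L ℂ).comp i = algebraMap S ℂ := RingHom.ext fun x => rfl
  refine ⟨p.map i, (Polynomial.map_ne_zero_iff hi).2 hp, ?_⟩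
  rw [Polynomial.aeval_def, Polynomial.eval₂_map, hc]
  exact hy

theorem exists_basis {k : ℕ} (P : Fin k → ℂ)
    (h : ¬ ∃ f : Fin 3 → Fin k, AlgebraicIndependent ℚ (fun i ↦ P (f i))) :
    ∃ θ1 θ2 : ℂ, AlgebraicIndependent ℚ ![θ1, θ2] ∧
      ∀ i, IsAlgebraic (IntermediateField.adjoin ℚ (Set.range ![θ1, θ2])) (P i) := by
  obtain ⟨B, hB⟩ := (AlgebraicIndependent.matroid ℚ ℂ).exists_isBasis (Set.range P)
  rw [AlgebraicIndependent.matroid_isBasis_iff] at hB
  obtain ⟨hBi, hBP, hBa⟩ := hB
  have hB2 : B.encard ≤ 2 := by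
    by_contra hcon
    have h3 : 3 ≤ B.encard := by
      have h0 : (2 : ℕ∞) + 1 ≤ B.encard := Order.add_one_le_of_lt (not_le.1 hcon)
      exact h0
    obtain ⟨t, htB, ht⟩ := Set.exists_subset_encard_eq h3
    obtain ⟨x, y, z, hxy, hxz, hyz, rfl⟩ := Set.encard_eq_three.1 ht
    have hx : x ∈ B := htB (by simp)
    have hy : y ∈ B := htB (by simp)
    have hz : z ∈ B := htB (by simp)
    obtain ⟨i1, h1⟩ := hBP hx
    obtain ⟨i2, h2⟩ := hBP hy
    obtain ⟨i3, h3⟩ := hBP hz
    refine h ⟨![i1, i2, i3], ?_⟩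
    have hg : Function.Injective (![⟨x, hx⟩, ⟨y, hy⟩, ⟨z, hz⟩] : Fin 3 → B) := by
      intro i j hij
      fin_cases i <;> fin_cases j <;> simp_all
    have h4 := AlgebraicIndependent.comp hBi _ hg
    convert h4 using 1
    funext i
    fin_cases i
    · exact h1
    · exact h2
    · exact h3
  obtain ⟨S, hBS, hS⟩ := exists_isTranscendenceBasis_superset hBi
  have hSinf : S.encard = ⊤ := by
    have h1 := IsAlgClosed.cardinal_eq_cardinal_transcendence_basis_of_aleph0_lt' _ hS
      (by simp) (by rw [Cardinal.mk_complex]; exact Cardinal.aleph0_lt_continuum)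
    have h2 : Infinite S := by
      rw [← Cardinal.aleph0_le_mk_iff, ← h1, Cardinal.mk_complex]
      exact Cardinal.aleph0_le_continuum
    exact (Set.infinite_coe_iff.1 h2).encard_eq
  obtain ⟨U, hBU, hUS, hU⟩ := Set.exists_superset_subset_encard_eq hBS hB2 (by rw [hSinf]; exact le_top)
  obtain ⟨θ1, θ2, hne, rfl⟩ := Set.encard_eq_two.1 hU
  have h1 : θ1 ∈ S := hUS (by simp)
  have h2 : θ2 ∈ S := hUS (by simp)
  refine ⟨θ1, θ2, ?_, ?_⟩
  · have hg : Function.Injective (![⟨θ1, h1⟩, ⟨θ2, h2⟩] : Fin 2 → S) := by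
      intro i j hij
      fin_cases i <;> fin_cases j <;> simp_all
    have h4 := AlgebraicIndependent.comp hS.1 _ hg
    convert h4 using 1
    funext i
    fin_cases i <;> rfl
  · intro i
    refine Xc_up ?_ (hBa (P i) ⟨i, rfl⟩)
    intro x hx
    have h3 : Algebra.adjoin ℚ B ≤ (IntermediateField.adjoin ℚ (Set.range ![θ1, θ2])).toSubalgebra := by
      refine Algebra.adjoin_le fun w hw => ?_
      refine IntermediateField.subset_adjoin ℚ _ ?_
      rcases hBU hw with h5 | h5
      · exact ⟨0, h5.symm⟩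
      · exact ⟨1, h5.symm⟩
    exact h3 hx

end CZ
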