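import Pool.Agent.H32.CZ.Xa
import Pool.Agent.H32.CZ.Xc
import Pool.Agent.H32.CZ.Cc
import Pool.Agent.H32.CZ.Hd
import Pool.Agent.H32.CZ.He

/-!
# MP_ede373, cubic points, row Xd: the extension step

Let `y` be algebraic over `ℚ(P)`, `n, G` from `alg_rel`, `N ≥ totalDegree (G j)`, `Bn ≥ nrm (G j)`, `Bn ≥ 1`,
`B ≥ 1` with `‖P i‖ + 1 ≤ B`, `‖y‖ ≤ B`, `g0 = ‖G_n(P)‖ / 2 > 0`. There is a constant `L ≥ 1` with: if
`‖P' i - P i‖ ≤ e^{-δ}` (`δ ≥ 0`) then `‖G_j(P') - G_j(P)‖ ≤ L e^{-δ}` and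
`‖∑_j G_j(P') y^j‖ ≤ L e^{-δ}` (`aeval_sub_le`). Choose `d1 ≥ 0` with `L e^{-d1} ≤ g0` and
`L e^{-d1} ≤ g0 e^{-d1/2}` (so `L e^{-δ} ≤ g0 e^{-δ/2}` for `δ ≥ d1`). For `δ ≥ d1`: `‖G_n(P')‖ ≥ g0`, and by `near_root`
the polynomial `∑ G_j(P') X^j` (degree exactly `n`) has a root `z` with
`‖z - y‖^n ≤ L e^{-δ} / g0 ≤ e^{-δ/2}`, so `‖z - y‖ ≤ e^{-δ/(2n)}`.

Given `U0'`, take `(t, V, E, x, S, d)` for `P, κ` with `U0` huge. `S1 = {φ ∈ S | d φ ≥ d1}`; `#S ≤ finrank ≤ t`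
(`NumberField.Embeddings.card`), so `∑_{S1} d ≥ ∑_S d - t d1 ≥ V/2`: indeed `t ≤ V^{1/κ}` and `κ > 1`, `V ≥ U0`, so
`t d1 ≤ V / 2`. So `S1 ≠ ∅` and `G_n(x) ≠ 0` in `E`. `f = ∑_j C (G_j(x)) X^j ∈ E[X]` has degree `n`; let
`Ψ` be the multiset of its monic irreducible factors (`normalizedFactors`), at most `n` of them. For
`φ ∈ S1` the root `z_φ` of `φ(f)` is a root of `φ(ψ)` for some `ψ ∈ Ψ`. Pigeonhole: one `ψ` with
`∑_{φ ∈ S1, ψ(φ) = ψ} d φ ≥ (1/n) ∑_{S1} d ≥ V / (2n)` (sum over the distinct `ψ` is at least the whole).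
`E'`, `ρ` from `adjoin_root_nf` for `ψ`; `finrank ℚ E' ≤ n t`. For each such `φ` take `φ'` extending `φ` with
`φ' ρ = z_φ`; `φ ↦ φ'` is injective; `S'` = its image, `d' φ' = d (φ' ∘ algebraMap) / (2 n)`. Near:
`‖φ'(x_i) - P_i‖ ≤ e^{-dφ} ≤ e^{-d'}`, `‖φ' ρ - y‖ ≤ e^{-dφ/(2n)}`. `∑_{S'} d' ≥ V / (4 n^2)`.
Heights: `hE (algebraMap x_i) ≤ finrank E E' * t ≤ n t` (`hE_algebraMap`), `hE ρ ≤ n t log (n Bn) + N k n t` (`hE_root_le`
with the `G j`; in `E'`, `aeval (algebraMap ∘ x) (G j) = algebraMap (aeval x (G j))`). So with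
`t' = C t` (`C` depends on `n, N, k, Bn` only, `C ≥ 1`) and `V' = V / (4 n^2)`: `ApprAt (Fin.snoc P y) t' V'`.
`V' ≥ U0'` for `U0` large; `t' ^ κ' ≤ V'`: if `κ' ≤ 0` the left side is `≤ 1`; otherwise
`t'^{κ'} = C^{κ'} t^{κ'} ≤ C^{κ'} V^{κ'/κ} ≤ V/(4n^2)` for `V ≥ U0` large as `κ'/κ < 1`.
-/

set_option autoImplicit false

namespace CZ

open Polynomial

/-- the polynomial with given coefficients -/
noncomputable def xdP {F : Type*} [Field F] (a : ℕ → F) (n : ℕ) : F[X] :=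
  ∑ j ∈ Finset.range (n + 1), C (a j) * X ^ j

theorem xdP_coeff {F : Type*} [Field F] (a : ℕ → F) (n m : ℕ) :
    (xdP a n).coeff m = if m < n + 1 then a m else 0 := by
  unfold xdP
  rw [finset_sum_coeff]
  simp only [coeff_C_mul, coeff_X_pow, mul_ite, mul_one, mul_zero, Finset.sum_ite_eq,
    Finset.mem_range]

theorem xdP_deg {F : Type*} [Field F] (a : ℕ → F) (n : ℕ) (h : a n ≠ 0) :
    (xdP a n).natDegree = n := by
  refine natDegree_eq_of_le_of_coeff_ne_zero ?_ ?_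
  · refine natDegree_sum_le_of_forall_le _ _ fun j hj => ?_
    refine (natDegree_C_mul_X_pow_le _ _).trans ?_
    have := Finset.mem_range.1 hj
    omega
  · rw [xdP_coeff, if_pos (Nat.lt_succ_self n)]
    exact h

theorem xdP_lead {F : Type*} [Field F] (a : ℕ → F) (n : ℕ) (h : a n ≠ 0) :
    (xdP a n).leadingCoeff = a n := by
  rw [leadingCoeff, xdP_deg a n h, xdP_coeff, if_pos (Nat.lt_succ_self n)]

theorem xdP_eval {F : Type*} [Field F] (a : ℕ → F) (n : ℕ) (z : F) :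
    (xdP a n).eval z = ∑ j ∈ Finset.range (n + 1), a j * z ^ j := by
  unfold xdP
  rw [eval_finset_sum]
  simp

theorem xdP_map {F K : Type*} [Field F] [Field K] (φ : F →+* K) (a : ℕ → F) (n : ℕ) :
    (xdP a n).map φ = xdP (fun j => φ (a j)) n := by
  unfold xdP
  rw [Polynomial.map_sum]
  simp

/-- the irreducible factors -/
theorem xd_factors {E : Type} [Field E] (f : E[X]) (hf : f ≠ 0) :
    ∃ Ψ : Finset E[X], Ψ.card ≤ f.natDegree ∧ (∀ ψ ∈ Ψ, Irreducible ψ ∧ ψ ∣ f) ∧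
      ∀ (φ : E →+* ℂ) (z : ℂ), (f.map φ).eval z = 0 → ∃ ψ ∈ Ψ, (ψ.map φ).eval z = 0 := by
  classical
  have hirr : ∀ ψ ∈ UniqueFactorizationMonoid.factors f, Irreducible ψ :=
    fun ψ hψ => UniqueFactorizationMonoid.irreducible_of_factor ψ hψ
  have hass := UniqueFactorizationMonoid.factors_prod hf
  refine ⟨(UniqueFactorizationMonoid.factors f).toFinset, ?_, ?_, ?_⟩
  · refine (Multiset.toFinset_card_le _).trans ?_
    have h1 : f.natDegree = (UniqueFactorizationMonoid.factors f).prod.natDegree :=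
      natDegree_eq_of_degree_eq (degree_eq_degree_of_associated hass.symm)
    have h0 : (0 : E[X]) ∉ UniqueFactorizationMonoid.factors f := fun h => (hirr 0 h).ne_zero rfl
    rw [h1, natDegree_multiset_prod _ h0]
    have h2 : (Multiset.map natDegree (UniqueFactorizationMonoid.factors f)).card • 1 ≤
        (Multiset.map natDegree (UniqueFactorizationMonoid.factors f)).sum := by
      refine Multiset.card_nsmul_le_sum fun x hx => ?_
      obtain ⟨ψ, hψ, rfl⟩ := Multiset.mem_map.1 hx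
      exact (hirr ψ hψ).natDegree_pos
    rwa [Multiset.card_map, smul_eq_mul, mul_one] at h2
  · intro ψ hψ
    rw [Multiset.mem_toFinset] at hψ
    exact ⟨hirr ψ hψ, UniqueFactorizationMonoid.dvd_of_mem_factors hψ⟩
  · intro φ z hz
    obtain ⟨u, hu⟩ := hass
    have h1 : eval₂RingHom φ z f = 0 := by
      rw [coe_eval₂RingHom, ← eval_map]
      exact hz
    rw [← hu, map_mul] at h1
    have h2 : eval₂RingHom φ z (u : E[X]) ≠ 0 := (u.isUnit.map (eval₂RingHom φ z)).ne_zero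
    have h3 := (mul_eq_zero.1 h1).resolve_right h2
    rw [map_multiset_prod, Multiset.prod_eq_zero_iff, Multiset.mem_map] at h3
    obtain ⟨ψ, hψ, h4⟩ := h3
    refine ⟨ψ, Multiset.mem_toFinset.2 hψ, ?_⟩
    rw [eval_map, ← coe_eval₂RingHom]
    exact h4

/-- powers are eventually dominated -/
theorem xd_pow (K e : ℝ) (hK : 0 ≤ K) (he : e < 1) :
    ∃ U : ℝ, ∀ V : ℝ, U ≤ V → K * V ^ e ≤ V := by
  refine ⟨max 1 (K ^ (1 / (1 - e))), fun V hV => ?_⟩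
  have h1 : 1 ≤ V := (le_max_left _ _).trans hV
  have h2 : K ^ (1 / (1 - e)) ≤ V := (le_max_right _ _).trans hV
  have h0 : 0 < 1 - e := by linarith
  have hV0 : 0 < V := by linarith
  have h3 : K ≤ V ^ (1 - e) := by
    calc K = (K ^ (1 / (1 - e))) ^ (1 - e) := by
          rw [← Real.rpow_mul hK, one_div, inv_mul_cancel₀ h0.ne', Real.rpow_one]
      _ ≤ V ^ (1 - e) := Real.rpow_le_rpow (Real.rpow_nonneg hK _) h2 h0.le
  calc K * V ^ e ≤ V ^ (1 - e) * V ^ e :=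
        mul_le_mul_of_nonneg_right h3 (Real.rpow_nonneg hV0.le _)
    _ = V := by
        rw [← Real.rpow_add hV0]
        simp

/-- the local statement -/
theorem xd_local {k : ℕ} (P : Fin k → ℂ) (y : ℂ) (n : ℕ) (G : ℕ → MvPolynomial (Fin k) ℤ)
    (hn : 0 < n) (hGn : MvPolynomial.aeval P (G n) ≠ 0)
    (hrel : ∑ j ∈ Finset.range (n + 1), MvPolynomial.aeval P (G j) * y ^ j = 0) :
    ∃ d1 : ℝ, 0 ≤ d1 ∧ ∀ (δ : ℝ), d1 ≤ δ → ∀ P' : Fin k → ℂ,
      (∀ i, ‖P' i - P i‖ ≤ Real.exp (-δ)) → MvPolynomial.aeval P' (G n) ≠ 0 ∧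
      ∃ z : ℂ, ∑ j ∈ Finset.range (n + 1), MvPolynomial.aeval P' (G j) * z ^ j = 0 ∧
        ‖z - y‖ ≤ Real.exp (-(δ / (2 * n))) := by
  obtain ⟨N, hN⟩ : ∃ N : ℕ, ∀ j ≤ n, (G j).totalDegree ≤ N :=
    ⟨(Finset.range (n + 1)).sup fun j => (G j).totalDegree, fun j hj =>
      Finset.le_sup (f := fun j => (G j).totalDegree) (Finset.mem_range.2 (Nat.lt_succ_of_le hj))⟩
  obtain ⟨Bn, hBn0, hBn⟩ : ∃ Bn : ℝ, 0 ≤ Bn ∧ ∀ j ≤ n, H32.T3.nrm (G j) ≤ Bn :=
    ⟨∑ j ∈ Finset.range (n + 1), H32.T3.nrm (G j),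
      Finset.sum_nonneg fun j _ => H32.T3.nrm_nonneg _, fun j hj =>
      Finset.single_le_sum (f := fun j => H32.T3.nrm (G j)) (fun j _ => H32.T3.nrm_nonneg _)
        (Finset.mem_range.2 (Nat.lt_succ_of_le hj))⟩
  obtain ⟨B, hB1, hBP, hBy⟩ : ∃ B : ℝ, 1 ≤ B ∧ (∀ i, ‖P i‖ + 1 ≤ B) ∧ ‖y‖ ≤ B := by
    refine ⟨1 + ∑ i, ‖P i‖ + ‖y‖, ?_, fun i => ?_, ?_⟩
    · have h1 : 0 ≤ ∑ i, ‖P i‖ := Finset.sum_nonneg fun i _ => norm_nonneg _
      have h2 := norm_nonneg y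
      linarith
    · have h1 : ‖P i‖ ≤ ∑ i, ‖P i‖ :=
        Finset.single_le_sum (f := fun i => ‖P i‖) (fun i _ => norm_nonneg _) (Finset.mem_univ i)
      have h2 := norm_nonneg y
      linarith
    · have h1 : 0 ≤ ∑ i, ‖P i‖ := Finset.sum_nonneg fun i _ => norm_nonneg _
      linarith
  obtain ⟨g0, hg0⟩ : ∃ g0 : ℝ, g0 = ‖MvPolynomial.aeval P (G n)‖ / 2 := ⟨_, rfl⟩
  have hg0p : 0 < g0 := by
    rw [hg0]
    have := norm_pos_iff.2 hGn
    positivity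
  obtain ⟨D, hD⟩ : ∃ D : ℝ, D = Bn * (N * B ^ N) := ⟨_, rfl⟩
  have hD0 : 0 ≤ D := by rw [hD]; positivity
  obtain ⟨L, hL⟩ : ∃ L : ℝ, L = (n + 1) * (D * B ^ n) + D + 1 := ⟨_, rfl⟩
  have hL1 : 1 ≤ L := by
    rw [hL]
    have : 0 ≤ (n + 1) * (D * B ^ n) := by positivity
    linarith
  have hLD : D ≤ L := by
    rw [hL]
    have : 0 ≤ (n + 1) * (D * B ^ n) := by positivity
    linarith
  obtain ⟨d1, hd1, hd1'⟩ : ∃ d1 : ℝ, 0 ≤ d1 ∧ L * Real.exp (-(d1 / 2)) ≤ g0 := by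
    refine ⟨2 * max 0 (Real.log (L / g0)), by positivity, ?_⟩
    have h1 : Real.log (L / g0) ≤ max 0 (Real.log (L / g0)) := le_max_right _ _
    have h2 : 2 * max 0 (Real.log (L / g0)) / 2 = max 0 (Real.log (L / g0)) := by ring
    rw [h2]
    have h3 : Real.exp (-max 0 (Real.log (L / g0))) ≤ Real.exp (-Real.log (L / g0)) :=
      Real.exp_le_exp.2 (by linarith)
    rw [Real.exp_neg (Real.log (L / g0)), Real.exp_log (by positivity)] at h3
    calc L * Real.exp (-max 0 (Real.log (L / g0))) ≤ L * (L / g0)⁻¹ :=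
          mul_le_mul_of_nonneg_left h3 (by linarith)
      _ = g0 := by
          have : L ≠ 0 := by linarith
          field_simp
  refine ⟨d1, hd1, fun δ hδ P' hP' => ?_⟩
  have hexp1 : Real.exp (-δ) ≤ 1 := Real.exp_le_one_iff.2 (by linarith)
  have hPB : ∀ i, ‖P i‖ ≤ B := fun i => by linarith [hBP i]
  have hP'B : ∀ i, ‖P' i‖ ≤ B := fun i => by
    have h1 : ‖P' i‖ ≤ ‖P' i - P i‖ + ‖P i‖ := by
      have := norm_add_le (P' i - P i) (P i)
      rwa [sub_add_cancel] at this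
    linarith [hBP i, hP' i]
  have hdiff : ∀ j ≤ n, ‖MvPolynomial.aeval P' (G j) - MvPolynomial.aeval P (G j)‖ ≤
      D * Real.exp (-δ) := by
    intro j hj
    refine (aeval_sub_le (G j) N (hN j hj) P P' B (Real.exp (-δ)) hB1 hPB hP'B hP'
      (Real.exp_pos _).le).trans ?_
    rw [hD]
    have h1 : 0 ≤ N * B ^ N * Real.exp (-δ) := by positivity
    calc H32.T3.nrm (G j) * (N * B ^ N * Real.exp (-δ)) ≤ Bn * (N * B ^ N * Real.exp (-δ)) :=
          mul_le_mul_of_nonneg_right (hBn j hj) h1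
      _ = _ := by ring
  have hsum : ‖∑ j ∈ Finset.range (n + 1), MvPolynomial.aeval P' (G j) * y ^ j‖ ≤
      L * Real.exp (-δ) := by
    have h1 : ∑ j ∈ Finset.range (n + 1), MvPolynomial.aeval P' (G j) * y ^ j =
        ∑ j ∈ Finset.range (n + 1),
          (MvPolynomial.aeval P' (G j) - MvPolynomial.aeval P (G j)) * y ^ j := by
      simp only [sub_mul]
      rw [Finset.sum_sub_distrib, hrel, sub_zero]
    rw [h1]
    refine (norm_sum_le _ _).trans ?_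
    have h2 : ∀ j ∈ Finset.range (n + 1),
        ‖(MvPolynomial.aeval P' (G j) - MvPolynomial.aeval P (G j)) * y ^ j‖ ≤
          D * B ^ n * Real.exp (-δ) := by
      intro j hj
      have hj' : j ≤ n := Nat.lt_succ_iff.1 (Finset.mem_range.1 hj)
      rw [norm_mul, norm_pow]
      have h3 : ‖y‖ ^ j ≤ B ^ n := (pow_le_pow_left₀ (norm_nonneg _) hBy j).trans
        (pow_le_pow_right₀ hB1 hj')
      calc _ ≤ (D * Real.exp (-δ)) * B ^ n :=
            mul_le_mul (hdiff j hj') h3 (by positivity) (by positivity)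
        _ = _ := by ring
    refine (Finset.sum_le_card_nsmul _ _ _ h2).trans ?_
    rw [Finset.card_range, nsmul_eq_mul, hL]
    push_cast
    have h4 : 0 ≤ (D + 1) * Real.exp (-δ) := by positivity
    nlinarith
  have hee : Real.exp (-δ) = Real.exp (-(δ / 2)) * Real.exp (-(δ / 2)) := by
    rw [← Real.exp_add]
    congr 1
    ring
  have h5 : L * Real.exp (-(δ / 2)) ≤ g0 := by
    refine le_trans (mul_le_mul_of_nonneg_left (Real.exp_le_exp.2 ?_) (by linarith)) hd1'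
    linarith
  have h6 : L * Real.exp (-δ) ≤ g0 * Real.exp (-(δ / 2)) := by
    rw [hee, ← mul_assoc]
    exact mul_le_mul_of_nonneg_right h5 (Real.exp_pos _).le
  have h7 : L * Real.exp (-δ) ≤ g0 := by
    refine h6.trans ?_
    have : Real.exp (-(δ / 2)) ≤ 1 := Real.exp_le_one_iff.2 (by linarith)
    nlinarith
  have hGn' : g0 ≤ ‖MvPolynomial.aeval P' (G n)‖ := by
    have h8 := hdiff n le_rfl
    have h9 : ‖MvPolynomial.aeval P (G n)‖ ≤ ‖MvPolynomial.aeval P' (G n)‖ +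
        ‖MvPolynomial.aeval P' (G n) - MvPolynomial.aeval P (G n)‖ := by
      have := norm_sub_le (MvPolynomial.aeval P' (G n))
        (MvPolynomial.aeval P' (G n) - MvPolynomial.aeval P (G n))
      rwa [sub_sub_cancel] at this
    have h10 : D * Real.exp (-δ) ≤ L * Real.exp (-δ) :=
      mul_le_mul_of_nonneg_right hLD (Real.exp_pos _).le
    have h11 : ‖MvPolynomial.aeval P (G n)‖ = 2 * g0 := by rw [hg0]; ring
    linarith
  have hne : MvPolynomial.aeval P' (G n) ≠ 0 := norm_pos_iff.1 (lt_of_lt_of_le hg0p hGn')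
  refine ⟨hne, ?_⟩
  obtain ⟨z, hz, hzy⟩ := near_root (xdP (fun j => MvPolynomial.aeval P' (G j)) n) n hn
    (xdP_deg _ n hne) y g0 (L * Real.exp (-δ)) hg0p (by rw [xdP_lead _ n hne]; exact hGn')
    (by rw [xdP_eval]; exact hsum)
  refine ⟨z, ?_, ?_⟩
  · have h8 := (mem_roots'.1 hz).2
    rw [IsRoot.def, xdP_eval] at h8
    exact h8
  · have h8 : ‖z - y‖ ^ n ≤ (Real.exp (-(δ / (2 * n)))) ^ n := by
      refine hzy.trans ?_
      rw [div_le_iff₀ hg0p, ← Real.exp_nat_mul]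
      have : (n : ℝ) * -(δ / (2 * n)) = -(δ / 2) := by
        have : (n : ℝ) ≠ 0 := by exact_mod_cast hn.ne'
        field_simp
      rw [this]
      linarith
    exact le_of_pow_le_pow_left₀ hn.ne' (Real.exp_pos _).le h8

/-- pigeonhole -/
theorem xd_pigeon {α β : Type*} [DecidableEq β] (S : Finset α) (Ψ : Finset β) (g : α → β)
    (hg : ∀ a ∈ S, g a ∈ Ψ) (d : α → ℝ) (n : ℕ) (hΨ : Ψ.card ≤ n)
    (hpos : 0 < ∑ a ∈ S, d a) :
    ∃ ψ ∈ Ψ, (∑ a ∈ S, d a) / n ≤ ∑ a ∈ S.filter (fun a => g a = ψ), d a := by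
  have hne : Ψ.Nonempty := by
    rw [Finset.nonempty_iff_ne_empty]
    rintro rfl
    have : S = ∅ := Finset.eq_empty_of_forall_notMem fun a ha => by simpa using hg a ha
    rw [this] at hpos
    simp at hpos
  have hn : 0 < n := lt_of_lt_of_le hne.card_pos hΨ
  by_contra hcon
  push Not at hcon
  have h1 := Finset.sum_fiberwise_of_maps_to hg d
  have h2 : ∑ ψ ∈ Ψ, ∑ a ∈ S.filter (fun a => g a = ψ), d a < ∑ ψ ∈ Ψ, (∑ a ∈ S, d a) / n :=
    Finset.sum_lt_sum_of_nonempty hne hcon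
  rw [h1, Finset.sum_const, nsmul_eq_mul] at h2
  have h3 : (Ψ.card : ℝ) ≤ n := by exact_mod_cast hΨ
  have hn' : (0 : ℝ) < n := by exact_mod_cast hn
  have h4 : (Ψ.card : ℝ) * ((∑ a ∈ S, d a) / n) ≤ n * ((∑ a ∈ S, d a) / n) :=
    mul_le_mul_of_nonneg_right h3 (by positivity)
  have h5 : (n : ℝ) * ((∑ a ∈ S, d a) / n) = ∑ a ∈ S, d a := by field_simp
  linarith

theorem xd_aeval {k : ℕ} {E F : Type*} [Field E] [Field F] (φ : E →+* F) (x : Fin k → E)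
    (g : MvPolynomial (Fin k) ℤ) :
    φ (MvPolynomial.aeval x g) = MvPolynomial.aeval (fun i => φ (x i)) g := by
  have h := MvPolynomial.map_aeval x φ g
  rw [h, MvPolynomial.aeval_def, ← MvPolynomial.coe_eval₂Hom]
  congr 2
  exact RingHom.ext_int _ _

/-- the algebraic step -/
theorem xd_alg {k : ℕ} (P : Fin k → ℂ) (y : ℂ) (n : ℕ) (G : ℕ → MvPolynomial (Fin k) ℤ)
    (hn : 0 < n) (N : ℕ) (hN : ∀ j ≤ n, (G j).totalDegree ≤ N) (Bn : ℝ) (hB1 : 1 ≤ Bn)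
    (hBn : ∀ j ≤ n, H32.T3.nrm (G j) ≤ Bn) (d1 : ℝ) (hd1 : 0 ≤ d1)
    (hloc : ∀ (δ : ℝ), d1 ≤ δ → ∀ P' : Fin k → ℂ,
      (∀ i, ‖P' i - P i‖ ≤ Real.exp (-δ)) → MvPolynomial.aeval P' (G n) ≠ 0 ∧
      ∃ z : ℂ, ∑ j ∈ Finset.range (n + 1), MvPolynomial.aeval P' (G j) * z ^ j = 0 ∧
        ‖z - y‖ ≤ Real.exp (-(δ / (2 * n))))
    (t V : ℝ) (ht : 1 ≤ t) (hV : 0 < V) (htV : t * d1 ≤ V / 2) (hA : ApprAt P t V) :
    ApprAt (Fin.snoc P y : Fin (k + 1) → ℂ)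
      (n * (1 + Real.log (n * Bn) + N * k) * t) (V / (4 * n ^ 2)) := by
  classical
  obtain ⟨E, iE, iN, x, S, d, hfr, hht, hS, hVS⟩ := hA
  have hn' : (0 : ℝ) < n := by exact_mod_cast hn
  have hn1 : (1 : ℝ) ≤ n := by exact_mod_cast hn
  obtain ⟨S1, hS1⟩ : ∃ S1 : Finset (E →+* ℂ), S1 = S.filter (fun φ => d1 ≤ d φ) := ⟨_, rfl⟩
  have hcard : (S.card : ℝ) ≤ t := by
    refine le_trans ?_ hfr
    have h1 := Finset.card_le_univ S
    rw [NumberField.Embeddings.card] at h1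
    exact_mod_cast h1
  have hsum1 : V / 2 ≤ ∑ φ ∈ S1, d φ := by
    have h1 : ∑ φ ∈ S, d φ = ∑ φ ∈ S1, d φ + ∑ φ ∈ S.filter (fun φ => ¬ d1 ≤ d φ), d φ := by
      rw [hS1, Finset.sum_filter_add_sum_filter_not]
    have h2 : ∑ φ ∈ S.filter (fun φ => ¬ d1 ≤ d φ), d φ ≤ S.card * d1 := by
      have h3 : ∑ φ ∈ S.filter (fun φ => ¬ d1 ≤ d φ), d φ ≤
          (S.filter (fun φ => ¬ d1 ≤ d φ)).card • d1 := by
        refine Finset.sum_le_card_nsmul _ _ _ fun φ hφ => ?_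
        exact (not_le.1 (Finset.mem_filter.1 hφ).2).le
      refine h3.trans ?_
      rw [nsmul_eq_mul]
      have h4 : ((S.filter (fun φ => ¬ d1 ≤ d φ)).card : ℝ) ≤ S.card := by
        exact_mod_cast Finset.card_filter_le _ _
      exact mul_le_mul_of_nonneg_right h4 hd1
    have h5 : S.card * d1 ≤ t * d1 := mul_le_mul_of_nonneg_right hcard hd1
    linarith
  have hpos1 : 0 < ∑ φ ∈ S1, d φ := by linarith
  have hS1mem : ∀ φ ∈ S1, φ ∈ S ∧ d1 ≤ d φ := fun φ hφ => by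
    rw [hS1] at hφ
    exact Finset.mem_filter.1 hφ
  have hL : ∀ φ ∈ S1, MvPolynomial.aeval (fun i => φ (x i)) (G n) ≠ 0 ∧
      ∃ z : ℂ, ∑ j ∈ Finset.range (n + 1), MvPolynomial.aeval (fun i => φ (x i)) (G j) * z ^ j = 0 ∧
        ‖z - y‖ ≤ Real.exp (-(d φ / (2 * n))) := fun φ hφ =>
    hloc (d φ) (hS1mem φ hφ).2 _ (hS φ (hS1mem φ hφ).1).2
  have hGx : MvPolynomial.aeval x (G n) ≠ 0 := by
    obtain ⟨φ, hφ⟩ : S1.Nonempty := by
      rw [Finset.nonempty_iff_ne_empty]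
      rintro h
      rw [h] at hpos1
      simp at hpos1
    intro h0
    apply (hL φ hφ).1
    rw [← xd_aeval, h0, map_zero]
  obtain ⟨f, hf⟩ : ∃ f : E[X], f = xdP (fun j => MvPolynomial.aeval x (G j)) n := ⟨_, rfl⟩
  have hfdeg : f.natDegree = n := by
    rw [hf]
    exact xdP_deg _ n hGx
  have hf0 : f ≠ 0 := by
    intro h0
    rw [h0] at hfdeg
    simp at hfdeg
    omega
  obtain ⟨Ψ, hΨc, hΨ, hΨr⟩ := xd_factors f hf0
  rw [hfdeg] at hΨc
  have hex : ∀ φ : E →+* ℂ, ∃ zψ : ℂ × E[X], φ ∈ S1 → zψ.2 ∈ Ψ ∧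
      (zψ.2.map φ).eval zψ.1 = 0 ∧ ‖zψ.1 - y‖ ≤ Real.exp (-(d φ / (2 * n))) := by
    intro φ
    by_cases hφ : φ ∈ S1
    · obtain ⟨_, z, hz, hzy⟩ := hL φ hφ
      have h1 : (f.map φ).eval z = 0 := by
        rw [hf, xdP_map, xdP_eval]
        simp only [xd_aeval]
        exact hz
      obtain ⟨ψ, hψ, h2⟩ := hΨr φ z h1
      exact ⟨(z, ψ), fun _ => ⟨hψ, h2, hzy⟩⟩
    · exact ⟨(0, 0), fun h => absurd h hφ⟩
  choose zψ hzψ using hex
  obtain ⟨ψ, hψΨ, hpig⟩ := xd_pigeon S1 Ψ (fun φ => (zψ φ).2) (fun φ hφ => (hzψ φ hφ).1) d n hΨc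
    hpos1
  obtain ⟨hψirr, hψdvd⟩ := hΨ ψ hψΨ
  obtain ⟨E', iE', iN', iA, ρ, hρ, hfr1, hfr2, hlift⟩ := adjoin_root_nf E ψ hψirr
  have hψdeg : ψ.natDegree ≤ n := by
    rw [← hfdeg]
    exact natDegree_le_of_dvd hψdvd hf0
  obtain ⟨S2, hS2⟩ : ∃ S2 : Finset (E →+* ℂ), S2 = S1.filter (fun φ => (zψ φ).2 = ψ) := ⟨_, rfl⟩
  have hS2mem : ∀ φ ∈ S2, φ ∈ S1 ∧ (zψ φ).2 = ψ := fun φ hφ => by
    rw [hS2] at hφ
    exact Finset.mem_filter.1 hφ
  rw [← hS2] at hpig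
  have hex2 : ∀ φ : E →+* ℂ, ∃ φ' : E' →+* ℂ, φ ∈ S2 →
      φ'.comp (algebraMap E E') = φ ∧ φ' ρ = (zψ φ).1 := by
    intro φ
    by_cases hφ : φ ∈ S2
    · obtain ⟨h1, h2⟩ := hS2mem φ hφ
      have h3 := (hzψ φ h1).2.1
      rw [h2] at h3
      obtain ⟨φ', h4⟩ := hlift φ _ h3
      exact ⟨φ', fun _ => h4⟩
    · obtain ⟨φ'⟩ : Nonempty (E' →+* ℂ) := inferInstance
      exact ⟨φ', fun h => absurd h hφ⟩
  choose F hF using hex2
  have hinj : Set.InjOn F (S2 : Set (E →+* ℂ)) := by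
    intro φ hφ φ₂ hφ₂ h
    rw [← (hF φ hφ).1, ← (hF φ₂ hφ₂).1, h]
  have hfrE' : (Module.finrank ℚ E' : ℝ) ≤ n * t := by
    rw [hfr2]
    push_cast
    have h1 : (ψ.natDegree : ℝ) ≤ n := by exact_mod_cast hψdeg
    exact mul_le_mul h1 hfr (Nat.cast_nonneg _) hn'.le
  have hlog : 0 ≤ Real.log (n * Bn) := Real.log_nonneg (by nlinarith)
  have hNk : (0 : ℝ) ≤ N * k := by positivity
  have hC : n * t ≤ n * (1 + Real.log (n * Bn) + N * k) * t := by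
    have h1 : 0 ≤ n * t * (Real.log (n * Bn) + N * k) := by positivity
    linarith
  have hhalg : ∀ i, hE (algebraMap E E' (x i)) ≤ n * t := by
    intro i
    refine (hE_algebraMap (x i)).trans ?_
    rw [hfr1]
    have h1 : (ψ.natDegree : ℝ) ≤ n := by exact_mod_cast hψdeg
    calc (ψ.natDegree : ℝ) * hE (x i) ≤ ψ.natDegree * t :=
          mul_le_mul_of_nonneg_left (hht i) (Nat.cast_nonneg _)
      _ ≤ n * t := mul_le_mul_of_nonneg_right h1 (by linarith)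
  refine ⟨E', iE', iN', Fin.snoc (fun i => algebraMap E E' (x i)) ρ, S2.image F,
    fun φ' => d (φ'.comp (algebraMap E E')) / (2 * n), hfrE'.trans hC, ?_, ?_, ?_⟩
  · intro i
    refine Fin.lastCases ?_ (fun i => ?_) i
    · rw [Fin.snoc_last]
      have hroot : ∑ j ∈ Finset.range (n + 1),
          MvPolynomial.aeval (fun i => algebraMap E E' (x i)) (G j) * ρ ^ j = 0 := by
        obtain ⟨q, hq⟩ := hψdvd
        have h1 : aeval ρ f = 0 := by
          rw [hq, map_mul, hρ, zero_mul]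
        rw [aeval_def, ← eval_map, hf, xdP_map, xdP_eval] at h1
        simp only [xd_aeval] at h1
        exact h1
      have hlead : MvPolynomial.aeval (fun i => algebraMap E E' (x i)) (G n) ≠ 0 := by
        rw [← xd_aeval]
        exact (map_ne_zero_iff _ (algebraMap E E').injective).2 hGx
      have h2 := hE_root_le (fun i => algebraMap E E' (x i)) n G N Bn hB1 hN hBn ρ hroot hlead
      have h3 : ∑ i, hE (algebraMap E E' (x i)) ≤ k * (n * t) := by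
        refine (Finset.sum_le_card_nsmul _ _ _ fun i _ => hhalg i).trans (le_of_eq ?_)
        rw [Finset.card_univ, Fintype.card_fin, nsmul_eq_mul]
      have h4 : (Module.finrank ℚ E' : ℝ) * Real.log (n * Bn) ≤ n * t * Real.log (n * Bn) :=
        mul_le_mul_of_nonneg_right hfrE' hlog
      have h5 : (N : ℝ) * ∑ i, hE (algebraMap E E' (x i)) ≤ N * (k * (n * t)) :=
        mul_le_mul_of_nonneg_left h3 (Nat.cast_nonneg _)
      have h6 : 0 ≤ n * t := by positivity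
      linarith
    · rw [Fin.snoc_castSucc]
      exact (hhalg i).trans hC
  · intro φ' hφ'
    obtain ⟨φ, hφ, rfl⟩ := Finset.mem_image.1 hφ'
    obtain ⟨h1, h2⟩ := hF φ hφ
    obtain ⟨h3, _⟩ := hS2mem φ hφ
    obtain ⟨h4, h5⟩ := hS1mem φ h3
    obtain ⟨h6, h7⟩ := hS φ h4
    beta_reduce
    rw [h1]
    refine ⟨by positivity, fun i => ?_⟩
    refine Fin.lastCases ?_ (fun i => ?_) i
    · rw [Fin.snoc_last, Fin.snoc_last, h2]
      exact (hzψ φ h3).2.2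
    · rw [Fin.snoc_castSucc, Fin.snoc_castSucc]
      have h8 : F φ (algebraMap E E' (x i)) = φ (x i) := by
        conv_rhs => rw [← h1]
        rfl
      rw [h8]
      refine (h7 i).trans (Real.exp_le_exp.2 ?_)
      have h9 : d φ / (2 * n) ≤ d φ := div_le_self h6 (by linarith)
      linarith
  · rw [Finset.sum_image hinj]
    have h1 : ∑ φ ∈ S2, d ((F φ).comp (algebraMap E E')) / (2 * n) = (∑ φ ∈ S2, d φ) / (2 * n) := by
      rw [Finset.sum_div]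
      refine Finset.sum_congr rfl fun φ hφ => ?_
      rw [(hF φ hφ).1]
    rw [h1]
    have h2 : V / 2 / n ≤ ∑ φ ∈ S2, d φ := by
      refine le_trans ?_ hpig
      exact div_le_div_of_nonneg_right hsum1 hn'.le
    have h3 : V / (4 * n ^ 2) = V / 2 / n / (2 * n) := by
      field_simp
      ring
    rw [h3]
    exact div_le_div_of_nonneg_right h2 (by positivity)

theorem appr_ext {k : ℕ} (P : Fin k → ℂ) (y : ℂ)
    (h : IsAlgebraic (IntermediateField.adjoin ℚ (Set.range P)) y) (κ κ' : ℝ) (hκ : 1 < κ)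
    (hκ' : κ' < κ) (hA : Appr P κ) : Appr (Fin.snoc P y : Fin (k + 1) → ℂ) κ' := by
  obtain ⟨n, G, hn, hGn, hrel⟩ := alg_rel P y h
  obtain ⟨d1, hd1, hloc⟩ := xd_local P y n G hn hGn hrel
  obtain ⟨N, hN⟩ : ∃ N : ℕ, ∀ j ≤ n, (G j).totalDegree ≤ N :=
    ⟨(Finset.range (n + 1)).sup fun j => (G j).totalDegree, fun j hj =>
      Finset.le_sup (f := fun j => (G j).totalDegree) (Finset.mem_range.2 (Nat.lt_succ_of_le hj))⟩
  obtain ⟨Bn, hBn1, hBn⟩ : ∃ Bn : ℝ, 1 ≤ Bn ∧ ∀ j ≤ n, H32.T3.nrm (G j) ≤ Bn := by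
    have h0 : 0 ≤ ∑ j ∈ Finset.range (n + 1), H32.T3.nrm (G j) :=
      Finset.sum_nonneg fun j _ => H32.T3.nrm_nonneg _
    refine ⟨1 + ∑ j ∈ Finset.range (n + 1), H32.T3.nrm (G j), by linarith, fun j hj => ?_⟩
    have h1 := Finset.single_le_sum (f := fun j => H32.T3.nrm (G j))
      (fun j _ => H32.T3.nrm_nonneg _) (Finset.mem_range.2 (Nat.lt_succ_of_le hj))
    have h2 : H32.T3.nrm (G j) ≤ ∑ j ∈ Finset.range (n + 1), H32.T3.nrm (G j) := h1
    linarith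
  have hn1 : (1 : ℝ) ≤ n := by exact_mod_cast hn
  obtain ⟨C, hC⟩ : ∃ C : ℝ, C = n * (1 + Real.log (n * Bn) + N * k) := ⟨_, rfl⟩
  have hC1 : 1 ≤ C := by
    have h1 : 0 ≤ Real.log (n * Bn) := Real.log_nonneg (by nlinarith)
    have h2 : (0 : ℝ) ≤ N * k := by positivity
    rw [hC]
    nlinarith
  have hκ0 : 0 < κ := by linarith
  obtain ⟨κ0, hκ00, hκ0', hκ0κ⟩ : ∃ κ0 : ℝ, 0 ≤ κ0 ∧ κ' ≤ κ0 ∧ κ0 < κ :=
    ⟨max κ' 0, le_max_right _ _, le_max_left _ _, max_lt hκ' hκ0⟩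
  obtain ⟨U1, hU1⟩ := xd_pow (2 * d1) (1 / κ) (by positivity) (by rwa [div_lt_one hκ0])
  obtain ⟨U2, hU2⟩ := xd_pow (4 * n ^ 2 * C ^ κ0) (κ0 / κ) (by positivity)
    (by rwa [div_lt_one hκ0])
  intro U0'
  obtain ⟨t, V, ht, hUV, htκ, hAp⟩ := hA (max (max 1 (4 * n ^ 2 * U0')) (max U1 U2))
  have hV1 : 1 ≤ V := (le_max_left _ _).trans ((le_max_left _ _).trans hUV)
  have hVU : 4 * n ^ 2 * U0' ≤ V := (le_max_right _ _).trans ((le_max_left _ _).trans hUV)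
  have hVU1 : U1 ≤ V := (le_max_left _ _).trans ((le_max_right _ _).trans hUV)
  have hVU2 : U2 ≤ V := (le_max_right _ _).trans ((le_max_right _ _).trans hUV)
  have ht0 : 0 ≤ t := by linarith
  have htV : t ≤ V ^ (1 / κ) := by
    have h1 : (t ^ κ) ^ (1 / κ) ≤ V ^ (1 / κ) :=
      Real.rpow_le_rpow (Real.rpow_nonneg ht0 _) htκ (by positivity)
    rwa [← Real.rpow_mul ht0, mul_one_div_cancel hκ0.ne', Real.rpow_one] at h1
  have htd : t * d1 ≤ V / 2 := by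
    have h1 := hU1 V hVU1
    have h2 : t * d1 ≤ V ^ (1 / κ) * d1 := mul_le_mul_of_nonneg_right htV hd1
    linarith
  have hres := xd_alg P y n G hn N hN Bn hBn1 hBn d1 hd1 hloc t V ht (by linarith) htd hAp
  rw [← hC] at hres
  refine ⟨C * t, V / (4 * n ^ 2), ?_, ?_, ?_, hres⟩
  · nlinarith
  · rw [le_div_iff₀ (by positivity)]
    linarith
  · have h0 : 1 ≤ C * t := by nlinarith
    calc (C * t) ^ κ' ≤ (C * t) ^ κ0 := Real.rpow_le_rpow_of_exponent_le h0 hκ0'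
      _ = C ^ κ0 * t ^ κ0 := Real.mul_rpow (by linarith) ht0
      _ ≤ C ^ κ0 * V ^ (κ0 / κ) := by
          refine mul_le_mul_of_nonneg_left ?_ (by positivity)
          have h1 : (t ^ κ) ^ (κ0 / κ) ≤ V ^ (κ0 / κ) :=
            Real.rpow_le_rpow (Real.rpow_nonneg ht0 _) htκ (by positivity)
          rwa [← Real.rpow_mul ht0, mul_div_cancel₀ _ hκ0.ne'] at h1
      _ ≤ V / (4 * n ^ 2) := by
          rw [le_div_iff₀ (by positivity)]
          have := hU2 V hVU2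
          linarith

end CZ
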