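import Pool.Agent.H32.CZ.N0

/-!
# MP_ede373, cubic points, row Na: norms of polynomials in one and two variables

Elementary API. `nr`: sum of the absolute values of the coefficients (`f.sum fun _ a ↦ |a|`,
write it as a sum over `Finset.range` with `Polynomial.sum_over_range` or over any finset containing
the support: prove first `nr f = ∑ i ∈ s, |f.coeff i|` for `f.support ⊆ s`).
`nr2 P = ∑_j nr (P.coeff j)`, same lemma. Products: `f * g = ∑ ∑ monomial` or `Polynomial.induction_on`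
in the first factor (`nr (monomial i a * g) = |a| nr g`), and the same for `nr2`.
-/

set_option autoImplicit false

namespace CZ

open Polynomial

section gen

variable {R : Type*} [CommRing R] (N : R → ℝ)

theorem Na_eq (h0 : N 0 = 0) (f : R[X]) {s : Finset ℕ} (hs : f.support ⊆ s) :
    (f.sum fun _ a ↦ N a) = ∑ i ∈ s, N (f.coeff i) := by
  rw [Polynomial.sum_def]
  refine Finset.sum_subset hs fun i _ hi => ?_
  rw [Polynomial.notMem_support_iff.1 hi, h0]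

theorem Na_nonneg (hp : ∀ a, 0 ≤ N a) (f : R[X]) : 0 ≤ (f.sum fun _ a ↦ N a) := by
  rw [Polynomial.sum_def]
  exact Finset.sum_nonneg fun i _ => hp _

theorem Na_add_le (h0 : N 0 = 0) (ha : ∀ a b, N (a + b) ≤ N a + N b) (f g : R[X]) :
    ((f + g).sum fun _ a ↦ N a) ≤ (f.sum fun _ a ↦ N a) + (g.sum fun _ a ↦ N a) := by
  classical
  rw [Na_eq N h0 (f + g) (s := f.support ∪ g.support) Polynomial.support_add,
    Na_eq N h0 f (s := f.support ∪ g.support) Finset.subset_union_left,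
    Na_eq N h0 g (s := f.support ∪ g.support) Finset.subset_union_right, ← Finset.sum_add_distrib]
  refine Finset.sum_le_sum fun i _ => ?_
  rw [Polynomial.coeff_add]
  exact ha _ _

theorem Na_sum_le (h0 : N 0 = 0) (ha : ∀ a b, N (a + b) ≤ N a + N b) {ι : Type*} (s : Finset ι)
    (f : ι → R[X]) :
    ((∑ i ∈ s, f i).sum fun _ a ↦ N a) ≤ ∑ i ∈ s, ((f i).sum fun _ a ↦ N a) := by
  classical
  induction s using Finset.induction_on with
  | empty => simp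
  | insert i s hi ih =>
    rw [Finset.sum_insert hi, Finset.sum_insert hi]
    exact (Na_add_le N h0 ha _ _).trans (add_le_add le_rfl ih)

theorem Na_mono_mul_le (h0 : N 0 = 0) (hm : ∀ a b, N (a * b) ≤ N a * N b) (a : R) (i : ℕ)
    (g : R[X]) : ((C a * X ^ i * g).sum fun _ a ↦ N a) ≤ N a * (g.sum fun _ a ↦ N a) := by
  classical
  have hc : ∀ n, (C a * X ^ i * g).coeff n = if i ≤ n then a * g.coeff (n - i) else 0 := by
    intro n
    rw [mul_assoc, Polynomial.coeff_C_mul, Polynomial.coeff_X_pow_mul']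
    split_ifs
    · rfl
    · rw [mul_zero]
  have hs : (C a * X ^ i * g).support ⊆ g.support.image (fun j => j + i) := by
    intro n hn
    rw [Polynomial.mem_support_iff, hc] at hn
    split_ifs at hn with hin
    · rw [Finset.mem_image]
      refine ⟨n - i, ?_, by omega⟩
      rw [Polynomial.mem_support_iff]
      intro h
      rw [h, mul_zero] at hn
      exact hn rfl
    · exact absurd rfl hn
  rw [Na_eq N h0 _ hs, Finset.sum_image (fun x _ y _ h => Nat.add_right_cancel h),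
    Polynomial.sum_def, Finset.mul_sum]
  refine Finset.sum_le_sum fun j _ => ?_
  rw [hc, if_pos (Nat.le_add_left i j), Nat.add_sub_cancel]
  exact hm _ _

theorem Na_mul_le (h0 : N 0 = 0) (ha : ∀ a b, N (a + b) ≤ N a + N b)
    (hm : ∀ a b, N (a * b) ≤ N a * N b) (f g : R[X]) :
    ((f * g).sum fun _ a ↦ N a) ≤ (f.sum fun _ a ↦ N a) * (g.sum fun _ a ↦ N a) := by
  have e : f * g = ∑ i ∈ f.support, C (f.coeff i) * X ^ i * g := by
    rw [← Finset.sum_mul, ← Polynomial.as_sum_support_C_mul_X_pow]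
  rw [e]
  refine (Na_sum_le N h0 ha _ _).trans ?_
  rw [Polynomial.sum_def f, Finset.sum_mul]
  exact Finset.sum_le_sum fun i _ => Na_mono_mul_le N h0 hm _ _ _

theorem Na_neg (hn : ∀ a, N (-a) = N a) (f : R[X]) :
    ((-f).sum fun _ a ↦ N a) = (f.sum fun _ a ↦ N a) := by
  rw [Polynomial.sum_def, Polynomial.sum_def, Polynomial.support_neg]
  refine Finset.sum_congr rfl fun i _ => ?_
  rw [Polynomial.coeff_neg, hn]

theorem Na_sum_coeff_le (hp : ∀ a, 0 ≤ N a) (h0 : N 0 = 0) (f : R[X]) (s : Finset ℕ) :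
    ∑ i ∈ s, N (f.coeff i) ≤ (f.sum fun _ a ↦ N a) := by
  classical
  rw [Na_eq N h0 f (s := f.support ∪ s) Finset.subset_union_left]
  exact Finset.sum_le_sum_of_subset_of_nonneg Finset.subset_union_right fun i _ _ => hp _

theorem Na_coeff_le (hp : ∀ a, 0 ≤ N a) (h0 : N 0 = 0) (f : R[X]) (i : ℕ) :
    N (f.coeff i) ≤ (f.sum fun _ a ↦ N a) := by
  have := Na_sum_coeff_le N hp h0 f {i}
  rwa [Finset.sum_singleton] at this

theorem Na_le_of_coeff (h0 : N 0 = 0) {f : R[X]} {m : ℕ} {H : ℝ} (hm : f.natDegree < m)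
    (h : ∀ i, N (f.coeff i) ≤ H) : (f.sum fun _ a ↦ N a) ≤ m * H := by
  rw [Na_eq N h0 f (s := Finset.range m) (Polynomial.supp_subset_range hm)]
  refine (Finset.sum_le_card_nsmul _ _ H fun i _ => h i).trans ?_
  rw [Finset.card_range, nsmul_eq_mul]

end gen

theorem Na_z0 : (fun a : ℤ => |(a : ℝ)|) 0 = 0 := by simp

theorem Na_zadd (a b : ℤ) : (fun a : ℤ => |(a : ℝ)|) (a + b) ≤
    (fun a : ℤ => |(a : ℝ)|) a + (fun a : ℤ => |(a : ℝ)|) b := by
  show |((a + b : ℤ) : ℝ)| ≤ |(a : ℝ)| + |(b : ℝ)|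
  rw [Int.cast_add]
  exact abs_add_le _ _

theorem Na_zmul (a b : ℤ) : (fun a : ℤ => |(a : ℝ)|) (a * b) ≤
    (fun a : ℤ => |(a : ℝ)|) a * (fun a : ℤ => |(a : ℝ)|) b := by
  show |((a * b : ℤ) : ℝ)| ≤ |(a : ℝ)| * |(b : ℝ)|
  rw [Int.cast_mul, abs_mul]

theorem nr_nonneg (f : ℤ[X]) : 0 ≤ nr f :=
  Na_nonneg (fun a : ℤ => |(a : ℝ)|) (fun a => abs_nonneg _) f

theorem nr_add_le (f g : ℤ[X]) : nr (f + g) ≤ nr f + nr g :=
  Na_add_le (fun a : ℤ => |(a : ℝ)|) Na_z0 Na_zadd f g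

theorem nr_sum_le {ι : Type*} (s : Finset ι) (f : ι → ℤ[X]) : nr (∑ i ∈ s, f i) ≤ ∑ i ∈ s, nr (f i) :=
  Na_sum_le (fun a : ℤ => |(a : ℝ)|) Na_z0 Na_zadd s f

theorem nr_mul_le (f g : ℤ[X]) : nr (f * g) ≤ nr f * nr g :=
  Na_mul_le (fun a : ℤ => |(a : ℝ)|) Na_z0 Na_zadd Na_zmul f g

theorem nr_neg (f : ℤ[X]) : nr (-f) = nr f :=
  Na_neg (fun a : ℤ => |(a : ℝ)|) (fun a => by
    show |((-a : ℤ) : ℝ)| = |(a : ℝ)|
    rw [Int.cast_neg, abs_neg]) f

theorem Na_nr_zero : nr 0 = 0 := Polynomial.sum_zero_index _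

theorem Na_nr_one : nr 1 = 1 := by
  have h : nr (C (1 : ℤ)) = 1 := by
    unfold nr
    rw [Polynomial.sum_C_index (by simp)]
    simp
  rwa [Polynomial.C_1] at h

theorem nr_prod_le {ι : Type*} (s : Finset ι) (f : ι → ℤ[X]) : nr (∏ i ∈ s, f i) ≤ ∏ i ∈ s, nr (f i) := by
  classical
  induction s using Finset.induction_on with
  | empty =>
    rw [Finset.prod_empty, Finset.prod_empty, Na_nr_one]
  | insert i s hi ih =>
    rw [Finset.prod_insert hi, Finset.prod_insert hi]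
    exact (nr_mul_le _ _).trans (mul_le_mul_of_nonneg_left ih (nr_nonneg _))

theorem abs_coeff_le_nr (f : ℤ[X]) (i : ℕ) : |(f.coeff i : ℝ)| ≤ nr f :=
  Na_coeff_le (fun a : ℤ => |(a : ℝ)|) (fun a => abs_nonneg _) Na_z0 f i

theorem one_le_nr {f : ℤ[X]} (hf : f ≠ 0) : 1 ≤ nr f := by
  refine le_trans ?_ (abs_coeff_le_nr f f.natDegree)
  have h1 : f.coeff f.natDegree ≠ 0 := by
    rw [Polynomial.coeff_natDegree]
    exact Polynomial.leadingCoeff_ne_zero.2 hf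
  have h2 := Int.one_le_abs h1
  have h3 : ((1 : ℤ) : ℝ) ≤ ((|f.coeff f.natDegree| : ℤ) : ℝ) := by exact_mod_cast h2
  rwa [Int.cast_one, Int.cast_abs] at h3

theorem nr_le_of_coeff {f : ℤ[X]} {m : ℕ} {H : ℝ} (hm : f.natDegree < m)
    (h : ∀ i, |(f.coeff i : ℝ)| ≤ H) : nr f ≤ m * H :=
  Na_le_of_coeff (fun a : ℤ => |(a : ℝ)|) Na_z0 hm h

theorem nr2_nonneg (P : ℤ[X][X]) : 0 ≤ nr2 P :=
  Na_nonneg nr nr_nonneg P

theorem nr2_add_le (P Q : ℤ[X][X]) : nr2 (P + Q) ≤ nr2 P + nr2 Q :=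
  Na_add_le nr Na_nr_zero nr_add_le P Q

theorem nr2_sum_le {ι : Type*} (s : Finset ι) (P : ι → ℤ[X][X]) :
    nr2 (∑ i ∈ s, P i) ≤ ∑ i ∈ s, nr2 (P i) :=
  Na_sum_le nr Na_nr_zero nr_add_le s P

theorem nr2_mul_le (P Q : ℤ[X][X]) : nr2 (P * Q) ≤ nr2 P * nr2 Q :=
  Na_mul_le nr Na_nr_zero nr_add_le nr_mul_le P Q

theorem nr2_neg (P : ℤ[X][X]) : nr2 (-P) = nr2 P :=
  Na_neg nr nr_neg P

theorem nr_coeff_le_nr2 (P : ℤ[X][X]) (j : ℕ) : nr (P.coeff j) ≤ nr2 P :=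
  Na_coeff_le nr nr_nonneg Na_nr_zero P j

theorem one_le_nr2 {P : ℤ[X][X]} (hP : P ≠ 0) : 1 ≤ nr2 P := by
  refine le_trans ?_ (nr_coeff_le_nr2 P P.natDegree)
  apply one_le_nr
  rw [Polynomial.coeff_natDegree]
  exact Polynomial.leadingCoeff_ne_zero.2 hP

/-- The sum of `nr` of finitely many distinct coefficients. -/
theorem sum_nr_coeff_le_nr2 (P : ℤ[X][X]) (s : Finset ℕ) : ∑ j ∈ s, nr (P.coeff j) ≤ nr2 P :=
  Na_sum_coeff_le nr nr_nonneg Na_nr_zero P s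

theorem nr2_le_of_coeff {P : ℤ[X][X]} {m a : ℕ} {H : ℝ} (ha : P.natDegree < a)
    (hm : ∀ j, (P.coeff j).natDegree < m) (h : ∀ j i, |((P.coeff j).coeff i : ℝ)| ≤ H) :
    nr2 P ≤ m * a * H := by
  have h1 : nr2 P ≤ a * (m * H) :=
    Na_le_of_coeff nr Na_nr_zero ha (fun j => nr_le_of_coeff (hm j) (h j))
  refine h1.trans (le_of_eq ?_)
  ring

theorem norm_aeval_le (f : ℤ[X]) (x : ℂ) (B : ℝ) (hB : 1 ≤ B) (hx : ‖x‖ ≤ B) :
    ‖aeval x f‖ ≤ nr f * B ^ f.natDegree := by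
  rw [Polynomial.aeval_eq_sum_range]
  refine (norm_sum_le _ _).trans ?_
  have e : nr f = ∑ i ∈ Finset.range (f.natDegree + 1), |(f.coeff i : ℝ)| :=
    Na_eq (fun a : ℤ => |(a : ℝ)|) Na_z0 f (Polynomial.supp_subset_range (Nat.lt_succ_self _))
  rw [e, Finset.sum_mul]
  refine Finset.sum_le_sum fun i hi => ?_
  have hi' : i ≤ f.natDegree := Nat.lt_succ_iff.1 (Finset.mem_range.1 hi)
  have h1 : ‖f.coeff i • x ^ i‖ = |(f.coeff i : ℝ)| * ‖x‖ ^ i := by
    rw [zsmul_eq_mul, norm_mul, norm_pow, Complex.norm_intCast]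
  rw [h1]
  refine mul_le_mul_of_nonneg_left ?_ (abs_nonneg _)
  exact (pow_le_pow_left₀ (norm_nonneg _) hx i).trans (pow_le_pow_right₀ hB hi')

end CZ
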