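import Mathlib

/-!
# MP_ede373, cubic points, row Ca: two facts of linear algebra

`det_le_of_small`. `L = card Λ`, `L' = finrank V ≥ L/2`. Work in `EuclideanSpace ℂ Λ`. Take an orthonormal
basis `u` of the whole space whose first `L'` vectors span (the image of) `V`
(`stdOrthonormalBasis` of `V` and of `Vᗮ`, `OrthonormalBasis.prod`-like gluing, or
`Orthonormal.exists_orthonormalBasis_extension`, or `Submodule.OrthogonalDecomposition`; or
`exists_orthonormalBasis_...`). Let `U` be the (square) matrix of its columns: unitary, `|det U| = 1`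
(`Matrix.unitaryGroup`, `U* U = 1`). `|det A| = |det (A U)| ≤ L! ∏_{columns} max ‖entry‖`. For a column in
`V`: its coordinates have norm `≤ 1` (unit vector), so all entries of `A u` are `≤ ε`. For the other
columns: entries `≤ L T`. So `|det A| ≤ L! ε^{L'} (L T)^{L - L'} ≤ L^{2L} T^L ε^{L'}` and, as `ε ≤ 1`,
`2 L' ≥ L`: `ε^{2 L'} ≤ ε^L`.

`exists_det_ne_zero`. The linear map `c ↦ (r ↦ ∑_l A r l c l)` is injective, i.e. the vectors
`A r ∈ (Λ → ℂ)` span `Λ → ℂ` (if they spanned a proper subspace there would be a nonzero `c` orthogonal to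
them: `Submodule.exists_le_ker_of_lt_top` / dual annihilator); choose a basis among them
(`exists_linearIndependent`/`Basis.extend`/`LinearIndepOn`, indexed by `Λ` by cardinality), and the
matrix with linearly independent rows has nonzero determinant
(`Matrix.linearIndependent_rows_iff_isUnit`).
-/

set_option autoImplicit false

namespace CZ

theorem ca_unitary {Λ : Type*} [Fintype Λ] [DecidableEq Λ]
    (b : OrthonormalBasis Λ ℂ (EuclideanSpace ℂ Λ)) :
    ‖(Matrix.of fun l k ↦ (b k) l : Matrix Λ Λ ℂ).det‖ = 1 := by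
  set U : Matrix Λ Λ ℂ := Matrix.of fun l k ↦ (b k) l with hU
  have h1 : U.conjTranspose * U = 1 := by
    ext k k'
    rw [Matrix.mul_apply, Matrix.one_apply]
    have h2 := orthonormal_iff_ite.1 b.orthonormal k k'
    rw [EuclideanSpace.inner_eq_star_dotProduct] at h2
    rw [← h2]
    simp only [dotProduct, Matrix.conjTranspose_apply, hU, Matrix.of_apply, Pi.star_apply]
    exact Finset.sum_congr rfl fun l _ => mul_comm _ _
  have h3 : star U.det * U.det = 1 := by
    rw [← Matrix.det_conjTranspose, ← Matrix.det_mul, h1, Matrix.det_one]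
  have h4 : ‖U.det‖ * ‖U.det‖ = 1 := by
    have := congrArg norm h3
    rwa [norm_mul, norm_star, norm_one] at this
  have h5 := norm_nonneg U.det
  nlinarith

theorem ca_det {Λ : Type*} [Fintype Λ] [DecidableEq Λ] (B : Matrix Λ Λ ℂ) (s : Finset Λ)
    (ε D : ℝ) (h1 : ∀ r, ∀ k ∈ s, ‖B r k‖ ≤ ε) (h2 : ∀ r, ∀ k, k ∉ s → ‖B r k‖ ≤ D) :
    ‖B.det‖ ≤ (Fintype.card Λ).factorial * (ε ^ s.card * D ^ (Fintype.card Λ - s.card)) := by
  rw [Matrix.det_apply]
  refine (norm_sum_le _ _).trans ?_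
  have h3 : ∀ σ : Equiv.Perm Λ, ‖Equiv.Perm.sign σ • ∏ i, B (σ i) i‖ ≤
      ε ^ s.card * D ^ (Fintype.card Λ - s.card) := by
    intro σ
    have h4 : ‖Equiv.Perm.sign σ • ∏ i, B (σ i) i‖ = ∏ i, ‖B (σ i) i‖ := by
      rw [← norm_prod]
      rcases Int.units_eq_one_or (Equiv.Perm.sign σ) with h | h
      · rw [h, one_smul]
      · rw [h, Units.neg_smul, one_smul, norm_neg]
    rw [h4]
    have h5 : ∏ i, ‖B (σ i) i‖ ≤ ∏ i, (if i ∈ s then ε else D) := by
      refine Finset.prod_le_prod (fun i _ => norm_nonneg _) fun i _ => ?_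
      split_ifs with h
      · exact h1 _ _ h
      · exact h2 _ _ h
    refine h5.trans (le_of_eq ?_)
    rw [Finset.prod_ite, Finset.prod_const, Finset.prod_const]
    have h6 : (Finset.univ.filter fun i => i ∈ s) = s := by ext; simp
    have h7 : (Finset.univ.filter fun i => i ∉ s) = sᶜ := by ext; simp
    rw [h6, h7, Finset.card_compl]
  refine (Finset.sum_le_sum fun σ _ => h3 σ).trans (le_of_eq ?_)
  rw [Finset.sum_const, Finset.card_univ, Fintype.card_perm, nsmul_eq_mul]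

theorem det_le_of_small {Λ : Type*} [Fintype Λ] [DecidableEq Λ] (A : Matrix Λ Λ ℂ)
    (V : Submodule ℂ (Λ → ℂ)) (ε T : ℝ) (hε : 0 ≤ ε) (hε1 : ε ≤ 1) (hT1 : 1 ≤ T)
    (hT : ∀ i j, ‖A i j‖ ≤ T)
    (hV : ∀ c ∈ V, (∀ l, ‖c l‖ ≤ 1) → ∀ i, ‖∑ l, c l * A i l‖ ≤ ε)
    (hcard : Fintype.card Λ ≤ 2 * Module.finrank ℂ V) :
    ‖A.det‖ ^ 2 ≤ ((Fintype.card Λ : ℝ) ^ (2 * Fintype.card Λ) * T ^ Fintype.card Λ) ^ 2 *
      ε ^ Fintype.card Λ := by
  let V' : Submodule ℂ (EuclideanSpace ℂ Λ) :=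
    V.comap (WithLp.linearEquiv 2 ℂ (Λ → ℂ)).toLinearMap
  have hfr : Module.finrank ℂ V' = Module.finrank ℂ V := by
    have e : V ≃ₗ[ℂ] V' :=
      ((WithLp.linearEquiv 2 ℂ (Λ → ℂ)).symm.submoduleMap V).trans
        (LinearEquiv.ofEq _ _ (by
          ext x
          simp only [V', Submodule.mem_map, Submodule.mem_comap]
          constructor
          · rintro ⟨y, hy, rfl⟩
            simpa using hy
          · intro hx
            exact ⟨_, hx, by simp⟩))
    exact e.finrank_eq.symm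
  have hL'L : Module.finrank ℂ V ≤ Fintype.card Λ := by
    have := Submodule.finrank_le V
    rwa [Module.finrank_fintype_fun_eq_card] at this
  obtain ⟨s, -, hs⟩ := Finset.exists_subset_card_eq (s := (Finset.univ : Finset Λ))
    (n := Module.finrank ℂ V') (by rw [hfr, Finset.card_univ]; exact hL'L)
  let w := stdOrthonormalBasis ℂ V'
  let e := s.equivFinOfCardEq hs
  let v : Λ → EuclideanSpace ℂ Λ := fun l => if h : l ∈ s then (w (e ⟨l, h⟩) : V') else 0
  have hv : Orthonormal ℂ ((s : Set Λ).domRestrict v) := by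
    have h1 : Orthonormal ℂ (fun l : s => ((w (e l) : V') : EuclideanSpace ℂ Λ)) :=
      (w.orthonormal.comp e e.injective).comp_linearIsometry V'.subtypeₗᵢ
    have h2 : ((s : Set Λ).domRestrict v) =
        (fun l : s => ((w (e l) : V') : EuclideanSpace ℂ Λ)) := by
      funext l
      have hl : (l : Λ) ∈ s := l.2
      simp only [Set.domRestrict_apply, v, dif_pos hl]
      rfl
    rw [h2]; exact h1
  obtain ⟨b, hb⟩ := hv.exists_orthonormalBasis_extension_of_card_eq
    (by rw [finrank_euclideanSpace])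
  have hbV : ∀ k ∈ s, (fun l => (b k) l) ∈ V := by
    intro k hk
    rw [hb k hk]
    simp only [v, dif_pos hk]
    exact (w (e ⟨k, hk⟩)).2
  have hb1 : ∀ k l, ‖(b k) l‖ ≤ 1 := by
    intro k l
    refine (PiLp.norm_apply_le (b k) l).trans (le_of_eq (b.orthonormal.1 k))
  set U : Matrix Λ Λ ℂ := Matrix.of fun l k ↦ (b k) l with hU
  have hdet : ‖A.det‖ = ‖(A * U).det‖ := by
    rw [Matrix.det_mul, norm_mul, ca_unitary b, mul_one]
  have hB1 : ∀ r, ∀ k ∈ s, ‖(A * U) r k‖ ≤ ε := by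
    intro r k hk
    rw [Matrix.mul_apply]
    have := hV _ (hbV k hk) (hb1 k) r
    refine le_trans (le_of_eq ?_) this
    congr 1
    exact Finset.sum_congr rfl fun l _ => mul_comm _ _
  have hB2 : ∀ r, ∀ k, k ∉ s → ‖(A * U) r k‖ ≤ (Fintype.card Λ : ℝ) * T := by
    intro r k _
    rw [Matrix.mul_apply]
    refine (norm_sum_le _ _).trans ?_
    have : ∀ l ∈ Finset.univ, ‖A r l * U l k‖ ≤ T := by
      intro l _
      rw [norm_mul]
      calc ‖A r l‖ * ‖U l k‖ ≤ T * 1 :=
            mul_le_mul (hT r l) (hb1 k l) (norm_nonneg _) (by linarith)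
        _ = T := mul_one T
    refine (Finset.sum_le_sum this).trans (le_of_eq ?_)
    rw [Finset.sum_const, Finset.card_univ, nsmul_eq_mul]
  have hmain := ca_det (A * U) s ε _ hB1 hB2
  rw [← hdet, hs, hfr] at hmain
  set L := Fintype.card Λ
  set L' := Module.finrank ℂ V
  have hX : ((L.factorial : ℕ) : ℝ) ≤ (L : ℝ) ^ L := by exact_mod_cast Nat.factorial_le_pow L
  have hZ : ((L : ℝ) * T) ^ (L - L') ≤ (L : ℝ) ^ L * T ^ L := by
    rw [mul_pow]
    have hTT : T ^ (L - L') ≤ T ^ L := pow_le_pow_right₀ hT1 (Nat.sub_le _ _)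
    have hLL : (L : ℝ) ^ (L - L') ≤ (L : ℝ) ^ L := by
      rcases Nat.eq_zero_or_pos L with h0 | h0
      · rw [h0]; simp
      · exact pow_le_pow_right₀ (by exact_mod_cast h0) (Nat.sub_le _ _)
    exact mul_le_mul hLL hTT (by positivity) (by positivity)
  have hY : (ε ^ L') ^ 2 ≤ ε ^ L := by
    rw [← pow_mul, mul_comm L' 2]
    exact pow_le_pow_of_le_one hε hε1 hcard
  have hP : (0 : ℝ) ≤ (L : ℝ) ^ L := by positivity
  have hT0 : (0 : ℝ) ≤ T ^ L := by positivity
  have hZ0 : (0 : ℝ) ≤ ((L : ℝ) * T) ^ (L - L') := by positivity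
  have hY0 : (0 : ℝ) ≤ ε ^ L' := by positivity
  calc ‖A.det‖ ^ 2 ≤ ((L.factorial : ℕ) * (ε ^ L' * ((L : ℝ) * T) ^ (L - L'))) ^ 2 :=
        pow_le_pow_left₀ (norm_nonneg _) hmain 2
    _ ≤ ((L : ℝ) ^ L * (ε ^ L' * ((L : ℝ) ^ L * T ^ L))) ^ 2 := by
        refine pow_le_pow_left₀ (by positivity) ?_ 2
        refine mul_le_mul hX ?_ (by positivity) hP
        exact mul_le_mul_of_nonneg_left hZ hY0
    _ = ((L : ℝ) ^ (2 * L) * T ^ L) ^ 2 * (ε ^ L') ^ 2 := by ring
    _ ≤ ((L : ℝ) ^ (2 * L) * T ^ L) ^ 2 * ε ^ L :=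
        mul_le_mul_of_nonneg_left hY (by positivity)

theorem exists_det_ne_zero {R Λ : Type*} [Fintype Λ] [DecidableEq Λ] (A : R → Λ → ℂ)
    (h : ∀ c : Λ → ℂ, c ≠ 0 → ∃ r, ∑ l, c l * A r l ≠ 0) :
    ∃ J : Λ → R, (Matrix.of fun i l ↦ A (J i) l).det ≠ 0 := by
  have htop : Submodule.span ℂ (Set.range A) = ⊤ := by
    by_contra hne
    obtain ⟨f, hf, hle⟩ := Submodule.exists_le_ker_of_lt_top _ (lt_top_iff_ne_top.2 hne)
    have hfx : ∀ x : Λ → ℂ, f x = ∑ l, f (Pi.single l 1) * x l := by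
      intro x
      conv_lhs => rw [pi_eq_sum_univ' x]
      rw [map_sum]
      refine Finset.sum_congr rfl fun l _ => ?_
      rw [map_smul, smul_eq_mul, mul_comm]
    have hc : (fun l => f (Pi.single l 1)) ≠ (0 : Λ → ℂ) := by
      intro h0
      apply hf
      ext l
      have := congrFun h0 l
      simpa using this
    obtain ⟨r, hr⟩ := h _ hc
    apply hr
    rw [← hfx]
    exact hle (Submodule.subset_span ⟨r, rfl⟩)
  obtain ⟨κ, a, ha, hspan, hli⟩ := exists_linearIndependent' ℂ A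
  have hb : ⊤ ≤ Submodule.span ℂ (Set.range (A ∘ a)) := by rw [hspan, htop]
  let b := Module.Basis.mk hli hb
  have : Fintype κ := FiniteDimensional.fintypeBasisIndex b
  have hcard : Fintype.card Λ = Fintype.card κ := by
    rw [← Module.finrank_eq_card_basis b, Module.finrank_fintype_fun_eq_card]
  let e := Fintype.equivOfCardEq hcard
  refine ⟨fun i => a (e i), ?_⟩
  have h1 : LinearIndependent ℂ (Matrix.of fun i l ↦ A (a (e i)) l).row :=
    hli.comp e e.injective
  have h2 := Matrix.linearIndependent_rows_iff_isUnit.1 h1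
  exact ((Matrix.isUnit_iff_isUnit_det _).1 h2).ne_zero

end CZ
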