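import Pool.Agent.H32.CZ.Ca
import Pool.Agent.H32.CZ.Cc

/-!
# MP_ede373, cubic points, row Cg: nonvanishing minor near `P`

`B = 1 + max ‖P i‖`; `Q` is in the ball (`exp(-3 M^4430) ≤ 1`), `N = M^1410`, `L = card Λ ≤ e^M`. For `c ≠ 0` let `c' = c / max ‖c l‖`
(so all `‖c' l‖ ≤ 1`, one `= 1`); (ZE) gives `s` with `‖∑ c'_l W_{s,l}(P)‖ ≥ exp(-M^4430)`, and
`‖∑ c'_l (W_{s,l}(Q) - W_{s,l}(P))‖ ≤ L e^N (N B^N e^{-3 M^4430}) ≤ exp(M + N + N + N log B - 3 M^4430) < exp(-M^4430)`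
(`aeval_sub_le`, `N ≤ e^N`) for `M` large. So `∑ c_l W_{s,l}(Q) ≠ 0`; apply `exists_det_ne_zero`.
-/

set_option autoImplicit false

namespace CZ

open MvPolynomial
open H32.T3 (nrm)

theorem exists_J {k : ℕ} (P : Fin k → ℂ) : ∃ M1 : ℕ, ∀ M : ℕ, M1 ≤ M →
    ∀ (Λ : Type) (_ : Fintype Λ) (_ : DecidableEq Λ) (R : Type)
      (W : R → Λ → MvPolynomial (Fin k) ℤ), Real.log (Fintype.card Λ) ≤ M →
      (∀ s l, ((W s l).totalDegree : ℝ) ≤ (M : ℝ) ^ 1410 ∧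
        nrm (W s l) ≤ Real.exp ((M : ℝ) ^ 1410)) →
      (∀ c : Λ → ℂ, (∀ l, ‖c l‖ ≤ 1) → (∃ l, ‖c l‖ = 1) →
        ∃ s, Real.exp (-(M : ℝ) ^ 4430) ≤ ‖∑ l, c l * aeval P (W s l)‖) →
    ∀ Q : Fin k → ℂ, (∀ i, ‖Q i - P i‖ ≤ Real.exp (-(3 * (M : ℝ) ^ 4430))) →
      ∃ J : Λ → R, (Matrix.of fun i l ↦ aeval Q (W (J i) l)).det ≠ 0 := by
  obtain ⟨B, hB⟩ : ∃ B : ℝ, B = 2 + ∑ i, ‖P i‖ := ⟨_, rfl⟩
  have hPs : ∀ i, ‖P i‖ ≤ ∑ i, ‖P i‖ := fun i =>
    Finset.single_le_sum (f := fun i => ‖P i‖) (fun j _ => norm_nonneg _) (Finset.mem_univ i)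
  have hB2 : 2 ≤ B := by
    rw [hB]
    have : 0 ≤ ∑ i, ‖P i‖ := Finset.sum_nonneg fun i _ => norm_nonneg _
    linarith
  have hB1 : 1 ≤ B := by linarith
  have hlB : 0 ≤ Real.log B := Real.log_nonneg hB1
  have hPB : ∀ i, ‖P i‖ ≤ B := fun i => by
    have := hPs i
    linarith
  refine ⟨⌈3 + Real.log B⌉₊, ?_⟩
  intro M hM Λ _ _ R W hcard hW hZ Q hQ
  have hM' : 3 + Real.log B ≤ (M : ℝ) := (Nat.le_ceil _).trans (by exact_mod_cast hM)
  have hM3 : 3 ≤ (M : ℝ) := by linarith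
  have hM1 : 1 ≤ (M : ℝ) := by linarith
  have hMN : (M : ℝ) ≤ (M : ℝ) ^ 1410 := le_self_pow₀ hM1 (by norm_num)
  have hNZ : (M : ℝ) ^ 1410 * M ≤ (M : ℝ) ^ 4430 := by
    rw [← pow_succ]
    exact pow_le_pow_right₀ hM1 (by norm_num)
  have hdeg : ∀ s l, (W s l).totalDegree ≤ M ^ 1410 := by
    intro s l
    have h := (hW s l).1
    have h2 : ((W s l).totalDegree : ℝ) ≤ ((M ^ 1410 : ℕ) : ℝ) := by
      rw [Nat.cast_pow]
      exact h
    exact Nat.cast_le.1 h2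
  have hNc : ((M ^ 1410 : ℕ) : ℝ) = (M : ℝ) ^ 1410 := Nat.cast_pow _ _
  generalize hNn : M ^ 1410 = Nn at hdeg hNc
  generalize (M : ℝ) ^ 1410 = N at hMN hNZ hNc hW
  generalize (M : ℝ) ^ 4430 = Z at hNZ hZ hQ
  have hN1 : 1 ≤ N := by linarith
  have hN0 : 0 < N := by linarith
  have hZ0 : 0 < Z := by nlinarith
  have hδ1 : Real.exp (-(3 * Z)) ≤ 1 := Real.exp_le_one_iff.2 (by linarith)
  have hQB : ∀ i, ‖Q i‖ ≤ B := by
    intro i
    have h1 : ‖Q i‖ ≤ ‖Q i - P i‖ + ‖P i‖ := by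
      have := norm_add_le (Q i - P i) (P i)
      rwa [sub_add_cancel] at this
    have h2 := hQ i
    have h3 := hPs i
    linarith
  apply exists_det_ne_zero (fun s l => aeval Q (W s l))
  intro c hc
  by_contra hcon
  push Not at hcon
  have hne : ∃ l, c l ≠ 0 := Function.ne_iff.1 hc
  obtain ⟨l1, hl1⟩ := hne
  haveI : Nonempty Λ := ⟨l1⟩
  obtain ⟨l0, hl0⟩ := Finite.exists_max (fun l => ‖c l‖)
  have hm0 : 0 < ‖c l0‖ := lt_of_lt_of_le (norm_pos_iff.2 hl1) (hl0 l1)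
  have hcn : ∀ l, ‖c l * ((‖c l0‖ : ℝ) : ℂ)⁻¹‖ = ‖c l‖ / ‖c l0‖ := by
    intro l
    rw [norm_mul, norm_inv, Complex.norm_real, norm_norm, div_eq_mul_inv]
  obtain ⟨s, hs⟩ := hZ (fun l => c l * ((‖c l0‖ : ℝ) : ℂ)⁻¹)
    (fun l => by
      rw [hcn, div_le_one hm0]
      exact hl0 l)
    ⟨l0, by rw [hcn, div_self hm0.ne']⟩
  have h0 : ∑ l, (c l * ((‖c l0‖ : ℝ) : ℂ)⁻¹) * aeval Q (W s l) = 0 := by
    have e : ∀ l ∈ (Finset.univ : Finset Λ), (c l * ((‖c l0‖ : ℝ) : ℂ)⁻¹) * aeval Q (W s l) =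
        (c l * aeval Q (W s l)) * ((‖c l0‖ : ℝ) : ℂ)⁻¹ := fun l _ => by ring
    rw [Finset.sum_congr rfl e, ← Finset.sum_mul, hcon s, zero_mul]
  have hdiff : ‖∑ l, (c l * ((‖c l0‖ : ℝ) : ℂ)⁻¹) * aeval P (W s l)‖ ≤
      (Fintype.card Λ : ℝ) * (Real.exp N * (N * B ^ Nn * Real.exp (-(3 * Z)))) := by
    have e : ∑ l, (c l * ((‖c l0‖ : ℝ) : ℂ)⁻¹) * aeval P (W s l) =
        ∑ l, -((c l * ((‖c l0‖ : ℝ) : ℂ)⁻¹) * (aeval Q (W s l) - aeval P (W s l))) := by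
      have e2 : ∀ l ∈ (Finset.univ : Finset Λ),
          -((c l * ((‖c l0‖ : ℝ) : ℂ)⁻¹) * (aeval Q (W s l) - aeval P (W s l))) =
          (c l * ((‖c l0‖ : ℝ) : ℂ)⁻¹) * aeval P (W s l) -
            (c l * ((‖c l0‖ : ℝ) : ℂ)⁻¹) * aeval Q (W s l) := fun l _ => by ring
      rw [Finset.sum_congr rfl e2, Finset.sum_sub_distrib, h0, sub_zero]
    rw [e]
    have h1 := norm_sum_le (Finset.univ : Finset Λ)
      (fun l => -((c l * ((‖c l0‖ : ℝ) : ℂ)⁻¹) * (aeval Q (W s l) - aeval P (W s l))))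
    refine h1.trans ?_
    have h2 : ∀ l ∈ (Finset.univ : Finset Λ),
        ‖-((c l * ((‖c l0‖ : ℝ) : ℂ)⁻¹) * (aeval Q (W s l) - aeval P (W s l)))‖ ≤
        Real.exp N * (N * B ^ Nn * Real.exp (-(3 * Z))) := by
      intro l _
      rw [norm_neg, norm_mul, hcn]
      have g1 : ‖c l‖ / ‖c l0‖ ≤ 1 := by
        rw [div_le_one hm0]
        exact hl0 l
      have g2 := aeval_sub_le (W s l) Nn (hdeg s l) P Q B (Real.exp (-(3 * Z))) hB1 hPB hQB hQ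
        (Real.exp_pos _).le
      rw [hNc] at g2
      have g3 : nrm (W s l) * (N * B ^ Nn * Real.exp (-(3 * Z))) ≤
          Real.exp N * (N * B ^ Nn * Real.exp (-(3 * Z))) :=
        mul_le_mul_of_nonneg_right (hW s l).2 (by positivity)
      calc ‖c l‖ / ‖c l0‖ * ‖aeval Q (W s l) - aeval P (W s l)‖
          ≤ 1 * ‖aeval Q (W s l) - aeval P (W s l)‖ :=
            mul_le_mul_of_nonneg_right g1 (norm_nonneg _)
        _ = ‖aeval Q (W s l) - aeval P (W s l)‖ := one_mul _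
        _ ≤ _ := g2.trans g3
    refine (Finset.sum_le_sum h2).trans (le_of_eq ?_)
    rw [Finset.sum_const, Finset.card_univ, nsmul_eq_mul]
  have hL0 : 0 < (Fintype.card Λ : ℝ) := by exact_mod_cast Fintype.card_pos
  have hL : (Fintype.card Λ : ℝ) ≤ Real.exp M := (Real.log_le_iff_le_exp hL0).1 hcard
  have hNe : N ≤ Real.exp N := by
    have := Real.add_one_le_exp N
    linarith
  have hBe : B ^ Nn = Real.exp (N * Real.log B) := by
    rw [← hNc, mul_comm, Real.exp_mul, Real.exp_log (by linarith), Real.rpow_natCast]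
  have hbig : (Fintype.card Λ : ℝ) * (Real.exp N * (N * B ^ Nn * Real.exp (-(3 * Z)))) ≤
      Real.exp (M + N + N + N * Real.log B + -(3 * Z)) := by
    rw [hBe, Real.exp_add, Real.exp_add, Real.exp_add, Real.exp_add]
    have h1 : Real.exp N * (N * Real.exp (N * Real.log B) * Real.exp (-(3 * Z))) ≤
        Real.exp N * (Real.exp N * Real.exp (N * Real.log B) * Real.exp (-(3 * Z))) := by
      gcongr
    calc (Fintype.card Λ : ℝ) *
          (Real.exp N * (N * Real.exp (N * Real.log B) * Real.exp (-(3 * Z))))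
        ≤ Real.exp M *
          (Real.exp N * (Real.exp N * Real.exp (N * Real.log B) * Real.exp (-(3 * Z)))) := by
          exact mul_le_mul hL h1 (by positivity) (by positivity)
      _ = _ := by ring
  have hfin : Real.exp (M + N + N + N * Real.log B + -(3 * Z)) < Real.exp (-Z) := by
    apply Real.exp_lt_exp.2
    have h1 : N * (3 + Real.log B) ≤ N * M := mul_le_mul_of_nonneg_left hM' hN0.le
    nlinarith
  linarith

end CZ
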