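import Pool.Agent.H32.CZ.Ca
import Pool.Agent.H32.CZ.Cc

/-!
# MP_ede373, cubic points, row Ck: upper bound of the minors near `P`

`L = card Λ ≥ 1`, `log L ≤ M`, `N = M^1410`, `G = M^4398`, `B = 1 + max ‖P i‖`, so `‖Q i‖ ≤ B` (`δ ≥ 0`). `A i l = W_{J i, l}(Q)`, entries
`≤ e^N B^N =: T` (`aeval_le`). For `c ∈ V`, `‖c l‖ ≤ 1`: `‖∑ c_l A i l‖ ≤ ‖∑ c_l W_{J i, l}(P)‖ + L e^N N B^N e^{-δ} ≤ e^{-G} + L e^N N B^N e^{-δ} =: ε'`
(`aeval_sub_le`). For `M` large `M + 2 N + N log B + 1 ≤ M^1411`, so `ε' ≤ e^{-G} + e^{M^1411 - 1 - δ} ≤ exp(1 + M^1411 - min(G, δ))`.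
If `ε' ≤ 1`, `det_le_of_small`: `2 log ‖det A‖ ≤ 2 (2 L log L + L log T) + L log ε'` (det `≠ 0`), so
`-log ‖det A‖ ≥ (L/2)(min(G, δ) - M^1411 - 1) - 2 L M - L N (1 + log B) ≥ (L/2) min(G, δ) - 2 L M^1411`.
If `ε' > 1`: then `min(G, δ) < M^1411 + 1`; bound `‖det A‖ ≤ L! T^L ≤ L^L T^L` directly (`Matrix.det_apply`,
or `Matrix.det_le`): `-log ‖det A‖ ≥ -L (M + N (1 + log B)) ≥ (L/2) min(G, δ) - 2 L M^1411`.
-/

set_option autoImplicit false

namespace CZ

open MvPolynomial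
open H32.T3 (nrm)

theorem Ck_det {Λ : Type} [Fintype Λ] [DecidableEq Λ] (A : Matrix Λ Λ ℂ) (T : ℝ)
    (hT : ∀ i j, ‖A i j‖ ≤ T) :
    ‖A.det‖ ≤ (Fintype.card Λ : ℝ) ^ Fintype.card Λ * T ^ Fintype.card Λ := by
  rw [Matrix.det_apply]
  refine (norm_sum_le _ _).trans ?_
  have h1 : ∀ σ ∈ (Finset.univ : Finset (Equiv.Perm Λ)),
      ‖Equiv.Perm.sign σ • ∏ i, A (σ i) i‖ ≤ T ^ Fintype.card Λ := by
    intro σ _
    have h2 : ‖Equiv.Perm.sign σ • ∏ i, A (σ i) i‖ = ‖∏ i, A (σ i) i‖ := by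
      rcases Int.units_eq_one_or (Equiv.Perm.sign σ) with h | h
      · rw [h, one_smul]
      · rw [h, Units.neg_smul, one_smul, norm_neg]
    rw [h2, norm_prod]
    refine (Finset.prod_le_prod (fun i _ => norm_nonneg _) fun i _ => hT (σ i) i).trans ?_
    rw [Finset.prod_const, Finset.card_univ]
  refine (Finset.sum_le_sum h1).trans ?_
  rw [Finset.sum_const, Finset.card_univ, Fintype.card_perm, nsmul_eq_mul]
  by_cases h0 : Fintype.card Λ = 0
  · rw [h0]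
    simp
  have hne : Nonempty Λ := Fintype.card_pos_iff.1 (Nat.pos_of_ne_zero h0)
  obtain ⟨l⟩ := hne
  have hT0 : 0 ≤ T := (norm_nonneg _).trans (hT l l)
  refine mul_le_mul_of_nonneg_right ?_ (pow_nonneg hT0 _)
  exact_mod_cast Nat.factorial_le_pow (Fintype.card Λ)

theorem Ck_core {k : ℕ} (P : Fin k → ℂ) (B X G δ : ℝ) (M N : ℕ) (hB1 : 1 ≤ B)
    (hPB : ∀ i, ‖P i‖ + 1 ≤ B) (hX : 4 * (M : ℝ) + 2 * N + N * Real.log B + 1 ≤ X)
    (Λ : Type) [Fintype Λ] [DecidableEq Λ] (R : Type)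
    (W : R → Λ → MvPolynomial (Fin k) ℤ) (hL : 0 < Fintype.card Λ)
    (hLM : Real.log (Fintype.card Λ) ≤ M)
    (hW : ∀ s l, (W s l).totalDegree ≤ N ∧ nrm (W s l) ≤ Real.exp N)
    (V : Submodule ℂ (Λ → ℂ)) (hV : Fintype.card Λ ≤ 2 * Module.finrank ℂ V)
    (hVc : ∀ c ∈ V, (∀ l, ‖c l‖ ≤ 1) → ∀ s, ‖∑ l, c l * aeval P (W s l)‖ ≤ Real.exp (-G))
    (Q : Fin k → ℂ) (hδ : 0 ≤ δ) (hQ : ∀ i, ‖Q i - P i‖ ≤ Real.exp (-δ)) (J : Λ → R)
    (hdet : (Matrix.of fun i l ↦ aeval Q (W (J i) l)).det ≠ 0) :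
    (Fintype.card Λ : ℝ) / 2 * min G δ - 2 * Fintype.card Λ * X ≤
      -Real.log ‖(Matrix.of fun i l ↦ aeval Q (W (J i) l)).det‖ := by
  obtain ⟨L, hLdef⟩ : ∃ L, L = Fintype.card Λ := ⟨_, rfl⟩
  rw [← hLdef] at hL hLM hV ⊢
  set A : Matrix Λ Λ ℂ := Matrix.of fun i l ↦ aeval Q (W (J i) l) with hA
  have hL0 : (0 : ℝ) < L := by exact_mod_cast hL
  have hL1 : (1 : ℝ) ≤ L := by exact_mod_cast hL
  have hlogL : 0 ≤ Real.log L := Real.log_nonneg hL1
  have hM0 : (0 : ℝ) ≤ M := Nat.cast_nonneg M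
  have hN0 : (0 : ℝ) ≤ N := Nat.cast_nonneg N
  have hB0 : 0 < B := by linarith
  have hlB : 0 ≤ Real.log B := Real.log_nonneg hB1
  have hNB : 0 ≤ N * Real.log B := mul_nonneg hN0 hlB
  have hBN : (1 : ℝ) ≤ B ^ N := one_le_pow₀ hB1
  have hexpN : (1 : ℝ) ≤ Real.exp N := Real.one_le_exp hN0
  have hPB' : ∀ i, ‖P i‖ ≤ B := fun i => by linarith [hPB i]
  have hQB : ∀ i, ‖Q i‖ ≤ B := by
    intro i
    have h1 : ‖Q i‖ ≤ ‖Q i - P i‖ + ‖P i‖ := by
      have := norm_add_le (Q i - P i) (P i)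
      rwa [sub_add_cancel] at this
    have h2 : Real.exp (-δ) ≤ 1 := Real.exp_le_one_iff.2 (by linarith)
    linarith [hQ i, hPB i]
  set T : ℝ := Real.exp N * B ^ N with hT
  have hT1 : 1 ≤ T := by
    rw [hT]
    nlinarith
  have hT0 : 0 < T := by linarith
  have hlogT : Real.log T = N + N * Real.log B := by
    rw [hT, Real.log_mul (Real.exp_pos _).ne' (by positivity), Real.log_exp, Real.log_pow]
  have hAT : ∀ i j, ‖A i j‖ ≤ T := by
    intro i j
    have h1 := aeval_le (W (J i) j) N (hW _ _).1 Q B hB1 hQB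
    refine h1.trans ?_
    exact mul_le_mul_of_nonneg_right (hW _ _).2 (by positivity)
  have hdet0 : 0 < ‖A.det‖ := norm_pos_iff.2 hdet
  -- the bound on `V`
  set ε : ℝ := Real.exp (-G) + L * (Real.exp N * (N * B ^ N * Real.exp (-δ))) with hε
  have hε0 : 0 < ε := by
    have h1 : 0 ≤ L * (Real.exp N * (N * B ^ N * Real.exp (-δ))) := by positivity
    have h2 := Real.exp_pos (-G)
    linarith
  have hVA : ∀ c ∈ V, (∀ l, ‖c l‖ ≤ 1) → ∀ i, ‖∑ l, c l * A i l‖ ≤ ε := by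
    intro c hc hc1 i
    have h1 : ∑ l, c l * A i l = ∑ l, c l * aeval P (W (J i) l) +
        ∑ l, c l * (aeval Q (W (J i) l) - aeval P (W (J i) l)) := by
      rw [← Finset.sum_add_distrib]
      refine Finset.sum_congr rfl fun l _ => ?_
      rw [hA, Matrix.of_apply]
      ring
    rw [h1]
    refine (norm_add_le _ _).trans (add_le_add (hVc c hc hc1 (J i)) ?_)
    refine (norm_sum_le _ _).trans ?_
    have h2 : ∀ l ∈ (Finset.univ : Finset Λ),
        ‖c l * (aeval Q (W (J i) l) - aeval P (W (J i) l))‖ ≤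
          Real.exp N * (N * B ^ N * Real.exp (-δ)) := by
      intro l _
      rw [norm_mul]
      have h3 := aeval_sub_le (W (J i) l) N (hW _ _).1 P Q B (Real.exp (-δ)) hB1 hPB' hQB hQ
        (Real.exp_pos _).le
      have h4 : nrm (W (J i) l) * (N * B ^ N * Real.exp (-δ)) ≤
          Real.exp N * (N * B ^ N * Real.exp (-δ)) :=
        mul_le_mul_of_nonneg_right (hW _ _).2 (by positivity)
      calc ‖c l‖ * ‖aeval Q (W (J i) l) - aeval P (W (J i) l)‖
          ≤ 1 * (Real.exp N * (N * B ^ N * Real.exp (-δ))) :=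
            mul_le_mul (hc1 l) (h3.trans h4) (norm_nonneg _) zero_le_one
        _ = _ := one_mul _
    refine (Finset.sum_le_sum h2).trans (le_of_eq ?_)
    rw [Finset.sum_const, Finset.card_univ, ← hLdef, nsmul_eq_mul]
  -- `ε ≤ exp (X - min G δ)`
  have hLe : (L : ℝ) ≤ Real.exp M := by
    rw [← Real.log_le_iff_le_exp hL0]
    exact hLM
  have hNe : (N : ℝ) ≤ Real.exp N := by
    have := Real.add_one_le_exp (N : ℝ)
    linarith
  have hBe : B ^ N = Real.exp (N * Real.log B) := by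
    rw [← Real.log_pow, Real.exp_log (by positivity)]
  have hεX : ε ≤ Real.exp (X - min G δ) := by
    set y : ℝ := M + 2 * N + N * Real.log B with hy
    have hy0 : 0 ≤ y := by positivity
    have h1 : Real.exp (-G) ≤ Real.exp (-min G δ) :=
      Real.exp_le_exp.2 (neg_le_neg (min_le_left _ _))
    have h2 : Real.exp (-δ) ≤ Real.exp (-min G δ) :=
      Real.exp_le_exp.2 (neg_le_neg (min_le_right _ _))
    have h3 : L * (Real.exp N * (N * B ^ N * Real.exp (-δ))) ≤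
        Real.exp y * Real.exp (-min G δ) := by
      have e1 : Real.exp y = Real.exp M * (Real.exp N * (Real.exp N * B ^ N)) := by
        rw [hBe, ← Real.exp_add, ← Real.exp_add, ← Real.exp_add]
        congr 1
        rw [hy]
        ring
      rw [e1]
      calc L * (Real.exp N * (N * B ^ N * Real.exp (-δ)))
          ≤ Real.exp M * (Real.exp N * (Real.exp N * B ^ N * Real.exp (-min G δ))) := by
            gcongr
        _ = _ := by ring
    have h4 : 1 + Real.exp y ≤ Real.exp X := by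
      have h5 : (1 : ℝ) ≤ Real.exp y := Real.one_le_exp hy0
      have h6 : Real.exp (y + 1) ≤ Real.exp X := Real.exp_le_exp.2 (by rw [hy]; linarith)
      have h7 : 2 * Real.exp y ≤ Real.exp (y + 1) := by
        have h9 := Real.add_one_le_exp (1 : ℝ)
        have h10 : Real.exp (y + 1) = Real.exp y * Real.exp 1 := Real.exp_add y 1
        rw [h10]
        nlinarith
      linarith
    have h8 : 0 < Real.exp (-min G δ) := Real.exp_pos _
    calc ε ≤ Real.exp (-min G δ) + Real.exp y * Real.exp (-min G δ) := add_le_add h1 h3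
      _ = (1 + Real.exp y) * Real.exp (-min G δ) := by ring
      _ ≤ Real.exp X * Real.exp (-min G δ) := mul_le_mul_of_nonneg_right h4 h8.le
      _ = Real.exp (X - min G δ) := by rw [← Real.exp_add]; ring_nf
  have hlogε : Real.log ε ≤ X - min G δ := by
    rw [Real.log_le_iff_le_exp hε0]
    exact hεX
  have hLLT : 2 * Real.log L + Real.log T ≤ X := by
    rw [hlogT]
    linarith
  have hX0 : 0 ≤ X := by linarith
  rcases le_or_gt ε 1 with hε1 | hε1
  · have h1 := det_le_of_small A V ε T hε0.le hε1 hT1 hAT hVA (by rw [← hLdef]; exact hV)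
    rw [← hLdef] at h1
    have h2 := Real.log_le_log (by positivity) h1
    rw [Real.log_mul (by positivity) (by positivity), Real.log_pow, Real.log_pow, Real.log_pow,
      Real.log_mul (by positivity) (by positivity), Real.log_pow, Real.log_pow] at h2
    push_cast at h2
    have h3 : (L : ℝ) * Real.log ε ≤ L * (X - min G δ) := mul_le_mul_of_nonneg_left hlogε hL0.le
    have h4 : (L : ℝ) * (2 * Real.log L + Real.log T) ≤ L * X :=
      mul_le_mul_of_nonneg_left hLLT hL0.le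
    have h5 : 0 ≤ L * X := mul_nonneg hL0.le hX0
    have e1 : (L : ℝ) / 2 * min G δ = L * min G δ / 2 := by ring
    rw [e1]
    have e2 : (L : ℝ) * (X - min G δ) = L * X - L * min G δ := by ring
    have e3 : (L : ℝ) * (2 * Real.log L + Real.log T) = 2 * L * Real.log L + L * Real.log T := by ring
    rw [e2] at h3
    rw [e3] at h4
    have e4 : 2 * (L : ℝ) * X = 2 * (L * X) := by ring
    rw [e4]
    linarith
  · have h1 := Ck_det A T hAT
    rw [← hLdef] at h1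
    have h2 := Real.log_le_log hdet0 h1
    rw [Real.log_mul (by positivity) (by positivity), Real.log_pow, Real.log_pow] at h2
    have h3 : 0 ≤ X - min G δ := by
      refine le_trans ?_ hlogε
      exact Real.log_nonneg hε1.le
    have h4 : (L : ℝ) * (2 * Real.log L + Real.log T) ≤ L * X :=
      mul_le_mul_of_nonneg_left hLLT hL0.le
    have h5 : 0 ≤ (L : ℝ) * Real.log L := mul_nonneg hL0.le hlogL
    have h6 : 0 ≤ (L : ℝ) * (X - min G δ) := mul_nonneg hL0.le h3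
    have h7 : 0 ≤ L * X := mul_nonneg hL0.le hX0
    have e1 : (L : ℝ) / 2 * min G δ = L * min G δ / 2 := by ring
    rw [e1]
    have e2 : (L : ℝ) * (X - min G δ) = L * X - L * min G δ := by ring
    have e3 : (L : ℝ) * (2 * Real.log L + Real.log T) = 2 * (L * Real.log L) + L * Real.log T := by ring
    rw [e2] at h6
    rw [e3] at h4
    have e4 : 2 * (L : ℝ) * X = 2 * (L * X) := by ring
    rw [e4]
    linarith

theorem log_det_ge {k : ℕ} (P : Fin k → ℂ) : ∃ M1 : ℕ, ∀ M : ℕ, M1 ≤ M →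
    ∀ (Λ : Type) (_ : Fintype Λ) (_ : DecidableEq Λ) (R : Type)
      (W : R → Λ → MvPolynomial (Fin k) ℤ), 0 < Fintype.card Λ → Real.log (Fintype.card Λ) ≤ M →
      (∀ s l, ((W s l).totalDegree : ℝ) ≤ (M : ℝ) ^ 1410 ∧
        nrm (W s l) ≤ Real.exp ((M : ℝ) ^ 1410)) →
      (∃ V : Submodule ℂ (Λ → ℂ), Fintype.card Λ ≤ 2 * Module.finrank ℂ V ∧
        ∀ c ∈ V, (∀ l, ‖c l‖ ≤ 1) → ∀ s,
          ‖∑ l, c l * aeval P (W s l)‖ ≤ Real.exp (-(M : ℝ) ^ 4398)) →
    ∀ (Q : Fin k → ℂ) (δ : ℝ), 0 ≤ δ → (∀ i, ‖Q i - P i‖ ≤ Real.exp (-δ)) →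
      ∀ J : Λ → R, (Matrix.of fun i l ↦ aeval Q (W (J i) l)).det ≠ 0 →
        (Fintype.card Λ : ℝ) / 2 * min ((M : ℝ) ^ 4398) δ
            - 2 * Fintype.card Λ * (M : ℝ) ^ 1411 ≤
          -Real.log ‖(Matrix.of fun i l ↦ aeval Q (W (J i) l)).det‖ := by
  set B : ℝ := 2 + ∑ i, ‖P i‖ with hB
  have hs0 : 0 ≤ ∑ i, ‖P i‖ := Finset.sum_nonneg fun i _ => norm_nonneg _
  have hB1 : 1 ≤ B := by rw [hB]; linarith
  have hPB : ∀ i, ‖P i‖ + 1 ≤ B := by
    intro i
    have := Finset.single_le_sum (f := fun i => ‖P i‖) (fun j _ => norm_nonneg _) (Finset.mem_univ i)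
    rw [hB]
    linarith
  have hlB : 0 ≤ Real.log B := Real.log_nonneg hB1
  refine ⟨⌈7 + Real.log B⌉₊, ?_⟩
  intro M hM Λ _ _ R W hL hLM hW hV Q δ hδ hQ J hdet
  obtain ⟨V, hV1, hV2⟩ := hV
  have hM' : 7 + Real.log B ≤ M := (Nat.le_ceil _).trans (by exact_mod_cast hM)
  have hM1 : (1 : ℝ) ≤ M := by linarith
  refine Ck_core P B ((M : ℝ) ^ 1411) ((M : ℝ) ^ 4398) δ M (M ^ 1410) hB1 hPB ?_ Λ R W hL hLM
    (fun s l => ?_) V hV1 hV2 Q hδ hQ J hdet
  · have h1 : (M : ℝ) ≤ (M : ℝ) ^ 1410 := le_self_pow₀ hM1 (by norm_num)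
    have h2 : ((M ^ 1410 : ℕ) : ℝ) = (M : ℝ) ^ 1410 := by push_cast; rfl
    have h3 : (M : ℝ) ^ 1411 = (M : ℝ) ^ 1410 * M := pow_succ _ _
    rw [h2, h3]
    generalize (M : ℝ) ^ 1410 = Y at h1 ⊢
    have h4 : Y * (7 + Real.log B) ≤ Y * M := mul_le_mul_of_nonneg_left hM' (by linarith)
    linarith
  · have h2 : ((M ^ 1410 : ℕ) : ℝ) = (M : ℝ) ^ 1410 := by push_cast; rfl
    obtain ⟨h3, h4⟩ := hW s l
    rw [← h2] at h3 h4
    exact ⟨by exact_mod_cast h3, h4⟩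

end CZ
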