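import Pool.Agent.H32.CZ.N0
import Pool.Agent.H32.CZ.Cg
import Pool.Agent.H32.CZ.Ck
import Pool.Agent.H32.CZ.Hb

/-!
# MP_ede373, cubic points, row Ce: the determinant inequality at level `M`

`M1` = maximum of the bounds of `exists_J`, `log_det_ge` (and `2 ≤ M`). `classical` for `DecidableEq Λ`.
`L = card Λ`, `N = M^1410`, `n = finrank ℚ E ≤ t`.
1. `φ0 ∈ S` with `d φ0 ≥ 3 M^4430`: `exists_J` for `Q = φ0 ∘ x` gives `J`. `Δ = det (W (J i) l) : MvPolynomial (Fin k) ℤ`;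
`φ (aeval x Δ) = det (aeval (φ ∘ x) (W (J i) l))` for every embedding `φ` (`RingHom.map_det`/`AlgHom.map_det`,
`MvPolynomial.map_aeval`-like: `φ (aeval x F) = aeval (φ ∘ x) F`). So `Δ(x) ≠ 0`, and all `φ (Δ(x)) ≠ 0`.
2. For `φ ∈ S`: `log_det_ge` with `Q = φ ∘ x`, `δ = d φ`.
3. `liouville` for `Δ`, `S`: `∑_S -log ‖φ(Δ(x))‖ ≤ n log (nrm Δ) + (L N) ∑ hE (x i) ≤ t (L log L + L N) + L N k t`
(`nrm_det_le` with `B = e^N`, `totalDegree_det_le`; `nrm Δ ≥ 1` (`one_le_nrm`)).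
With 2 and `#S ≤ n ≤ t`: `(L/2) ∑ min(G, dφ) ≤ 2 L M^1411 t + t L (M + N + k N)`, so
`∑ min(G, dφ) ≤ (2 k + 10) t M^1411`.
`(totalDegree : ℝ) ≤ (M : ℝ)^1410` means `totalDegree ≤ M^1410` in `ℕ` (`exact_mod_cast`).
-/

set_option autoImplicit false

namespace CZ

open MvPolynomial
open H32.T3 (nrm)

/-- Embeddings and values of integer polynomials. -/
theorem ce_map_aeval {k : ℕ} {E : Type} [Field E] (φ : E →+* ℂ) (x : Fin k → E)
    (F : MvPolynomial (Fin k) ℤ) : φ (aeval x F) = aeval (fun i ↦ φ (x i)) F := by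
  have h : φ.comp (aeval x : MvPolynomial (Fin k) ℤ →ₐ[ℤ] E).toRingHom =
      (aeval (fun i ↦ φ (x i)) : MvPolynomial (Fin k) ℤ →ₐ[ℤ] ℂ).toRingHom := by
    refine MvPolynomial.ringHom_ext (fun n ↦ ?_) (fun i ↦ ?_)
    · simp
    · simp
  exact congrArg (fun f : MvPolynomial (Fin k) ℤ →+* ℂ ↦ f F) h

/-- The final computation. -/
theorem ce_arith (L t s T G N M kk X n c : ℝ) (hL : 0 < L) (hn : 0 ≤ n) (hnt : n ≤ t)
    (hc : c ≤ t) (hM : M ≤ T) (hN : N ≤ T) (hkk : 0 ≤ kk) (hT : 0 ≤ T) (hN0 : 0 ≤ N)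
    (hlog : 0 ≤ G) (hG : G ≤ L * M + L * N) (hs : s ≤ kk * t)
    (h1 : L / 2 * X - c * (2 * L * T) ≤ n * G + L * N * s) :
    X ≤ (2 * kk + 10) * t * T := by
  have ht : 0 ≤ t := hn.trans hnt
  have h2 : n * G ≤ t * (L * M + L * N) := mul_le_mul hnt hG hlog ht
  have h3 : L * N * s ≤ L * N * (kk * t) := mul_le_mul_of_nonneg_left hs (by positivity)
  have h4 : c * (2 * L * T) ≤ t * (2 * L * T) := mul_le_mul_of_nonneg_right hc (by positivity)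
  have h5 : L / 2 * X ≤ L / 2 * (4 * t * T + 2 * t * M + 2 * t * N + 2 * kk * t * N) := by
    nlinarith
  have h6 : X ≤ 4 * t * T + 2 * t * M + 2 * t * N + 2 * kk * t * N :=
    le_of_mul_le_mul_left h5 (by positivity)
  have h7 : t * M ≤ t * T := mul_le_mul_of_nonneg_left hM ht
  have h8 : t * N ≤ t * T := mul_le_mul_of_nonneg_left hN ht
  have h9 : kk * (t * N) ≤ kk * (t * T) := mul_le_mul_of_nonneg_left h8 hkk
  have h10 : 0 ≤ t * T := mul_nonneg ht hT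
  nlinarith

theorem core_ineq {k : ℕ} (P : Fin k → ℂ) : ∃ M1 : ℕ, ∀ M : ℕ, M1 ≤ M →
    ∀ (Λ : Type) (_ : Fintype Λ) (R : Type) (W : R → Λ → MvPolynomial (Fin k) ℤ),
      0 < Fintype.card Λ → Real.log (Fintype.card Λ) ≤ M →
      (∀ s l, ((W s l).totalDegree : ℝ) ≤ (M : ℝ) ^ 1410 ∧
        nrm (W s l) ≤ Real.exp ((M : ℝ) ^ 1410)) →
      (∀ c : Λ → ℂ, (∀ l, ‖c l‖ ≤ 1) → (∃ l, ‖c l‖ = 1) →
        ∃ s, Real.exp (-(M : ℝ) ^ 4430) ≤ ‖∑ l, c l * aeval P (W s l)‖) →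
      (∃ V : Submodule ℂ (Λ → ℂ), Fintype.card Λ ≤ 2 * Module.finrank ℂ V ∧
        ∀ c ∈ V, (∀ l, ‖c l‖ ≤ 1) → ∀ s,
          ‖∑ l, c l * aeval P (W s l)‖ ≤ Real.exp (-(M : ℝ) ^ 4398)) →
    ∀ (E : Type) (_ : Field E) (_ : NumberField E) (x : Fin k → E) (S : Finset (E →+* ℂ))
      (d : (E →+* ℂ) → ℝ) (t : ℝ), (Module.finrank ℚ E : ℝ) ≤ t → (∀ i, hE (x i) ≤ t) →
      (∀ φ ∈ S, 0 ≤ d φ ∧ ∀ i, ‖φ (x i) - P i‖ ≤ Real.exp (-d φ)) →
      (∃ φ ∈ S, 3 * (M : ℝ) ^ 4430 ≤ d φ) →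
      ∑ φ ∈ S, min ((M : ℝ) ^ 4398) (d φ) ≤ (2 * k + 10) * t * (M : ℝ) ^ 1411 := by
  classical
  obtain ⟨Ma, hMa⟩ := exists_J P
  obtain ⟨Mb, hMb⟩ := log_det_ge P
  refine ⟨max (max Ma Mb) 2, ?_⟩
  intro M hM Λ _ R W hL0 hLM hW hZE hV E _ _ x S d t hEt hxt hS hbig
  have hMa' : Ma ≤ M := le_trans (le_trans (le_max_left _ _) (le_max_left _ _)) hM
  have hMb' : Mb ≤ M := le_trans (le_trans (le_max_right _ _) (le_max_left _ _)) hM
  have hM2 : 2 ≤ M := le_trans (le_max_right _ _) hM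
  have hM1 : (1 : ℝ) ≤ M := by
    have : (2 : ℝ) ≤ M := by exact_mod_cast hM2
    linarith
  obtain ⟨φ0, hφ0, hd0⟩ := hbig
  obtain ⟨J, hJ⟩ := hMa M hMa' Λ inferInstance inferInstance R W hLM hW hZE (fun i ↦ φ0 (x i))
    (fun i ↦ ((hS φ0 hφ0).2 i).trans (Real.exp_le_exp.2 (neg_le_neg hd0)))
  set D : MvPolynomial (Fin k) ℤ := (Matrix.of fun i l ↦ W (J i) l).det with hD
  have hφD : ∀ φ : E →+* ℂ, φ (aeval x D) =
      (Matrix.of fun i l ↦ aeval (fun i ↦ φ (x i)) (W (J i) l)).det := by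
    intro φ
    have h1 : aeval x D = (Matrix.of fun i l ↦ aeval x (W (J i) l)).det := by
      rw [hD, AlgHom.map_det]
      rfl
    rw [h1, RingHom.map_det]
    congr 1
    ext i l
    simp only [RingHom.mapMatrix_apply, Matrix.map_apply, Matrix.of_apply]
    exact ce_map_aeval φ x _
  have hDx : aeval x D ≠ 0 := by
    intro h0
    have h1 := hφD φ0
    rw [h0, map_zero] at h1
    exact hJ h1.symm
  have hD0 : D ≠ 0 := by
    intro h0
    exact hDx (by rw [h0, map_zero])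
  have hlow : ∀ φ ∈ S, (Fintype.card Λ : ℝ) / 2 * min ((M : ℝ) ^ 4398) (d φ)
            - 2 * Fintype.card Λ * (M : ℝ) ^ 1411 ≤ -Real.log ‖φ (aeval x D)‖ := by
    intro φ hφ
    have h1 : (Matrix.of fun i l ↦ aeval (fun i ↦ φ (x i)) (W (J i) l)).det ≠ 0 := by
      rw [← hφD φ]
      exact (map_ne_zero φ).2 hDx
    have h2 := hMb M hMb' Λ inferInstance inferInstance R W hL0 hLM hW hV (fun i ↦ φ (x i)) (d φ)
      (hS φ hφ).1 (hS φ hφ).2 J h1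
    rw [← hφD φ] at h2
    exact h2
  have htd : ∀ s l, (W s l).totalDegree ≤ M ^ 1410 := by
    intro s l
    have := (hW s l).1
    exact_mod_cast this
  have hDtd : D.totalDegree ≤ Fintype.card Λ * M ^ 1410 :=
    totalDegree_det_le _ _ (fun i j ↦ htd _ _)
  have hli := liouville x D _ hDtd hDx S
  have hnrm : nrm D ≤ (Fintype.card Λ : ℝ) ^ Fintype.card Λ *
      Real.exp ((M : ℝ) ^ 1410) ^ Fintype.card Λ :=
    nrm_det_le _ _ (Real.exp_pos _).le (fun i j ↦ (hW _ _).2)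
  have hnrm1 : 1 ≤ nrm D := H32.T3.one_le_nrm hD0
  have hlog0 : 0 ≤ Real.log (nrm D) := Real.log_nonneg hnrm1
  have hLpos : (0 : ℝ) < Fintype.card Λ := by exact_mod_cast hL0
  have hlogD : Real.log (nrm D) ≤ Fintype.card Λ * (M : ℝ) + Fintype.card Λ * (M : ℝ) ^ 1410 := by
    have h1 := Real.log_le_log (by linarith) hnrm
    rw [Real.log_mul (by positivity) (by positivity), Real.log_pow, Real.log_pow,
      Real.log_exp] at h1
    have h2 : (Fintype.card Λ : ℝ) * Real.log (Fintype.card Λ) ≤ Fintype.card Λ * (M : ℝ) :=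
      mul_le_mul_of_nonneg_left hLM hLpos.le
    linarith
  have hcard : ((S.card : ℕ) : ℝ) ≤ t := by
    have h1 : S.card ≤ Module.finrank ℚ E := by
      rw [← NumberField.Embeddings.card E ℂ]
      exact Finset.card_le_univ S
    exact le_trans (by exact_mod_cast h1) hEt
  have hsum : ∑ i, hE (x i) ≤ (k : ℝ) * t := by
    calc ∑ i, hE (x i) ≤ ∑ _i : Fin k, t := Finset.sum_le_sum fun i _ ↦ hxt i
      _ = (k : ℝ) * t := by simp
  have hsl : (Fintype.card Λ : ℝ) / 2 * ∑ φ ∈ S, min ((M : ℝ) ^ 4398) (d φ)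
      - (S.card : ℝ) * (2 * Fintype.card Λ * (M : ℝ) ^ 1411) ≤
      -∑ φ ∈ S, Real.log ‖φ (aeval x D)‖ := by
    rw [← Finset.sum_neg_distrib]
    refine le_trans (le_of_eq ?_) (Finset.sum_le_sum hlow)
    rw [Finset.sum_sub_distrib, ← Finset.mul_sum, Finset.sum_const, nsmul_eq_mul]
  have hMp : (M : ℝ) ≤ (M : ℝ) ^ 1411 := by
    calc (M : ℝ) = (M : ℝ) ^ 1 := (pow_one _).symm
      _ ≤ (M : ℝ) ^ 1411 := pow_le_pow_right₀ hM1 (by norm_num)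
  have hNp : (M : ℝ) ^ 1410 ≤ (M : ℝ) ^ 1411 := pow_le_pow_right₀ hM1 (by norm_num)
  have hfin := hsl.trans hli
  push_cast at hfin
  have hT : 0 ≤ (M : ℝ) ^ 1411 := by positivity
  have hN0 : 0 ≤ (M : ℝ) ^ 1410 := by positivity
  exact ce_arith (Fintype.card Λ : ℝ) t (∑ i, hE (x i)) ((M : ℝ) ^ 1411) (Real.log (nrm D))
    ((M : ℝ) ^ 1410) M k _ (Module.finrank ℚ E) (S.card : ℝ) hLpos (by positivity) hEt hcard
    hMp hNp (by positivity) hT hN0 hlog0 hlogD hsum hfin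

end CZ
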