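import Pool.Agent.H32.CZ.Ce

/-!
# MP_ede373, cubic points, row Cf: no approximations of exponent 1.49

Suppose `Appr P (149/100)`, `κ = 1.49`. Let `M2 ≥ max M0 M1` (from `hyp` and `core_ineq`), to be chosen large at
the end (depending on `k` only); `C0 = 3 (M2 + 1)^4430`. Take `U0` with: `U0 > 0` and
`V ≥ U0 → C0 V^{1/κ} < V` (possible as `1/κ < 1`). Get `t, V, E, x, S, d`; `U = ∑_S d ≥ V ≥ U0`, `t ≤ V^{1/κ} ≤ U^{1/κ}`
(from `t^κ ≤ V`), `#S ≤ finrank ≤ t`. Let `φ0 ∈ S` have the largest `d φ0 = dm` (`S ≠ ∅` since `U > 0`). If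
`dm < C0` then `U ≤ t C0 ≤ C0 U^{1/κ} < U`, contradiction (monotone: the property of `U0` applies to `U ≥ V ≥ U0`).
So `dm ≥ 3 (M2+1)^4430`. Let `M` be the largest natural number with `3 M^4430 ≤ dm` (`Nat.findGreatest`, or
`M = ⌊(dm/3)^{1/4430}⌋`): `M ≥ M2 + 1` and `dm < 3 (M+1)^4430 ≤ 3 e^{4430/M}.. ≤ 9 M^4430` if `M ≥ 4430` (`(1+1/M)^4430 ≤ exp(4430/M) ≤ e ≤ 3`).
`core_ineq`: `∑_S min(M^4398, d) ≤ (2k+10) t M^1411`. Since `0 ≤ d φ ≤ dm ≤ 9 M^4430`, `min(M^4398, d φ) ≥ d φ / (9 M^32)`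
(if `d φ ≤ M^4398` clear; otherwise `M^4398 = 9 M^4430/(9 M^32) ≥ dφ/(9 M^32)`). So `U ≤ 9 (2k+10) t M^1443 ≤ C U^{1/κ} M^1443`,
i.e. `U^{1 - 1/κ} ≤ C M^1443`, `C = 9 (2k+10)`, and `U ≥ dm ≥ M^4430`: `M^{4430 (1 - 1/κ)} ≤ C M^1443`; `4430 (1 - 100/149) = 4430 · 49/149 >
1456`, so `M^13 ≤ C`: contradiction if `M2^13 > C`. (Exact integers: raise to the power 149: from
`U^49 ≤ (C M^1443)^149`, because `t^149 ≤ U^100` (real powers: `t^{149/100} ≤ V ≤ U`), `U^149 ≤ (C M^1443)^149 t^149 ≤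
(C M^1443)^149 U^100`; `U ≥ M^4430`: `M^{217070} ≤ C^149 M^{215007}`.)
-/

set_option autoImplicit false

namespace CZ

open MvPolynomial
open H32.T3 (nrm)

private lemma cf_pow_succ (M n : ℕ) (hM : n ≤ M) (hM' : 0 < M) :
    ((M : ℝ) + 1) ^ n ≤ 3 * (M : ℝ) ^ n := by
  have hM0 : (0 : ℝ) < M := by exact_mod_cast hM'
  have h1 : (M : ℝ) + 1 ≤ M * Real.exp (1 / M) := by
    have h := Real.add_one_le_exp (1 / (M : ℝ))
    calc (M : ℝ) + 1 = M * (1 / M + 1) := by field_simp; ring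
      _ ≤ M * Real.exp (1 / M) := mul_le_mul_of_nonneg_left h hM0.le
  have h2 : ((M : ℝ) + 1) ^ n ≤ (M * Real.exp (1 / M)) ^ n :=
    pow_le_pow_left₀ (by positivity) h1 _
  rw [mul_pow, ← Real.exp_nat_mul] at h2
  have h3 : Real.exp ((n : ℝ) * (1 / (M : ℝ))) ≤ 3 := by
    calc Real.exp ((n : ℝ) * (1 / (M : ℝ))) ≤ Real.exp 1 := by
          apply Real.exp_le_exp.mpr
          rw [mul_one_div, div_le_one hM0]
          exact_mod_cast hM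
      _ ≤ 3 := by
          have := Real.exp_one_lt_d9
          linarith
  refine h2.trans ?_
  rw [mul_comm (3 : ℝ)]
  exact mul_le_mul_of_nonneg_left h3 (by positivity)

private lemma cf_key (U C t : ℝ) (a b c : ℕ) (habc : a + b = c) (hU : 1 ≤ U) (hC : 0 ≤ C)
    (ht : t ^ c ≤ U ^ b) (h : U ≤ C * t) : U ^ a ≤ C ^ c := by
  have h1 : U ^ c ≤ (C * t) ^ c := pow_le_pow_left₀ (by linarith) h _
  rw [mul_pow] at h1
  have h2 : U ^ a * U ^ b ≤ C ^ c * U ^ b := by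
    rw [← pow_add, habc]
    exact h1.trans (mul_le_mul_of_nonneg_left ht (by positivity))
  exact le_of_mul_le_mul_right h2 (by positivity)

private lemma cf_exists_level (dm : ℝ) (M2 n : ℕ) (hn : n ≠ 0)
    (h : 3 * ((M2 : ℝ) + 1) ^ n ≤ dm) :
    ∃ M : ℕ, M2 + 1 ≤ M ∧ 3 * (M : ℝ) ^ n ≤ dm ∧ dm < 3 * ((M : ℝ) + 1) ^ n := by
  classical
  have hex : ∃ m : ℕ, dm < 3 * ((m : ℝ) + 1) ^ n := by
    refine ⟨⌈dm⌉₊, ?_⟩
    have h1 : dm ≤ (⌈dm⌉₊ : ℝ) := Nat.le_ceil dm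
    have h2 : (1 : ℝ) ≤ (⌈dm⌉₊ : ℝ) + 1 := by
      have : (0 : ℝ) ≤ (⌈dm⌉₊ : ℝ) := Nat.cast_nonneg _
      linarith
    have h3 : (⌈dm⌉₊ : ℝ) + 1 ≤ ((⌈dm⌉₊ : ℝ) + 1) ^ n := le_self_pow₀ h2 hn
    linarith
  have hfind := Nat.find_spec hex
  have hmin : ∀ m : ℕ, m < Nat.find hex → ¬ dm < 3 * ((m : ℝ) + 1) ^ n :=
    fun m hm ↦ Nat.find_min hex hm
  obtain ⟨m0, hm0⟩ : ∃ m0, m0 = Nat.find hex := ⟨_, rfl⟩
  rw [← hm0] at hfind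
  simp only [← hm0] at hmin
  have hle0 : M2 + 1 ≤ m0 := by
    by_contra hlt
    have hle : m0 ≤ M2 := by omega
    have h2 : ((m0 : ℝ) + 1) ^ n ≤ ((M2 : ℝ) + 1) ^ n := by
      apply pow_le_pow_left₀ (by positivity)
      have : (m0 : ℝ) ≤ M2 := by exact_mod_cast hle
      linarith
    linarith
  refine ⟨m0, hle0, ?_, hfind⟩
  have h1 := hmin (m0 - 1) (by omega)
  have h2 : (((m0 - 1 : ℕ) : ℝ) + 1) = (m0 : ℝ) := by
    rw [Nat.cast_sub (by omega)]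
    push_cast
    ring
  rw [h2] at h1
  exact not_lt.mp h1

private lemma cf_rpow (t U κ : ℝ) (p q : ℕ) (hκ : κ * q = p) (ht : 0 ≤ t) (h : t ^ κ ≤ U) :
    t ^ p ≤ U ^ q := by
  have h1 : (t ^ κ) ^ q = t ^ p := by
    rw [← Real.rpow_natCast, ← Real.rpow_mul ht, hκ, Real.rpow_natCast]
  rw [← h1]
  exact pow_le_pow_left₀ (Real.rpow_nonneg ht _) h _

private lemma cf_min (M d : ℝ) (n1 n2 n4 : ℕ) (h : n4 + n2 = n1) (hM : 1 ≤ M) (hd0 : 0 ≤ d)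
    (hd : d ≤ 9 * M ^ n1) : d ≤ 9 * M ^ n4 * min (M ^ n2) d := by
  rcases le_total (M ^ n2) d with h' | h'
  · rw [min_eq_left h', mul_assoc, ← pow_add, h]
    exact hd
  · rw [min_eq_right h']
    have h1 : (1 : ℝ) ≤ 9 * M ^ n4 := by
      have : (1 : ℝ) ≤ M ^ n4 := one_le_pow₀ hM
      linarith
    exact le_mul_of_one_le_left hd0 h1

private lemma cf_gen {k : ℕ} (P : Fin k → ℂ) (n1 n2 n3 n4 m e a b c : ℕ) (κ : ℝ)
    (h12 : n4 + n2 = n1) (h34 : n4 + n3 = m) (habc : a + b = c) (hκ : κ * b = c)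
    (hexp : e + m * c = n1 * a) (he : e ≠ 0) (ha : a ≠ 0) (hn1 : n1 ≠ 0) (M0 : ℕ)
    (core : ∀ M : ℕ, M0 ≤ M → ∀ (E : Type) (_ : Field E) (_ : NumberField E) (x : Fin k → E)
      (S : Finset (E →+* ℂ)) (d : (E →+* ℂ) → ℝ) (t : ℝ), (Module.finrank ℚ E : ℝ) ≤ t →
      (∀ i, hE (x i) ≤ t) →
      (∀ φ ∈ S, 0 ≤ d φ ∧ ∀ i, ‖φ (x i) - P i‖ ≤ Real.exp (-d φ)) →
      (∃ φ ∈ S, 3 * (M : ℝ) ^ n1 ≤ d φ) →
      ∑ φ ∈ S, min ((M : ℝ) ^ n2) (d φ) ≤ (2 * k + 10) * t * (M : ℝ) ^ n3) :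
    ¬ Appr P κ := by
  intro hA
  obtain ⟨C, hC⟩ : ∃ C : ℕ, C = 9 * (2 * k + 10) := ⟨_, rfl⟩
  obtain ⟨C', hC'⟩ : ∃ C' : ℕ, C' = C ^ c := ⟨_, rfl⟩
  obtain ⟨M2, hM2⟩ : ∃ M2 : ℕ, M2 = M0 + n1 + C' := ⟨_, rfl⟩
  obtain ⟨C0, hC0⟩ : ∃ C0 : ℝ, C0 = 3 * ((M2 : ℝ) + 1) ^ n1 := ⟨_, rfl⟩
  have hC0pos : 0 < C0 := by rw [hC0]; positivity
  obtain ⟨t, V, ht1, hUV, htV, E, iF, iN, x, S, d, hf, hx, hd, hV⟩ := hA (C0 ^ c + 1)
  obtain ⟨U, hU⟩ : ∃ U : ℝ, U = ∑ φ ∈ S, d φ := ⟨_, rfl⟩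
  have hVU : V ≤ U := by rw [hU]; exact hV
  have hCU : C0 ^ c + 1 ≤ U := hUV.trans hVU
  have hCc : (0 : ℝ) ≤ C0 ^ c := by positivity
  have hU1 : 1 ≤ U := by linarith
  have htc : t ^ c ≤ U ^ b := cf_rpow t U κ c b hκ (by linarith) (htV.trans hVU)
  have hne : S.Nonempty := by
    rw [Finset.nonempty_iff_ne_empty]
    intro h0
    rw [h0, Finset.sum_empty] at hU
    linarith
  obtain ⟨φ0, hφ0, hmax⟩ := Finset.exists_max_image S d hne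
  have hcard : (S.card : ℝ) ≤ t := by
    have h1 : S.card ≤ Module.finrank ℚ E := by
      rw [← NumberField.Embeddings.card E ℂ]
      exact Finset.card_le_univ S
    exact le_trans (by exact_mod_cast h1) hf
  have hUdm : U ≤ t * d φ0 := by
    have h1 : U ≤ S.card • d φ0 := by
      rw [hU]
      exact Finset.sum_le_card_nsmul S d (d φ0) hmax
    rw [nsmul_eq_mul] at h1
    exact h1.trans (mul_le_mul_of_nonneg_right hcard (hd φ0 hφ0).1)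
  have hdm : C0 ≤ d φ0 := by
    by_contra hlt
    push Not at hlt
    have h1 : U ≤ C0 * t := by
      have : t * d φ0 ≤ t * C0 := mul_le_mul_of_nonneg_left hlt.le (by linarith)
      linarith [mul_comm t C0]
    have h2 := cf_key U C0 t a b c habc hU1 hC0pos.le htc h1
    have h3 : U ≤ U ^ a := le_self_pow₀ hU1 ha
    linarith
  rw [hC0] at hdm
  obtain ⟨M, hMM, hMd, hdM⟩ := cf_exists_level (d φ0) M2 n1 hn1 hdm
  have hMn1 : n1 ≤ M := by omega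
  have hMC : C' < M := by omega
  have hM0 : 0 < M := by omega
  have hdM9 : d φ0 ≤ 9 * (M : ℝ) ^ n1 := by
    have h1 := cf_pow_succ M n1 hMn1 hM0
    linarith
  have hM1' : (1 : ℝ) ≤ M := by exact_mod_cast hM0
  have hcore := core M (by omega) E iF iN x S d t hf hx hd ⟨φ0, hφ0, hMd⟩
  have hmin : ∀ φ ∈ S, d φ ≤ 9 * (M : ℝ) ^ n4 * min ((M : ℝ) ^ n2) (d φ) := by
    intro φ hφ
    exact cf_min M (d φ) n1 n2 n4 h12 hM1' (hd φ hφ).1 ((hmax φ hφ).trans hdM9)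
  have hUle : U ≤ 9 * (M : ℝ) ^ n4 * ((2 * k + 10) * t * (M : ℝ) ^ n3) := by
    calc U = ∑ φ ∈ S, d φ := hU
      _ ≤ ∑ φ ∈ S, 9 * (M : ℝ) ^ n4 * min ((M : ℝ) ^ n2) (d φ) := Finset.sum_le_sum hmin
      _ = 9 * (M : ℝ) ^ n4 * ∑ φ ∈ S, min ((M : ℝ) ^ n2) (d φ) := by rw [Finset.mul_sum]
      _ ≤ 9 * (M : ℝ) ^ n4 * ((2 * k + 10) * t * (M : ℝ) ^ n3) :=
        mul_le_mul_of_nonneg_left hcore (by positivity)
  have hUle' : U ≤ ((C : ℝ) * (M : ℝ) ^ m) * t := by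
    have h1 : (M : ℝ) ^ m = (M : ℝ) ^ n4 * (M : ℝ) ^ n3 := by rw [← pow_add, h34]
    rw [h1, hC]
    push_cast
    calc U ≤ 9 * (M : ℝ) ^ n4 * ((2 * k + 10) * t * (M : ℝ) ^ n3) := hUle
      _ = _ := by ring
  have h49 := cf_key U ((C : ℝ) * (M : ℝ) ^ m) t a b c habc hU1 (by positivity) htc hUle'
  rw [mul_pow, ← pow_mul] at h49
  have hdU : d φ0 ≤ U := by
    rw [hU]
    exact Finset.single_le_sum (fun φ hφ ↦ (hd φ hφ).1) hφ0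
  have hMU : (M : ℝ) ^ n1 ≤ U := by
    have h0 : (0 : ℝ) ≤ (M : ℝ) ^ n1 := by positivity
    linarith
  have h217 : (M : ℝ) ^ (n1 * a) ≤ U ^ a := by
    rw [pow_mul]
    exact pow_le_pow_left₀ (by positivity) hMU _
  have hfin : (M : ℝ) ^ e * (M : ℝ) ^ (m * c) ≤ (C : ℝ) ^ c * (M : ℝ) ^ (m * c) := by
    rw [← pow_add, hexp]
    exact h217.trans h49
  have hfin' : (M : ℝ) ^ e ≤ (C : ℝ) ^ c :=
    le_of_mul_le_mul_right hfin (by positivity)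
  have h1 : (M : ℝ) ≤ (M : ℝ) ^ e := le_self_pow₀ hM1' he
  have h2 : ((C' : ℕ) : ℝ) = (C : ℝ) ^ c := by rw [hC']; push_cast; rfl
  rw [← h2] at hfin'
  have h3 : (M : ℝ) ≤ (C' : ℝ) := h1.trans hfin'
  have h4 : M ≤ C' := by exact_mod_cast h3
  omega

theorem not_appr {k : ℕ} (P : Fin k → ℂ)
    (hyp : ∃ M0 : ℕ, ∀ M : ℕ, M0 ≤ M → ∃ (Λ : Type) (_ : Fintype Λ) (R : Type)
      (W : R → Λ → MvPolynomial (Fin k) ℤ),
      0 < Fintype.card Λ ∧ Real.log (Fintype.card Λ) ≤ M ∧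
      (∀ s l, ((W s l).totalDegree : ℝ) ≤ (M : ℝ) ^ 1410 ∧
        nrm (W s l) ≤ Real.exp ((M : ℝ) ^ 1410)) ∧
      (∀ c : Λ → ℂ, (∀ l, ‖c l‖ ≤ 1) → (∃ l, ‖c l‖ = 1) →
        ∃ s, Real.exp (-(M : ℝ) ^ 4430) ≤ ‖∑ l, c l * aeval P (W s l)‖) ∧
      (∃ V : Submodule ℂ (Λ → ℂ), Fintype.card Λ ≤ 2 * Module.finrank ℂ V ∧
        ∀ c ∈ V, (∀ l, ‖c l‖ ≤ 1) → ∀ s,
          ‖∑ l, c l * aeval P (W s l)‖ ≤ Real.exp (-(M : ℝ) ^ 4398))) :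
    ¬ Appr P (149 / 100) := by
  obtain ⟨M0, hM0⟩ := hyp
  obtain ⟨M1, hM1⟩ := core_ineq P
  refine cf_gen P 4430 4398 1411 32 1443 2063 49 100 149 (149 / 100) (by norm_num) (by norm_num)
    (by norm_num) (by norm_num) (by norm_num) (by norm_num) (by norm_num) (by norm_num)
    (max M0 M1) ?_
  intro M hM E iF iN x S d t hf hx hd hex
  obtain ⟨Λ, iΛ, R, W, hc0, hcM, hW, hlow, hup⟩ := hM0 M (le_trans (le_max_left _ _) hM)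
  exact hM1 M (le_trans (le_max_right _ _) hM) Λ iΛ R W hc0 hcM hW hlow hup E iF iN x S d t hf hx hd
    hex

end CZ
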