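import Pool.Agent.H32.CZ.N0

/-!
# MP_ede373, cubic points, row Ha: the denominators

Conventions: `E` number field, `PadicAlgCl p` the algebraic closure of `ℚ_[p]` with its
nonarchimedean norm (`PadicAlgCl.isNonarchimedean`, `PadicAlgCl.norm_extends`,
`spectralNorm`); `E →+* PadicAlgCl p` is finite with `finrank ℚ E` elements
(`NumberField.Embeddings.card`).

`exists_locBd`. There is `a > 0` in `ℤ` (`IsAlgebraic`, `exists_integral_multiple` or
`IsIntegralClosure`/`IsLocalization` for `𝓞 E`) such that `a x` is integral over `ℤ`. For each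
`σ : E →+* PadicAlgCl p` the element `σ (a x)` is integral over `ℤ`, so its norm is `≤ 1`: if
`‖y‖ > 1` and `y ^ n = - ∑_{i<n} c_i y ^ i` with integers `c_i` (norm `≤ 1`), the ultrametric
inequality gives `‖y‖ ^ n ≤ ‖y‖ ^ (n-1)`, contradiction. Hence `‖σ x‖ ≤ ‖a‖⁻¹`, also `1 ≤ ‖a‖⁻¹`, so
`max 1 ‖σ x‖ ≤ ‖a‖⁻¹` and the product is `≤ ‖a‖⁻¹ ^ n = ‖a ^ n‖⁻¹` with `n = finrank ℚ E`. Take
`a ^ n` (natAbs).

`den_spec`: `Nat.sInf_mem` applied to `exists_locBd`. `den_le`: `Nat.sInf_le`.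

`hE_nonneg`: `den x ≥ 1`, and every `log (max 1 ..) ≥ 0`.

`prod_emb_padic`, `prod_emb_complex`: `Algebra.norm_eq_prod_embeddings` and the bijection between
`E →+* A` and `E →ₐ[ℚ] A` (`RingHom.equivRatAlgHom`), `Fintype.prod_equiv`.

`int_of_padic`: if `q : ℚ` has `‖(q : ℚ_[p])‖ ≤ 1` for all primes `p` then `q` is an integer: if
`q.den ≠ 1` take a prime `p ∣ q.den`; then `p ∤ q.num`, so `‖q‖ = ‖q.num‖ / ‖q.den‖ = 1 / ‖q.den‖ > 1`.
-/

set_option autoImplicit false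

namespace CZ

open Polynomial

variable {E : Type*} [Field E] [NumberField E]

theorem norm_le_one_of_integral {p : ℕ} [Fact p.Prime] {y : PadicAlgCl p} (hy : IsIntegral ℤ y) :
    ‖y‖ ≤ 1 := by
  have h1 : IsIntegral (Valued.v (R := PadicAlgCl p)).integer y := hy.tower_top
  have h2 := (Valuation.integer.integers (Valued.v (R := PadicAlgCl p))).mem_of_integral h1
  have h3 : Valued.v (R := PadicAlgCl p) y ≤ 1 := h2
  rw [PadicAlgCl.valuation_def] at h3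
  exact_mod_cast h3

theorem exists_locBd (x : E) : ∃ a : ℕ, 0 < a ∧ LocBd x a := by
  have hx : IsAlgebraic ℤ x := (IsFractionRing.isAlgebraic_iff ℤ ℚ E).2 (IsAlgebraic.of_finite ℚ x)
  obtain ⟨y, hy, hint⟩ := hx.exists_integral_multiple
  refine ⟨y.natAbs ^ Module.finrank ℚ E, pow_pos (Int.natAbs_pos.2 hy) _, fun p _ => ?_⟩
  have hn : ‖((y.natAbs : ℕ) : PadicAlgCl p)‖ = ‖((y : ℤ) : PadicAlgCl p)‖ := by
    rcases Int.natAbs_eq y with h | h
    · conv_rhs => rw [h]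
      rw [Int.cast_natCast]
    · conv_rhs => rw [h]
      rw [Int.cast_neg, Int.cast_natCast, norm_neg]
  have hy0 : ((y : ℤ) : PadicAlgCl p) ≠ 0 := Int.cast_ne_zero.2 hy
  have hyp : 0 < ‖((y : ℤ) : PadicAlgCl p)‖ := norm_pos_iff.2 hy0
  have hy1 : ‖((y : ℤ) : PadicAlgCl p)‖ ≤ 1 := IsUltrametricDist.norm_intCast_le_one _ y
  rw [Nat.cast_pow, norm_pow, hn, ← inv_pow, ← NumberField.Embeddings.card E (PadicAlgCl p),
    ← Finset.card_univ, ← Finset.prod_const]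
  refine Finset.prod_le_prod (fun σ _ => zero_le_one.trans (le_max_left _ _)) fun σ _ =>
    max_le ((one_le_inv₀ hyp).2 hy1) ?_
  have h1 : IsIntegral ℤ (σ (y • x)) := hint.map σ.toIntAlgHom
  have h2 := norm_le_one_of_integral h1
  rw [zsmul_eq_mul, map_mul, map_intCast, norm_mul] at h2
  rw [← one_div, le_div_iff₀ hyp, mul_comm]
  exact h2

theorem den_spec (x : E) : 0 < den x ∧ LocBd x (den x) :=
  Nat.sInf_mem (exists_locBd x)

theorem den_le {x : E} {a : ℕ} (ha : 0 < a) (h : LocBd x a) : den x ≤ a :=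
  Nat.sInf_le ⟨ha, h⟩

theorem hE_nonneg (x : E) : 0 ≤ hE x := by
  unfold hE
  refine add_nonneg (Real.log_nonneg ?_) (Finset.sum_nonneg fun φ _ => Real.log_nonneg (le_max_left _ _))
  exact_mod_cast (den_spec x).1

theorem prod_emb_gen {A : Type*} [Field A] [IsAlgClosed A] [CharZero A] (y : E) :
    ∏ σ : E →+* A, σ y = ((Algebra.norm ℚ y : ℚ) : A) := by
  have h1 := Algebra.norm_eq_prod_embeddings ℚ A y
  rw [eq_ratCast] at h1
  rw [h1]
  exact Fintype.prod_equiv (RingHom.equivRatAlgHom E A) _ _ fun σ => rfl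

theorem prod_emb_padic (p : ℕ) [Fact p.Prime] (y : E) :
    ∏ σ : E →+* PadicAlgCl p, σ y = ((Algebra.norm ℚ y : ℚ) : PadicAlgCl p) :=
  prod_emb_gen y

theorem prod_emb_complex (y : E) :
    ∏ φ : E →+* ℂ, φ y = ((Algebra.norm ℚ y : ℚ) : ℂ) :=
  prod_emb_gen y

theorem int_of_padic (q : ℚ) (h : ∀ (p : ℕ) [Fact p.Prime], ‖(q : PadicAlgCl p)‖ ≤ 1) :
    ∃ n : ℤ, q = n := by
  by_cases hd : q.den = 1
  · exact ⟨q.num, (Rat.coe_int_num_of_den_eq_one hd).symm⟩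
  exfalso
  obtain ⟨p, hp, hpd⟩ := Nat.exists_prime_and_dvd hd
  have : Fact p.Prime := ⟨hp⟩
  have h1 := h p
  have h2 : ‖(q : ℚ_[p])‖ ≤ 1 := by
    rw [← PadicAlgCl.norm_extends, map_ratCast]
    exact h1
  have h3 : ‖((q.num : ℤ) : ℚ_[p])‖ < 1 := by
    have h4 : ((q.num : ℤ) : ℚ_[p]) = (q : ℚ_[p]) * ((q.den : ℕ) : ℚ_[p]) := by
      have := Rat.mul_den_eq_num q
      exact_mod_cast this.symm
    have h5 : ‖((q.den : ℕ) : ℚ_[p])‖ < 1 := Padic.norm_natCast_lt_one_iff.2 hpd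
    rw [h4, norm_mul]
    calc ‖(q : ℚ_[p])‖ * ‖((q.den : ℕ) : ℚ_[p])‖ ≤ 1 * ‖((q.den : ℕ) : ℚ_[p])‖ :=
          mul_le_mul_of_nonneg_right h2 (norm_nonneg _)
      _ < 1 := by rwa [one_mul]
  have h4 : (p : ℤ) ∣ q.num := Padic.norm_intCast_lt_one_iff.1 h3
  have h5 : p ∣ q.num.natAbs := Int.natCast_dvd.1 h4
  exact hp.one_lt.ne' (Nat.dvd_one.1 (q.reduced ▸ Nat.dvd_gcd h5 hpd))

end CZ
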