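import Pool.Agent.H32.CZ.Ha

/-!
# MP_ede373, cubic points, row Hc: height of a generator, and Gauss norms

`locBd_root`: let `r : ℤ[X]` be irreducible of degree `n = finrank ℚ E` with root `y` in `E`. Then
`LocBd y (r.leadingCoeff.natAbs)`. Proof. Fix `p`, `Ω = PadicAlgCl p`, `R = r.map (ℤ → Ω)`. The map
`σ ↦ σ y` from `E →+* Ω` to the roots of `R` is injective: `r` is, up to a constant, the minimal
polynomial of `y` over `ℚ` (Gauss lemma: `Polynomial.IsPrimitive.Int.irreducible_iff_irreducible_map_cast`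
or `IsPrimitive`; an irreducible `r` of positive degree is primitive), so `finrank ℚ ℚ⟮y⟯ = n =
finrank ℚ E` and `ℚ⟮y⟯ = ⊤`, and two embeddings which agree on `y` are equal. There are `n` embeddings
and at most `n` roots, so `R = C lc * ∏_σ (X - C (σ y))` (`Polynomial.prod_multiset_X_sub_C_...`).
Gauss: all coefficients of `R` have norm `≤ 1`. Let `s` be the set of `σ` with `‖σ y‖ > 1`, `j = #s`. The
coefficient of `X ^ (n - j)` in `∏_σ (X - C (σ y))` is `± ∑_{T, #T = j} ∏_{σ ∈ T} σ y`
(`Finset.prod_X_sub_C_coeff` / `Multiset.esymm`), where the term `T = s` has norm `∏_σ max 1 ‖σ y‖` and all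
the others have strictly smaller norm (if `T ≠ s`, some `σ ∈ s` is missing, replaced by factors of
norm `≤ 1`). By the ultrametric inequality the coefficient has norm `∏_σ max 1 ‖σ y‖`. So
`‖lc‖ ∏_σ max 1 ‖σ y‖ ≤ 1`. (You may also use `Polynomial.gaussNorm` if Mathlib knows it is
multiplicative; state the Gauss lemma `gauss_prod` below first, it is pure.)

`hE_root`: same hypotheses: `hE y ≤ log (mah r)`. Proof: `den y ≤ |lc|` (`den_le`); the same bijection
for `Ω = ℂ` gives `∑_φ log (max 1 ‖φ y‖) = ∑_{roots} log (max 1 ‖α‖)`, and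
`Polynomial.mahlerMeasure_eq_leadingCoeff_mul_prod_roots`.
-/

set_option autoImplicit false

namespace CZ

open Polynomial

theorem Hc_gprod {Ω : Type*} [NormedField Ω] (hΩ : IsNonarchimedean (norm : Ω → ℝ))
    {ι : Type*} (α : ι → Ω) (s : Finset ι) (q : Polynomial Ω) :
    q.gaussNorm (NormedField.toAbsoluteValue Ω) 1 * ∏ i ∈ s, max 1 ‖α i‖ ≤
      (q * ∏ i ∈ s, (X - C (α i))).gaussNorm (NormedField.toAbsoluteValue Ω) 1 := by
  classical
  have hna : IsNonarchimedean (NormedField.toAbsoluteValue Ω) := hΩ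
  induction s using Finset.induction_on with
  | empty => simp
  | insert i s hi ih =>
    rw [Finset.prod_insert hi, Finset.prod_insert hi]
    have h1 : max 1 ‖α i‖ ≤ (X - C (α i)).gaussNorm (NormedField.toAbsoluteValue Ω) 1 := by
      refine max_le ?_ ?_
      · have h2 := (X - C (α i)).le_gaussNorm (NormedField.toAbsoluteValue Ω) (zero_le_one) 1
        have h3 : (X - C (α i)).coeff 1 = 1 := by
          rw [coeff_sub, coeff_X_one, coeff_C_of_ne_zero one_ne_zero, sub_zero]
        rw [h3, map_one, one_pow, one_mul] at h2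
        exact h2
      · have h2 := (X - C (α i)).le_gaussNorm (NormedField.toAbsoluteValue Ω) (zero_le_one) 0
        have h3 : (X - C (α i)).coeff 0 = - α i := by
          rw [coeff_sub, coeff_X_zero, coeff_C_zero, zero_sub]
        rw [h3, pow_zero, mul_one] at h2
        have h4 : (NormedField.toAbsoluteValue Ω) (- α i) = ‖α i‖ := norm_neg (α i)
        rw [h4] at h2
        exact h2
    have h5 : q * ((X - C (α i)) * ∏ i ∈ s, (X - C (α i))) =
        (X - C (α i)) * (q * ∏ i ∈ s, (X - C (α i))) := by ring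
    rw [h5, gaussNorm_mul hna zero_lt_one]
    have h6 : 0 ≤ q.gaussNorm (NormedField.toAbsoluteValue Ω) 1 :=
      q.gaussNorm_nonneg _ zero_le_one
    calc q.gaussNorm (NormedField.toAbsoluteValue Ω) 1 * (max 1 ‖α i‖ * ∏ i ∈ s, max 1 ‖α i‖)
        = max 1 ‖α i‖ * (q.gaussNorm (NormedField.toAbsoluteValue Ω) 1 *
          ∏ i ∈ s, max 1 ‖α i‖) := by ring
      _ ≤ _ := mul_le_mul h1 ih (mul_nonneg h6 (Finset.prod_nonneg fun _ _ =>
          le_trans zero_le_one (le_max_left _ _))) ((X - C (α i)).gaussNorm_nonneg _ zero_le_one)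

/-- Gauss lemma over a nonarchimedean normed field. -/
theorem gauss_prod {Ω : Type*} [NormedField Ω] (hΩ : IsNonarchimedean (norm : Ω → ℝ))
    {ι : Type*} [Fintype ι] (α : ι → Ω) (c : Ω)
    (h : ∀ j, ‖(C c * ∏ i, (X - C (α i))).coeff j‖ ≤ 1) :
    ‖c‖ * ∏ i, max 1 ‖α i‖ ≤ 1 := by
  have h1 := Hc_gprod hΩ α Finset.univ (C c)
  rw [gaussNorm_C] at h1
  refine le_trans h1 ?_
  obtain ⟨i, hi⟩ := exists_eq_gaussNorm (NormedField.toAbsoluteValue Ω) 1 (C c * ∏ i, (X - C (α i)))
  rw [hi, one_pow, mul_one]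
  exact h i

theorem Hc_roots {E : Type*} [Field E] [NumberField E] {Ω : Type*} [Field Ω] [CharZero Ω]
    [IsAlgClosed Ω] (r : ℤ[X]) (hr : Irreducible r) (y : E) (hy : aeval y r = 0)
    (hn : r.natDegree = Module.finrank ℚ E) :
    (r.map (Int.castRingHom Ω)).roots =
      (Finset.univ : Finset (E →+* Ω)).val.map (fun σ => σ y) := by
  have hn0 : r.natDegree ≠ 0 := by
    rw [hn]
    exact Module.finrank_pos.ne'
  have hprim : r.IsPrimitive := hr.isPrimitive hn0
  have hirr : Irreducible (r.map (Int.castRingHom ℚ)) :=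
    (Polynomial.IsPrimitive.Int.irreducible_iff_irreducible_map_cast hprim).1 hr
  have hroot : aeval y (r.map (Int.castRingHom ℚ)) = 0 := by
    rw [← hy]
    exact aeval_map_algebraMap ℚ y r
  have hmin := minpoly.eq_of_irreducible hirr hroot
  have hlc : (r.map (Int.castRingHom ℚ)).leadingCoeff⁻¹ ≠ 0 :=
    inv_ne_zero (leadingCoeff_ne_zero.2 hirr.ne_zero)
  have hdeg : (minpoly ℚ y).natDegree = Module.finrank ℚ E := by
    rw [← hmin, natDegree_mul_C hlc, natDegree_map_eq_of_injective (RingHom.injective_int _), hn]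
  have htop := (Field.primitive_element_iff_minpoly_natDegree_eq ℚ y).2 hdeg
  have hinj0 := (Field.primitive_element_iff_algHom_eq_of_eval' ℚ Ω
    (fun x => IsAlgClosed.splits _) y).1 htop
  have hinj : Function.Injective (fun σ : E →+* Ω => σ y) := by
    intro σ τ h
    have h1 : σ.toRatAlgHom = τ.toRatAlgHom := hinj0 h
    exact RingHom.ext fun x => DFunLike.congr_fun h1 x
  have hR0 : r.map (Int.castRingHom Ω) ≠ 0 := by
    intro h
    have h1 : (r.map (Int.castRingHom Ω)).natDegree = r.natDegree :=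
      natDegree_map_eq_of_injective (RingHom.injective_int _) r
    rw [h, natDegree_zero] at h1
    exact hn0 h1.symm
  symm
  refine Multiset.eq_of_le_of_card_le ?_ ?_
  · rw [Multiset.le_iff_subset (Multiset.Nodup.map hinj (Finset.nodup _))]
    intro z hz
    obtain ⟨σ, -, rfl⟩ := Multiset.mem_map.1 hz
    rw [mem_roots hR0]
    show eval (σ y) (r.map (Int.castRingHom Ω)) = 0
    rw [eval_map]
    have h1 : σ (aeval y r) = 0 := by rw [hy, map_zero]
    rw [aeval_def, hom_eval₂] at h1
    have h2 : σ.comp (algebraMap ℤ E) = Int.castRingHom Ω := RingHom.ext_int _ _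
    rw [h2] at h1
    exact h1
  · rw [Multiset.card_map]
    have h1 : Multiset.card (Finset.univ : Finset (E →+* Ω)).val = Module.finrank ℚ E := by
      have h2 := NumberField.Embeddings.card E Ω
      rw [← h2]
      rfl
    rw [h1, ← hn, ← natDegree_map_eq_of_injective (RingHom.injective_int (Int.castRingHom Ω)) r]
    exact card_roots' _

variable {E : Type*} [Field E] [NumberField E]

theorem Hc_prod {Ω : Type*} [Field Ω] [CharZero Ω]
    [IsAlgClosed Ω] (r : ℤ[X]) (hr : Irreducible r) (y : E) (hy : aeval y r = 0)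
    (hn : r.natDegree = Module.finrank ℚ E) :
    C ((r.leadingCoeff : ℤ) : Ω) * ∏ σ : E →+* Ω, (X - C (σ y)) = r.map (Int.castRingHom Ω) := by
  have h1 := Hc_roots (Ω := Ω) r hr y hy hn
  have h2 : Multiset.card (r.map (Int.castRingHom Ω)).roots = (r.map (Int.castRingHom Ω)).natDegree :=
    (IsAlgClosed.splits _).natDegree_eq_card_roots.symm
  have h3 := C_leadingCoeff_mul_prod_multiset_X_sub_C h2
  rw [h1, Multiset.map_map, leadingCoeff_map_of_injective (RingHom.injective_int _)] at h3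
  exact h3

theorem locBd_root (r : ℤ[X]) (hr : Irreducible r) (y : E) (hy : aeval y r = 0)
    (hn : r.natDegree = Module.finrank ℚ E) : LocBd y r.leadingCoeff.natAbs := by
  intro p _
  have hint : ∀ a : ℤ, ‖(a : PadicAlgCl p)‖ ≤ 1 := by
    intro a
    have h1 : ((a : ℚ_[p]) : PadicAlgCl p) = (a : PadicAlgCl p) := map_intCast (algebraMap ℚ_[p] (PadicAlgCl p)) a
    rw [← h1, PadicAlgCl.norm_extends]
    exact Padic.norm_int_le_one a
  have h1 := gauss_prod (PadicAlgCl.isNonarchimedean p) (fun σ : E →+* PadicAlgCl p => σ y)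
    ((r.leadingCoeff : ℤ) : PadicAlgCl p) (fun j => by
      rw [Hc_prod r hr y hy hn, coeff_map]
      exact hint _)
  have hlc : ((r.leadingCoeff : ℤ) : PadicAlgCl p) ≠ 0 := by
    rw [Int.cast_ne_zero]
    exact leadingCoeff_ne_zero.2 hr.ne_zero
  have h2 : ‖((r.leadingCoeff.natAbs : ℕ) : PadicAlgCl p)‖ = ‖((r.leadingCoeff : ℤ) : PadicAlgCl p)‖ := by
    rcases Int.natAbs_eq r.leadingCoeff with h | h
    · conv_rhs => rw [h]
      rw [Int.cast_natCast]
    · conv_rhs => rw [h]
      rw [Int.cast_neg, norm_neg, Int.cast_natCast]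
  rw [h2, ← one_div, le_div_iff₀ (norm_pos_iff.2 hlc), mul_comm]
  exact h1

theorem hE_root (r : ℤ[X]) (hr : Irreducible r) (y : E) (hy : aeval y r = 0)
    (hn : r.natDegree = Module.finrank ℚ E) : hE y ≤ Real.log (mah r) := by
  have hlc0 : r.leadingCoeff ≠ 0 := leadingCoeff_ne_zero.2 hr.ne_zero
  have h1 : den y ≤ r.leadingCoeff.natAbs :=
    den_le (Int.natAbs_pos.2 hlc0) (locBd_root r hr y hy hn)
  have h2 := (den_spec y).1
  unfold hE mah
  rw [mahlerMeasure_eq_leadingCoeff_mul_prod_roots, Hc_roots r hr y hy hn, Multiset.map_map,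
    leadingCoeff_map_of_injective (RingHom.injective_int _)]
  have h3 : (Multiset.map ((fun a : ℂ => max 1 ‖a‖) ∘ fun σ : E →+* ℂ => σ y)
      (Finset.univ : Finset (E →+* ℂ)).val).prod = ∏ φ : E →+* ℂ, max 1 ‖φ y‖ := rfl
  rw [h3]
  have h4 : 0 < ∏ φ : E →+* ℂ, max 1 ‖φ y‖ :=
    Finset.prod_pos fun _ _ => lt_of_lt_of_le zero_lt_one (le_max_left _ _)
  have h5 : ‖(Int.castRingHom ℂ) r.leadingCoeff‖ = (r.leadingCoeff.natAbs : ℝ) := by
    rw [eq_intCast, Complex.norm_intCast, ← Int.cast_abs, Int.abs_eq_natAbs, Int.cast_natCast]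
  have h6 : (0:ℝ) < (r.leadingCoeff.natAbs : ℝ) := by
    exact_mod_cast Int.natAbs_pos.2 hlc0
  rw [h5, Real.log_mul h6.ne' h4.ne', Real.log_prod]
  · refine add_le_add_left ?_ _
    exact Real.log_le_log (by exact_mod_cast h2) (by exact_mod_cast h1)
  · intro φ _
    exact (lt_of_lt_of_le zero_lt_one (le_max_left _ _)).ne'

end CZ
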