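import Pool.Agent.H32.CZ.Na

/-!
# MP_ede373, cubic points, row Nb: degrees, exchange of the variables, values

`dX P = sup_j natDegree (P.coeff j)`, `dT P = sup_j (j + natDegree (P.coeff j))` over the support.
`Polynomial.Bivariate.swap : R[X][Y] ≃ₐ[R] R[X][Y]` exchanges the variables:
`((swap P).coeff i).coeff j = (P.coeff j).coeff i` (prove it by `Polynomial.induction_on` if Mathlib has
not got it). So `natDegree (swap P) = dX P` and `dX` is additive on nonzero polynomials because
`natDegree` is. `nr2 (swap P) = nr2 P`: exchange of two finite sums.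
`evH x y P = ∑_j (aeval x (P.coeff j)) y ^ j` (`eval₂_eq_sum_range`); `evH_eval`: `eval₂_eq_eval_map`;
`map_evH`, `evH_swap`: ring homomorphisms which agree on `C (C n)`, `C X`, `X` (`Polynomial.ringHom_ext`).
`evH_ne_zero`: `evH θ1 θ2 P` is the value at `(θ1, θ2)` of the polynomial
`∑ a_{ji} X_0^i X_1^j : MvPolynomial (Fin 2) ℚ`, which is not zero if `P ≠ 0`
(`MvPolynomial.finSuccEquiv`, or `algebraicIndependent_iff` and the coefficients of that sum of
distinct monomials).
-/

set_option autoImplicit false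

namespace CZ

open Polynomial

theorem coeff_le_dX (P : ℤ[X][X]) (j : ℕ) : (P.coeff j).natDegree ≤ dX P := by
  by_cases h : j ∈ P.support
  · exact Finset.le_sup (f := fun j ↦ (P.coeff j).natDegree) h
  · rw [notMem_support_iff.1 h]
    simp

theorem Nb_coeff_swap (P : ℤ[X][X]) (i j : ℕ) :
    ((Bivariate.swap P).coeff i).coeff j = (P.coeff j).coeff i := by
  induction P using Polynomial.induction_on' with
  | add p q hp hq => rw [map_add, coeff_add, coeff_add, hp, hq, coeff_add, coeff_add]
  | monomial n a =>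
    induction a using Polynomial.induction_on' with
    | add p q hp hq =>
      rw [map_add, map_add, coeff_add, coeff_add, hp, hq, coeff_add, coeff_add]
    | monomial m r =>
      rw [Bivariate.swap_monomial_monomial, coeff_monomial, coeff_monomial]
      split_ifs with h1 h2 h2
      · rw [coeff_monomial, coeff_monomial, if_pos h1, if_pos h2]
      · rw [coeff_monomial, if_neg h2, coeff_zero]
      · rw [coeff_monomial, if_neg h1, coeff_zero]
      · rfl

theorem dX_le_iff {P : ℤ[X][X]} {m : ℕ} : dX P ≤ m ↔ ∀ j, (P.coeff j).natDegree ≤ m := by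
  exact ⟨fun h j => (coeff_le_dX P j).trans h, fun h => Finset.sup_le fun j _ => h j⟩

theorem Nb_natDegree_swap (P : ℤ[X][X]) : (Bivariate.swap P).natDegree = dX P := by
  apply le_antisymm
  · rw [natDegree_le_iff_coeff_eq_zero]
    intro N hN
    ext j
    rw [Nb_coeff_swap, coeff_zero]
    exact coeff_eq_zero_of_natDegree_lt ((coeff_le_dX P j).trans_lt hN)
  · rw [dX_le_iff]
    intro j
    rw [natDegree_le_iff_coeff_eq_zero]
    intro N hN
    rw [← Nb_coeff_swap, coeff_eq_zero_of_natDegree_lt hN, coeff_zero]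

theorem dX_mul {P Q : ℤ[X][X]} (hP : P ≠ 0) (hQ : Q ≠ 0) : dX (P * Q) = dX P + dX Q := by
  rw [← Nb_natDegree_swap, ← Nb_natDegree_swap P, ← Nb_natDegree_swap Q, map_mul]
  exact natDegree_mul ((map_ne_zero_iff _ Bivariate.swap.injective).mpr hP)
    ((map_ne_zero_iff _ Bivariate.swap.injective).mpr hQ)

theorem dX_multiset_prod (s : Multiset ℤ[X][X]) (hs : ∀ A ∈ s, A ≠ 0) :
    dX s.prod = (s.map dX).sum := by
  induction s using Multiset.induction_on with
  | empty =>
    rw [Multiset.prod_zero, Multiset.map_zero, Multiset.sum_zero, ← Nb_natDegree_swap, map_one,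
      natDegree_one]
  | cons a s ih =>
    have h0 : s.prod ≠ 0 := Multiset.prod_ne_zero fun h => hs 0 (Multiset.mem_cons_of_mem h) rfl
    rw [Multiset.prod_cons, Multiset.map_cons, Multiset.sum_cons,
      dX_mul (hs a (Multiset.mem_cons_self a s)) h0, ih fun A hA => hs A (Multiset.mem_cons_of_mem hA)]

theorem natDegree_le_dT (P : ℤ[X][X]) : P.natDegree ≤ dT P := by
  by_cases hP : P = 0
  · rw [hP]
    simp
  · have h := Finset.le_sup (f := fun j ↦ j + (P.coeff j).natDegree) (natDegree_mem_support_of_nonzero hP)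
    exact (Nat.le_add_right _ _).trans h

theorem dX_le_dT (P : ℤ[X][X]) : dX P ≤ dT P := by
  refine Finset.sup_le fun j hj => ?_
  have h := Finset.le_sup (f := fun j ↦ j + (P.coeff j).natDegree) hj
  exact (Nat.le_add_left _ _).trans h

theorem dT_le (P : ℤ[X][X]) : dT P ≤ P.natDegree + dX P := by
  exact Finset.sup_le fun j hj => Nat.add_le_add (le_natDegree_of_mem_supp j hj) (coeff_le_dX P j)

theorem mu2_nonneg (P : ℤ[X][X]) : 0 ≤ mu2 P := by
  have h : 0 ≤ Real.log (nr2 P) := by
    by_cases hP : P = 0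
    · have h0 : nr2 P = 0 := by
        rw [hP]
        unfold nr2
        simp
      rw [h0, Real.log_zero]
    · exact Real.log_nonneg (one_le_nr2 hP)
  unfold mu2
  positivity

theorem natDegree_swap (P : ℤ[X][X]) : (Bivariate.swap P).natDegree = dX P := by
  exact Nb_natDegree_swap P

theorem dX_swap (P : ℤ[X][X]) : dX (Bivariate.swap P) = P.natDegree := by
  rw [← natDegree_swap, Bivariate.swap_swap_apply]

theorem Nb_nr {f : ℤ[X]} {b : ℕ} (h : f.natDegree < b) :
    nr f = ∑ i ∈ Finset.range b, |(f.coeff i : ℝ)| := by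
  unfold nr
  exact sum_over_range' f (by simp) b h

theorem Nb_nr2 {P : ℤ[X][X]} {a b : ℕ} (ha : P.natDegree < a) (hb : ∀ j, (P.coeff j).natDegree < b) :
    nr2 P = ∑ j ∈ Finset.range a, ∑ i ∈ Finset.range b, |((P.coeff j).coeff i : ℝ)| := by
  unfold nr2
  rw [sum_over_range' P (fun _ => by unfold nr; simp) a ha]
  exact Finset.sum_congr rfl fun j _ => Nb_nr (hb j)

theorem nr2_swap (P : ℤ[X][X]) : nr2 (Bivariate.swap P) = nr2 P := by
  have h1 : (Bivariate.swap P).natDegree < dX P + 1 := by rw [natDegree_swap]; omega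
  have h2 : ∀ j, ((Bivariate.swap P).coeff j).natDegree < P.natDegree + 1 := fun j => by
    have := coeff_le_dX (Bivariate.swap P) j
    rw [dX_swap] at this
    omega
  have h3 : ∀ j, (P.coeff j).natDegree < dX P + 1 := fun j => Nat.lt_succ_of_le (coeff_le_dX P j)
  rw [Nb_nr2 h1 h2, Nb_nr2 (Nat.lt_succ_self _) h3, Finset.sum_comm]
  refine Finset.sum_congr rfl fun j _ => Finset.sum_congr rfl fun i _ => ?_
  rw [Nb_coeff_swap]

theorem Nb_evH_mon {A : Type*} [CommRing A] (x y : A) (n m : ℕ) (r : ℤ) :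
    evH x y (monomial n (monomial m r)) = (r : A) * x ^ m * y ^ n := by
  unfold evH
  rw [coe_eval₂RingHom, eval₂_monomial, coe_eval₂RingHom, eval₂_monomial]
  simp

theorem evH_swap {A : Type*} [CommRing A] (x y : A) (P : ℤ[X][X]) :
    evH y x (Bivariate.swap P) = evH x y P := by
  induction P using Polynomial.induction_on' with
  | add p q hp hq => rw [map_add, map_add, map_add, hp, hq]
  | monomial n a =>
    induction a using Polynomial.induction_on' with
    | add p q hp hq => rw [map_add, map_add, map_add, map_add, hp, hq]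
    | monomial m r =>
      rw [Bivariate.swap_monomial_monomial, Nb_evH_mon, Nb_evH_mon]
      ring

theorem evH_eq {A : Type*} [CommRing A] (x y : A) (P : ℤ[X][X]) :
    evH x y P = ∑ j ∈ Finset.range (P.natDegree + 1), aeval x (P.coeff j) * y ^ j := by
  unfold evH
  rw [coe_eval₂RingHom, eval₂_eq_sum_range]
  refine Finset.sum_congr rfl fun j _ => ?_
  rw [coe_eval₂RingHom, aeval_def, algebraMap_int_eq]

/-- `evH x y P` is the value at `y` of the polynomial `P` with `x` substituted. -/
theorem evH_eval {A : Type*} [CommRing A] (x y : A) (P : ℤ[X][X]) :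
    evH x y P = (P.map (eval₂RingHom (Int.castRingHom A) x)).eval y := by
  unfold evH
  rw [eval_map, coe_eval₂RingHom]

theorem map_evH {A B : Type*} [CommRing A] [CommRing B] (φ : A →+* B) (x y : A) (P : ℤ[X][X]) :
    φ (evH x y P) = evH (φ x) (φ y) P := by
  rw [evH_eq, evH_eq, map_sum]
  refine Finset.sum_congr rfl fun j _ => ?_
  rw [map_mul, map_pow]
  have h := aeval_algHom_apply φ.toIntAlgHom x (P.coeff j)
  have h' : aeval (φ x) (P.coeff j) = φ (aeval x (P.coeff j)) := h
  rw [h']

theorem norm_evH_le (P : ℤ[X][X]) (x y : ℂ) (B : ℝ) (hB : 1 ≤ B) (hx : ‖x‖ ≤ B) (hy : ‖y‖ ≤ B) :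
    ‖evH x y P‖ ≤ nr2 P * B ^ (dX P + P.natDegree) := by
  rw [evH_eq]
  have hB0 : 0 ≤ B := by linarith
  calc ‖∑ j ∈ Finset.range (P.natDegree + 1), aeval x (P.coeff j) * y ^ j‖
      ≤ ∑ j ∈ Finset.range (P.natDegree + 1), ‖aeval x (P.coeff j) * y ^ j‖ := norm_sum_le _ _
    _ ≤ ∑ j ∈ Finset.range (P.natDegree + 1), nr (P.coeff j) * B ^ (dX P + P.natDegree) := by
        refine Finset.sum_le_sum fun j hj => ?_
        have hj' : j ≤ P.natDegree := Nat.lt_succ_iff.1 (Finset.mem_range.1 hj)
        rw [norm_mul, norm_pow]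
        have h1 := norm_aeval_le (P.coeff j) x B hB hx
        have h2 : ‖y‖ ^ j ≤ B ^ j := pow_le_pow_left₀ (norm_nonneg _) hy j
        have h3 := nr_nonneg (P.coeff j)
        calc ‖aeval x (P.coeff j)‖ * ‖y‖ ^ j
            ≤ (nr (P.coeff j) * B ^ (P.coeff j).natDegree) * B ^ j :=
              mul_le_mul h1 h2 (by positivity) (by positivity)
          _ = nr (P.coeff j) * B ^ ((P.coeff j).natDegree + j) := by rw [pow_add]; ring
          _ ≤ nr (P.coeff j) * B ^ (dX P + P.natDegree) :=
              mul_le_mul_of_nonneg_left (pow_le_pow_right₀ hB (Nat.add_le_add (coeff_le_dX P j) hj')) h3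
    _ = (∑ j ∈ Finset.range (P.natDegree + 1), nr (P.coeff j)) * B ^ (dX P + P.natDegree) := by
        rw [Finset.sum_mul]
    _ ≤ nr2 P * B ^ (dX P + P.natDegree) :=
        mul_le_mul_of_nonneg_right (sum_nr_coeff_le_nr2 P _) (by positivity)

open MvPolynomial in
theorem Nb_mv_coeff (a b : ℕ) (c : ℕ → ℕ → ℚ) (j0 i0 : ℕ) (hj : j0 < a) (hi : i0 < b) :
    MvPolynomial.coeff (Finsupp.single (0 : Fin 2) i0 + Finsupp.single (1 : Fin 2) j0)
      (∑ j ∈ Finset.range a, ∑ i ∈ Finset.range b,
        MvPolynomial.monomial (Finsupp.single (0 : Fin 2) i + Finsupp.single (1 : Fin 2) j) (c j i)) =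
      c j0 i0 := by
  have hinj : ∀ i j : ℕ, (Finsupp.single (0 : Fin 2) i + Finsupp.single (1 : Fin 2) j =
      Finsupp.single (0 : Fin 2) i0 + Finsupp.single (1 : Fin 2) j0) → i = i0 ∧ j = j0 := by
    intro i j h
    have h0 := DFunLike.congr_fun h (0 : Fin 2)
    have h1 := DFunLike.congr_fun h (1 : Fin 2)
    simp at h0 h1
    exact ⟨h0, h1⟩
  rw [MvPolynomial.coeff_sum, Finset.sum_eq_single j0, MvPolynomial.coeff_sum, Finset.sum_eq_single i0,
    MvPolynomial.coeff_monomial, if_pos rfl]
  · intro i _ hne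
    rw [MvPolynomial.coeff_monomial, if_neg]
    exact fun h => hne (hinj i j0 h).1
  · intro h
    exact absurd (Finset.mem_range.2 hi) h
  · intro j _ hne
    rw [MvPolynomial.coeff_sum]
    refine Finset.sum_eq_zero fun i _ => ?_
    rw [MvPolynomial.coeff_monomial, if_neg]
    exact fun h => hne (hinj i j h).2
  · intro h
    exact absurd (Finset.mem_range.2 hj) h

theorem Nb_mv_aeval (θ1 θ2 : ℂ) (i j : ℕ) (c : ℚ) :
    MvPolynomial.aeval ![θ1, θ2]
      (MvPolynomial.monomial (Finsupp.single (0 : Fin 2) i + Finsupp.single (1 : Fin 2) j) c) =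
      (c : ℂ) * θ1 ^ i * θ2 ^ j := by
  rw [MvPolynomial.aeval_monomial, Finsupp.prod_add_index' (fun _ => pow_zero _) (fun _ _ _ => pow_add _ _ _)]
  simp [Finsupp.prod_single_index, mul_assoc]

/-- Algebraic independence of `θ1, θ2` in terms of `evH`. -/
theorem evH_ne_zero {θ1 θ2 : ℂ} (hθ : AlgebraicIndependent ℚ ![θ1, θ2]) {P : ℤ[X][X]}
    (hP : P ≠ 0) : evH θ1 θ2 P ≠ 0 := by
  intro h0
  apply hP
  have hb : ∀ j, (P.coeff j).natDegree < dX P + 1 := fun j => Nat.lt_succ_of_le (coeff_le_dX P j)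
  have e1 : MvPolynomial.aeval ![θ1, θ2]
      (∑ j ∈ Finset.range (P.natDegree + 1), ∑ i ∈ Finset.range (dX P + 1),
        MvPolynomial.monomial (Finsupp.single (0 : Fin 2) i + Finsupp.single (1 : Fin 2) j)
          (((P.coeff j).coeff i : ℤ) : ℚ)) = evH θ1 θ2 P := by
    rw [evH_eq, map_sum]
    refine Finset.sum_congr rfl fun j _ => ?_
    rw [map_sum, aeval_eq_sum_range' (hb j), Finset.sum_mul]
    refine Finset.sum_congr rfl fun i _ => ?_
    rw [Nb_mv_aeval]
    simp
  have e2 : (∑ j ∈ Finset.range (P.natDegree + 1), ∑ i ∈ Finset.range (dX P + 1),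
        MvPolynomial.monomial (Finsupp.single (0 : Fin 2) i + Finsupp.single (1 : Fin 2) j)
          (((P.coeff j).coeff i : ℤ) : ℚ)) = 0 := by
    apply hθ
    rw [e1, h0, map_zero]
  ext j i
  rw [coeff_zero, coeff_zero]
  by_cases hj : j < P.natDegree + 1
  · by_cases hi : i < dX P + 1
    · have h := Nb_mv_coeff (P.natDegree + 1) (dX P + 1) (fun j i => (((P.coeff j).coeff i : ℤ) : ℚ)) j i hj hi
      rw [e2, MvPolynomial.coeff_zero] at h
      exact_mod_cast h.symm
    · exact coeff_eq_zero_of_natDegree_lt ((hb j).trans_le (not_lt.1 hi))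
  · rw [coeff_eq_zero_of_natDegree_lt (show P.natDegree < j by omega), coeff_zero]

end CZ
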