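import Pool.Agent.H32.CZ.Nb
import Pool.Agent.H32.CZ.Pa

/-!
# MP_ede373, cubic points, row Pd: a second polynomial, automatically coprime

Notation `a = natDegree A ≥ 1`, `μ = mu2 A ≥ a ≥ 1` (`log nr2 ≥ 0`). `B = max 1 (max ‖θ1‖ ‖θ2‖)`.
`C2 = 64 / c0`, `x = √(C2 U / (a^2 μ))`: `x^2 ≥ C2 c0 μ^3 / (a^2 μ) = 64 (μ/a)^2 ≥ 64`, `x ≥ 8`.
`C3 ≥ 4 + 3 log B` with `C2 C3 ≥ 4`. `m = ⌈x a⌉₊` (`x a ≤ m ≤ 2 x a`), `h = C3 x μ`, `H = ⌈exp h⌉₊`
(`exp h ≤ H ≤ 2 exp h`). `pigeon` with `(m, a, H)`: `Q ≠ 0`, `natDegree Q < a`, `dX Q ≤ m`, and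
`log ‖Q(θ)‖ ≤ log 8 + log m + log a + (m + a) log B + (1 - m a / 2) log H`. Since `m a ≥ 8`,
`1 - m a/2 ≤ -(m a / 4 + 1)`, and `log H ≥ h`; `log 8 + log m + log a + (m + a) log B ≤ 4 x a + 3 x a log B
≤ C3 x a ≤ h` (use `log m ≤ m - 1` etc., `x a ≥ 8`). So `log ‖Q(θ)‖ ≤ -(m a/4) h ≤ -(x a^2/4) C3 x μ =
-(C2 C3/4) U ≤ -U` (note `U ≥ c0 μ^3 > 0`).
`dX Q ≤ 2 x a = 2 √C2 √(U/μ)`; `log (nr2 Q) ≤ log (m a H) ≤ 3 x a + 1 + h ≤ 2 h = 2 C3 x μ =
2 C3 √C2 √(U μ) / a` (`nr2_le_of_coeff`).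
-/

set_option autoImplicit false

namespace CZ

open Polynomial

/-- the size of the pigeonhole polynomial -/
private theorem Pd_size {x a m ℓ C3 h L μ U C2 : ℝ} (hx : 8 ≤ x) (ha : 1 ≤ a) (hm1 : x * a ≤ m) (hm2 : m ≤ x * a + 1)
    (hℓ : 0 ≤ ℓ) (hC3 : 4 + 3 * ℓ ≤ C3) (hh : h = C3 * x * μ) (hL : h ≤ L) (hμ : a ≤ μ)
    (hC : 4 ≤ C2 * C3) (hU : 0 ≤ U) (hx2 : x ^ 2 * a ^ 2 * μ = C2 * U) :
    3 + (m - 1) + (a - 1) + (m + a) * ℓ + (1 - m * a / 2) * L ≤ -U := by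
  have hxa : 8 * a ≤ x * a := mul_le_mul_of_nonneg_right hx (by linarith)
  have hxa8 : 8 ≤ x * a := by linarith
  have hm8 : 8 ≤ m := by linarith
  have hM : 8 ≤ m * a := by nlinarith
  have hC3p : 0 < C3 := by linarith
  have hh0 : 0 ≤ h := by
    rw [hh]
    have : 0 ≤ μ := by linarith
    positivity
  have h1 : (1 - m * a / 2) * L ≤ -((m * a / 4 + 1) * h) := by
    have h2 : (m * a / 4 + 1) * h ≤ (m * a / 2 - 1) * L := by
      have h3 : (m * a / 4 + 1) * h ≤ (m * a / 2 - 1) * h := mul_le_mul_of_nonneg_right (by linarith) hh0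
      have h4 : (m * a / 2 - 1) * h ≤ (m * a / 2 - 1) * L := mul_le_mul_of_nonneg_left hL (by linarith)
      exact h3.trans h4
    linarith
  have h5 : 3 + (m - 1) + (a - 1) + (m + a) * ℓ ≤ (4 + 3 * ℓ) * (x * a) := by
    have h6 : m + a ≤ 3 * (x * a) := by linarith
    have h7 : (m + a) * ℓ ≤ 3 * (x * a) * ℓ := mul_le_mul_of_nonneg_right h6 hℓ
    nlinarith
  have h8 : (4 + 3 * ℓ) * (x * a) ≤ h := by
    rw [hh]
    calc (4 + 3 * ℓ) * (x * a) ≤ C3 * (x * a) := mul_le_mul_of_nonneg_right hC3 (by linarith)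
      _ ≤ C3 * (x * μ) := mul_le_mul_of_nonneg_left (mul_le_mul_of_nonneg_left hμ (by linarith)) hC3p.le
      _ = C3 * x * μ := by ring
  have h9 : U ≤ m * a / 4 * h := by
    have h10 : x * a * a / 4 * h ≤ m * a / 4 * h := by
      have : x * a * a ≤ m * a := mul_le_mul_of_nonneg_right hm1 (by linarith)
      exact mul_le_mul_of_nonneg_right (by linarith) hh0
    have h11 : x * a * a / 4 * h = C3 / 4 * (C2 * U) := by
      rw [hh, ← hx2]
      ring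
    have h12 : U ≤ C3 / 4 * (C2 * U) := by nlinarith
    linarith
  nlinarith

theorem second (θ1 θ2 : ℂ) (c0 : ℝ) (hc : 0 < c0) :
    ∃ C : ℝ, 1 ≤ C ∧ ∀ (A : ℤ[X][X]) (U : ℝ), 0 < A.natDegree → c0 * mu2 A ^ 3 ≤ U →
      ∃ Q : ℤ[X][X], Q ≠ 0 ∧ Q.natDegree < A.natDegree ∧
        (dX Q : ℝ) ≤ C * √(U / mu2 A) ∧
        Real.log (nr2 Q) ≤ C * √(U * mu2 A) / A.natDegree ∧
        ‖evH θ1 θ2 Q‖ ≤ Real.exp (-U) := by
  set B : ℝ := max 1 (max ‖θ1‖ ‖θ2‖) with hB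
  have hB1 : 1 ≤ B := le_max_left _ _
  have hθ1 : ‖θ1‖ ≤ B := (le_max_left _ _).trans (le_max_right _ _)
  have hθ2 : ‖θ2‖ ≤ B := (le_max_right _ _).trans (le_max_right _ _)
  have hB0 : 0 < B := by linarith
  set ℓ : ℝ := Real.log B with hℓ
  have hℓ0 : 0 ≤ ℓ := Real.log_nonneg hB1
  set C2 : ℝ := 64 / c0 with hC2
  have hC2p : 0 < C2 := by positivity
  set C3 : ℝ := 4 + 3 * ℓ + 4 / C2 with hC3
  have hC3a : 4 + 3 * ℓ ≤ C3 := by
    have : 0 < 4 / C2 := by positivity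
    linarith
  have hC3p : 0 < C3 := by linarith
  have hC23 : 4 ≤ C2 * C3 := by
    have h1 : C2 * (4 / C2) = 4 := by field_simp
    have h2 : C2 * C3 = C2 * (4 + 3 * ℓ) + C2 * (4 / C2) := by rw [hC3]; ring
    rw [h2, h1]
    have : 0 ≤ C2 * (4 + 3 * ℓ) := by positivity
    linarith
  refine ⟨1 + 2 * √C2 + 2 * C3 * √C2, ?_, ?_⟩
  · have : 0 ≤ √C2 := Real.sqrt_nonneg _
    have : 0 ≤ 2 * C3 * √C2 := by positivity
    linarith
  intro A U ha hU
  have hA0 : A ≠ 0 := by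
    rintro rfl
    simp at ha
  set a := A.natDegree with had
  have haR : (1 : ℝ) ≤ a := by exact_mod_cast ha
  set μ := mu2 A with hμd
  have hμ : (a : ℝ) ≤ μ := by
    rw [hμd, mu2, ← had]
    have h1 : 0 ≤ Real.log (nr2 A) := Real.log_nonneg (one_le_nr2 hA0)
    have h2 : (0 : ℝ) ≤ dX A := Nat.cast_nonneg _
    linarith
  have hμ1 : 1 ≤ μ := haR.trans hμ
  have hμ0 : 0 < μ := by linarith
  have hU0 : 0 < U := lt_of_lt_of_le (by positivity) hU
  set x : ℝ := √(C2 * U / (a ^ 2 * μ)) with hx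
  have hq : 0 < C2 * U / (a ^ 2 * μ) := by positivity
  have hx0 : 0 < x := Real.sqrt_pos.2 hq
  have hxx : x ^ 2 = C2 * U / (a ^ 2 * μ) := Real.sq_sqrt hq.le
  have hx2 : x ^ 2 * a ^ 2 * μ = C2 * U := by
    rw [hxx]
    field_simp
  have hx8 : 8 ≤ x := by
    have h1 : (64 : ℝ) ≤ x ^ 2 := by
      rw [hxx, le_div_iff₀ (by positivity)]
      have h2 : (a : ℝ) ^ 2 ≤ μ ^ 2 := pow_le_pow_left₀ (by linarith) hμ 2
      have h3 : 64 * ((a : ℝ) ^ 2 * μ) ≤ 64 * (μ ^ 2 * μ) :=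
        mul_le_mul_of_nonneg_left (mul_le_mul_of_nonneg_right h2 hμ0.le) (by norm_num)
      have h4 : 64 * (μ ^ 2 * μ) = C2 * (c0 * μ ^ 3) := by
        rw [hC2]
        field_simp
      have h5 : C2 * (c0 * μ ^ 3) ≤ C2 * U := mul_le_mul_of_nonneg_left hU hC2p.le
      linarith
    nlinarith
  set m : ℕ := ⌈x * a⌉₊ with hm
  have hxa0 : 0 ≤ x * a := by positivity
  have hm1 : x * a ≤ m := Nat.le_ceil _
  have hm2 : (m : ℝ) ≤ x * a + 1 := (Nat.ceil_lt_add_one hxa0).le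
  have hxa8 : 8 ≤ x * a := by nlinarith
  have hm8 : (8 : ℝ) ≤ m := by linarith
  have hm0 : 0 < m := by
    have : (0 : ℝ) < m := by linarith
    exact_mod_cast this
  set h : ℝ := C3 * x * μ with hh
  have hh0 : 0 ≤ h := by positivity
  set H : ℕ := ⌈Real.exp h⌉₊ with hH
  have hH1 : Real.exp h ≤ H := Nat.le_ceil _
  have hH2 : (H : ℝ) ≤ Real.exp h + 1 := (Nat.ceil_lt_add_one (Real.exp_pos _).le).le
  have he1 : 1 ≤ Real.exp h := Real.one_le_exp hh0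
  have hHpos : (0 : ℝ) < H := by linarith
  have hH0 : 0 < H := by exact_mod_cast hHpos
  obtain ⟨Q, hQ0, hQa, hQm, hQH, hQv⟩ := pigeon θ1 θ2 B hB1 hθ1 hθ2 m a H hm0 ha hH0
  have hmR : (0 : ℝ) < m := by linarith
  have haR0 : (0 : ℝ) < a := by linarith
  have hLh : h ≤ Real.log H := by
    rw [Real.le_log_iff_exp_le hHpos]
    exact hH1
  have hLh2 : Real.log H ≤ h + 1 := by
    rw [Real.log_le_iff_le_exp hHpos, Real.exp_add]
    have h2 : (2 : ℝ) ≤ Real.exp 1 := by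
      have := Real.exp_one_gt_d9
      linarith
    nlinarith
  have hlm : Real.log m ≤ m - 1 := Real.log_le_sub_one_of_pos hmR
  have hla : Real.log a ≤ a - 1 := Real.log_le_sub_one_of_pos haR0
  have hxa : 8 * (a : ℝ) ≤ x * a := mul_le_mul_of_nonneg_right hx8 (by linarith)
  have hs : √C2 * √C2 = C2 := Real.mul_self_sqrt hC2p.le
  have hsp : 0 < √C2 := Real.sqrt_pos.2 hC2p
  refine ⟨Q, hQ0, hQa, ?_, ?_, ?_⟩
  · have h1 : dX Q ≤ m := dX_le_iff.2 fun j => (hQm j).le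
    have h2 : (dX Q : ℝ) ≤ m := by exact_mod_cast h1
    have h3 : x * a = √C2 * √(U / μ) := by
      rw [← Real.sqrt_mul hC2p.le, ← Real.sqrt_sq hxa0]
      congr 1
      rw [mul_pow, hxx]
      field_simp
    have h4 : 0 ≤ √(U / μ) := Real.sqrt_nonneg _
    calc (dX Q : ℝ) ≤ 2 * (x * a) := by linarith
      _ = 2 * √C2 * √(U / μ) := by rw [h3]; ring
      _ ≤ (1 + 2 * √C2 + 2 * C3 * √C2) * √(U / μ) := by
        refine mul_le_mul_of_nonneg_right ?_ h4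
        have : 0 ≤ 2 * C3 * √C2 := by positivity
        linarith
  · have h1 : nr2 Q ≤ m * a * H := nr2_le_of_coeff hQa hQm hQH
    have h2 : 0 < nr2 Q := by linarith [one_le_nr2 hQ0]
    have h3 : Real.log (nr2 Q) ≤ Real.log m + Real.log a + Real.log H := by
      rw [← Real.log_mul hmR.ne' haR0.ne', ← Real.log_mul (by positivity) hHpos.ne']
      exact Real.log_le_log h2 h1
    have h4 : Real.log (nr2 Q) ≤ 3 * (x * a) + h := by linarith
    have h5 : 3 * (x * a) ≤ h := by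
      rw [hh]
      have h6 : 3 * (x * a) ≤ C3 * (x * a) := mul_le_mul_of_nonneg_right (by linarith) hxa0
      have h7 : C3 * (x * a) ≤ C3 * (x * μ) :=
        mul_le_mul_of_nonneg_left (mul_le_mul_of_nonneg_left hμ hx0.le) hC3p.le
      calc 3 * (x * a) ≤ C3 * (x * μ) := h6.trans h7
        _ = C3 * x * μ := by ring
    have h8 : x * μ = √C2 * √(U * μ) / a := by
      rw [eq_div_iff haR0.ne', ← Real.sqrt_mul hC2p.le]
      have h9 : 0 ≤ x * μ * a := by positivity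
      rw [← Real.sqrt_sq h9]
      congr 1
      calc (x * μ * a) ^ 2 = (x ^ 2 * a ^ 2 * μ) * μ := by ring
        _ = C2 * (U * μ) := by rw [hx2]; ring
    calc Real.log (nr2 Q) ≤ 2 * h := by linarith
      _ = 2 * C3 * (x * μ) := by rw [hh]; ring
      _ = 2 * C3 * √C2 * √(U * μ) / a := by rw [h8]; ring
      _ ≤ (1 + 2 * √C2 + 2 * C3 * √C2) * √(U * μ) / a := by
        refine div_le_div_of_nonneg_right (mul_le_mul_of_nonneg_right ?_ (Real.sqrt_nonneg _)) haR0.le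
        linarith
  · refine hQv.trans ?_
    have e1 : (8 : ℝ) * (m * a * H) * B ^ (m + a) * (H : ℝ) ^ (-((m * a : ℕ) : ℝ) / 2) =
        Real.exp (Real.log 8 + (Real.log m + Real.log a + Real.log H) + ((m : ℝ) + a) * ℓ +
          (-((m : ℝ) * a) / 2) * Real.log H) := by
      rw [Real.exp_add, Real.exp_add, Real.exp_add, Real.exp_add, Real.exp_add, Real.exp_log (by norm_num),
        Real.exp_log hmR, Real.exp_log haR0, Real.exp_log hHpos, Real.rpow_def_of_pos hHpos]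
      have e2 : Real.exp (((m : ℝ) + a) * ℓ) = B ^ (m + a) := by
        have e3 : ((m : ℝ) + a) * ℓ = ((m + a : ℕ) : ℝ) * Real.log B := by
          rw [hℓ]
          push_cast
          ring
        rw [e3, Real.exp_nat_mul, Real.exp_log hB0]
      rw [e2]
      congr 2
      push_cast
      ring
    rw [e1]
    apply Real.exp_le_exp.2
    have h8 : Real.log 8 ≤ 3 := by
      have h9 : Real.log 8 = 3 * Real.log 2 := by
        rw [show (8 : ℝ) = 2 ^ 3 by norm_num, Real.log_pow]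
        norm_num
      rw [h9]
      have := Real.log_two_lt_d9
      linarith
    have key := Pd_size (L := Real.log H) hx8 haR hm1 hm2 hℓ0 hC3a hh hLh hμ hC23 hU0.le hx2
    have e4 : Real.log 8 + (Real.log m + Real.log a + Real.log H) + ((m : ℝ) + a) * ℓ +
          (-((m : ℝ) * a) / 2) * Real.log H =
        Real.log 8 + Real.log m + Real.log a + ((m : ℝ) + a) * ℓ + (1 - (m : ℝ) * a / 2) * Real.log H := by
      ring
    rw [e4]
    linarith

end CZ
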