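import Pool.Agent.H32.CZ.Nb

/-!
# MP_ede373, cubic points, row Pe: the shear

`shr k` is the ring endomorphism of `ℤ[X][X]` with inner variable `X ↦ X - k Y`, `Y ↦ Y`, i.e.
`C X ↦ C X - C (C k) * X`, `X ↦ X`.

* `evH_shr`: both sides are ring homomorphisms in `P`; compare on constants, on `C X` and on `X`
  (`Polynomial.ringHom_ext`).
* `shr_shr`: same, `shr (-k) ∘ shr k = id`.
* Degrees and norm: for a monomial `a X^i Y^j` the image is `a (X - kY)^i Y^j = ∑_l a binom(i,l) (-k)^l X^(i-l) Y^(j+l)`: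
  `Y`-degree `≤ i + j ≤ dT P`, `X`-degree `≤ i ≤ dX P`, `nr2 ≤ |a| (1+|k|)^i ≤ |a| (1 + |k|)^(dX P)`. Sum over the
  monomials (`P = ∑_j ∑_i C (C a_{ji}) * (C X)^i * X^j`).
* `shr_lead`: `d = dT A`. The coefficient of `Y^d` in the image of `a X^i Y^j` is `0` if `i + j < d` and the
  constant `a (-k)^i` if `i + j = d`. So the coefficient of `Y^d` of `shr k A` is the constant `t(-k)`,
  `t = ∑_{i ≤ d} (A.coeff (d - i)).coeff i Z^i ∈ ℤ[Z]`; `t ≠ 0` (by the definition of the sup there are `j` and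
  `i = natDegree (A.coeff j)` with `i + j = d`, whose coefficient is a leading coefficient), of degree
  `≤ d`, so it has at most `d` roots. Outside them `natDegree (shr k A) = d` (it is `≤ d`).
-/

set_option autoImplicit false

namespace CZ

open Polynomial

/-- The image of the inner variable. -/
noncomputable def Pe_p (k : ℤ) : ℤ[X][X] := C X - C (C k) * X

/-- The shear on constants. -/
noncomputable def Pe_s (k : ℤ) : ℤ[X] →+* ℤ[X][X] :=
  eval₂RingHom (Int.castRingHom ℤ[X][X]) (Pe_p k)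

theorem Pe_cast (a : ℤ) : Int.castRingHom ℤ[X][X] a = C (C a) :=
  RingHom.congr_fun (RingHom.ext_int (Int.castRingHom ℤ[X][X]) ((C : ℤ[X] →+* ℤ[X][X]).comp C)) a

theorem Pe_shr_C (k : ℤ) (f : ℤ[X]) : shr k (C f) = Pe_s k f := by
  change eval₂ _ _ (C f) = _
  rw [eval₂_C]
  rfl

theorem Pe_shr_X (k : ℤ) : shr k X = X := by
  change eval₂ _ _ X = _
  rw [eval₂_X]

theorem Pe_shr_CX (k : ℤ) : shr k (C X) = C X - C (C k) * X := by
  rw [Pe_shr_C]
  change eval₂ _ _ X = _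
  rw [eval₂_X]
  rfl

theorem Pe_shr_CC (k a : ℤ) : shr k (C (C a)) = C (C a) := by
  rw [Pe_shr_C]
  change eval₂ _ _ (C a) = _
  rw [eval₂_C, Pe_cast]

theorem Pe_evH_X {A : Type*} [CommRing A] (x y : A) : evH x y X = y := by
  change eval₂ _ _ X = _
  rw [eval₂_X]

theorem Pe_evH_CX {A : Type*} [CommRing A] (x y : A) : evH x y (C X) = x := by
  change eval₂ _ _ (C X) = _
  rw [eval₂_C]
  change eval₂ _ _ X = _
  rw [eval₂_X]

theorem Pe_evH_CC {A : Type*} [CommRing A] (x y : A) (a : ℤ) : evH x y (C (C a)) = (a : A) := by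
  change eval₂ _ _ (C (C a)) = _
  rw [eval₂_C]
  change eval₂ _ _ (C a) = _
  rw [eval₂_C]
  rfl

theorem Pe_ext {A : Type*} [CommRing A] (f g : ℤ[X][X] →+* A) (h1 : f X = g X)
    (h2 : f (C X) = g (C X)) : f = g := by
  refine Polynomial.ringHom_ext' ?_ h1
  refine Polynomial.ringHom_ext' ?_ h2
  exact RingHom.ext_int _ _

theorem evH_shr {A : Type*} [CommRing A] (k : ℤ) (x y : A) (P : ℤ[X][X]) :
    evH (x + k * y) y (shr k P) = evH x y P := by
  have h : (evH (x + k * y) y).comp (shr k) = evH x y := by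
    refine Pe_ext _ _ ?_ ?_
    · rw [RingHom.comp_apply, Pe_shr_X, Pe_evH_X, Pe_evH_X]
    · rw [RingHom.comp_apply, Pe_shr_CX, map_sub, map_mul, Pe_evH_CX, Pe_evH_CC, Pe_evH_X,
        Pe_evH_CX]
      ring
  exact RingHom.congr_fun h P

theorem shr_shr (k : ℤ) (P : ℤ[X][X]) : shr (-k) (shr k P) = P := by
  have h : (shr (-k)).comp (shr k) = RingHom.id _ := by
    refine Pe_ext _ _ ?_ ?_
    · rw [RingHom.comp_apply, Pe_shr_X, Pe_shr_X]
      rfl
    · rw [RingHom.comp_apply, Pe_shr_CX, map_sub, map_mul, Pe_shr_CX, Pe_shr_CC, Pe_shr_X]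
      rw [C_neg, C_neg]
      change _ = C X
      ring
  exact RingHom.congr_fun h P

/-- The shear as an automorphism. -/
noncomputable def shrE (k : ℤ) : ℤ[X][X] ≃+* ℤ[X][X] :=
  RingEquiv.ofRingHom (shr k) (shr (-k))
    (RingHom.ext fun P ↦ by simpa using shr_shr (-k) P) (RingHom.ext fun P ↦ shr_shr k P)

theorem Pe_s_sum (k : ℤ) (f : ℤ[X]) :
    Pe_s k f = ∑ i ∈ f.support, C (C (f.coeff i)) * Pe_p k ^ i := by
  change eval₂ _ _ f = _
  rw [eval₂_eq_sum, Polynomial.sum]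
  refine Finset.sum_congr rfl fun i _ => ?_
  rw [Pe_cast]

theorem Pe_shr_sum (k : ℤ) (P : ℤ[X][X]) :
    shr k P = ∑ j ∈ P.support, Pe_s k (P.coeff j) * X ^ j := by
  change eval₂ _ _ P = _
  rw [eval₂_eq_sum, Polynomial.sum]
  rfl

theorem Pe_p_natDegree (k : ℤ) : (Pe_p k).natDegree ≤ 1 := by
  unfold Pe_p
  refine (natDegree_sub_le _ _).trans ?_
  rw [natDegree_C]
  refine max_le (Nat.zero_le _) ?_
  exact (natDegree_C_mul_le _ _).trans natDegree_X_le

theorem Pe_pow_natDegree (k : ℤ) (i : ℕ) : (Pe_p k ^ i).natDegree ≤ i := by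
  refine natDegree_pow_le.trans ?_
  calc i * (Pe_p k).natDegree ≤ i * 1 := Nat.mul_le_mul_left _ (Pe_p_natDegree k)
    _ = i := mul_one _

theorem Pe_s_natDegree (k : ℤ) (f : ℤ[X]) : (Pe_s k f).natDegree ≤ f.natDegree := by
  rw [Pe_s_sum]
  refine natDegree_sum_le_of_forall_le _ _ fun i hi => ?_
  refine (natDegree_C_mul_le _ _).trans ?_
  exact (Pe_pow_natDegree k i).trans (le_natDegree_of_mem_supp i hi)

theorem natDegree_shr_le (k : ℤ) (P : ℤ[X][X]) : (shr k P).natDegree ≤ dT P := by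
  rw [Pe_shr_sum]
  refine natDegree_sum_le_of_forall_le _ _ fun j hj => ?_
  refine natDegree_mul_le.trans ?_
  rw [natDegree_X_pow]
  refine (Nat.add_le_add_right (Pe_s_natDegree k (P.coeff j)) j).trans ?_
  rw [add_comm]
  exact Finset.le_sup (f := fun j => j + (P.coeff j).natDegree) hj

theorem Pe_dX_mul_le (P Q : ℤ[X][X]) : dX (P * Q) ≤ dX P + dX Q := by
  rcases eq_or_ne P 0 with h | h
  · rw [h, zero_mul]
    have : dX (0 : ℤ[X][X]) = 0 := by simp [dX]
    rw [this]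
    exact Nat.zero_le _
  · rcases eq_or_ne Q 0 with h' | h'
    · rw [h', mul_zero]
      have : dX (0 : ℤ[X][X]) = 0 := by simp [dX]
      rw [this]
      exact Nat.zero_le _
    · exact (dX_mul h h').le

theorem Pe_dX_sum_le {ι : Type*} (s : Finset ι) (P : ι → ℤ[X][X]) (m : ℕ)
    (h : ∀ i ∈ s, dX (P i) ≤ m) : dX (∑ i ∈ s, P i) ≤ m := by
  rw [dX_le_iff]
  intro j
  rw [finsetSum_coeff]
  exact natDegree_sum_le_of_forall_le _ _ fun i hi => (coeff_le_dX _ _).trans (h i hi)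

theorem Pe_dX_C (f : ℤ[X]) : dX (C f) ≤ f.natDegree := by
  rw [dX_le_iff]
  intro j
  rw [coeff_C]
  split_ifs
  · exact le_rfl
  · rw [natDegree_zero]
    exact Nat.zero_le _

theorem Pe_dX_X_pow (j : ℕ) : dX (X ^ j : ℤ[X][X]) = 0 := by
  rw [← Nat.le_zero, dX_le_iff]
  intro i
  rw [coeff_X_pow]
  split_ifs
  · simp
  · simp

theorem Pe_dX_p (k : ℤ) : dX (Pe_p k) ≤ 1 := by
  rw [dX_le_iff]
  intro j
  unfold Pe_p
  rw [coeff_sub, coeff_C, coeff_C_mul, coeff_X]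
  refine (natDegree_sub_le _ _).trans ?_
  refine max_le ?_ ?_
  · split_ifs
    · exact natDegree_X_le
    · simp
  · split_ifs
    · simp
    · simp

theorem Pe_dX_pow (k : ℤ) (i : ℕ) : dX (Pe_p k ^ i) ≤ i := by
  induction i with
  | zero =>
    rw [pow_zero, ← C_1]
    exact (Pe_dX_C 1).trans (by simp)
  | succ n ih =>
    rw [pow_succ]
    exact (Pe_dX_mul_le _ _).trans (Nat.add_le_add ih (Pe_dX_p k))

theorem Pe_dX_s (k : ℤ) (f : ℤ[X]) : dX (Pe_s k f) ≤ f.natDegree := by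
  rw [Pe_s_sum]
  refine Pe_dX_sum_le _ _ _ fun i hi => ?_
  refine (Pe_dX_mul_le _ _).trans ?_
  have h1 := Pe_dX_C (C (f.coeff i))
  rw [natDegree_C] at h1
  have h2 := Pe_dX_pow k i
  have h3 := le_natDegree_of_mem_supp i hi
  omega

theorem dX_shr_le (k : ℤ) (P : ℤ[X][X]) : dX (shr k P) ≤ dX P := by
  rw [Pe_shr_sum]
  refine Pe_dX_sum_le _ _ _ fun j _ => ?_
  refine (Pe_dX_mul_le _ _).trans ?_
  rw [Pe_dX_X_pow, add_zero]
  exact (Pe_dX_s k _).trans (coeff_le_dX P j)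

theorem Pe_nr_C (a : ℤ) : nr (C a) = |(a : ℝ)| := by
  unfold nr
  rw [sum_C_index (by simp)]

theorem Pe_nr2_C (f : ℤ[X]) : nr2 (C f) = nr f := by
  unfold nr2
  rw [sum_C_index]
  unfold nr
  rw [sum_zero_index]

theorem Pe_nr_X : nr X = 1 := by
  unfold nr
  rw [sum_X_index (by simp)]
  simp

theorem Pe_nr_one : nr (1 : ℤ[X]) = 1 := by
  rw [← C_1, Pe_nr_C]
  simp

theorem Pe_nr_zero : nr (0 : ℤ[X]) = 0 := by
  unfold nr
  rw [sum_zero_index]

theorem Pe_nr2_X : nr2 X = 1 := by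
  unfold nr2
  rw [sum_X_index Pe_nr_zero, Pe_nr_one]

theorem Pe_nr2_one : nr2 (1 : ℤ[X][X]) = 1 := by
  rw [← C_1, Pe_nr2_C, Pe_nr_one]

theorem Pe_nr2_pow (P : ℤ[X][X]) (i : ℕ) : nr2 (P ^ i) ≤ nr2 P ^ i := by
  induction i with
  | zero => rw [pow_zero, pow_zero, Pe_nr2_one]
  | succ n ih =>
    rw [pow_succ, pow_succ]
    exact (nr2_mul_le _ _).trans (mul_le_mul_of_nonneg_right ih (nr2_nonneg _))

theorem Pe_nr2_p (k : ℤ) : nr2 (Pe_p k) ≤ 1 + |(k : ℝ)| := by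
  unfold Pe_p
  rw [sub_eq_add_neg]
  refine (nr2_add_le _ _).trans ?_
  rw [Pe_nr2_C, Pe_nr_X, nr2_neg]
  refine add_le_add_right ?_ _
  refine (nr2_mul_le _ _).trans ?_
  rw [Pe_nr2_C, Pe_nr_C, Pe_nr2_X, mul_one]

theorem Pe_nr2_s (k : ℤ) (f : ℤ[X]) : nr2 (Pe_s k f) ≤ (1 + |(k : ℝ)|) ^ f.natDegree * nr f := by
  have hk : (1 : ℝ) ≤ 1 + |(k : ℝ)| := by linarith [abs_nonneg (k : ℝ)]
  rw [Pe_s_sum]
  refine (nr2_sum_le _ _).trans ?_
  unfold nr
  rw [Polynomial.sum, Finset.mul_sum]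
  refine Finset.sum_le_sum fun i hi => ?_
  refine (nr2_mul_le _ _).trans ?_
  rw [Pe_nr2_C, Pe_nr_C, mul_comm]
  refine mul_le_mul_of_nonneg_right ?_ (abs_nonneg _)
  refine (Pe_nr2_pow _ _).trans ?_
  refine (pow_le_pow_left₀ (nr2_nonneg _) (Pe_nr2_p k) i).trans ?_
  exact pow_le_pow_right₀ hk (le_natDegree_of_mem_supp i hi)

theorem nr2_shr_le (k : ℤ) (P : ℤ[X][X]) : nr2 (shr k P) ≤ (1 + |(k : ℝ)|) ^ dX P * nr2 P := by
  have hk : (1 : ℝ) ≤ 1 + |(k : ℝ)| := by linarith [abs_nonneg (k : ℝ)]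
  have h0 : nr2 P = ∑ j ∈ P.support, nr (P.coeff j) := rfl
  rw [Pe_shr_sum, h0, Finset.mul_sum]
  refine (nr2_sum_le _ _).trans (Finset.sum_le_sum fun j _ => ?_)
  refine (nr2_mul_le _ _).trans ?_
  have h1 : nr2 (X ^ j : ℤ[X][X]) ≤ 1 := by
    refine (Pe_nr2_pow _ _).trans ?_
    rw [Pe_nr2_X, one_pow]
  refine (mul_le_mul_of_nonneg_left h1 (nr2_nonneg _)).trans ?_
  rw [mul_one]
  refine (Pe_nr2_s k _).trans ?_
  exact mul_le_mul_of_nonneg_right (pow_le_pow_right₀ hk (coeff_le_dX P j)) (nr_nonneg _)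

theorem Pe_pow_coeff (k : ℤ) (m : ℕ) : (Pe_p k ^ m).coeff m = C ((-k) ^ m) := by
  have h := coeff_pow_of_natDegree_le (m := m) (Pe_p_natDegree k)
  rw [mul_one] at h
  rw [h]
  have h1 : (Pe_p k).coeff 1 = C (-k) := by
    unfold Pe_p
    rw [coeff_sub, coeff_C, if_neg one_ne_zero, coeff_C_mul, coeff_X_one, mul_one, zero_sub, C_neg]
  rw [h1, C_pow]

theorem Pe_s_coeff (k : ℤ) (f : ℤ[X]) (m : ℕ) (hm : f.natDegree ≤ m) :
    (Pe_s k f).coeff m = C (f.coeff m * (-k) ^ m) := by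
  rw [Pe_s_sum, finsetSum_coeff]
  have h1 : ∀ i ∈ f.support, i ≠ m → (C (C (f.coeff i)) * Pe_p k ^ i).coeff m = 0 := by
    intro i hi hne
    have h2 : i ≤ m := (le_natDegree_of_mem_supp i hi).trans hm
    refine coeff_eq_zero_of_natDegree_lt ?_
    refine (natDegree_C_mul_le _ _).trans_lt ?_
    exact (Pe_pow_natDegree k i).trans_lt (lt_of_le_of_ne h2 hne)
  rw [Finset.sum_eq_single m h1 ?_]
  · rw [coeff_C_mul, Pe_pow_coeff, C_mul]
  · intro hm'
    rw [notMem_support_iff.1 hm', C_0, C_0, zero_mul, coeff_zero]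

theorem shr_lead (A : ℤ[X][X]) (hA : A ≠ 0) :
    ∃ Bad : Finset ℤ, Bad.card ≤ dT A ∧ ∀ k ∉ Bad, (shr k A).natDegree = dT A ∧
      ∃ c : ℤ, c ≠ 0 ∧ (shr k A).leadingCoeff = C c := by
  classical
  set d := dT A with hd
  let t : ℤ[X] := ∑ j ∈ A.support, C ((A.coeff j).coeff (d - j)) * X ^ (d - j)
  have hle : ∀ j ∈ A.support, j + (A.coeff j).natDegree ≤ d := fun j hj =>
    Finset.le_sup (f := fun j => j + (A.coeff j).natDegree) hj
  have htd : t.natDegree ≤ d := by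
    refine natDegree_sum_le_of_forall_le _ _ fun j _ => ?_
    refine (natDegree_C_mul_X_pow_le _ _).trans (Nat.sub_le _ _)
  have hcoef : ∀ k : ℤ, (shr k A).coeff d = C (t.eval (-k)) := by
    intro k
    rw [Pe_shr_sum, finsetSum_coeff, eval_finsetSum, map_sum]
    refine Finset.sum_congr rfl fun j hj => ?_
    have h1 := hle j hj
    rw [coeff_mul_X_pow', if_pos (by omega), Pe_s_coeff k _ _ (by omega), eval_mul, eval_C,
      eval_pow, eval_X]
  have ht : t ≠ 0 := by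
    have hne : A.support.Nonempty := support_nonempty.2 hA
    obtain ⟨j, hj, hjd⟩ := Finset.exists_mem_eq_sup A.support hne
      (fun j => j + (A.coeff j).natDegree)
    have hjd' : j + (A.coeff j).natDegree = d := hjd.symm
    intro h0
    have h1 : t.coeff (d - j) = (A.coeff j).coeff (d - j) := by
      rw [finsetSum_coeff, Finset.sum_eq_single j]
      · rw [coeff_C_mul_X_pow, if_pos rfl]
      · intro i hi hne'
        rw [coeff_C_mul_X_pow, if_neg]
        have h2 := hle i hi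
        have h3 := hle j hj
        omega
      · intro h
        exact absurd hj h
    rw [h0, coeff_zero] at h1
    have h2 : d - j = (A.coeff j).natDegree := by omega
    rw [h2] at h1
    have h3 : A.coeff j ≠ 0 := mem_support_iff.1 hj
    exact h3 (leadingCoeff_eq_zero.1 h1.symm)
  refine ⟨t.roots.toFinset.image (fun z => -z), ?_, ?_⟩
  · refine Finset.card_image_le.trans ?_
    refine (Multiset.toFinset_card_le _).trans ?_
    exact (card_roots' t).trans htd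
  · intro k hk
    have h1 : t.eval (-k) ≠ 0 := by
      intro h
      apply hk
      rw [Finset.mem_image]
      refine ⟨-k, ?_, neg_neg k⟩
      rw [Multiset.mem_toFinset, mem_roots ht]
      exact h
    have h2 : (shr k A).coeff d ≠ 0 := by
      rw [hcoef, Ne, C_eq_zero]
      exact h1
    have h3 : (shr k A).natDegree = d :=
      le_antisymm (natDegree_shr_le k A) (le_natDegree_of_ne_zero h2)
    refine ⟨h3, t.eval (-k), h1, ?_⟩
    rw [leadingCoeff, h3, hcoef]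

end CZ
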