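import Pool.Agent.H32.CZ.Nb

/-!
# MP_ede373, cubic points, row Pf: degree and norm of a resultant

`natDegree_det_le`, `nr_det_le`: `Matrix.det_apply`: `det M = ∑_σ sign σ ∏_j M (σ j) j`; each product has degree
`≤ ∑_j b j` (`natDegree_prod_le`, `natDegree_sum_le_of_forall_le`), and
`nr (det M) ≤ ∑_σ ∏_j nr (M (σ j) j) ≤ ∏_j ∑_i nr (M i j)` (the sum over permutations is at most the
sum over all functions `Fin n → Fin n`: `Finset.prod_univ_sum`, `Fintype.piFinset`, nonnegative terms).

`nr_resultant_le`, `natDegree_resultant_le`: the Sylvester matrix `sylvester f g m n` (Mathlib: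
`Polynomial.sylvester`, `Fin.addCases`) has `m` columns which contain coefficients of `g` (each
coefficient at most once, so the column sum of `nr` is `≤ nr2 g`: `sum_nr_coeff_le_nr2`, reindexing
`i ↦ i - j`) and `n` columns with the coefficients of `f`. Products: `Fin.prod_univ_add`/`Fin.addCases`.
-/

set_option autoImplicit false

namespace CZ

open Polynomial

theorem natDegree_det_le {n : ℕ} (M : Matrix (Fin n) (Fin n) ℤ[X]) (b : Fin n → ℕ)
    (h : ∀ i j, (M i j).natDegree ≤ b j) : M.det.natDegree ≤ ∑ j, b j := by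
  rw [Matrix.det_apply]
  refine natDegree_sum_le_of_forall_le _ _ (fun σ _ => ?_)
  have h1 : (∏ i, M (σ i) i).natDegree ≤ ∑ j, b j :=
    (natDegree_prod_le _ _).trans (Finset.sum_le_sum fun i _ => h (σ i) i)
  rcases Int.units_eq_one_or (Equiv.Perm.sign σ) with hs | hs
  · rw [hs, one_smul]
    exact h1
  · rw [hs, Units.neg_smul, one_smul, natDegree_neg]
    exact h1

theorem nr_det_le {n : ℕ} (M : Matrix (Fin n) (Fin n) ℤ[X]) : nr M.det ≤ ∏ j, ∑ i, nr (M i j) := by
  classical
  rw [Matrix.det_apply]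
  refine (nr_sum_le _ _).trans ?_
  have h1 : ∀ σ : Equiv.Perm (Fin n), nr (Equiv.Perm.sign σ • ∏ i, M (σ i) i) ≤
      ∏ i, nr (M (σ i) i) := by
    intro σ
    rcases Int.units_eq_one_or (Equiv.Perm.sign σ) with hs | hs
    · rw [hs, one_smul]
      exact nr_prod_le _ _
    · rw [hs, Units.neg_smul, one_smul, nr_neg]
      exact nr_prod_le _ _
  refine (Finset.sum_le_sum fun σ _ => h1 σ).trans ?_
  rw [Finset.prod_univ_sum]
  have h2 : ∑ σ : Equiv.Perm (Fin n), ∏ i, nr (M (σ i) i) =
      ∑ p ∈ (Finset.univ : Finset (Equiv.Perm (Fin n))).image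
          (fun σ : Equiv.Perm (Fin n) => (σ : Fin n → Fin n)),
        ∏ i, nr (M (p i) i) := by
    rw [Finset.sum_image]
    intro σ _ τ _ h
    exact DFunLike.coe_injective h
  rw [h2]
  refine Finset.sum_le_sum_of_subset_of_nonneg ?_ ?_
  · intro p _
    rw [Fintype.mem_piFinset]
    intro i
    exact Finset.mem_univ _
  · intro p _ _
    exact Finset.prod_nonneg fun i _ => nr_nonneg _

lemma pf_nr_zero : nr (0 : ℤ[X]) = 0 := by
  unfold nr
  simp

lemma pf_col (h : ℤ[X][X]) (a k N : ℕ) :
    ∑ i : Fin N, nr (if (i : ℕ) ∈ Set.Icc a (a + k) then h.coeff (i - a) else 0) ≤ nr2 h := by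
  classical
  have h1 : ∀ i : Fin N, nr (if (i : ℕ) ∈ Set.Icc a (a + k) then h.coeff (i - a) else 0) =
      if a ≤ (i : ℕ) ∧ (i : ℕ) ≤ a + k then nr (h.coeff (i - a)) else 0 := by
    intro i
    by_cases hi : (i : ℕ) ∈ Set.Icc a (a + k)
    · rw [if_pos hi, if_pos (Set.mem_Icc.1 hi)]
    · rw [if_neg hi, if_neg (fun h' => hi (Set.mem_Icc.2 h')), pf_nr_zero]
  rw [Finset.sum_congr rfl (fun i _ => h1 i), ← Finset.sum_filter]
  have h2 : ∑ i ∈ (Finset.univ : Finset (Fin N)).filter
      (fun i : Fin N => a ≤ (i : ℕ) ∧ (i : ℕ) ≤ a + k), nr (h.coeff ((i : ℕ) - a)) =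
      ∑ j ∈ ((Finset.univ : Finset (Fin N)).filter
      (fun i : Fin N => a ≤ (i : ℕ) ∧ (i : ℕ) ≤ a + k)).image (fun i : Fin N => (i : ℕ) - a),
        nr (h.coeff j) := by
    rw [Finset.sum_image]
    intro i hi j hj hij
    have hi' := (Finset.mem_filter.1 (Finset.mem_coe.1 hi)).2
    have hj' := (Finset.mem_filter.1 (Finset.mem_coe.1 hj)).2
    have hij' : (i : ℕ) - a = (j : ℕ) - a := hij
    apply Fin.ext
    omega
  rw [h2]
  exact sum_nr_coeff_le_nr2 h _

theorem nr_resultant_le (f g : ℤ[X][X]) (m n : ℕ) :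
    nr (resultant f g m n) ≤ nr2 f ^ n * nr2 g ^ m := by
  unfold resultant
  refine (nr_det_le _).trans ?_
  rw [Fin.prod_univ_add, mul_comm]
  refine mul_le_mul ?_ ?_ ?_ (pow_nonneg (nr2_nonneg f) n)
  · calc ∏ j : Fin n, ∑ i, nr (sylvester f g m n i (Fin.natAdd m j))
        ≤ ∏ _j : Fin n, nr2 f := by
          refine Finset.prod_le_prod (fun j _ => Finset.sum_nonneg fun i _ => nr_nonneg _)
            (fun j _ => ?_)
          refine le_trans (le_of_eq ?_) (pf_col f j m (m + n))
          refine Finset.sum_congr rfl (fun i _ => ?_)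
          simp [sylvester]
      _ = nr2 f ^ n := by
          rw [Finset.prod_const, Finset.card_univ, Fintype.card_fin]
  · calc ∏ j : Fin m, ∑ i, nr (sylvester f g m n i (Fin.castAdd n j))
        ≤ ∏ _j : Fin m, nr2 g := by
          refine Finset.prod_le_prod (fun j _ => Finset.sum_nonneg fun i _ => nr_nonneg _)
            (fun j _ => ?_)
          refine le_trans (le_of_eq ?_) (pf_col g j n (m + n))
          refine Finset.sum_congr rfl (fun i _ => ?_)
          simp [sylvester]
      _ = nr2 g ^ m := by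
          rw [Finset.prod_const, Finset.card_univ, Fintype.card_fin]
  · exact Finset.prod_nonneg fun j _ => Finset.sum_nonneg fun i _ => nr_nonneg _

theorem natDegree_resultant_le (f g : ℤ[X][X]) (m n : ℕ) :
    (resultant f g m n).natDegree ≤ n * dX f + m * dX g := by
  unfold resultant
  have h := natDegree_det_le (sylvester f g m n)
    (fun j => j.addCases (fun _ => dX g) (fun _ => dX f)) (by
      intro i j
      refine j.addCases (fun j₁ => ?_) (fun j₁ => ?_)
      · simp only [sylvester, Matrix.of_apply, Fin.addCases_left]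
        split_ifs
        · exact coeff_le_dX g _
        · rw [natDegree_zero]
          exact Nat.zero_le _
      · simp only [sylvester, Matrix.of_apply, Fin.addCases_right]
        split_ifs
        · exact coeff_le_dX f _
        · rw [natDegree_zero]
          exact Nat.zero_le _)
  refine h.trans (le_of_eq ?_)
  rw [Fin.sum_univ_add]
  simp only [Fin.addCases_left, Fin.addCases_right, Finset.sum_const, Finset.card_univ,
    Fintype.card_fin, smul_eq_mul]
  ring

end CZ
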