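import Pool.Agent.H32.CZ.Nb

/-!
# MP_ede373, cubic points, row Pg: a resultant is small where both polynomials are small

Proof. Let `F, G ∈ ℂ[Y]` be the images of `f, g` under `X ↦ u`; `natDegree F ≤ m`, `natDegree G ≤ n`,
`aeval u (resultant f g m n) = resultant F G m n = det S`, `S = sylvester F G m n`
(`Polynomial.resultant_map_map`), `F(v) = evH u v f`, `G(v) = evH u v g` (`evH_eval`).
Row vector `w i = v ^ i`, `i < m + n`. `(w S) j` is `v ^ j G(v)` for the first `m` columns and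
`v ^ j' F(v)` for the last `n` (because `natDegree G ≤ n`, `natDegree F ≤ m`, so the sum over
`i ∈ [j, j+n]` contains all coefficients), so `‖(w S) j‖ ≤ B^(m+n) (‖F(v)‖ + ‖G(v)‖)`.
`w S adj(S) = det(S) w`; component `0` (`w 0 = 1`): `det S = ∑_j (w S)_j adj(S)_{j 0}`.
`adj(S)_{j 0}` is the determinant of `S` with column `j` replaced by a unit vector
(`Matrix.adjugate_apply`/`Matrix.cramer_apply`), so by `|det| ≤ ∏_columns ∑_i ‖entries‖` (expand as in row
`Pf`) it is `≤ (nr2 f B^dX f)^n (nr2 g B^dX g)^m`: each column sum of `S` is at most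
`∑_j ‖aeval u (f.coeff j)‖ ≤ nr2 f B^(dX f)` resp. the same for `g`, these bounds are `≥ 1`, and the
unit column has sum `1`. There are `m + n` values of `j`.
-/

set_option autoImplicit false

namespace CZ

open Polynomial

open Finset in
theorem Pg_sum {M : Type*} [AddCommMonoid M] (N j m : ℕ) (h : j + m < N) (a : ℕ → ℕ → M) :
    ∑ i : Fin N, (if (i : ℕ) ∈ Set.Icc j (j + m) then a i (i - j) else 0) =
      ∑ k ∈ range (m + 1), a (j + k) k := by
  classical
  rw [Fin.sum_univ_eq_sum_range (fun i ↦ if i ∈ Set.Icc j (j + m) then a i (i - j) else 0) N,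
    ← Finset.sum_filter]
  have h1 : (range N).filter (· ∈ Set.Icc j (j + m)) = (range (m + 1)).map (addLeftEmbedding j) := by
    ext i
    simp only [mem_filter, mem_range, Set.mem_Icc, mem_map, addLeftEmbedding_apply]
    constructor
    · rintro ⟨_, h2, h3⟩
      exact ⟨i - j, by omega, by omega⟩
    · rintro ⟨k, h2, rfl⟩
      omega
  rw [h1, sum_map]
  refine sum_congr rfl fun k _ ↦ ?_
  rw [addLeftEmbedding_apply, Nat.add_sub_cancel_left]

theorem Pg_eval (P : ℂ[X]) (v : ℂ) (N j m : ℕ) (hP : P.natDegree ≤ m) (h : j + m < N) :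
    ∑ i : Fin N, v ^ (i : ℕ) * (if (i : ℕ) ∈ Set.Icc j (j + m) then P.coeff (i - j) else 0) =
      v ^ j * P.eval v := by
  have h1 := Pg_sum (M := ℂ) N j m h (fun i k ↦ v ^ i * P.coeff k)
  calc _ = ∑ i : Fin N, (if (i : ℕ) ∈ Set.Icc j (j + m) then v ^ (i : ℕ) * P.coeff (i - j) else 0) := by
        refine Finset.sum_congr rfl fun i _ ↦ ?_
        rw [mul_ite, mul_zero]
    _ = _ := by
        rw [h1, Polynomial.eval_eq_sum_range' (Nat.lt_succ_of_le hP), Finset.mul_sum]
        refine Finset.sum_congr rfl fun k _ ↦ ?_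
        rw [pow_add]
        ring

theorem Pg_colsum (P : ℤ[X][X]) (u : ℂ) (B : ℝ) (hB : 1 ≤ B) (hu : ‖u‖ ≤ B) (N j m : ℕ)
    (h : j + m < N) :
    ∑ i : Fin N, ‖(if (i : ℕ) ∈ Set.Icc j (j + m) then
      (P.map (eval₂RingHom (Int.castRingHom ℂ) u)).coeff (i - j) else 0)‖ ≤ nr2 P * B ^ dX P := by
  have h1 := Pg_sum (M := ℝ) N j m h
    (fun _ k ↦ ‖(P.map (eval₂RingHom (Int.castRingHom ℂ) u)).coeff k‖)
  calc _ = ∑ i : Fin N, (if (i : ℕ) ∈ Set.Icc j (j + m) then
        ‖(P.map (eval₂RingHom (Int.castRingHom ℂ) u)).coeff (i - j)‖ else 0) := by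
        refine Finset.sum_congr rfl fun i _ ↦ ?_
        split_ifs
        · rfl
        · exact norm_zero
    _ = ∑ k ∈ Finset.range (m + 1), ‖(P.map (eval₂RingHom (Int.castRingHom ℂ) u)).coeff k‖ := h1
    _ ≤ ∑ k ∈ Finset.range (m + 1), nr (P.coeff k) * B ^ dX P := by
        refine Finset.sum_le_sum fun k _ ↦ ?_
        rw [coeff_map]
        refine le_trans (norm_aeval_le (P.coeff k) u B hB hu) ?_
        exact mul_le_mul_of_nonneg_left (pow_le_pow_right₀ hB (coeff_le_dX P k)) (nr_nonneg _)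
    _ = (∑ k ∈ Finset.range (m + 1), nr (P.coeff k)) * B ^ dX P := by rw [Finset.sum_mul]
    _ ≤ _ := mul_le_mul_of_nonneg_right (sum_nr_coeff_le_nr2 P _)
        (pow_nonneg (le_trans zero_le_one hB) _)

theorem Pg_det {N : ℕ} (M : Matrix (Fin N) (Fin N) ℂ) : ‖M.det‖ ≤ ∏ j, ∑ i, ‖M i j‖ := by
  classical
  rw [Matrix.det_apply, Finset.prod_univ_sum]
  refine le_trans (norm_sum_le _ _) ?_
  calc _ = ∑ σ : Equiv.Perm (Fin N), ∏ j, ‖M (σ j) j‖ := by
        refine Finset.sum_congr rfl fun σ _ ↦ ?_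
        rw [← norm_prod]
        rcases Int.units_eq_one_or (Equiv.Perm.sign σ) with h | h
        · rw [h, one_smul]
        · rw [h, Units.neg_smul, one_smul, norm_neg]
    _ = ∑ x ∈ Finset.image (fun (σ : Equiv.Perm (Fin N)) (i : Fin N) ↦ σ i) Finset.univ,
          ∏ j, ‖M (x j) j‖ := by
        rw [Finset.sum_image fun σ _ τ _ h ↦ Equiv.ext fun i ↦ congrFun h i]
    _ ≤ _ := by
        refine Finset.sum_le_sum_of_subset_of_nonneg (fun x _ ↦ ?_) fun x _ _ ↦
          Finset.prod_nonneg fun j _ ↦ norm_nonneg _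
        rw [Fintype.mem_piFinset]
        exact fun _ ↦ Finset.mem_univ _

theorem resultant_small (f g : ℤ[X][X]) (m n : ℕ) (hf : f.natDegree ≤ m) (hg : g.natDegree ≤ n)
    (hmn : 0 < m + n) (hf1 : f ≠ 0) (hg1 : g ≠ 0) (u v : ℂ) (B : ℝ) (hB : 1 ≤ B)
    (hu : ‖u‖ ≤ B) (hv : ‖v‖ ≤ B) :
    ‖aeval u (resultant f g m n)‖ ≤ (m + n) * B ^ (m + n) * (nr2 f * B ^ dX f) ^ n *
      (nr2 g * B ^ dX g) ^ m * (‖evH u v f‖ + ‖evH u v g‖) := by
  classical
  have hB0 : 0 ≤ B := le_trans zero_le_one hB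
  obtain ⟨φ, hφ⟩ : ∃ φ : ℤ[X] →+* ℂ, φ = eval₂RingHom (Int.castRingHom ℂ) u := ⟨_, rfl⟩
  obtain ⟨S, hS⟩ : ∃ S : Matrix (Fin (m + n)) (Fin (m + n)) ℂ,
      S = sylvester (f.map φ) (g.map φ) m n := ⟨_, rfl⟩
  have hdet : aeval u (resultant f g m n) = S.det := by
    rw [hS]
    have h1 := resultant_map_map f g m n φ
    rw [resultant] at h1
    rw [h1, hφ]
    rfl
  obtain ⟨z, hz⟩ : ∃ z : Fin (m + n), z = ⟨0, hmn⟩ := ⟨_, rfl⟩
  obtain ⟨w, hw⟩ : ∃ w : Fin (m + n) → ℂ, w = fun i : Fin (m + n) ↦ v ^ (i : ℕ) := ⟨_, rfl⟩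
  have hwz : w z = 1 := by
    rw [hw, hz]
    exact pow_zero v
  obtain ⟨c, hc⟩ : ∃ c : Fin (m + n) → ℂ, c = S.cramer (Pi.single z 1) := ⟨_, rfl⟩
  have hmain : S.det = ∑ j, (Matrix.vecMul w S) j * c j := by
    have h1 := Matrix.mulVec_cramer S (Pi.single z 1)
    have h2 := Matrix.dotProduct_mulVec w S c
    rw [hc, h1, dotProduct_smul, dotProduct_single, hwz, mul_one, smul_eq_mul, mul_one] at h2
    rw [h2, hc]
    rfl
  -- columns
  obtain ⟨b, hb⟩ : ∃ b : Fin (m + n) → ℝ, b = fun k ↦ Fin.addCases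
      (fun _ : Fin m ↦ nr2 g * B ^ dX g) (fun _ : Fin n ↦ nr2 f * B ^ dX f) k := ⟨_, rfl⟩
  have hb1 : ∀ k, 1 ≤ b k := by
    intro k
    rw [hb]
    induction k using Fin.addCases with
    | left k =>
      simp only [Fin.addCases_left]
      exact one_le_mul_of_one_le_of_one_le (one_le_nr2 hg1) (one_le_pow₀ hB)
    | right k =>
      simp only [Fin.addCases_right]
      exact one_le_mul_of_one_le_of_one_le (one_le_nr2 hf1) (one_le_pow₀ hB)
  have hbp : ∏ k, b k = (nr2 f * B ^ dX f) ^ n * (nr2 g * B ^ dX g) ^ m := by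
    rw [Fin.prod_univ_add, hb]
    simp only [Fin.addCases_left, Fin.addCases_right, Finset.prod_const, Finset.card_univ,
      Fintype.card_fin]
    ring
  have hcol : ∀ k, ∑ i, ‖S i k‖ ≤ b k := by
    intro k
    rw [hb, hS]
    induction k using Fin.addCases with
    | left k =>
      simp only [sylvester, Matrix.of_apply, Fin.addCases_left]
      rw [hφ]
      exact Pg_colsum g u B hB hu (m + n) k n (by have := k.2; omega)
    | right k =>
      simp only [sylvester, Matrix.of_apply, Fin.addCases_right]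
      rw [hφ]
      exact Pg_colsum f u B hB hu (m + n) k m (by have := k.2; omega)
  have hcb : ∀ j, ‖c j‖ ≤ (nr2 f * B ^ dX f) ^ n * (nr2 g * B ^ dX g) ^ m := by
    intro j
    rw [hc, Matrix.cramer_apply, ← hbp]
    refine le_trans (Pg_det _) (Finset.prod_le_prod (fun k _ ↦ Finset.sum_nonneg fun i _ ↦
      norm_nonneg _) fun k _ ↦ ?_)
    by_cases hk : k = j
    · subst hk
      refine le_trans (le_of_eq ?_) (hb1 k)
      have h1 : ∀ i, ‖(S.updateCol k (Pi.single z 1)) i k‖ = if i = z then 1 else 0 := by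
        intro i
        rw [Matrix.updateCol_self, Pi.single_apply]
        split_ifs
        · exact norm_one
        · exact norm_zero
      rw [Finset.sum_congr rfl fun i _ ↦ h1 i, Finset.sum_ite_eq' Finset.univ z, if_pos
        (Finset.mem_univ z)]
    · refine le_trans (le_of_eq ?_) (hcol k)
      refine Finset.sum_congr rfl fun i _ ↦ ?_
      rw [Matrix.updateCol_ne hk]
  have hfe : evH u v f = (f.map φ).eval v := by rw [evH_eval, hφ]
  have hge : evH u v g = (g.map φ).eval v := by rw [evH_eval, hφ]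
  have hwS : ∀ j, ‖(Matrix.vecMul w S) j‖ ≤ B ^ (m + n) * (‖evH u v f‖ + ‖evH u v g‖) := by
    intro j
    have h0 : (Matrix.vecMul w S) j = ∑ i, w i * S i j := rfl
    rw [h0, hw, hS]
    have hvj : ∀ k : ℕ, k ≤ m + n → ‖v ^ k‖ ≤ B ^ (m + n) := by
      intro k hk
      rw [norm_pow]
      exact le_trans (pow_le_pow_left₀ (norm_nonneg v) hv k) (pow_le_pow_right₀ hB hk)
    induction j using Fin.addCases with
    | left j =>
      simp only [sylvester, Matrix.of_apply, Fin.addCases_left]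
      rw [Pg_eval (g.map φ) v (m + n) j n (le_trans natDegree_map_le hg)
        (by have := j.2; omega), norm_mul, ← hge]
      refine mul_le_mul (hvj _ (by have := j.2; omega)) ?_ (norm_nonneg _) (pow_nonneg hB0 _)
      exact le_add_of_nonneg_left (norm_nonneg _)
    | right j =>
      simp only [sylvester, Matrix.of_apply, Fin.addCases_right]
      rw [Pg_eval (f.map φ) v (m + n) j m (le_trans natDegree_map_le hf)
        (by have := j.2; omega), norm_mul, ← hfe]
      refine mul_le_mul (hvj _ (by have := j.2; omega)) ?_ (norm_nonneg _) (pow_nonneg hB0 _)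
      exact le_add_of_nonneg_right (norm_nonneg _)
  rw [hdet, hmain]
  refine le_trans (norm_sum_le _ _) ?_
  refine le_trans (Finset.sum_le_sum fun j _ ↦ (by
    rw [norm_mul]
    exact mul_le_mul (hwS j) (hcb j) (norm_nonneg _) (mul_nonneg (pow_nonneg hB0 _)
      (add_nonneg (norm_nonneg _) (norm_nonneg _))) : ‖(Matrix.vecMul w S) j * c j‖ ≤
      B ^ (m + n) * (‖evH u v f‖ + ‖evH u v g‖) *
        ((nr2 f * B ^ dX f) ^ n * (nr2 g * B ^ dX g) ^ m))) ?_
  rw [Finset.sum_const, Finset.card_univ, Fintype.card_fin, nsmul_eq_mul]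
  refine le_of_eq ?_
  push_cast
  ring

end CZ
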