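import Pool.Agent.H32.CZ.Pe
import Pool.Agent.H32.CZ.Pf

/-!
# MP_ede373, cubic points, row Ph: resultants and common zeros

`A` irreducible in `ℤ[X][Y]`, `natDegree A > 0`, `Q ≠ 0`, `natDegree Q < natDegree A`,
`RR k A Q = Res_Y (shr k A, shr k Q)` (with the natural degrees).

`RR_ne_zero`: `f = shr k A` is irreducible (`shrE k` is an automorphism), of positive degree, hence
primitive, hence irreducible over the fraction field `F` of `ℤ[X]`
(`Polynomial.IsPrimitive.irreducible_iff_irreducible_map_fraction_map`). `A ∤ Q` (degree), so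
`f ∤ g = shr k Q`, so `f ∤ g` over `F` (`IsPrimitive.dvd_iff_fraction_map_dvd_fraction_map`; for `g` use its
primitive part, or: `Irreducible f.map`, if it divides `g.map` then clear denominators and use that
`f` is prime in `ℤ[X][Y]`); so they are coprime over `F`, and the resultant of `f.map`, `g.map` (same
natural degrees, the map is injective) is `≠ 0` (`Polynomial.resultant_ne_zero`,
`resultant_map_map`).

`RR_root`: let `F, G ∈ ℂ[Y]` be the images of `f, g` under `X ↦ u`. Since the leading coefficient of `f`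
is the constant `c ≠ 0`, `natDegree F = natDegree f`, `aeval u RR = resultant F G (natDegree f) (natDegree g)
= c ^ n ∏_{roots α of F} G(α)` (`resultant_eq_prod_eval`, `natDegree G ≤ natDegree g = n`), which vanishes iff
some `v` has `F(v) = G(v) = 0`, i.e. `evH u v f = evH u v g = 0`; and
`evH u v (shr k A) = evH (u - k v) v A` (`evH_shr` with `x = u - k v`).

`Zs_finite`: choose two different `k, k'` outside the set `Bad` of `shr_lead` (`Bad` is finite). The map
`q ↦ (q.1 + k q.2, q.1 + k' q.2)` is injective and maps `Zs A Q` into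
`roots (RR k) × roots (RR k')` (over `ℂ`), each with at most
`natDegree RR ≤ dT Q * dX A + dT A * dX Q ≤ 2 dT A dT Q` elements (`natDegree_resultant_le`,
`natDegree_shr_le`, `dX_shr_le`, `dX_le_dT`; note `natDegree (shr k A) = dT A > 0`).
`Zs_alg`: `q.1 + k q.2`, `q.1 + k' q.2` are algebraic, so are `q.1, q.2`.
-/

set_option autoImplicit false

namespace CZ

open Polynomial

/-- The resultant in direction `k`. -/
noncomputable def RR (k : ℤ) (A Q : ℤ[X][X]) : ℤ[X] := resultant (shr k A) (shr k Q)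

/-- The common zeros. -/
def Zs (A Q : ℤ[X][X]) : Set (ℂ × ℂ) := {q | evH q.1 q.2 A = 0 ∧ evH q.1 q.2 Q = 0}

section

variable {A Q : ℤ[X][X]} (hA : Irreducible A) (hA0 : 0 < A.natDegree) (hQ : Q ≠ 0)
  (hlt : Q.natDegree < A.natDegree)

include hA hA0 hQ hlt

theorem RR_ne_zero (k : ℤ) (hk : 0 < (shr k A).natDegree) : RR k A Q ≠ 0 := by
  have hirr : Irreducible (shr k A) := by
    have h := (MulEquiv.irreducible_iff (shrE k)).2 hA
    exact h
  have hg0 : shr k Q ≠ 0 := by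
    intro h
    apply hQ
    have h1 := congrArg (shrE k).symm (show shrE k Q = 0 from h)
    rwa [RingEquiv.symm_apply_apply, map_zero] at h1
  have hprim : (shr k A).IsPrimitive := hirr.isPrimitive hk.ne'
  have hirrK := (IsPrimitive.irreducible_iff_irreducible_map_fraction_map
    (K := FractionRing ℤ[X]) hprim).1 hirr
  have hinj : Function.Injective (algebraMap ℤ[X] (FractionRing ℤ[X])) :=
    IsFractionRing.injective ℤ[X] (FractionRing ℤ[X])
  have hcop : IsCoprime ((shr k A).map (algebraMap ℤ[X] (FractionRing ℤ[X])))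
      ((shr k Q).map (algebraMap ℤ[X] (FractionRing ℤ[X]))) := by
    rw [hirrK.coprime_iff_not_dvd]
    intro hdvd
    have h3 : shr k A ∣ shr k Q :=
      (hprim.dvd_iff_fraction_map_dvd_fraction_map (FractionRing ℤ[X])).2 hdvd
    have h4 : A ∣ Q := (map_dvd_iff (shrE k)).1 h3
    have h5 := natDegree_le_of_dvd h4 hQ
    omega
  have hres := resultant_ne_zero _ _ hcop
  rw [natDegree_map_eq_of_injective hinj, natDegree_map_eq_of_injective hinj,
    resultant_map_map] at hres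
  intro h
  apply hres
  rw [RR] at h
  rw [h, map_zero]

theorem RR_root (k c : ℤ) (hc : c ≠ 0) (hl : (shr k A).leadingCoeff = C c) (u : ℂ) :
    aeval u (RR k A Q) = 0 ↔ ∃ v : ℂ, (u - k * v, v) ∈ Zs A Q := by
  set ψ : ℤ[X] →+* ℂ := eval₂RingHom (Int.castRingHom ℂ) u with hψ
  have hae : aeval u (RR k A Q) = ψ (RR k A Q) := rfl
  have hlc : ψ (shr k A).leadingCoeff ≠ 0 := by
    rw [hl, hψ, coe_eval₂RingHom, eval₂_C]
    simpa using hc
  have hdeg : ((shr k A).map ψ).natDegree = (shr k A).natDegree :=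
    natDegree_map_of_leadingCoeff_ne_zero ψ hlc
  have hF0 : (shr k A).map ψ ≠ 0 := by
    intro h
    apply hlc
    rw [← coeff_natDegree, ← coeff_map, h, coeff_zero]
  have hlF : ((shr k A).map ψ).leadingCoeff ≠ 0 := leadingCoeff_ne_zero.2 hF0
  have hres : ψ (RR k A Q) = ((shr k A).map ψ).leadingCoeff ^ (shr k Q).natDegree *
      (((shr k A).map ψ).roots.map ((shr k Q).map ψ).eval).prod := by
    rw [RR, ← resultant_map_map, ← hdeg]
    exact resultant_eq_prod_eval _ _ _ natDegree_map_le (IsAlgClosed.splits _)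
  have hev : ∀ (v : ℂ) (P : ℤ[X][X]), ((shr k P).map ψ).eval v = evH (u - k * v) v P := by
    intro v P
    rw [hψ, ← evH_eval, ← evH_shr k (u - k * v) v P, sub_add_cancel]
  rw [hae, hres, mul_eq_zero, or_iff_right (pow_ne_zero _ hlF), Multiset.prod_eq_zero_iff,
    Multiset.mem_map]
  constructor
  · rintro ⟨v, hv, hv2⟩
    refine ⟨v, ?_, ?_⟩
    · rw [← hev v A]
      exact (mem_roots hF0).1 hv
    · rw [← hev v Q]
      exact hv2
  · rintro ⟨v, hv, hv2⟩
    refine ⟨v, (mem_roots hF0).2 ?_, ?_⟩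
    · show ((shr k A).map ψ).eval v = 0
      rw [hev v A]
      exact hv
    · rw [hev v Q]
      exact hv2

omit hA hA0 hQ hlt in
theorem Ph_dT (k : ℤ) : (RR k A Q).natDegree ≤ 2 * dT A * dT Q := by
  have h := natDegree_resultant_le (shr k A) (shr k Q) (shr k A).natDegree (shr k Q).natDegree
  have h1 := natDegree_shr_le k A
  have h2 := natDegree_shr_le k Q
  have h3 := (dX_shr_le k A).trans (dX_le_dT A)
  have h4 := (dX_shr_le k Q).trans (dX_le_dT Q)
  have h5 := Nat.mul_le_mul h2 h3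
  have h6 := Nat.mul_le_mul h1 h4
  have h7 : 2 * dT A * dT Q = dT Q * dT A + dT A * dT Q := by ring
  rw [RR, h7]
  omega

theorem Ph_key : ∃ k k' : ℤ, k ≠ k' ∧ RR k A Q ≠ 0 ∧ RR k' A Q ≠ 0 ∧
    ∀ q ∈ Zs A Q, aeval (q.1 + k * q.2) (RR k A Q) = 0 ∧ aeval (q.1 + k' * q.2) (RR k' A Q) = 0 := by
  obtain ⟨Bad, -, hB⟩ := shr_lead A hA.ne_zero
  obtain ⟨k, hk⟩ := Infinite.exists_notMem_finset Bad
  obtain ⟨k', hk'⟩ := Infinite.exists_notMem_finset (insert k Bad)
  rw [Finset.mem_insert, not_or] at hk'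
  obtain ⟨h1, c, hc, hl⟩ := hB k hk
  obtain ⟨h1', c', hc', hl'⟩ := hB k' hk'.2
  have hdA : 0 < dT A := lt_of_lt_of_le hA0 (natDegree_le_dT A)
  refine ⟨k, k', Ne.symm hk'.1, RR_ne_zero hA hA0 hQ hlt k (by rw [h1]; exact hdA),
    RR_ne_zero hA hA0 hQ hlt k' (by rw [h1']; exact hdA), ?_⟩
  intro q hq
  constructor
  · rw [RR_root hA hA0 hQ hlt k c hc hl]
    exact ⟨q.2, by rw [add_sub_cancel_right]; exact hq⟩
  · rw [RR_root hA hA0 hQ hlt k' c' hc' hl']
    exact ⟨q.2, by rw [add_sub_cancel_right]; exact hq⟩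

theorem Zs_finite : (Zs A Q).Finite ∧ (Zs A Q).ncard ≤ (2 * dT A * dT Q) ^ 2 := by
  classical
  obtain ⟨k, k', hne, hR, hR', hz⟩ := Ph_key hA hA0 hQ hlt
  have hne' : (k : ℂ) - k' ≠ 0 := by
    rw [sub_ne_zero]
    exact_mod_cast hne
  set S : ℤ → Finset ℂ := fun k => ((RR k A Q).aroots ℂ).toFinset with hS
  have hScard : ∀ k : ℤ, (S k).card ≤ 2 * dT A * dT Q := by
    intro k
    refine (Multiset.toFinset_card_le _).trans ?_
    refine (card_roots' _).trans (natDegree_map_le.trans (Ph_dT k))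
  have hinjZ : Function.Injective (algebraMap ℤ ℂ) := by
    intro a b h
    have h' : (a : ℂ) = (b : ℂ) := h
    exact_mod_cast h'
  have hSmem : ∀ k : ℤ, RR k A Q ≠ 0 → ∀ u : ℂ, aeval u (RR k A Q) = 0 → u ∈ S k := by
    intro k hk u hu
    rw [hS, Multiset.mem_toFinset, mem_aroots']
    refine ⟨?_, hu⟩
    rw [Ne, Polynomial.map_eq_zero_iff hinjZ]
    exact hk
  set θ : ℂ × ℂ → ℂ × ℂ := fun q => (q.1 + k * q.2, q.1 + k' * q.2) with hθ
  have hmaps : ∀ q ∈ Zs A Q, θ q ∈ (↑(S k ×ˢ S k') : Set (ℂ × ℂ)) := by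
    intro q hq
    rw [Finset.mem_coe, Finset.mem_product]
    exact ⟨hSmem k hR _ (hz q hq).1, hSmem k' hR' _ (hz q hq).2⟩
  have hinj : Set.InjOn θ (Zs A Q) := by
    intro q _ r _ h
    rw [hθ, Prod.mk.injEq] at h
    obtain ⟨h1, h2⟩ := h
    have h3 : ((k : ℂ) - k') * (q.2 - r.2) = 0 := by linear_combination h1 - h2
    have h4 : q.2 = r.2 := by
      rcases mul_eq_zero.1 h3 with h | h
      · exact absurd h hne'
      · exact sub_eq_zero.1 h
    have h5 : q.1 = r.1 := by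
      rw [h4] at h1
      exact add_right_cancel h1
    exact Prod.ext h5 h4
  have hfin : (Zs A Q).Finite := by
    refine Set.Finite.of_finite_image (Set.Finite.subset (Finset.finite_toSet (S k ×ˢ S k')) ?_) hinj
    rintro _ ⟨q, hq, rfl⟩
    exact hmaps q hq
  refine ⟨hfin, ?_⟩
  have h := Set.ncard_le_ncard_of_injOn θ hmaps hinj (Finset.finite_toSet (S k ×ˢ S k'))
  rw [Set.ncard_coe_finset, Finset.card_product] at h
  refine h.trans ?_
  rw [pow_two]
  exact Nat.mul_le_mul (hScard k) (hScard k')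

theorem Zs_alg {q : ℂ × ℂ} (hq : q ∈ Zs A Q) : IsAlgebraic ℚ q.1 ∧ IsAlgebraic ℚ q.2 := by
  obtain ⟨k, k', hne, hR, hR', hz⟩ := Ph_key hA hA0 hQ hlt
  have hne' : (k : ℂ) - k' ≠ 0 := by
    rw [sub_ne_zero]
    exact_mod_cast hne
  have h1 : IsAlgebraic ℚ (q.1 + k * q.2) :=
    (IsFractionRing.isAlgebraic_iff ℤ ℚ ℂ).1 ⟨_, hR, (hz q hq).1⟩
  have h2 : IsAlgebraic ℚ (q.1 + k' * q.2) :=
    (IsFractionRing.isAlgebraic_iff ℤ ℚ ℂ).1 ⟨_, hR', (hz q hq).2⟩
  have hk : ∀ m : ℤ, IsAlgebraic ℚ (m : ℂ) := fun m => by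
    have := isAlgebraic_algebraMap (R := ℚ) (A := ℂ) (m : ℚ)
    simpa using this
  have h3 : IsAlgebraic ℚ q.2 := by
    have e : q.2 = ((q.1 + k * q.2) - (q.1 + k' * q.2)) * ((k : ℂ) - k')⁻¹ := by
      field_simp
      ring
    rw [e]
    exact (h1.sub h2).mul ((hk k).sub (hk k')).inv
  refine ⟨?_, h3⟩
  have e : q.1 = (q.1 + k * q.2) - k * q.2 := by ring
  rw [e]
  exact h1.sub ((hk k).mul h3)

end

end CZ
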