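import Pool.Agent.H32.CZ.Ph
import Pool.Agent.H32.CZ.Hd

/-!
# MP_ede373, cubic points, row Pi: a good direction `k`

`Fq q = ℚ(q.1, q.2) ⊂ ℂ`, `g1 q, g2 q` the generators. Among `1 ≤ k ≤ K`,
`K ≥ (2 dT A dT Q + 2)^4`, discard:
(i) the `k` in `Bad` of `shr_lead`: at most `dT A`;
(ii) for each pair `q ≠ q'` in `Zs` the `k` with `q.1 + k q.2 = q'.1 + k q'.2`: at most one (two such `k`
give `q.2 = q'.2`, `q.1 = q'.1`): at most `N^2`, `N = ncard Zs ≤ (2 dT A dT Q)^2`;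
(iii) for each `q` the `k` violating `max ‖θ1 - q.1‖ ‖θ2 - q.2‖ ≤ (2K+1) ‖(θ1 + k θ2) - (q.1 + k q.2)‖`: at most
one: put `v = (θ1 - q.1, θ2 - q.2)`, `ε = 1/(2K+1)`; two such `k ≠ k'` give `‖v1 + k v2‖, ‖v1 + k' v2‖ < ε |v|`,
so `‖v2‖ ≤ |k - k'| ‖v2‖ < 2 ε |v|`, `‖v1‖ < ε |v| + k ‖v2‖ ≤ ε |v| + 2 K ε |v| = |v|`, and `‖v2‖ < 2ε|v| ≤ |v|`:
contradiction with `|v| = max ‖v1‖ ‖v2‖`;
(iv) for each `q` the `k` with not `HGood k K q`: at most one. `q` is algebraic (`Zs_alg`) so `Fq q` is a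
number field. If `k ≠ k'` are both bad, let `h = max (hE g1) (hE g2)` (at `k` one of the two inequalities
fails, so `h > 2 hE(g1 + k g2) + 2 n log (2K)`, the same at `k'`); `hE_two`:
`h ≤ hE(g1 + k g2) + hE(g1 + k' g2) + 2 n log(2K) < (h - 2 n log(2K)) + 2 n log(2K) = h`, contradiction.
Total discarded `≤ dT A + N^2 + 2 N < (2 dT A dT Q + 2)^4 ≤ K` (if `dT Q = 0` then `Q` is a nonzero
constant and `Zs` is empty, `dT A` alone: choose then the estimate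
`dT A < K`: NOTE for `dT Q = 0` one has `K ≥ 16` only, so this case needs the hypothesis `dT A < K`,
which is included as `hK2`).
-/

set_option autoImplicit false

namespace CZ

open Polynomial

/-- The field generated by the coordinates. -/
noncomputable abbrev Fq (q : ℂ × ℂ) : IntermediateField ℚ ℂ := IntermediateField.adjoin ℚ {q.1, q.2}

/-- First coordinate. -/
noncomputable def g1 (q : ℂ × ℂ) : Fq q := ⟨q.1, IntermediateField.subset_adjoin _ _ (by simp)⟩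

/-- Second coordinate. -/
noncomputable def g2 (q : ℂ × ℂ) : Fq q := ⟨q.2, IntermediateField.subset_adjoin _ _ (by simp)⟩

/-- The direction `k` does not lose much height at `q`. -/
def HGood (k K : ℕ) (q : ℂ × ℂ) : Prop :=
  ∀ _ : NumberField (Fq q),
    hE (g1 q) ≤ 2 * hE (g1 q + k * g2 q) + 2 * Module.finrank ℚ (Fq q) * Real.log (2 * K) ∧
    hE (g2 q) ≤ 2 * hE (g1 q + k * g2 q) + 2 * Module.finrank ℚ (Fq q) * Real.log (2 * K)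

theorem Pi_two (q q' : ℂ × ℂ) (hne : q ≠ q') (k k' : ℕ) (h : q.1 + k * q.2 = q'.1 + k * q'.2)
    (h' : q.1 + k' * q.2 = q'.1 + k' * q'.2) : k = k' := by
  by_contra hk
  have h1 : ((k : ℂ) - k') * (q.2 - q'.2) = 0 := by linear_combination h - h'
  have h2 : (k : ℂ) - k' ≠ 0 := by
    rw [sub_ne_zero]
    exact fun h => hk (by exact_mod_cast h)
  have h3 : q.2 = q'.2 := by
    rcases mul_eq_zero.1 h1 with h4 | h4
    · exact absurd h4 h2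
    · exact sub_eq_zero.1 h4
  have h4 : q.1 = q'.1 := by
    rw [h3] at h
    exact add_right_cancel h
  exact hne (Prod.ext h4 h3)

theorem Pi_dist (θ1 θ2 : ℂ) (q : ℂ × ℂ) (K k k' : ℕ) (hK : 1 ≤ K) (hkK : k ≤ K)
    (h : ¬ max ‖θ1 - q.1‖ ‖θ2 - q.2‖ ≤ (2 * K + 1) * ‖(θ1 + k * θ2) - (q.1 + k * q.2)‖)
    (h' : ¬ max ‖θ1 - q.1‖ ‖θ2 - q.2‖ ≤ (2 * K + 1) * ‖(θ1 + k' * θ2) - (q.1 + k' * q.2)‖) : k = k' := by
  by_contra hk
  obtain ⟨v1, hv1⟩ : ∃ v1, v1 = θ1 - q.1 := ⟨_, rfl⟩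
  obtain ⟨v2, hv2⟩ : ∃ v2, v2 = θ2 - q.2 := ⟨_, rfl⟩
  have e1 : ∀ j : ℕ, (θ1 + j * θ2) - (q.1 + j * q.2) = v1 + j * v2 := by
    intro j
    rw [hv1, hv2]
    ring
  rw [e1, ← hv1, ← hv2, not_le] at h h'
  obtain ⟨M, hM⟩ : ∃ M, M = max ‖v1‖ ‖v2‖ := ⟨_, rfl⟩
  rw [← hM] at h h'
  have hK0 : (1 : ℝ) ≤ K := by exact_mod_cast hK
  have hkK' : (k : ℝ) ≤ K := by exact_mod_cast hkK
  have hM0 : 0 < M := lt_of_le_of_lt (by positivity) h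
  have h2 : ‖v2‖ ≤ ‖v1 + k * v2‖ + ‖v1 + k' * v2‖ := by
    have h3 : ‖((k : ℂ) - k') * v2‖ ≤ ‖v1 + k * v2‖ + ‖v1 + k' * v2‖ := by
      have : ((k : ℂ) - k') * v2 = (v1 + k * v2) - (v1 + k' * v2) := by ring
      rw [this]
      exact norm_sub_le _ _
    have h4 : 1 ≤ ‖(k : ℂ) - k'‖ := by
      have h5 : (k : ℂ) - k' = (((k : ℤ) - k' : ℤ) : ℂ) := by push_cast; ring
      rw [h5, Complex.norm_intCast, ← Int.cast_abs]
      have h6 : (1 : ℤ) ≤ |(k : ℤ) - k'| := Int.one_le_abs (by omega)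
      exact_mod_cast h6
    rw [norm_mul] at h3
    exact (le_mul_of_one_le_left (norm_nonneg _) h4).trans h3
  have h3 : (2 * K + 1) * ‖v2‖ < 2 * M := by nlinarith
  have h4 : ‖v1‖ ≤ ‖v1 + k * v2‖ + k * ‖v2‖ := by
    have h5 : v1 = (v1 + k * v2) - k * v2 := by ring
    calc ‖v1‖ = ‖(v1 + k * v2) - k * v2‖ := by rw [← h5]
      _ ≤ ‖v1 + k * v2‖ + ‖(k : ℂ) * v2‖ := norm_sub_le _ _
      _ = _ := by rw [norm_mul, Complex.norm_natCast]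
  have h5 : ‖v1‖ < M := by
    have h6 : (k : ℝ) * ‖v2‖ ≤ K * ‖v2‖ := mul_le_mul_of_nonneg_right hkK' (norm_nonneg _)
    nlinarith [norm_nonneg v2]
  have h6 : ‖v2‖ < M := by nlinarith [norm_nonneg v2]
  have h7 := max_lt h5 h6
  rw [← hM] at h7
  exact lt_irrefl _ h7

theorem Pi_height (q : ℂ × ℂ) (K k k' : ℕ) (hk : 1 ≤ k) (hkK : k ≤ K) (hk' : 1 ≤ k') (hkK' : k' ≤ K)
    (h : ¬ HGood k K q) (h' : ¬ HGood k' K q) : k = k' := by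
  by_contra hne
  unfold HGood at h h'
  push Not at h h'
  obtain ⟨inst, h1⟩ := h
  obtain ⟨inst', h1'⟩ := h'
  have ht := hE_two (g1 q) (g2 q) K k k' hk hk' hkK hkK' hne
  obtain ⟨y, hy⟩ : ∃ y, y = hE (g1 q + k * g2 q) := ⟨_, rfl⟩
  obtain ⟨y', hy'⟩ : ∃ y', y' = hE (g1 q + k' * g2 q) := ⟨_, rfl⟩
  obtain ⟨u1, hu1⟩ : ∃ u1, u1 = hE (g1 q) := ⟨_, rfl⟩
  obtain ⟨u2, hu2⟩ : ∃ u2, u2 = hE (g2 q) := ⟨_, rfl⟩
  obtain ⟨c, hc⟩ : ∃ c, c = 2 * (Module.finrank ℚ (Fq q) : ℝ) * Real.log (2 * K) := ⟨_, rfl⟩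
  rw [← hy, ← hy', ← hu1, ← hu2, ← hc] at ht
  rw [← hy, ← hu1, ← hu2, ← hc] at h1
  rw [← hy', ← hu1, ← hu2, ← hc] at h1'
  obtain ⟨t1, t2⟩ := ht
  rcases le_or_gt u1 (2 * y + c) with a | a
  · have a2 := h1 a
    rcases le_or_gt u1 (2 * y' + c) with b | b
    · have b2 := h1' b
      linarith
    · rcases le_total u1 u2 with e | e <;> linarith
  · rcases le_or_gt u1 (2 * y' + c) with b | b
    · have b2 := h1' b
      rcases le_total u1 u2 with e | e <;> linarith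
    · linarith

theorem Pi_num (D m K N : ℕ) (hD : 0 < D) (hN : N ≤ (2 * D * m) ^ 2) (hK : (2 * D * m + 2) ^ 4 ≤ K)
    (hK2 : D < K) : D + N * N + N + N < K := by
  rcases Nat.eq_zero_or_pos m with hm | hm
  · subst hm
    have : N = 0 := by simpa using hN
    subst this
    omega
  · obtain ⟨x, hx⟩ : ∃ x, x = 2 * D * m := ⟨_, rfl⟩
    rw [← hx] at hN hK
    have h1 : D ≤ x := by
      rw [hx]
      nlinarith
    have h2 : N * N ≤ x ^ 4 := by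
      calc N * N ≤ x ^ 2 * x ^ 2 := Nat.mul_le_mul hN hN
        _ = x ^ 4 := by ring
    have h3 : (x + 2) ^ 4 = x ^ 4 + 8 * x ^ 3 + 24 * x ^ 2 + 32 * x + 16 := by ring
    rw [h3] at hK
    omega

theorem good_k {A Q : ℤ[X][X]} (hA : Irreducible A) (hA0 : 0 < A.natDegree) (hQ : Q ≠ 0)
    (hlt : Q.natDegree < A.natDegree) (θ1 θ2 : ℂ) (K : ℕ) (hK : (2 * dT A * dT Q + 2) ^ 4 ≤ K)
    (hK2 : dT A < K) :
    ∃ k : ℕ, 1 ≤ k ∧ k ≤ K ∧ (shr k A).natDegree = dT A ∧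
      (∃ c : ℤ, c ≠ 0 ∧ (shr k A).leadingCoeff = C c) ∧
      (∀ q ∈ Zs A Q, ∀ q' ∈ Zs A Q, q.1 + k * q.2 = q'.1 + k * q'.2 → q = q') ∧
      (∀ q ∈ Zs A Q, max ‖θ1 - q.1‖ ‖θ2 - q.2‖ ≤
        (2 * K + 1) * ‖(θ1 + k * θ2) - (q.1 + k * q.2)‖) ∧
      ∀ q ∈ Zs A Q, HGood k K q := by
  classical
  obtain ⟨hfin, hcard⟩ := Zs_finite hA hA0 hQ hlt
  obtain ⟨Bad, hBad, hlead⟩ := shr_lead A hA.ne_zero
  obtain ⟨Z, hZ⟩ : ∃ Z : Finset (ℂ × ℂ), Z = hfin.toFinset := ⟨_, rfl⟩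
  have hZm : ∀ q, q ∈ Z ↔ q ∈ Zs A Q := fun q => by rw [hZ, Set.Finite.mem_toFinset]
  have hZc : Z.card ≤ (2 * dT A * dT Q) ^ 2 := by
    rw [hZ, ← Set.ncard_eq_toFinset_card _ hfin]
    exact hcard
  have hK1 : 1 ≤ K := by omega
  have hD : 0 < dT A := hA0.trans_le (natDegree_le_dT A)
  obtain ⟨S, hS⟩ : ∃ S : Finset ℕ, S = Finset.Icc 1 K := ⟨_, rfl⟩
  have hSc : S.card = K := by rw [hS, Nat.card_Icc]; omega
  have hSm : ∀ k, k ∈ S ↔ 1 ≤ k ∧ k ≤ K := fun k => by rw [hS, Finset.mem_Icc]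
  obtain ⟨B1, hB1⟩ : ∃ B1, B1 = S.filter fun k : ℕ => (k : ℤ) ∈ Bad := ⟨_, rfl⟩
  obtain ⟨B2, hB2⟩ : ∃ B2, B2 = (Z ×ˢ Z).biUnion fun x => S.filter fun k : ℕ =>
    x.1 ≠ x.2 ∧ x.1.1 + k * x.1.2 = x.2.1 + k * x.2.2 := ⟨_, rfl⟩
  obtain ⟨B3, hB3⟩ : ∃ B3, B3 = Z.biUnion fun q => S.filter fun k : ℕ =>
    ¬ max ‖θ1 - q.1‖ ‖θ2 - q.2‖ ≤ (2 * K + 1) * ‖(θ1 + k * θ2) - (q.1 + k * q.2)‖ := ⟨_, rfl⟩
  obtain ⟨B4, hB4⟩ : ∃ B4, B4 = Z.biUnion fun q => S.filter fun k : ℕ => ¬ HGood k K q := ⟨_, rfl⟩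
  have c1 : B1.card ≤ dT A := by
    refine le_trans ?_ hBad
    refine Finset.card_le_card_of_injOn (fun k : ℕ => (k : ℤ)) ?_ (fun a _ b _ h => by simpa using h)
    intro k hk
    rw [hB1] at hk
    exact (Finset.mem_filter.1 hk).2
  have c2 : B2.card ≤ Z.card * Z.card := by
    rw [hB2, ← Finset.card_product, ← mul_one (Z ×ˢ Z).card]
    refine Finset.card_biUnion_le_card_mul _ _ _ fun x _ => ?_
    rw [Finset.card_le_one]
    intro k hk k' hk'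
    rw [Finset.mem_filter] at hk hk'
    exact Pi_two x.1 x.2 hk.2.1 k k' hk.2.2 hk'.2.2
  have c3 : B3.card ≤ Z.card := by
    rw [hB3, ← mul_one Z.card]
    refine Finset.card_biUnion_le_card_mul _ _ _ fun x _ => ?_
    rw [Finset.card_le_one]
    intro k hk k' hk'
    rw [Finset.mem_filter] at hk hk'
    exact Pi_dist θ1 θ2 x K k k' hK1 ((hSm k).1 hk.1).2 hk.2 hk'.2
  have c4 : B4.card ≤ Z.card := by
    rw [hB4, ← mul_one Z.card]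
    refine Finset.card_biUnion_le_card_mul _ _ _ fun x _ => ?_
    rw [Finset.card_le_one]
    intro k hk k' hk'
    rw [Finset.mem_filter] at hk hk'
    have a := (hSm k).1 hk.1
    have b := (hSm k').1 hk'.1
    exact Pi_height x K k k' a.1 a.2 b.1 b.2 hk.2 hk'.2
  have hnum := Pi_num (dT A) (dT Q) K Z.card hD hZc hK hK2
  have hU : (B1 ∪ B2 ∪ B3 ∪ B4).card < S.card := by
    have u1 := Finset.card_union_le (B1 ∪ B2 ∪ B3) B4
    have u2 := Finset.card_union_le (B1 ∪ B2) B3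
    have u3 := Finset.card_union_le B1 B2
    rw [hSc]
    omega
  obtain ⟨k, hkS, hkU⟩ := Finset.exists_mem_notMem_of_card_lt_card hU
  have hk := (hSm k).1 hkS
  simp only [Finset.mem_union, not_or] at hkU
  obtain ⟨⟨⟨n1, n2⟩, n3⟩, n4⟩ := hkU
  have hkB : (k : ℤ) ∉ Bad := fun h => n1 (by rw [hB1]; exact Finset.mem_filter.2 ⟨hkS, h⟩)
  obtain ⟨l1, l2⟩ := hlead k hkB
  refine ⟨k, hk.1, hk.2, l1, l2, ?_, ?_, ?_⟩
  · intro q hq q' hq' h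
    by_contra hne
    refine n2 ?_
    rw [hB2]
    refine Finset.mem_biUnion.2 ⟨(q, q'), Finset.mem_product.2 ⟨(hZm q).2 hq, (hZm q').2 hq'⟩, ?_⟩
    exact Finset.mem_filter.2 ⟨hkS, hne, h⟩
  · intro q hq
    by_contra hne
    refine n3 ?_
    rw [hB3]
    exact Finset.mem_biUnion.2 ⟨q, (hZm q).2 hq, Finset.mem_filter.2 ⟨hkS, hne⟩⟩
  · intro q hq
    by_contra hne
    refine n4 ?_
    rw [hB4]
    exact Finset.mem_biUnion.2 ⟨q, (hZm q).2 hq, Finset.mem_filter.2 ⟨hkS, hne⟩⟩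

end CZ
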