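import Pool.Agent.H32.CZ.Po
import Pool.Agent.H32.CZ.Pj
import Pool.Agent.H32.CZ.Hc

/-!
# MP_ede373, cubic points, row Pk: the algebraic point

Notation: `u = θ1 + k θ2`, `R = RR k A Q ≠ 0` (`RR_ne_zero`, `natDegree (shr k A) = dT A ≥ natDegree A > 0`),
`s = natDegree R + log (mah R)`, `ℓ = 1 + log (2K+1)`. `R(u) ≠ 0`: otherwise `u` is algebraic, but
`θ1, θ2` are algebraically independent (or use `RR_root`: `R(u) = 0` would give a common zero ...; simplest:
`u = θ1 + kθ2` transcendental: `R(X + kY)` composed is a nonzero polynomial in `θ1, θ2`: it is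
`evH θ1 θ2 (shr (-k) (C R))`, nonzero by `evH_ne_zero`).
`good_factor`: `r` irreducible, `n = natDegree r > 0`, `ν = n + log (mah r) ≤ s`, `V ν ≤ s (-log ‖r(u)‖)`.
Let `y0 ∈ ℂ` be a root of `r`; `R(y0) = 0`, so by `RR_root` there is `q ∈ Zs A Q` with `q.1 + k q.2 = y0`
(`q = (y0 - k v, v)`). `E = Fq q`, a number field (`Zs_alg`), `x = ![g1 q, g2 q]`, `y = g1 q + k g2 q ∈ E`, `r(y) = 0`.
Every embedding `φ : E →+* ℂ` maps `(g1, g2)` to a point of `Zs A Q` (`map_evH`), and `φ y = φ' y` implies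
`(φ g1, φ g2) = (φ' g1, φ' g2)` (injectivity of `q ↦ q.1 + k q.2` on `Zs`), hence `φ = φ'` (generators of `E`;
e.g. `IntermediateField.adjoin` induction/`algHom_ext_of_eq_adjoin`). So the map `φ ↦ φ y` is injective
from the `finrank ℚ E` embeddings into the roots of `r`, so `finrank ℚ E ≤ n`; and `n ≤ finrank` because `r` is
(up to a constant) the minimal polynomial of `y` over `ℚ`. So `n = finrank ℚ E` and `φ ↦ φ y` is a bijection
onto the roots of `r` (all simple).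
Heights: `hE y ≤ log (mah r) ≤ ν` (`hE_root`), `HGood`: `hE (x i) ≤ 2 ν + 2 n log (2K) ≤ 4 ν ℓ`. `finrank = n ≤ ν ≤ 4 ν ℓ`.
Closeness: for `φ` put `dist = max ‖θ1 - φ g1‖ ‖θ2 - φ g2‖`, `S = {φ | dist ≤ 1}`, `d φ = -log dist` (if `dist ≠ 0`,
which holds since `θ1` is transcendental). `‖u - φ y‖ ≥ dist / (2K+1)`. Now
`-log ‖r(u)‖ = -log |lc r| - ∑_φ log ‖u - φ y‖ ≤ ∑_φ (log (2K+1) - log dist) ≤ n log (2K+1) + ∑_{φ ∈ S} d φ`
(the terms with `dist > 1` have `-log dist < 0`). So `V ν ≤ s (∑_{φ ∈ S} d φ + ν ℓ)`.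
-/

set_option autoImplicit false

namespace CZ

open Polynomial

theorem Pk_evH_C {B : Type*} [CommRing B] (x y : B) (R : ℤ[X]) : evH x y (C R) = aeval x R := by
  unfold evH
  rw [coe_eval₂RingHom, eval₂_C, coe_eval₂RingHom]
  rfl

theorem Pk_transc {θ1 θ2 : ℂ} (hθ : AlgebraicIndependent ℚ ![θ1, θ2]) (k : ℕ) {R : ℤ[X]} (hR : R ≠ 0) :
    aeval (θ1 + k * θ2) R ≠ 0 := by
  intro h0
  have h1 : shr (-(k : ℤ)) (C R) ≠ 0 := by
    intro h
    have h2 := shr_shr (-(k : ℤ)) (C R)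
    rw [h, map_zero] at h2
    exact hR (C_eq_zero.1 h2.symm)
  have h3 := evH_ne_zero hθ h1
  apply h3
  have h4 := evH_shr (-(k : ℤ)) (θ1 + k * θ2) θ2 (C R)
  have h5 : (θ1 + k * θ2) + ((-(k : ℤ) : ℤ) : ℂ) * θ2 = θ1 := by push_cast; ring
  rw [h5, Pk_evH_C] at h4
  rw [h4]
  exact h0

theorem Pk_numberField {q : ℂ × ℂ} (h : IsAlgebraic ℚ q.1 ∧ IsAlgebraic ℚ q.2) : NumberField (Fq q) := by
  have : FiniteDimensional ℚ (Fq q) := by
    apply IntermediateField.finiteDimensional_adjoin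
    intro x hx
    rcases hx with hx | hx
    · rw [hx]
      exact h.1.isIntegral
    · rw [Set.mem_singleton_iff.1 hx]
      exact h.2.isIntegral
  exact { to_charZero := inferInstance, to_finiteDimensional := this }

theorem plane_local (θ1 θ2 : ℂ) (hθ : AlgebraicIndependent ℚ ![θ1, θ2]) {A Q : ℤ[X][X]}
    (hA : Irreducible A) (hA0 : 0 < A.natDegree) (hQ : Q ≠ 0) (hlt : Q.natDegree < A.natDegree)
    (K k : ℕ) (hk1 : 1 ≤ k) (hkK : k ≤ K) (hdeg : (shr k A).natDegree = dT A)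
    (hlead : ∃ c : ℤ, c ≠ 0 ∧ (shr k A).leadingCoeff = C c)
    (hinj : ∀ q ∈ Zs A Q, ∀ q' ∈ Zs A Q, q.1 + k * q.2 = q'.1 + k * q'.2 → q = q')
    (hclose : ∀ q ∈ Zs A Q, max ‖θ1 - q.1‖ ‖θ2 - q.2‖ ≤
        (2 * K + 1) * ‖(θ1 + k * θ2) - (q.1 + k * q.2)‖)
    (hgood : ∀ q ∈ Zs A Q, HGood k K q) (V : ℝ) (hV : 0 < V)
    (h : ‖aeval (θ1 + k * θ2) (RR k A Q)‖ ≤ Real.exp (-V)) :
    ∃ ν W : ℝ, 1 ≤ ν ∧ ν ≤ (RR k A Q).natDegree + Real.log (mah (RR k A Q)) ∧
      ApprAt ![θ1, θ2] (4 * ν * (1 + Real.log (2 * K + 1))) W ∧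
      V * ν ≤ ((RR k A Q).natDegree + Real.log (mah (RR k A Q))) *
        (W + ν * (1 + Real.log (2 * K + 1))) := by
  classical
  have hk0 : 0 < (shr k A).natDegree := by
    rw [hdeg]
    exact hA0.trans_le (natDegree_le_dT A)
  have hR : RR k A Q ≠ 0 := RR_ne_zero hA hA0 hQ hlt k hk0
  obtain ⟨c, hc, hl⟩ := hlead
  obtain ⟨r, hr, hn, hdvd, hsize, hVr⟩ := good_factor (RR k A Q) hR (θ1 + k * θ2) V hV (Pk_transc hθ k hR) h
  have hr0 : r ≠ 0 := hr.ne_zero
  have hmah : 1 ≤ mah r := one_le_mah hr0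
  set ν : ℝ := r.natDegree + Real.log (mah r) with hν
  have hlog0 : 0 ≤ Real.log (mah r) := Real.log_nonneg hmah
  have hn1 : (1 : ℝ) ≤ r.natDegree := by exact_mod_cast hn
  have hν1 : 1 ≤ ν := by linarith
  -- the point
  obtain ⟨y0, hy0⟩ : ∃ y0 : ℂ, aeval y0 r = 0 := by
    apply IsAlgClosed.exists_aeval_eq_zero
    intro hd
    rw [← natDegree_eq_zero_iff_degree_le_zero.2 hd.le] at hn
    exact absurd hn (lt_irrefl _)
  have hRy0 : aeval y0 (RR k A Q) = 0 := by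
    obtain ⟨g, hg⟩ := hdvd
    rw [hg, map_mul, hy0, zero_mul]
  obtain ⟨v, hv⟩ := (RR_root hA hA0 hQ hlt k c hc hl y0).1 hRy0
  set q : ℂ × ℂ := (y0 - ((k : ℤ) : ℂ) * v, v) with hq
  have hqy : q.1 + k * q.2 = y0 := by
    rw [hq]
    push_cast
    ring
  have hNF : NumberField (Fq q) := Pk_numberField (Zs_alg hA hA0 hQ hlt hv)
  set y : Fq q := g1 q + k * g2 q with hy
  have hyr : aeval y r = 0 := by
    have h1 : (algebraMap (Fq q) ℂ) (aeval y r) = 0 := by
      rw [← aeval_algebraMap_apply]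
      have h2 : algebraMap (Fq q) ℂ y = y0 := by
        rw [← hqy, hy, map_add, map_mul, map_natCast]
        rfl
      rw [h2]
      exact hy0
    exact (map_eq_zero _).1 h1
  obtain ⟨hfin, hroots⟩ := Fq_roots k hinj hv r hr hyr
  have hhE : hE y ≤ Real.log (mah r) := hE_root r hr y hyr hfin
  obtain ⟨hg1, hg2⟩ := hgood q hv hNF
  have hK1 : (1 : ℝ) ≤ K := by exact_mod_cast hk1.trans hkK
  set l : ℝ := Real.log (2 * K + 1) with hl'
  have hlogK : Real.log (2 * K) ≤ l := Real.log_le_log (by positivity) (by linarith)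
  have hlogK0 : 0 ≤ Real.log (2 * K) := Real.log_nonneg (by linarith)
  have hl0 : 0 ≤ l := hlogK0.trans hlogK
  have hfinR : (Module.finrank ℚ (Fq q) : ℝ) ≤ ν := by
    rw [← hfin]
    linarith
  have hfin0 : (0 : ℝ) ≤ Module.finrank ℚ (Fq q) := Nat.cast_nonneg _
  have hbound : 2 * hE y + 2 * Module.finrank ℚ (Fq q) * Real.log (2 * K) ≤ 4 * ν * (1 + l) := by
    have h1 : hE y ≤ ν := by linarith
    have h2 : (Module.finrank ℚ (Fq q) : ℝ) * Real.log (2 * K) ≤ ν * l := by gcongr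
    have h3 : 0 ≤ ν * l := by positivity
    linarith
  -- closeness
  set dist : (Fq q →+* ℂ) → ℝ := fun φ => max ‖θ1 - φ (g1 q)‖ ‖θ2 - φ (g2 q)‖ with hdist
  have hZ : ∀ φ : Fq q →+* ℂ, (φ (g1 q), φ (g2 q)) ∈ Zs A Q := fun φ => map_mem_Zs hv φ
  have hdpos : ∀ φ, 0 < dist φ := by
    intro φ
    have h0 : 0 ≤ dist φ := le_max_of_le_left (norm_nonneg _)
    refine lt_of_le_of_ne h0 fun h1 => ?_
    have h2 : ‖θ1 - φ (g1 q)‖ ≤ 0 := by rw [h1]; exact le_max_left _ _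
    have h3 : ‖θ2 - φ (g2 q)‖ ≤ 0 := by rw [h1]; exact le_max_right _ _
    have h4 : θ1 = φ (g1 q) := sub_eq_zero.1 (norm_le_zero_iff.1 h2)
    have h5 : θ2 = φ (g2 q) := sub_eq_zero.1 (norm_le_zero_iff.1 h3)
    have h6 : evH (φ (g1 q)) (φ (g2 q)) A = 0 := (hZ φ).1
    rw [← h4, ← h5] at h6
    exact evH_ne_zero hθ hA.ne_zero h6
  have hcl : ∀ φ : Fq q →+* ℂ, dist φ ≤ (2 * K + 1) * ‖(θ1 + k * θ2) - φ y‖ := by
    intro φ
    have h1 := hclose _ (hZ φ)
    have h2 : φ y = φ (g1 q) + k * φ (g2 q) := by rw [hy, map_add, map_mul, map_natCast]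
    rw [h2]
    exact h1
  set S : Finset (Fq q →+* ℂ) := Finset.univ.filter fun φ => dist φ ≤ 1 with hS
  refine ⟨ν, ∑ φ ∈ S, (-Real.log (dist φ)), hν1, hsize, ?_, ?_⟩
  · refine ⟨Fq q, inferInstance, hNF, ![g1 q, g2 q], S, fun φ => -Real.log (dist φ), ?_, ?_, ?_, le_refl _⟩
    · have h3 : 0 ≤ ν * l := by positivity
      linarith
    · intro i
      fin_cases i
      · exact hg1.trans hbound
      · exact hg2.trans hbound
    · intro φ hφ
      have hφ1 : dist φ ≤ 1 := (Finset.mem_filter.1 hφ).2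
      have hφ0 := hdpos φ
      refine ⟨?_, ?_⟩
      · have := Real.log_nonpos hφ0.le hφ1
        show 0 ≤ -Real.log (dist φ)
        linarith
      · intro i
        have h1 : Real.exp (-(-Real.log (dist φ))) = dist φ := by
          rw [neg_neg, Real.exp_log hφ0]
        show _ ≤ Real.exp (-(-Real.log (dist φ)))
        rw [h1]
        fin_cases i
        · show ‖φ (g1 q) - θ1‖ ≤ dist φ
          rw [norm_sub_rev]
          exact le_max_left _ _
        · show ‖φ (g2 q) - θ2‖ ≤ dist φ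
          rw [norm_sub_rev]
          exact le_max_right _ _
  · have hs0 : 0 ≤ (RR k A Q).natDegree + Real.log (mah (RR k A Q)) := by linarith
    have hprod : aeval (θ1 + k * θ2) r = (r.leadingCoeff : ℂ) * ∏ φ : Fq q →+* ℂ, ((θ1 + k * θ2) - φ y) := by
      have h1 := (IsAlgClosed.splits (r.map (Int.castRingHom ℂ))).eval_eq_prod_roots (θ1 + k * θ2)
      rw [hroots] at h1
      have h2 : (r.map (Int.castRingHom ℂ)).leadingCoeff = (r.leadingCoeff : ℂ) := by
        rw [leadingCoeff_map_of_injective (RingHom.injective_int _)]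
        rfl
      rw [h2, Multiset.map_map, eval_map] at h1
      rw [aeval_def]
      exact h1
    have hlc : (1 : ℝ) ≤ ‖(r.leadingCoeff : ℂ)‖ := by
      have h1 : r.leadingCoeff ≠ 0 := leadingCoeff_ne_zero.2 hr0
      have h2 : (1 : ℤ) ≤ |r.leadingCoeff| := Int.one_le_abs h1
      rw [Complex.norm_intCast]
      exact_mod_cast h2
    have hupos : ∀ φ : Fq q →+* ℂ, 0 < ‖(θ1 + k * θ2) - φ y‖ := by
      intro φ
      have h1 := (hdpos φ).trans_le (hcl φ)
      by_contra h2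
      have h3 : ‖(θ1 + k * θ2) - φ y‖ ≤ 0 := not_lt.1 h2
      have h4 : (2 * (K : ℝ) + 1) * ‖(θ1 + k * θ2) - φ y‖ ≤ 0 :=
        mul_nonpos_of_nonneg_of_nonpos (by positivity) h3
      linarith
    have hlogr : -Real.log ‖aeval (θ1 + k * θ2) r‖ ≤ r.natDegree * l + ∑ φ ∈ S, (-Real.log (dist φ)) := by
      rw [hprod, norm_mul, norm_prod, Real.log_mul (by positivity) (Finset.prod_ne_zero_iff.2 fun φ _ => (hupos φ).ne'),
        Real.log_prod fun φ _ => (hupos φ).ne']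
      have h1 : 0 ≤ Real.log ‖(r.leadingCoeff : ℂ)‖ := Real.log_nonneg hlc
      have h2 : ∀ φ : Fq q →+* ℂ, -Real.log ‖(θ1 + k * θ2) - φ y‖ ≤ l + (-Real.log (dist φ)) := by
        intro φ
        have h3 := Real.log_le_log (hdpos φ) (hcl φ)
        rw [Real.log_mul (by positivity) (hupos φ).ne'] at h3
        linarith
      have h4 : ∑ φ : Fq q →+* ℂ, -Real.log ‖(θ1 + k * θ2) - φ y‖ ≤
          ∑ φ : Fq q →+* ℂ, (l + (-Real.log (dist φ))) := Finset.sum_le_sum fun φ _ => h2 φ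
      have h5 : ∑ φ : Fq q →+* ℂ, (l + (-Real.log (dist φ))) =
          r.natDegree * l + ∑ φ : Fq q →+* ℂ, (-Real.log (dist φ)) := by
        rw [Finset.sum_add_distrib, Finset.sum_const, nsmul_eq_mul, Finset.card_univ,
          NumberField.Embeddings.card, ← hfin]
      have h6 : ∑ φ : Fq q →+* ℂ, (-Real.log (dist φ)) ≤ ∑ φ ∈ S, (-Real.log (dist φ)) := by
        rw [← Finset.sum_filter_add_sum_filter_not Finset.univ (fun φ => dist φ ≤ 1)]
        have h7 : ∑ φ ∈ Finset.univ.filter (fun φ => ¬ dist φ ≤ 1), (-Real.log (dist φ)) ≤ 0 := by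
          apply Finset.sum_nonpos
          intro φ hφ
          have h8 := (Finset.mem_filter.1 hφ).2
          have h9 := Real.log_nonneg (not_le.1 h8).le
          linarith
        linarith
      rw [Finset.sum_neg_distrib] at h4
      linarith
    have h10 : (r.natDegree : ℝ) * l ≤ ν * (1 + l) := by
      have h11 : (r.natDegree : ℝ) ≤ ν := by linarith
      have h12 : (r.natDegree : ℝ) * l ≤ ν * l := by gcongr
      linarith
    refine hVr.trans ?_
    apply mul_le_mul_of_nonneg_left _ hs0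
    linarith

end CZ
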