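import Pool.Agent.H32.CZ.Pk
import Pool.Agent.H32.CZ.Pd
import Pool.Agent.H32.CZ.Pg

/-!
# MP_ede373, cubic points, row Pl: the estimates in the plane

Notation: `μ = mu2 A ≥ a = natDegree A ≥ 1`, `dX A ≤ a`, `U = -log ‖A(θ)‖ ≥ T^2 μ / 32` (`A(θ) ≠ 0`,
`evH_ne_zero`), `μ ≤ 8 T`. So `U ≥ μ^3 / 2048`. `second` with `c0 = 1/2048`: constant `C1` and `Q`.
`Y = √(U/μ) ≥ T / 6`; `μ ≤ 8 T ≤ 48 Y`; `√(U μ) = Y μ`, `U = Y^2 μ`. All constants below depend only on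
`θ1, θ2`; `T` (so `Y`) is large.
* `dT A ≤ a + dX A ≤ 2 a ≤ 2 μ`, `dX Q ≤ C1 Y`, `dT Q ≤ a + C1 Y ≤ C Y`, `log (nr2 Q) ≤ C1 Y μ / a`.
* `K = (2 dT A dT Q + 2)^4 + dT A + 1 ≤ C Y^8`, so `log (2K+1) ≤ C log Y`. `good_k` gives `k ≤ K`.
* `f = shr k A`, `g = shr k Q`, `m = natDegree f = dT A ≤ 2a`, `n = natDegree g ≤ dT Q ≤ C Y`, `dX f ≤ a`,
  `dX g ≤ C1 Y`, `log (nr2 f) ≤ a log (1+K) + μ ≤ C μ log Y`, `log (nr2 g) ≤ C1 Y log (1+K) + C1 Y μ / a ≤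
  C Y log Y + C Y μ / a`.
* `R = RR k A Q` (`= resultant f g m n`): `natDegree R ≤ n a + m C1 Y ≤ C Y a ≤ C Y μ`;
  `log (mah R) ≤ log (nr R) ≤ n log (nr2 f) + m log (nr2 g) ≤ C Y μ log Y + 2 a (C Y log Y + C Y μ/a) ≤ C Y μ log Y`
  (`mah_le_nr`, `nr_resultant_le`). So `s = natDegree R + log (mah R) ≤ C Y μ log Y`.
* `resultant_small` with `u = θ1 + kθ2`, `v = θ2`, `B' = (K+1) (1 + ‖θ1‖ + ‖θ2‖)`, `log B' ≤ C log Y`:
  `log ‖R(u)‖ ≤ log (m+n) + (m+n) log B' + n (log nr2 f + a log B') + m (log nr2 g + C1 Y log B') + log 2 - U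
  ≤ C Y μ log Y - U ≤ -U/2` since `U = Y^2 μ` and `Y` is large (`evH_shr`: `evH u v f = A(θ)`, norm `= e^{-U}`;
  `‖evH u v g‖ = ‖Q(θ)‖ ≤ e^{-U}`). `V = U/2`.
* `plane_local`: `ν ≤ s`, `W`, `ℓ = 1 + log (2K+1) ≤ C log Y`: `(Y^2 μ/2) ν ≤ C Y μ log Y (W + ν ℓ)`, so
  `Y ν ≤ C log Y (W + C ν log Y)`, and for `Y` large `Y ν ≤ 2 C log Y W`. With `t = 4 ν ℓ ≥ 1`:
  `t ≤ 4 s ℓ ≤ C Y μ (log Y)^2 ≤ C Y^2 (log Y)^2`, `Y t = 4 ℓ Y ν ≤ C (log Y)^2 W`.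
-/

set_option autoImplicit false

namespace CZ

open Polynomial

theorem Pl_large (D : ℝ) : ∃ Y0 : ℝ, 1 ≤ Y0 ∧ ∀ Y : ℝ, Y0 ≤ Y → D * Real.log Y ^ 2 ≤ Y := by
  have h := (Real.isLittleO_pow_log_id_atTop (n := 2)).def (c := 1 / (|D| + 1)) (by positivity)
  rw [Filter.eventually_atTop] at h
  obtain ⟨a, ha⟩ := h
  refine ⟨max 1 a, le_max_left _ _, fun Y hY => ?_⟩
  have h1 := ha Y ((le_max_right _ _).trans hY)
  have hY1 : 1 ≤ Y := (le_max_left _ _).trans hY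
  simp only [id, Real.norm_eq_abs] at h1
  rw [abs_of_nonneg (by positivity : (0 : ℝ) ≤ Real.log Y ^ 2),
    abs_of_nonneg (by linarith : (0 : ℝ) ≤ Y)] at h1
  have h2 : D * Real.log Y ^ 2 ≤ (|D| + 1) * Real.log Y ^ 2 := by
    apply mul_le_mul_of_nonneg_right _ (by positivity)
    linarith [le_abs_self D]
  have h3 : (|D| + 1) * Real.log Y ^ 2 ≤ (|D| + 1) * (1 / (|D| + 1) * Y) :=
    mul_le_mul_of_nonneg_left h1 (by positivity)
  have h4 : (|D| + 1) * (1 / (|D| + 1) * Y) = Y := by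
    field_simp
  linarith

theorem Pl_num1 {a μ Y L C1 m n df dg lf lg b : ℝ} (ha : 1 ≤ a) (haμ : a ≤ μ) (hY : 1 ≤ Y)
    (hL : 1 ≤ L) (hC : 1 ≤ C1) (hm0 : 0 ≤ m) (hm : m ≤ 2 * a) (hn0 : 0 ≤ n)
    (hn : n ≤ (48 + C1) * Y) (hdf : df ≤ a) (hdg : dg ≤ C1 * Y)
    (hlf : lf ≤ 10 * μ * L) (hlg : lg ≤ 9 * C1 * Y * L + C1 * (Y * μ) / a) (hb0 : 0 ≤ b)
    (hb : b ≤ 10 * L) :
    (m + n) + (m + n) * b + n * (lf + df * b) + m * (lg + dg * b) + 1 ≤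
      (1511 + 71 * C1) * (Y * μ * L) := by
  have hμ1 : 1 ≤ μ := ha.trans haμ
  have ha0 : 0 < a := by linarith
  have hμY : μ ≤ Y * μ := le_mul_of_one_le_left (by linarith) hY
  have hYY : Y ≤ Y * μ := le_mul_of_one_le_right (by linarith) hμ1
  have hYμ : 1 ≤ Y * μ := hY.trans hYY
  have hP : Y * μ ≤ Y * μ * L := le_mul_of_one_le_right (by linarith) hL
  have hn1 : n ≤ (48 + C1) * (Y * μ) := hn.trans (mul_le_mul_of_nonneg_left hYY (by linarith))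
  have hmn : m + n ≤ (50 + C1) * (Y * μ) := by
    have h1 : m ≤ 2 * (Y * μ) := by linarith
    linarith
  have t2 : (m + n) * b ≤ (50 + C1) * (Y * μ) * (10 * L) :=
    mul_le_mul hmn hb hb0 (by positivity)
  have t3a : df * b ≤ μ * (10 * L) := by
    have h1 : df * b ≤ μ * b := mul_le_mul_of_nonneg_right (hdf.trans haμ) hb0
    have h2 : μ * b ≤ μ * (10 * L) := mul_le_mul_of_nonneg_left hb (by linarith)
    linarith
  have t3 : n * (lf + df * b) ≤ ((48 + C1) * Y) * (20 * μ * L) := by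
    have h1 : lf + df * b ≤ 20 * μ * L := by linarith
    have h2 : n * (lf + df * b) ≤ n * (20 * μ * L) := mul_le_mul_of_nonneg_left h1 hn0
    have h3 : n * (20 * μ * L) ≤ ((48 + C1) * Y) * (20 * μ * L) :=
      mul_le_mul_of_nonneg_right hn (by positivity)
    linarith
  have t4 : m * (lg + dg * b) ≤ 2 * a * (19 * C1 * Y * L + C1 * (Y * μ) / a) := by
    have h0 : dg * b ≤ C1 * Y * (10 * L) := by
      have h1 : dg * b ≤ C1 * Y * b := mul_le_mul_of_nonneg_right hdg hb0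
      have h2 : C1 * Y * b ≤ C1 * Y * (10 * L) := mul_le_mul_of_nonneg_left hb (by positivity)
      linarith
    have h1 : lg + dg * b ≤ 19 * C1 * Y * L + C1 * (Y * μ) / a := by linarith
    have h2 : m * (lg + dg * b) ≤ m * (19 * C1 * Y * L + C1 * (Y * μ) / a) :=
      mul_le_mul_of_nonneg_left h1 hm0
    have h3 : m * (19 * C1 * Y * L + C1 * (Y * μ) / a) ≤
        2 * a * (19 * C1 * Y * L + C1 * (Y * μ) / a) :=
      mul_le_mul_of_nonneg_right hm (by positivity)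
    linarith
  have t5 : 2 * a * (19 * C1 * Y * L + C1 * (Y * μ) / a) =
      38 * C1 * (Y * a * L) + 2 * C1 * (Y * μ) := by
    field_simp
    ring
  have t6 : Y * a * L ≤ Y * μ * L :=
    mul_le_mul_of_nonneg_right (mul_le_mul_of_nonneg_left haμ (by linarith)) (by linarith)
  have t7 : 38 * C1 * (Y * a * L) ≤ 38 * C1 * (Y * μ * L) :=
    mul_le_mul_of_nonneg_left t6 (by linarith)
  have t8 : 2 * C1 * (Y * μ) ≤ 2 * C1 * (Y * μ * L) := mul_le_mul_of_nonneg_left hP (by linarith)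
  have t9 : (50 + C1) * (Y * μ) ≤ (50 + C1) * (Y * μ * L) :=
    mul_le_mul_of_nonneg_left hP (by linarith)
  have t10 : (50 + C1) * (Y * μ) * (10 * L) = (500 + 10 * C1) * (Y * μ * L) := by ring
  have t11 : ((48 + C1) * Y) * (20 * μ * L) = (960 + 20 * C1) * (Y * μ * L) := by ring
  rw [t5] at t4
  rw [t10] at t2
  rw [t11] at t3
  have e : (1511 + 71 * C1) * (Y * μ * L) = (50 + C1) * (Y * μ * L) +
      (500 + 10 * C1) * (Y * μ * L) + (960 + 20 * C1) * (Y * μ * L) +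
      (38 * C1 * (Y * μ * L) + 2 * C1 * (Y * μ * L)) + Y * μ * L := by ring
  rw [e]
  linarith

theorem Pl_num2 {a μ Y L C1 m n df dg lf lg : ℝ} (ha : 1 ≤ a) (haμ : a ≤ μ) (hY : 1 ≤ Y)
    (hL : 1 ≤ L) (hC : 1 ≤ C1) (hm0 : 0 ≤ m) (hm : m ≤ 2 * a) (hn0 : 0 ≤ n)
    (hn : n ≤ (48 + C1) * Y) (hdf : df ≤ a) (hdg : dg ≤ C1 * Y)
    (hlf : lf ≤ 10 * μ * L) (hlg : lg ≤ 9 * C1 * Y * L + C1 * (Y * μ) / a) :
    (n * df + m * dg) + (n * lf + m * lg) ≤ (528 + 33 * C1) * (Y * μ * L) := by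
  have hμ1 : 1 ≤ μ := ha.trans haμ
  have ha0 : 0 < a := by linarith
  have hYa : 0 ≤ Y * a := by positivity
  have hP : Y * μ ≤ Y * μ * L := le_mul_of_one_le_right (by positivity) hL
  have hYaμ : Y * a ≤ Y * μ := mul_le_mul_of_nonneg_left haμ (by linarith)
  have s1 : n * df ≤ (48 + C1) * (Y * a) := by
    have h1 : n * df ≤ n * a := mul_le_mul_of_nonneg_left hdf hn0
    have h2 : n * a ≤ (48 + C1) * Y * a := mul_le_mul_of_nonneg_right hn ha0.le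
    linarith
  have s2 : m * dg ≤ 2 * C1 * (Y * a) := by
    have h1 : m * dg ≤ m * (C1 * Y) := mul_le_mul_of_nonneg_left hdg hm0
    have h2 : m * (C1 * Y) ≤ 2 * a * (C1 * Y) := mul_le_mul_of_nonneg_right hm (by positivity)
    linarith
  have s3 : n * lf ≤ (480 + 10 * C1) * (Y * μ * L) := by
    have h1 : n * lf ≤ n * (10 * μ * L) := mul_le_mul_of_nonneg_left hlf hn0
    have h2 : n * (10 * μ * L) ≤ (48 + C1) * Y * (10 * μ * L) :=
      mul_le_mul_of_nonneg_right hn (by positivity)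
    linarith
  have s4 : m * lg ≤ 18 * C1 * (Y * a * L) + 2 * C1 * (Y * μ) := by
    have h1 : m * lg ≤ m * (9 * C1 * Y * L + C1 * (Y * μ) / a) := mul_le_mul_of_nonneg_left hlg hm0
    have h2 : m * (9 * C1 * Y * L + C1 * (Y * μ) / a) ≤
        2 * a * (9 * C1 * Y * L + C1 * (Y * μ) / a) :=
      mul_le_mul_of_nonneg_right hm (by positivity)
    have h3 : 2 * a * (9 * C1 * Y * L + C1 * (Y * μ) / a) =
        18 * C1 * (Y * a * L) + 2 * C1 * (Y * μ) := by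
      field_simp
      ring
    linarith
  have s5 : (48 + C1) * (Y * a) ≤ (48 + C1) * (Y * μ * L) :=
    mul_le_mul_of_nonneg_left (hYaμ.trans hP) (by linarith)
  have s6 : 2 * C1 * (Y * a) ≤ 2 * C1 * (Y * μ * L) :=
    mul_le_mul_of_nonneg_left (hYaμ.trans hP) (by linarith)
  have s7 : 18 * C1 * (Y * a * L) ≤ 18 * C1 * (Y * μ * L) :=
    mul_le_mul_of_nonneg_left (mul_le_mul_of_nonneg_right hYaμ (by linarith)) (by linarith)
  have s8 : 2 * C1 * (Y * μ) ≤ 2 * C1 * (Y * μ * L) := mul_le_mul_of_nonneg_left hP (by linarith)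
  have e : (528 + 33 * C1) * (Y * μ * L) = (48 + C1) * (Y * μ * L) + 2 * C1 * (Y * μ * L) +
      (480 + 10 * C1) * (Y * μ * L) + (18 * C1 * (Y * μ * L) + 2 * C1 * (Y * μ * L)) := by ring
  rw [e]
  linarith

theorem Pl_num3 {μ Y L D3 s ν W l : ℝ} (hμ1 : 1 ≤ μ) (hμY : μ ≤ 48 * Y) (hY : 1 ≤ Y) (hL : 1 ≤ L)
    (hD : 0 < D3) (hν : 1 ≤ ν) (hνs : ν ≤ s) (hs : s ≤ D3 * (Y * μ * L)) (hl : 1 ≤ l)
    (hl10 : l ≤ 10 * L) (hbig : 40 * D3 * L ^ 2 ≤ Y)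
    (h : Y ^ 2 * μ / 2 * ν ≤ s * (W + ν * l)) :
    4 * ν * l ≤ 1920 * D3 * Y ^ 2 * L ^ 2 ∧ Y * (4 * ν * l) ≤ 1920 * D3 * L ^ 2 * W := by
  have hs0 : 0 < s := by linarith
  have hpos : 0 < Y ^ 2 * μ / 2 * ν := by positivity
  have hW : 0 < W + ν * l := by
    have h1 : 0 < s * (W + ν * l) := lt_of_lt_of_le hpos h
    exact pos_of_mul_pos_right (by simpa [mul_comm] using h1) hs0.le
  have h1 : s * (W + ν * l) ≤ D3 * (Y * μ * L) * (W + ν * l) :=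
    mul_le_mul_of_nonneg_right hs hW.le
  have h2 : (Y * μ) * (Y * ν / 2) ≤ (Y * μ) * (D3 * L * (W + ν * l)) := by
    have e1 : (Y * μ) * (Y * ν / 2) = Y ^ 2 * μ / 2 * ν := by ring
    have e2 : (Y * μ) * (D3 * L * (W + ν * l)) = D3 * (Y * μ * L) * (W + ν * l) := by ring
    rw [e1, e2]
    exact h.trans h1
  have h3 : Y * ν / 2 ≤ D3 * L * (W + ν * l) := le_of_mul_le_mul_left h2 (by positivity)
  have h4 : ν * l ≤ ν * (10 * L) := mul_le_mul_of_nonneg_left hl10 (by linarith)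
  have h5 : D3 * L * (W + ν * l) ≤ D3 * L * (W + ν * (10 * L)) :=
    mul_le_mul_of_nonneg_left (by linarith) (by positivity)
  have h6 : 40 * D3 * L ^ 2 * ν ≤ Y * ν := mul_le_mul_of_nonneg_right hbig (by linarith)
  have h7 : Y * ν ≤ 4 * D3 * L * W := by
    have e1 : D3 * L * (W + ν * (10 * L)) = D3 * L * W + 40 * D3 * L ^ 2 * ν / 4 := by ring
    rw [e1] at h5
    linarith
  have h8 : 0 < 4 * D3 * L * W := lt_of_lt_of_le (by positivity) h7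
  have hW0 : 0 ≤ W := by
    by_contra hneg
    push Not at hneg
    have : 4 * D3 * L * W < 0 := mul_neg_of_pos_of_neg (by positivity) hneg
    linarith
  constructor
  · have g1 : 4 * ν * l ≤ 4 * (D3 * (Y * μ * L)) * (10 * L) := by
      have g2 : 4 * ν * l ≤ 4 * (D3 * (Y * μ * L)) * l :=
        mul_le_mul_of_nonneg_right (by linarith) (by linarith)
      have g3 : 4 * (D3 * (Y * μ * L)) * l ≤ 4 * (D3 * (Y * μ * L)) * (10 * L) :=
        mul_le_mul_of_nonneg_left hl10 (by positivity)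
      linarith
    have g4 : 4 * (D3 * (Y * μ * L)) * (10 * L) = 40 * D3 * Y * L ^ 2 * μ := by ring
    have g5 : 40 * D3 * Y * L ^ 2 * μ ≤ 40 * D3 * Y * L ^ 2 * (48 * Y) :=
      mul_le_mul_of_nonneg_left hμY (by positivity)
    have g6 : 40 * D3 * Y * L ^ 2 * (48 * Y) = 1920 * D3 * Y ^ 2 * L ^ 2 := by ring
    linarith
  · have g1 : Y * (4 * ν * l) = (Y * ν) * (4 * l) := by ring
    have g2 : (Y * ν) * (4 * l) ≤ (4 * D3 * L * W) * (4 * l) :=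
      mul_le_mul_of_nonneg_right h7 (by linarith)
    have g3 : (4 * D3 * L * W) * (4 * l) ≤ (4 * D3 * L * W) * (4 * (10 * L)) :=
      mul_le_mul_of_nonneg_left (by linarith) h8.le
    have g4 : (4 * D3 * L * W) * (4 * (10 * L)) = 160 * (D3 * L ^ 2 * W) := by ring
    have g5 : 0 ≤ D3 * L ^ 2 * W := by positivity
    have g6 : 1920 * D3 * L ^ 2 * W = 1920 * (D3 * L ^ 2 * W) := by ring
    rw [g6]
    linarith

theorem Pl_exp (m n df dg : ℕ) (B F G E b lf lg U : ℝ) (hB : B = Real.exp b)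
    (hF : F = Real.exp lf) (hG : G = Real.exp lg) (hE : E ≤ Real.exp (1 - U)) :
    ((m : ℝ) + n) * B ^ (m + n) * (F * B ^ df) ^ n * (G * B ^ dg) ^ m * E ≤
      Real.exp (((m : ℝ) + n) + (m + n) * b + n * (lf + df * b) + m * (lg + dg * b) + 1 - U) := by
  have hB0 : 0 < B := by rw [hB]; exact Real.exp_pos _
  have hF0 : 0 < F := by rw [hF]; exact Real.exp_pos _
  have hG0 : 0 < G := by rw [hG]; exact Real.exp_pos _
  have q1 : B ^ (m + n) = Real.exp (((m : ℝ) + n) * b) := by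
    rw [hB, ← Real.exp_nat_mul]
    push_cast
    rfl
  have q2 : (F * B ^ df) ^ n = Real.exp (n * (lf + df * b)) := by
    rw [hF, hB, ← Real.exp_nat_mul, ← Real.exp_add, ← Real.exp_nat_mul]
  have q3 : (G * B ^ dg) ^ m = Real.exp (m * (lg + dg * b)) := by
    rw [hG, hB, ← Real.exp_nat_mul, ← Real.exp_add, ← Real.exp_nat_mul]
  have e1 : Real.exp (((m : ℝ) + n) + (m + n) * b + n * (lf + df * b) + m * (lg + dg * b) + 1 - U) =
      Real.exp ((m : ℝ) + n) * B ^ (m + n) * (F * B ^ df) ^ n * (G * B ^ dg) ^ m *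
        Real.exp (1 - U) := by
    rw [q1, q2, q3, ← Real.exp_add, ← Real.exp_add, ← Real.exp_add, ← Real.exp_add]
    congr 1
    ring
  rw [e1]
  have h1 : ((m : ℝ) + n) ≤ Real.exp ((m : ℝ) + n) := by
    have := Real.add_one_le_exp ((m : ℝ) + n)
    linarith
  have h2 : ((m : ℝ) + n) * B ^ (m + n) * (F * B ^ df) ^ n * (G * B ^ dg) ^ m ≤
      Real.exp ((m : ℝ) + n) * B ^ (m + n) * (F * B ^ df) ^ n * (G * B ^ dg) ^ m := by
    gcongr
  exact (mul_le_mul_of_nonneg_left hE (by positivity)).trans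
    (mul_le_mul_of_nonneg_right h2 (Real.exp_pos _).le)

theorem Pl_shr {P : ℤ[X][X]} (hP : P ≠ 0) (k : ℕ) {M : ℝ} (hM : Real.log (1 + (k : ℝ)) ≤ M) :
    shr (k : ℤ) P ≠ 0 ∧ Real.log (nr2 (shr (k : ℤ) P)) ≤ dX P * M + Real.log (nr2 P) := by
  have h0 : shr (k : ℤ) P ≠ 0 := by
    intro h
    apply hP
    rw [← shr_shr (k : ℤ) P, h, map_zero]
  refine ⟨h0, ?_⟩
  have h1 := nr2_shr_le (k : ℤ) P
  have h2 : |(((k : ℤ)) : ℝ)| = (k : ℝ) := by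
    rw [Int.cast_natCast]
    exact abs_of_nonneg (Nat.cast_nonneg k)
  rw [h2] at h1
  have h3 := one_le_nr2 h0
  have h4 := one_le_nr2 hP
  have hk : (0 : ℝ) < 1 + (k : ℝ) := by positivity
  have h5 := Real.log_le_log (by linarith) h1
  rw [Real.log_mul (by positivity) (by linarith), Real.log_pow] at h5
  have h6 : (dX P : ℝ) * Real.log (1 + (k : ℝ)) ≤ dX P * M :=
    mul_le_mul_of_nonneg_left hM (Nat.cast_nonneg _)
  linarith

theorem plane_of_A (θ1 θ2 : ℂ) (hθ : AlgebraicIndependent ℚ ![θ1, θ2]) :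
    ∃ (C : ℝ) (T1 : ℕ), 1 ≤ C ∧ ∀ T : ℕ, T1 ≤ T → ∀ A : ℤ[X][X], Irreducible A →
      0 < A.natDegree → dX A ≤ A.natDegree → mu2 A ≤ 8 * T →
      ‖evH θ1 θ2 A‖ ≤ Real.exp (-((T : ℝ) ^ 2 / 32 * mu2 A)) →
      ∃ Y t W : ℝ, (T : ℝ) ≤ 6 * Y ∧ 1 ≤ t ∧ ApprAt ![θ1, θ2] t W ∧
        t ≤ C * Y ^ 2 * Real.log Y ^ 2 ∧ Y * t ≤ C * Real.log Y ^ 2 * W := by
  obtain ⟨C1, hC1, hsec⟩ := second θ1 θ2 (1 / 2048) (by norm_num)
  obtain ⟨B0, hB0⟩ : ∃ B0 : ℝ, B0 = 1 + ‖θ1‖ + ‖θ2‖ := ⟨_, rfl⟩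
  obtain ⟨D1, hD1⟩ : ∃ D1 : ℝ, D1 = 192 * (48 + C1) + 2 := ⟨_, rfl⟩
  obtain ⟨D2, hD2⟩ : ∃ D2 : ℝ, D2 = 2 * D1 ^ 4 + 195 := ⟨_, rfl⟩
  obtain ⟨D3, hD3⟩ : ∃ D3 : ℝ, D3 = 528 + 33 * C1 := ⟨_, rfl⟩
  obtain ⟨D4, hD4⟩ : ∃ D4 : ℝ, D4 = 1511 + 71 * C1 := ⟨_, rfl⟩
  have hD1p : 0 < D1 := by rw [hD1]; linarith
  have hD2p : 0 < D2 := by rw [hD2]; positivity
  have hD3p : 0 < D3 := by rw [hD3]; linarith
  have hD4p : 0 < D4 := by rw [hD4]; linarith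
  have hB0p : 1 ≤ B0 := by
    rw [hB0]
    linarith [norm_nonneg θ1, norm_nonneg θ2]
  obtain ⟨Y0, hY01, hY0⟩ := Pl_large (40 * D3 + 2 * D4)
  obtain ⟨T1, hT1⟩ := exists_nat_ge (6 * (Y0 + D2 + B0 + Real.exp 1))
  refine ⟨1920 * D3, T1, by linarith, ?_⟩
  intro T hT A hA hA0 hAd hAT hAθ
  have hAne : A ≠ 0 := hA.ne_zero
  have hTR : 6 * (Y0 + D2 + B0 + Real.exp 1) ≤ (T : ℝ) := hT1.trans (by exact_mod_cast hT)
  have hT0 : (0 : ℝ) ≤ T := Nat.cast_nonneg T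
  obtain ⟨μ, hμ⟩ : ∃ μ : ℝ, μ = mu2 A := ⟨_, rfl⟩
  obtain ⟨a, haa⟩ : ∃ a : ℝ, a = (A.natDegree : ℝ) := ⟨_, rfl⟩
  have ha1 : 1 ≤ a := by
    rw [haa]
    exact_mod_cast hA0
  have hlognA : 0 ≤ Real.log (nr2 A) := Real.log_nonneg (one_le_nr2 hAne)
  have hmu : μ = a + dX A + Real.log (nr2 A) := by
    rw [hμ, haa]
    rfl
  have hdXA0 : (0 : ℝ) ≤ dX A := Nat.cast_nonneg _
  have haμ : a ≤ μ := by linarith
  have hlogμ : Real.log (nr2 A) ≤ μ := by linarith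
  have hdXA : (dX A : ℝ) ≤ a := by
    rw [haa]
    exact_mod_cast hAd
  have hμ1 : 1 ≤ μ := ha1.trans haμ
  rw [← hμ] at hAT hAθ
  have hθne := evH_ne_zero hθ hAne
  have hnpos : 0 < ‖evH θ1 θ2 A‖ := norm_pos_iff.mpr hθne
  obtain ⟨U, hUdef⟩ : ∃ U : ℝ, U = -Real.log ‖evH θ1 θ2 A‖ := ⟨_, rfl⟩
  have hUexp : ‖evH θ1 θ2 A‖ = Real.exp (-U) := by
    rw [hUdef, neg_neg, Real.exp_log hnpos]
  have hUT : (T : ℝ) ^ 2 / 32 * μ ≤ U := by
    have h1 := Real.log_le_log hnpos hAθ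
    rw [Real.log_exp] at h1
    linarith
  have hU3 : 1 / 2048 * μ ^ 3 ≤ U := by
    have h1 : μ ^ 2 ≤ (8 * (T : ℝ)) ^ 2 := pow_le_pow_left₀ (by linarith) hAT 2
    have h2 : 1 / 2048 * μ ^ 3 = μ ^ 2 / 2048 * μ := by ring
    have h3 : μ ^ 2 / 2048 * μ ≤ (8 * (T : ℝ)) ^ 2 / 2048 * μ :=
      mul_le_mul_of_nonneg_right (by linarith) (by linarith)
    have h4 : (8 * (T : ℝ)) ^ 2 / 2048 * μ = (T : ℝ) ^ 2 / 32 * μ := by ring
    linarith
  have hUpos : 0 < U := lt_of_lt_of_le (by positivity) hU3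
  rw [hμ] at hU3
  obtain ⟨Q, hQ, hlt, hdXQ, hlogQ, hQθ⟩ := hsec A U hA0 hU3
  rw [← hμ] at hdXQ hlogQ
  obtain ⟨Y, hYdef⟩ : ∃ Y : ℝ, Y = √(U / μ) := ⟨_, rfl⟩
  rw [← hYdef] at hdXQ
  have hY2 : Y ^ 2 = U / μ := by
    rw [hYdef]
    exact Real.sq_sqrt (by positivity)
  have hYnn : 0 ≤ Y := by
    rw [hYdef]
    exact Real.sqrt_nonneg _
  have hUY : U = Y ^ 2 * μ := by
    rw [hY2]
    field_simp
  have hUμ : √(U * μ) = Y * μ := by
    have h1 : U * μ = (Y * μ) ^ 2 := by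
      rw [hUY]
      ring
    rw [h1]
    exact Real.sqrt_sq (by positivity)
  rw [hUμ, ← haa] at hlogQ
  have hTY : (T : ℝ) ≤ 6 * Y := by
    have h1 : (T : ℝ) / 6 ≤ √(U / μ) := by
      apply Real.le_sqrt_of_sq_le
      rw [le_div_iff₀ (by linarith)]
      have h2 : ((T : ℝ) / 6) ^ 2 * μ ≤ (T : ℝ) ^ 2 / 32 * μ := by
        apply mul_le_mul_of_nonneg_right _ (by linarith)
        have h3 : ((T : ℝ) / 6) ^ 2 = (T : ℝ) ^ 2 / 36 := by ring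
        rw [h3]
        linarith [sq_nonneg (T : ℝ)]
      linarith
    rw [← hYdef] at h1
    linarith
  have hYbig : Y0 + D2 + B0 + Real.exp 1 ≤ Y := by linarith
  have he1 : 0 < Real.exp 1 := Real.exp_pos 1
  have hYY0 : Y0 ≤ Y := by linarith
  have hYD2 : D2 ≤ Y := by linarith
  have hYB0 : B0 ≤ Y := by linarith
  have hYe : Real.exp 1 ≤ Y := by linarith
  have hY1 : 1 ≤ Y := hB0p.trans hYB0
  have hYpos : 0 < Y := by linarith
  obtain ⟨L, hLdef⟩ : ∃ L : ℝ, L = Real.log Y := ⟨_, rfl⟩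
  have hL1 : 1 ≤ L := by
    rw [hLdef, Real.le_log_iff_exp_le hYpos]
    exact hYe
  have hμY : μ ≤ 48 * Y := by linarith
  have hbig := hY0 Y hYY0
  rw [← hLdef] at hbig
  have hbig1 : 40 * D3 * L ^ 2 ≤ Y := by
    have h1 : 0 ≤ D4 * L ^ 2 := by positivity
    linarith
  have hbig2 : 2 * D4 * L ≤ Y := by
    have h1 : 0 ≤ D3 * L ^ 2 := by positivity
    have h2 : D4 * L ≤ D4 * L ^ 2 := by
      apply mul_le_mul_of_nonneg_left _ hD4p.le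
      exact le_self_pow₀ hL1 (by norm_num)
    linarith
  -- degrees
  have hdTA : (dT A : ℝ) ≤ 2 * a := by
    have h1 : (dT A : ℝ) ≤ A.natDegree + dX A := by exact_mod_cast dT_le A
    rw [← haa] at h1
    linarith
  have hdTQ : (dT Q : ℝ) ≤ (48 + C1) * Y := by
    have h1 : (dT Q : ℝ) ≤ Q.natDegree + dX Q := by exact_mod_cast dT_le Q
    have h2 : (Q.natDegree : ℝ) ≤ a := by
      rw [haa]
      exact_mod_cast hlt.le
    linarith
  obtain ⟨K, hKdef⟩ : ∃ K : ℕ, K = (2 * dT A * dT Q + 2) ^ 4 + dT A + 1 := ⟨_, rfl⟩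
  have hK1 : (2 * dT A * dT Q + 2) ^ 4 ≤ K := by omega
  have hK2 : dT A < K := by omega
  have hKY : 2 * (K : ℝ) + 1 ≤ Y ^ 9 := by
    have h1 : 2 * (dT A : ℝ) * dT Q + 2 ≤ D1 * Y ^ 2 := by
      have h2 : 2 * (dT A : ℝ) * dT Q ≤ 2 * (96 * Y) * ((48 + C1) * Y) := by
        apply mul_le_mul _ hdTQ (Nat.cast_nonneg _) (by positivity)
        linarith
      have h3 : 1 ≤ Y ^ 2 := one_le_pow₀ hY1
      have e : (192 * (48 + C1) + 2) * Y ^ 2 = 2 * (96 * Y) * ((48 + C1) * Y) + 2 * Y ^ 2 := by ring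
      rw [hD1, e]
      linarith
    have h4 : (2 * (dT A : ℝ) * dT Q + 2) ^ 4 ≤ (D1 * Y ^ 2) ^ 4 :=
      pow_le_pow_left₀ (by positivity) h1 4
    have h5 : (K : ℝ) = (2 * (dT A : ℝ) * dT Q + 2) ^ 4 + dT A + 1 := by
      rw [hKdef]
      push_cast
      ring
    have h6 : 1 ≤ Y ^ 8 := one_le_pow₀ hY1
    have h7 : Y ≤ Y ^ 8 := le_self_pow₀ hY1 (by norm_num)
    have h8 : (D1 * Y ^ 2) ^ 4 = D1 ^ 4 * Y ^ 8 := by ring
    have h9 : 2 * (K : ℝ) + 1 ≤ D2 * Y ^ 8 := by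
      rw [h8] at h4
      have e : (2 * D1 ^ 4 + 195) * Y ^ 8 = 2 * (D1 ^ 4 * Y ^ 8) + 192 * Y ^ 8 + 3 * Y ^ 8 := by ring
      rw [h5, hD2, e]
      linarith
    have h10 : D2 * Y ^ 8 ≤ Y * Y ^ 8 := mul_le_mul_of_nonneg_right hYD2 (by positivity)
    have h11 : Y * Y ^ 8 = Y ^ 9 := by ring
    linarith
  have hK0 : (0 : ℝ) ≤ K := Nat.cast_nonneg K
  have hlogK : Real.log (2 * K + 1) ≤ 9 * L := by
    have h1 := Real.log_le_log (by positivity) hKY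
    rw [Real.log_pow, ← hLdef] at h1
    exact_mod_cast h1
  have hlogK0 : 0 ≤ Real.log (2 * K + 1) := Real.log_nonneg (by linarith)
  obtain ⟨k, hk1, hkK, hdeg, ⟨c, hc, hlead⟩, hinj, hclose, hgood⟩ :=
    good_k hA hA0 hQ hlt θ1 θ2 K hK1 hK2
  have hkKR : (k : ℝ) ≤ K := by exact_mod_cast hkK
  have hk0 : (0 : ℝ) ≤ k := Nat.cast_nonneg k
  have hlogk : Real.log (1 + (k : ℝ)) ≤ 9 * L :=
    (Real.log_le_log (by positivity) (by linarith)).trans hlogK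
  obtain ⟨hfne, hlf⟩ := Pl_shr hAne k hlogk
  obtain ⟨hgne, hlg⟩ := Pl_shr hQ k hlogk
  obtain ⟨f, hf⟩ : ∃ f : ℤ[X][X], f = shr (k : ℤ) A := ⟨_, rfl⟩
  obtain ⟨g, hg⟩ : ∃ g : ℤ[X][X], g = shr (k : ℤ) Q := ⟨_, rfl⟩
  have hR : RR k A Q = resultant f g f.natDegree g.natDegree := by
    rw [hf, hg]
    rfl
  have hm : (f.natDegree : ℝ) ≤ 2 * a := by
    rw [hf, hdeg]
    exact hdTA
  have hn : (g.natDegree : ℝ) ≤ (48 + C1) * Y := by
    refine le_trans ?_ hdTQ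
    rw [hg]
    exact_mod_cast natDegree_shr_le (k : ℤ) Q
  have hdf : (dX f : ℝ) ≤ a := by
    refine le_trans ?_ hdXA
    rw [hf]
    exact_mod_cast dX_shr_le (k : ℤ) A
  have hdg : (dX g : ℝ) ≤ C1 * Y := by
    refine le_trans ?_ hdXQ
    rw [hg]
    exact_mod_cast dX_shr_le (k : ℤ) Q
  rw [← hf] at hlf hfne
  rw [← hg] at hlg hgne
  have hlf2 : Real.log (nr2 f) ≤ 10 * μ * L := by
    have h1 : (dX A : ℝ) * (9 * L) ≤ μ * (9 * L) :=
      mul_le_mul_of_nonneg_right (hdXA.trans haμ) (by linarith)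
    have h2 : μ ≤ μ * L := le_mul_of_one_le_right (by linarith) hL1
    linarith
  have hlg2 : Real.log (nr2 g) ≤ 9 * C1 * Y * L + C1 * (Y * μ) / a := by
    have h1 : (dX Q : ℝ) * (9 * L) ≤ C1 * Y * (9 * L) :=
      mul_le_mul_of_nonneg_right hdXQ (by linarith)
    linarith
  have hfpos : 0 < nr2 f := lt_of_lt_of_le one_pos (one_le_nr2 hfne)
  have hgpos : 0 < nr2 g := lt_of_lt_of_le one_pos (one_le_nr2 hgne)
  have hm0 : 0 < f.natDegree := by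
    rw [hf, hdeg]
    exact lt_of_lt_of_le hA0 (natDegree_le_dT A)
  have hRne : RR k A Q ≠ 0 := RR_ne_zero hA hA0 hQ hlt k (by rw [← hf]; exact hm0)
  -- size of the resultant
  have hs : ((RR k A Q).natDegree : ℝ) + Real.log (mah (RR k A Q)) ≤ D3 * (Y * μ * L) := by
    have h1 : ((RR k A Q).natDegree : ℝ) ≤ g.natDegree * dX f + f.natDegree * dX g := by
      rw [hR]
      exact_mod_cast natDegree_resultant_le f g f.natDegree g.natDegree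
    have h2 : Real.log (mah (RR k A Q)) ≤
        g.natDegree * Real.log (nr2 f) + f.natDegree * Real.log (nr2 g) := by
      have h3 : 0 < mah (RR k A Q) := lt_of_lt_of_le one_pos (one_le_mah hRne)
      have h4 : mah (RR k A Q) ≤ nr2 f ^ g.natDegree * nr2 g ^ f.natDegree := by
        refine (mah_le_nr _).trans ?_
        rw [hR]
        exact nr_resultant_le f g f.natDegree g.natDegree
      have h5 := Real.log_le_log h3 h4
      rw [Real.log_mul (by positivity) (by positivity), Real.log_pow, Real.log_pow] at h5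
      exact h5
    have h6 := Pl_num2 ha1 haμ hY1 hL1 hC1 (Nat.cast_nonneg f.natDegree) hm
      (Nat.cast_nonneg g.natDegree) hn hdf hdg hlf2 hlg2
    rw [← hD3] at h6
    linarith
  -- the value
  obtain ⟨b, hb⟩ : ∃ b : ℝ, b = Real.log (((K : ℝ) + 1) * B0) := ⟨_, rfl⟩
  have hBpos : 0 < ((K : ℝ) + 1) * B0 := by positivity
  have hB1 : 1 ≤ ((K : ℝ) + 1) * B0 := one_le_mul_of_one_le_of_one_le (by linarith) hB0p
  have hb0 : 0 ≤ b := by
    rw [hb]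
    exact Real.log_nonneg hB1
  have hb10 : b ≤ 10 * L := by
    have h1 : ((K : ℝ) + 1) * B0 ≤ Y ^ 9 * Y := by
      apply mul_le_mul _ hYB0 (by linarith) (by positivity)
      linarith
    have h2 : Y ^ 9 * Y = Y ^ 10 := by ring
    rw [h2] at h1
    have h3 := Real.log_le_log hBpos h1
    rw [Real.log_pow, ← hLdef, ← hb] at h3
    exact_mod_cast h3
  have hu : ‖θ1 + k * θ2‖ ≤ ((K : ℝ) + 1) * B0 := by
    have h1 : ‖θ1 + (k : ℂ) * θ2‖ ≤ ‖θ1‖ + k * ‖θ2‖ := by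
      refine (norm_add_le _ _).trans ?_
      rw [norm_mul, Complex.norm_natCast]
    have h2 : (k : ℝ) * ‖θ2‖ ≤ K * ‖θ2‖ := mul_le_mul_of_nonneg_right hkKR (norm_nonneg _)
    have h3 : ((K : ℝ) + 1) * B0 = B0 + K * (1 + ‖θ1‖) + K * ‖θ2‖ := by
      rw [hB0]
      ring
    have h4 : 0 ≤ (K : ℝ) * (1 + ‖θ1‖) := by positivity
    have h5 : ‖θ1‖ ≤ B0 := by
      rw [hB0]
      linarith [norm_nonneg θ2]
    linarith
  have hv : ‖θ2‖ ≤ ((K : ℝ) + 1) * B0 := by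
    have h5 : ‖θ2‖ ≤ B0 := by
      rw [hB0]
      linarith [norm_nonneg θ1]
    exact h5.trans (le_mul_of_one_le_left (by linarith) (by linarith))
  have hev1 : evH (θ1 + k * θ2) θ2 f = evH θ1 θ2 A := by
    have h1 := evH_shr (k : ℤ) θ1 θ2 A
    rw [Int.cast_natCast] at h1
    rw [hf]
    exact h1
  have hev2 : evH (θ1 + k * θ2) θ2 g = evH θ1 θ2 Q := by
    have h1 := evH_shr (k : ℤ) θ1 θ2 Q
    rw [Int.cast_natCast] at h1
    rw [hg]
    exact h1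
  have hval : ‖aeval (θ1 + k * θ2) (RR k A Q)‖ ≤ Real.exp (-(U / 2)) := by
    have h1 := resultant_small f g f.natDegree g.natDegree le_rfl le_rfl (by omega) hfne hgne
      (θ1 + k * θ2) θ2 (((K : ℝ) + 1) * B0) hB1 hu hv
    rw [hR]
    refine h1.trans ?_
    have h2 : ‖evH (θ1 + k * θ2) θ2 f‖ + ‖evH (θ1 + k * θ2) θ2 g‖ ≤ Real.exp (1 - U) := by
      rw [hev1, hev2, hUexp]
      have h3 : (2 : ℝ) ≤ Real.exp 1 := by
        have := Real.add_one_le_exp (1 : ℝ)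
        linarith
      have h4 : Real.exp (1 - U) = Real.exp 1 * Real.exp (-U) := by
        rw [← Real.exp_add]
        congr 1
      rw [h4]
      have h5 := mul_le_mul_of_nonneg_right h3 (Real.exp_pos (-U)).le
      linarith
    have h3 := Pl_exp f.natDegree g.natDegree (dX f) (dX g) (((K : ℝ) + 1) * B0) (nr2 f) (nr2 g)
      (‖evH (θ1 + k * θ2) θ2 f‖ + ‖evH (θ1 + k * θ2) θ2 g‖) b (Real.log (nr2 f))
      (Real.log (nr2 g)) U (by rw [hb, Real.exp_log hBpos]) (Real.exp_log hfpos).symm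
      (Real.exp_log hgpos).symm h2
    refine h3.trans (Real.exp_le_exp.mpr ?_)
    have h6 := Pl_num1 ha1 haμ hY1 hL1 hC1 (Nat.cast_nonneg f.natDegree) hm
      (Nat.cast_nonneg g.natDegree) hn hdf hdg hlf2 hlg2 hb0 hb10
    rw [← hD4] at h6
    have h7 : D4 * (Y * μ * L) ≤ U / 2 := by
      have h8 : (2 * D4 * L) * (Y * μ) ≤ Y * (Y * μ) :=
        mul_le_mul_of_nonneg_right hbig2 (by positivity)
      have h9 : D4 * (Y * μ * L) = (2 * D4 * L) * (Y * μ) / 2 := by ring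
      have h10 : U / 2 = Y * (Y * μ) / 2 := by
        rw [hUY]
        ring
      rw [h9, h10]
      linarith
    linarith
  obtain ⟨ν, W, hν1, hνs, happ, hVν⟩ := plane_local θ1 θ2 hθ hA hA0 hQ hlt K k hk1 hkK hdeg
    ⟨c, hc, hlead⟩ hinj hclose hgood (U / 2) (by positivity) hval
  have hl1 : 1 ≤ 1 + Real.log (2 * K + 1) := by linarith
  have hl10 : 1 + Real.log (2 * K + 1) ≤ 10 * L := by linarith
  have hVν' : Y ^ 2 * μ / 2 * ν ≤ (((RR k A Q).natDegree : ℝ) + Real.log (mah (RR k A Q))) *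
      (W + ν * (1 + Real.log (2 * K + 1))) := by
    rw [← hUY]
    exact hVν
  have hfin := Pl_num3 hμ1 hμY hY1 hL1 hD3p hν1 hνs hs hl1 hl10 hbig1 hVν'
  refine ⟨Y, 4 * ν * (1 + Real.log (2 * K + 1)), W, hTY, ?_, happ, ?_, ?_⟩
  · have h1 := one_le_mul_of_one_le_of_one_le hν1 hl1
    have e : 4 * ν * (1 + Real.log (2 * K + 1)) = 4 * (ν * (1 + Real.log (2 * K + 1))) := by ring
    rw [e]
    linarith
  · rw [← hLdef]
    exact hfin.1
  · rw [← hLdef]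
    exact hfin.2

end CZ
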