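import Pool.Agent.H32.CZ.Pi

/-!
# MP_ede373, cubic points, row Po: embeddings of `ℚ(q)` and roots

`map_mem_Zs`: `map_evH`: `evH (φ g1) (φ g2) A = φ (evH (g1 q) (g2 q) A)` and `evH (g1 q) (g2 q) A = 0` because its
image in `ℂ` is `evH q.1 q.2 A = 0`.

`Fq_roots`: `y = g1 q + k g2 q`. If `φ y = φ' y` then the points `(φ g1, φ g2)` and `(φ' g1, φ' g2)` of `Zs A Q` have the
same `q.1 + k q.2`, so they are equal (`hinj`), so `φ = φ'` because `g1 q, g2 q` generate `Fq q` over `ℚ`
(`IntermediateField.adjoin`: the elements where `φ, φ'` agree form a subfield; e.g.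
`IntermediateField.adjoin_induction`, or `AlgHom` extensionality on `adjoin`). Hence `φ ↦ φ y` is an injection of
the `finrank ℚ (Fq q)` embeddings (`NumberField.Embeddings.card`) into the roots of `r` in `ℂ`
(`r ≠ 0`), so `finrank ≤ natDegree r`. On the other hand `r` is irreducible over `ℤ` of positive degree (it has a root
`y` and is not a constant because a nonzero constant has no root), so irreducible over `ℚ` (Gauss lemma)
and `natDegree r = natDegree (minpoly ℚ y) ≤ finrank ℚ (Fq q)`. So all are equal and the image of the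
injection is the whole multiset of roots (`Multiset.eq_of_le_of_card_le`; nodup).
-/

set_option autoImplicit false

namespace CZ

open Polynomial

theorem map_mem_Zs {A Q : ℤ[X][X]} {q : ℂ × ℂ} (hq : q ∈ Zs A Q) (φ : Fq q →+* ℂ) :
    (φ (g1 q), φ (g2 q)) ∈ Zs A Q := by
  have key : ∀ P : ℤ[X][X], evH q.1 q.2 P = 0 → evH (φ (g1 q)) (φ (g2 q)) P = 0 := by
    intro P hP
    have h1 : evH (g1 q) (g2 q) P = 0 := by
      have h2 := map_evH (algebraMap (Fq q) ℂ) (g1 q) (g2 q) P
      have h3 : algebraMap (Fq q) ℂ (g1 q) = q.1 := rfl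
      have h4 : algebraMap (Fq q) ℂ (g2 q) = q.2 := rfl
      rw [h3, h4, hP] at h2
      exact (map_eq_zero_iff _ (algebraMap (Fq q) ℂ).injective).1 h2
    have h5 := map_evH φ (g1 q) (g2 q) P
    rw [h1, map_zero] at h5
    exact h5.symm
  exact ⟨key A hq.1, key Q hq.2⟩

theorem Po_ext {q : ℂ × ℂ} (φ φ' : Fq q →+* ℂ) (h1 : φ (g1 q) = φ' (g1 q))
    (h2 : φ (g2 q) = φ' (g2 q)) : φ = φ' := by
  have h : φ.toRatAlgHom = φ'.toRatAlgHom := by
    refine IntermediateField.algHom_ext_of_eq_adjoin (S := Fq q) ℚ rfl ?_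
    intro x hx
    rcases hx with rfl | rfl
    · exact h1
    · exact h2
  have h3 := congrArg (fun f : Fq q →ₐ[ℚ] ℂ => (f : Fq q →+* ℂ)) h
  simpa using h3

theorem Fq_roots {A Q : ℤ[X][X]} (k : ℕ)
    (hinj : ∀ q ∈ Zs A Q, ∀ q' ∈ Zs A Q, q.1 + k * q.2 = q'.1 + k * q'.2 → q = q')
    {q : ℂ × ℂ} (hq : q ∈ Zs A Q) [NumberField (Fq q)] (r : ℤ[X]) (hr : Irreducible r)
    (hy : aeval (g1 q + k * g2 q) r = 0) :
    r.natDegree = Module.finrank ℚ (Fq q) ∧
      (r.map (Int.castRingHom ℂ)).roots =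
        (Finset.univ : Finset (Fq q →+* ℂ)).val.map fun φ ↦ φ (g1 q + k * g2 q) := by
  set y : Fq q := g1 q + k * g2 q with hydef
  have hφy : ∀ φ : Fq q →+* ℂ, φ y = φ (g1 q) + k * φ (g2 q) := by
    intro φ
    rw [hydef, map_add, map_mul, map_natCast]
  have hinj' : Function.Injective fun φ : Fq q →+* ℂ ↦ φ y := by
    intro φ φ' h
    have h1 : φ y = φ' y := h
    rw [hφy, hφy] at h1
    have h2 := hinj _ (map_mem_Zs hq φ) _ (map_mem_Zs hq φ') h1
    exact Po_ext φ φ' (congrArg Prod.fst h2) (congrArg Prod.snd h2)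
  -- degree of `r`
  have hr0 : r ≠ 0 := hr.ne_zero
  have hdeg : r.natDegree ≠ 0 := by
    intro h0
    rw [natDegree_eq_zero] at h0
    obtain ⟨c, rfl⟩ := h0
    rw [aeval_C, eq_intCast] at hy
    have hc : c = 0 := by exact_mod_cast hy
    rw [hc, map_zero] at hr0
    exact hr0 rfl
  have hprim := hr.isPrimitive hdeg
  have hrQ : Irreducible (r.map (Int.castRingHom ℚ)) :=
    (IsPrimitive.Int.irreducible_iff_irreducible_map_cast hprim).1 hr
  have hyQ : aeval y (r.map (Int.castRingHom ℚ)) = 0 := by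
    rw [← hy]
    exact aeval_map_algebraMap ℚ y r
  have hmin := minpoly.eq_of_irreducible hrQ hyQ
  have hndQ : (r.map (Int.castRingHom ℚ)).natDegree = r.natDegree :=
    natDegree_map_eq_of_injective (RingHom.injective_int _) r
  have hnd : r.natDegree = (minpoly ℚ y).natDegree := by
    rw [← hmin, natDegree_mul_C (inv_ne_zero (leadingCoeff_ne_zero.2 hrQ.ne_zero)), hndQ]
  have hle : r.natDegree ≤ Module.finrank ℚ (Fq q) := by
    rw [hnd]
    exact minpoly.natDegree_le y
  -- the roots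
  have hrC : r.map (Int.castRingHom ℂ) ≠ 0 := (Polynomial.map_ne_zero_iff (RingHom.injective_int _)).2 hr0
  have hnodup : ((Finset.univ : Finset (Fq q →+* ℂ)).val.map fun φ ↦ φ y).Nodup :=
    Multiset.Nodup.map hinj' (Finset.univ.nodup)
  have hsub : ((Finset.univ : Finset (Fq q →+* ℂ)).val.map fun φ ↦ φ y) ≤ (r.map (Int.castRingHom ℂ)).roots := by
    rw [Multiset.le_iff_subset hnodup]
    intro z hz
    obtain ⟨φ, -, rfl⟩ := Multiset.mem_map.1 hz
    rw [mem_roots hrC, IsRoot.def, eval_map]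
    have h1 : φ (aeval y r) = 0 := by rw [hy, map_zero]
    rw [aeval_def, hom_eval₂] at h1
    have h2 : φ.comp (algebraMap ℤ (Fq q)) = Int.castRingHom ℂ := RingHom.ext_int _ _
    rw [h2] at h1
    exact h1
  have hcard : ((Finset.univ : Finset (Fq q →+* ℂ)).val.map fun φ ↦ φ y).card = Module.finrank ℚ (Fq q) := by
    rw [Multiset.card_map, Finset.card_val, Finset.card_univ, NumberField.Embeddings.card]
  have hrc : (r.map (Int.castRingHom ℂ)).roots.card ≤ r.natDegree :=
    (card_roots' _).trans (natDegree_map_le)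
  have hcl := Multiset.card_le_card hsub
  rw [hcard] at hcl
  refine ⟨le_antisymm hle (hcl.trans hrc), ?_⟩
  symm
  refine Multiset.eq_of_le_of_card_le hsub ?_
  rw [hcard]
  exact hrc.trans hle

end CZ
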