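import Pool.Agent.H32.CZ.Qa

/-!
# MP_ede373, cubic points, row Qc: size of the jet polynomials

Elementary. `nrm_X`, `nrm_C`, `nrm_add_le`, `nrm_mul_le`, `nrm_pow_le`, `nrm_neg` of `T3/Ht.lean`, and
`totalDegree_*`. Bounds: `nrm (nuP j (kv i)) ≤ 2`, degree `≤ 2`; `nrm (alP m j) ≤ 4 (1 + m)`, degree `≤ 3`;
`nrm (dvP m i) ≤ 28 (1 + m)`, degree `≤ 5`. With `K0 = 3 N + 2|b2| + |b1| + 3` (`N, b2, b1` of `c`):
`nrm (fpP x), nrm (beP l x), nrm (ccP j x) ≤ K0` for `x = kv i` (degrees `≤ 3, 3, 2`), `nrm zP1 ≤ 4 K0`,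
`nrm (zP2 m) ≤ 4 K0 (1 + m)`, degrees `≤ 5`. So `nrm (polP m l) ≤ (4 K0 (1+m))^(2D)`, degree `≤ 13 D`.
`nnE D l j ≤ K1 D` with `K1 = 4 + ∑ (hp + hm)`. `nrm (gP D m l) ≤ 6 K1 D · 4 (1+m) + 4 D K0 · 2 (1 + m)^2 ≤ K2 D (1+m)^2`,
degree `≤ 6`. `deg_TD_iter`, `nrm_TD_iter` with `e = 6`, `a = 28 (1+m)`, `ag = K2 D (1+m)^2`: degree of `jP`
`≤ 13 D + 6 s`, `nrm ≤ (28 (1+m)(13 D + 6 s) + K2 D (1+m)^2)^s (4 K0 (1+m))^(2D) ≤ (K3 (D+s+2)^3)^(s + 2D)` as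
`m ≤ s`, so `≤ exp (C (D + s + 1) log (D + s + 2))` (`log K3 ≤ (log K3 / log 2) log (D+s+2)`).
-/

set_option autoImplicit false

namespace CZ

open MvPolynomial
open H32.T3 (nrm)

namespace Qc90

/-- Degree and size bound. -/
def Bd (P : MvPolynomial Vr ℤ) (d : ℕ) (a : ℝ) : Prop := P.totalDegree ≤ d ∧ nrm P ≤ a

theorem Bd.nonneg {P : MvPolynomial Vr ℤ} {d : ℕ} {a : ℝ} (h : Bd P d a) : 0 ≤ a :=
  (H32.T3.nrm_nonneg P).trans h.2

theorem Bd.mono {P : MvPolynomial Vr ℤ} {d e : ℕ} {a b : ℝ} (h : Bd P d a) (hd : d ≤ e)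
    (hab : a ≤ b) : Bd P e b := ⟨h.1.trans hd, h.2.trans hab⟩

theorem Bd.X (i : Vr) : Bd (X i) 1 1 := ⟨by simp, (H32.T3.nrm_X i).le⟩

theorem Bd.C (k : ℤ) : Bd (C k) 0 |(k : ℝ)| := ⟨(totalDegree_C k).le, (H32.T3.nrm_C k).le⟩

theorem Bd.one : Bd 1 0 1 := ⟨by simp, H32.T3.nrm_one.le⟩

theorem Bd.zero : Bd 0 0 0 := ⟨by simp, H32.T3.nrm_zero.le⟩

theorem Bd.add {P Q : MvPolynomial Vr ℤ} {d e : ℕ} {a b : ℝ} (h : Bd P d a) (k : Bd Q e b) :
    Bd (P + Q) (max d e) (a + b) :=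
  ⟨(totalDegree_add P Q).trans (max_le_max h.1 k.1),
    (H32.T3.nrm_add_le P Q).trans (add_le_add h.2 k.2)⟩

theorem Bd.neg {P : MvPolynomial Vr ℤ} {d : ℕ} {a : ℝ} (h : Bd P d a) : Bd (-P) d a :=
  ⟨by rw [totalDegree_neg]; exact h.1, by rw [H32.T3.nrm_neg]; exact h.2⟩

theorem Bd.sub {P Q : MvPolynomial Vr ℤ} {d e : ℕ} {a b : ℝ} (h : Bd P d a) (k : Bd Q e b) :
    Bd (P - Q) (max d e) (a + b) := by
  rw [sub_eq_add_neg]; exact h.add k.neg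

theorem Bd.mul {P Q : MvPolynomial Vr ℤ} {d e : ℕ} {a b : ℝ} (h : Bd P d a) (k : Bd Q e b) :
    Bd (P * Q) (d + e) (a * b) :=
  ⟨(totalDegree_mul P Q).trans (add_le_add h.1 k.1),
    (H32.T3.nrm_mul_le P Q).trans (mul_le_mul h.2 k.2 (H32.T3.nrm_nonneg Q) h.nonneg)⟩

theorem Bd.pow {P : MvPolynomial Vr ℤ} {d : ℕ} {a : ℝ} (h : Bd P d a) (n : ℕ) :
    Bd (P ^ n) (n * d) (a ^ n) :=
  ⟨(totalDegree_pow P n).trans (Nat.mul_le_mul_left n h.1),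
    (H32.T3.nrm_pow_le P n).trans (pow_le_pow_left₀ (H32.T3.nrm_nonneg P) h.2 n)⟩

theorem Bd.sum {k : ℕ} {P : Fin k → MvPolynomial Vr ℤ} {d : ℕ} {a : ℝ}
    (h : ∀ j, Bd (P j) d a) : Bd (∑ j, P j) d (k * a) := by
  refine ⟨(totalDegree_finsetSum _ _).trans (Finset.sup_le fun j _ ↦ (h j).1), ?_⟩
  refine (H32.T3.nrm_sum_le _ _).trans ?_
  refine (Finset.sum_le_sum fun j _ ↦ (h j).2).trans ?_
  simp

theorem Bd.kv (i : Fin 8) : Bd (kv i) 1 1 := Bd.X _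

theorem Bd.xv (a : Fin 3) (j : Fin 6) : Bd (xv a j) 1 1 := Bd.X _

theorem bd_nuP (j : Fin 6) (i : Fin 8) : Bd (nuP j (CZ.kv i)) 2 2 := by
  have hx := Bd.kv i
  have hx2 : Bd (CZ.kv i ^ 2) 2 1 := (hx.pow 2).mono (by norm_num) (by norm_num)
  unfold nuP
  fin_cases j
  · exact Bd.one.mono (by norm_num) (by norm_num)
  · exact hx.mono (by norm_num) (by norm_num)
  · exact hx2.mono (by norm_num) (by norm_num)
  · exact (Bd.one.add hx).mono (by norm_num) (by norm_num)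
  · exact (Bd.one.add hx2).mono (by norm_num) (by norm_num)
  · exact (hx.add hx2).mono (by norm_num) (by norm_num)

theorem bd_alP (m : ℕ) (j : Fin 6) : Bd (alP m j) 3 (4 * (1 + m)) := by
  unfold alP
  have h1 := ((Bd.kv 1).sub (Bd.kv 2)).mul (bd_nuP j 2)
  have h2 := ((Bd.kv 1).sub (Bd.kv 3)).mul (bd_nuP j 3)
  have h3 := (Bd.C (m : ℤ)).mul h2
  refine (h1.add h3).mono (by norm_num) ?_
  have : |(((m : ℤ)) : ℝ)| = m := by push_cast; exact abs_of_nonneg (Nat.cast_nonneg m)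
  rw [this]; nlinarith [Nat.cast_nonneg (α := ℝ) m]

theorem bd_dvP (m : ℕ) (i : Vr) : Bd (dvP m i) 5 (28 * (1 + m)) := by
  have hm : (0 : ℝ) ≤ m := Nat.cast_nonneg m
  rcases i with ⟨a, j⟩ | i
  · have hal := bd_alP m j
    fin_cases a
    · show Bd (alP m j * CZ.xv 1 j) _ _
      refine (hal.mul (Bd.xv 1 j)).mono (by norm_num) ?_
      nlinarith
    · show Bd (alP m j * (MvPolynomial.C 6 * CZ.xv 0 j ^ 2 - CZ.kv 5)) _ _
      have h1 : Bd (MvPolynomial.C 6 * CZ.xv 0 j ^ 2 - CZ.kv 5) 2 7 := by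
        refine (((Bd.C 6).mul ((Bd.xv 0 j).pow 2)).sub (Bd.kv 5)).mono (by norm_num) ?_
        norm_num
      refine (hal.mul h1).mono (by norm_num) ?_
      nlinarith
    · show Bd (alP m j * (-CZ.xv 0 j - CZ.kv 6)) _ _
      refine (hal.mul ((Bd.xv 0 j).neg.sub (Bd.kv 6))).mono (by norm_num) ?_
      nlinarith
  · by_cases hi : i = 0
    · subst hi
      show Bd (1 : MvPolynomial Vr ℤ) _ _
      refine Bd.one.mono (by norm_num) ?_
      nlinarith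
    · have h0 : dvP m (Sum.inr i) = 0 := by
        fin_cases i
        · exact absurd rfl hi
        all_goals rfl
      rw [h0]
      refine Bd.zero.mono (by norm_num) ?_
      nlinarith

section

variable (c : CData)

/-- The constant `K0`. -/
noncomputable def K0 : ℝ := 3 * c.N + 2 * |(c.b2 : ℝ)| + |(c.b1 : ℝ)| + 3

theorem K0_ge : 3 ≤ K0 c := by
  unfold K0
  have h1 : (0 : ℝ) ≤ c.N := Nat.cast_nonneg _
  have h2 := abs_nonneg (c.b2 : ℝ)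
  have h3 := abs_nonneg (c.b1 : ℝ)
  linarith

theorem bd_fpP (i : Fin 8) : Bd (fpP c (CZ.kv i)) 2 (K0 c) := by
  unfold fpP
  have hx := Bd.kv i
  have h1 : Bd (MvPolynomial.C 3 * CZ.kv i ^ 2) 2 3 :=
    ((Bd.C 3).mul (hx.pow 2)).mono (by norm_num) (by norm_num)
  have h2 : Bd (MvPolynomial.C (2 * c.b2) * CZ.kv 4 * CZ.kv i) 2 (2 * |(c.b2 : ℝ)|) := by
    refine (((Bd.C (2 * c.b2)).mul (Bd.kv 4)).mul hx).mono (by norm_num) ?_
    push_cast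
    rw [abs_mul]; norm_num
  have h3 : Bd (MvPolynomial.C c.b1 * CZ.kv 4) 1 |(c.b1 : ℝ)| :=
    ((Bd.C c.b1).mul (Bd.kv 4)).mono (by norm_num) (by norm_num)
  refine ((h1.add h2).add h3).mono (by norm_num) ?_
  unfold K0
  have h1 : (0 : ℝ) ≤ c.N := Nat.cast_nonneg _
  linarith

theorem bd_beP (l : Fin 2) (i : Fin 8) : Bd (beP c l (CZ.kv i)) 3 (K0 c) := by
  unfold beP
  have hx := Bd.kv i
  have h1 : Bd (MvPolynomial.C (3 * (c.N : ℤ)) * CZ.kv i ^ 2) 2 (3 * c.N) := by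
    refine ((Bd.C (3 * (c.N : ℤ))).mul (hx.pow 2)).mono (by norm_num) ?_
    push_cast
    rw [abs_of_nonneg (by positivity)]; norm_num
  have h2 : Bd (MvPolynomial.C (2 * c.b2) * CZ.kv i) 1 (2 * |(c.b2 : ℝ)|) := by
    refine ((Bd.C (2 * c.b2)).mul hx).mono (by norm_num) ?_
    push_cast
    rw [abs_mul]; norm_num
  have h3 : Bd (MvPolynomial.C c.b1) 0 |(c.b1 : ℝ)| := Bd.C c.b1
  have hl : (l : ℕ) ≤ 1 := by omega
  refine (((h1.add h2).add h3).mul (hx.pow (l : ℕ))).mono ?_ ?_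
  · have : max (max 2 1) 0 = 2 := by norm_num
    rw [this]; omega
  · rw [one_pow, mul_one]
    unfold K0
    linarith

theorem bd_ccP (j : Fin 3) (i : Fin 8) : Bd (ccP c j (CZ.kv i)) 2 (K0 c) := by
  unfold ccP
  have hx := Bd.kv i
  have hN : (0 : ℝ) ≤ c.N := Nat.cast_nonneg _
  have a2 := abs_nonneg (c.b2 : ℝ)
  have a1 := abs_nonneg (c.b1 : ℝ)
  have h2 : Bd (MvPolynomial.C c.b2 * CZ.kv 4) 1 |(c.b2 : ℝ)| :=
    ((Bd.C c.b2).mul (Bd.kv 4)).mono (by norm_num) (by norm_num)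
  have h3 : Bd (MvPolynomial.C c.b1 * CZ.kv 4) 1 |(c.b1 : ℝ)| :=
    ((Bd.C c.b1).mul (Bd.kv 4)).mono (by norm_num) (by norm_num)
  fin_cases j
  · refine ((((hx.pow 2).add (h2.mul hx))).add h3).mono (by norm_num) ?_
    unfold K0; norm_num; linarith
  · refine (hx.add h2).mono (by norm_num) ?_
    unfold K0; linarith
  · refine Bd.one.mono (by norm_num) ?_
    unfold K0; linarith

theorem bd_zP1 : Bd (zP1 c) 4 (4 * K0 c) := by
  unfold zP1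
  have h1 : Bd (∑ j : Fin 3, ccP c j (CZ.kv 2) * CZ.xv 2 (i3 j)) 3 ((3 : ℕ) * K0 c) :=
    Bd.sum fun j ↦ ((bd_ccP c j 2).mul (Bd.xv 2 (i3 j))).mono (by norm_num) (by simp)
  have h2 := ((Bd.kv 7).mul (bd_fpP c 2)).mul (Bd.kv 0)
  refine (h1.add h2).mono (by norm_num) ?_
  push_cast; linarith

theorem bd_zP2 (m : ℕ) : Bd (zP2 c m) 4 (4 * K0 c * (1 + m)) := by
  unfold zP2
  have h1 : Bd (∑ j : Fin 3, ccP c j (CZ.kv 3) * CZ.xv 2 (i3 j)) 3 ((3 : ℕ) * K0 c) :=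
    Bd.sum fun j ↦ ((bd_ccP c j 3).mul (Bd.xv 2 (i3 j))).mono (by norm_num) (by simp)
  have h2 := (Bd.C (m : ℤ)).mul (((Bd.kv 7).mul (bd_fpP c 3)).mul (Bd.kv 0))
  refine (h1.add h2).mono (by norm_num) ?_
  have hm : |(((m : ℤ)) : ℝ)| = m := by push_cast; exact abs_of_nonneg (Nat.cast_nonneg m)
  have hm0 : (0 : ℝ) ≤ m := Nat.cast_nonneg m
  have hK := K0_ge c
  rw [hm]; push_cast; nlinarith [mul_nonneg hm0 (by linarith : (0 : ℝ) ≤ K0 c)]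

theorem bd_polP {D : ℕ} (m : ℕ) (l : Fin 7 → Fin (D + 1)) :
    Bd (polP c m l) (11 * D) ((4 * K0 c * (1 + m)) ^ (2 * D)) := by
  have hl : ∀ a, (l a : ℕ) ≤ D := fun a ↦ Nat.lt_succ_iff.mp (l a).2
  have hK := K0_ge c
  have hm0 : (0 : ℝ) ≤ m := Nat.cast_nonneg m
  have hb1 : (1 : ℝ) ≤ 4 * K0 c * (1 + m) := by nlinarith
  have hb2 : 4 * K0 c ≤ 4 * K0 c * (1 + m) := by nlinarith
  unfold polP
  refine ((((((Bd.xv 0 0).pow (l 0 : ℕ)).mul ((Bd.xv 0 1).pow (l 1 : ℕ))).mul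
    ((Bd.xv 0 2).pow (l 2 : ℕ))).mul ((bd_zP1 c).pow (l 3 : ℕ))).mul
    ((bd_zP2 c m).pow (l 4 : ℕ))).mono ?_ ?_
  · have h0 := hl 0; have h1 := hl 1; have h2 := hl 2; have h3 := hl 3; have h4 := hl 4
    omega
  · simp only [one_pow, one_mul]
    calc (4 * K0 c) ^ (l 3 : ℕ) * (4 * K0 c * (1 + m)) ^ (l 4 : ℕ)
        ≤ (4 * K0 c * (1 + m)) ^ (l 3 : ℕ) * (4 * K0 c * (1 + m)) ^ (l 4 : ℕ) := by
          gcongr
      _ = (4 * K0 c * (1 + m)) ^ ((l 3 : ℕ) + (l 4 : ℕ)) := (pow_add _ _ _).symm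
      _ ≤ (4 * K0 c * (1 + m)) ^ (2 * D) := by
          apply pow_le_pow_right₀ hb1
          have h3 := hl 3; have h4 := hl 4
          omega

/-- The constant `K1`. -/
def K1 : ℕ := 4 + ∑ j : Fin 6, (c.hp 0 j + c.hm 0 j + c.hp 1 j + c.hm 1 j)

theorem nnE_le (D : ℕ) (l : Fin 7 → Fin (D + 1)) (j : Fin 6) : nnE c D l j ≤ K1 c * D := by
  have hl : ∀ a, (l a : ℕ) ≤ D := fun a ↦ Nat.lt_succ_iff.mp (l a).2
  have hsum : c.hp 0 j + c.hm 0 j + c.hp 1 j + c.hm 1 j ≤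
      ∑ j : Fin 6, (c.hp 0 j + c.hm 0 j + c.hp 1 j + c.hm 1 j) :=
    Finset.single_le_sum (f := fun j ↦ c.hp 0 j + c.hm 0 j + c.hp 1 j + c.hm 1 j)
      (fun _ _ ↦ Nat.zero_le _) (Finset.mem_univ j)
  have h1 : (if (j : ℕ) < 3 then 4 * D else 0) ≤ 4 * D := by split_ifs <;> omega
  have h2 : c.hp 0 j * (l 5 : ℕ) ≤ c.hp 0 j * D := Nat.mul_le_mul_left _ (hl 5)
  have h3 : c.hm 0 j * (D - (l 5 : ℕ)) ≤ c.hm 0 j * D := Nat.mul_le_mul_left _ (Nat.sub_le _ _)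
  have h4 : c.hp 1 j * (l 6 : ℕ) ≤ c.hp 1 j * D := Nat.mul_le_mul_left _ (hl 6)
  have h5 : c.hm 1 j * (D - (l 6 : ℕ)) ≤ c.hm 1 j * D := Nat.mul_le_mul_left _ (Nat.sub_le _ _)
  unfold nnE K1
  calc _ ≤ 4 * D + (c.hp 0 j * D + c.hm 0 j * D) + (c.hp 1 j * D + c.hm 1 j * D) := by
        gcongr
    _ = (4 + (c.hp 0 j + c.hm 0 j + c.hp 1 j + c.hm 1 j)) * D := by ring
    _ ≤ _ := by gcongr

/-- The constant `K2`. -/
noncomputable def K2 : ℝ := 24 * (K1 c : ℝ) + 4 * K0 c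

theorem bd_gP (D m : ℕ) (l : Fin 7 → Fin (D + 1)) :
    Bd (gP c D m l) 6 (K2 c * D * (1 + m) ^ 2) := by
  have hl : ∀ a, ((l a : ℕ) : ℝ) ≤ D := fun a ↦ by exact_mod_cast Nat.lt_succ_iff.mp (l a).2
  have hl0 : ∀ a, (0 : ℝ) ≤ ((l a : ℕ) : ℝ) := fun a ↦ Nat.cast_nonneg _
  have hK := K0_ge c
  have hm0 : (0 : ℝ) ≤ m := Nat.cast_nonneg m
  have hD0 : (0 : ℝ) ≤ D := Nat.cast_nonneg D
  unfold gP
  have h1 : Bd (∑ j : Fin 6, MvPolynomial.C (nnE c D l j : ℤ) * (alP m j * CZ.xv 2 j)) 4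
      ((6 : ℕ) * ((K1 c : ℝ) * D * (4 * (1 + m)))) := by
    refine Bd.sum fun j ↦ ((Bd.C (nnE c D l j : ℤ)).mul ((bd_alP m j).mul (Bd.xv 2 j))).mono
      (by norm_num) ?_
    have e1 : |(((nnE c D l j : ℤ)) : ℝ)| ≤ (K1 c : ℝ) * D := by
      push_cast
      rw [abs_of_nonneg (Nat.cast_nonneg _)]
      exact_mod_cast nnE_le c D l j
    rw [mul_one]
    gcongr
  have key : ∀ a : Fin 2, Bd (beP c a (CZ.kv 2) * (CZ.kv 1 - CZ.kv 2) +
        MvPolynomial.C ((m : ℤ) ^ 2) * (beP c a (CZ.kv 3) * (CZ.kv 1 - CZ.kv 3))) 4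
        (K0 c * 2 * (1 + m) ^ 2) := by
    intro a
    have g1 := (bd_beP c a 2).mul ((Bd.kv 1).sub (Bd.kv 2))
    have g2 := (Bd.C ((m : ℤ) ^ 2)).mul ((bd_beP c a 3).mul ((Bd.kv 1).sub (Bd.kv 3)))
    refine (g1.add g2).mono (by norm_num) ?_
    have e1 : |((((m : ℤ) ^ 2 : ℤ)) : ℝ)| = (m : ℝ) ^ 2 := by
      push_cast; exact abs_of_nonneg (by positivity)
    rw [e1]
    nlinarith [mul_nonneg hm0 (by linarith : (0 : ℝ) ≤ K0 c)]
  have key2 : ∀ (a : Fin 7) (b : Fin 2), Bd (MvPolynomial.C ((l a : ℕ) : ℤ) *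
      (beP c b (CZ.kv 2) * (CZ.kv 1 - CZ.kv 2) +
        MvPolynomial.C ((m : ℤ) ^ 2) * (beP c b (CZ.kv 3) * (CZ.kv 1 - CZ.kv 3)))) 4
        (D * (K0 c * 2 * (1 + m) ^ 2)) := by
    intro a b
    refine ((Bd.C ((l a : ℕ) : ℤ)).mul (key b)).mono (by norm_num) ?_
    have e1 : |((((l a : ℕ) : ℤ)) : ℝ)| ≤ D := by
      push_cast
      rw [abs_of_nonneg (hl0 a)]
      exact hl a
    have : 0 ≤ K0 c * 2 * (1 + (m : ℝ)) ^ 2 := by positivity
    exact mul_le_mul_of_nonneg_right e1 this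
  have h2 := (((Bd.kv 7).mul (Bd.kv 0))).mul ((key2 5 0).add (key2 6 1))
  refine (h1.add h2).mono (by norm_num) ?_
  have e3 : (K1 c : ℝ) * D * (4 * (1 + m)) ≤ (K1 c : ℝ) * D * (4 * (1 + m) ^ 2) := by
    have : (1 + (m : ℝ)) ≤ (1 + m) ^ 2 := by nlinarith
    gcongr
  unfold K2
  push_cast
  nlinarith

end

end Qc90

open Qc90 in
theorem jP_bounds (c : CData) : ∃ C : ℝ, 1 ≤ C ∧ ∀ (D s m : ℕ) (l : Fin 7 → Fin (D + 1)), m ≤ s →
    ((jP c D s m l).totalDegree : ℝ) ≤ C * (D + s + 1) ∧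
      nrm (jP c D s m l) ≤ Real.exp (C * (D + s + 1) * Real.log (D + s + 2)) := by
  have hK := K0_ge c
  have hK2 : 0 ≤ K2 c := by unfold K2; positivity
  set K3 : ℝ := 308 + K2 c + 4 * K0 c with hK3
  have hK3' : 1 ≤ K3 := by rw [hK3]; linarith
  have hlog2 : 0 < Real.log 2 := Real.log_pos (by norm_num)
  have hlogK : 0 ≤ Real.log K3 := Real.log_nonneg hK3'
  refine ⟨11 + 2 * (Real.log K3 / Real.log 2 + 3), ?_, ?_⟩
  · have : 0 ≤ Real.log K3 / Real.log 2 := by positivity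
    linarith
  intro D s m l hms
  have hD0 : (0 : ℝ) ≤ D := Nat.cast_nonneg D
  have hs0 : (0 : ℝ) ≤ s := Nat.cast_nonneg s
  have hm0 : (0 : ℝ) ≤ m := Nat.cast_nonneg m
  have hms' : (m : ℝ) ≤ s := by exact_mod_cast hms
  have hpol := bd_polP c m l
  have hg := bd_gP c D m l
  have hdeg : (jP c D s m l).totalDegree ≤ 11 * D + 6 * s := by
    unfold jP
    refine (deg_TD_iter (dvP m) (gP c D m l) 6 (fun i ↦ (bd_dvP m i).1.trans (by norm_num)) hg.1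
      (polP c m l) s).trans ?_
    have := hpol.1
    omega
  have hnrm : nrm (jP c D s m l) ≤ (28 * (1 + m) * ((polP c m l).totalDegree + (6 : ℕ) * s) +
      K2 c * D * (1 + m) ^ 2) ^ s * nrm (polP c m l) := by
    unfold jP
    exact nrm_TD_iter (dvP m) (gP c D m l) 6 (fun i ↦ (bd_dvP m i).1.trans (by norm_num)) hg.1
      (28 * (1 + m)) _ (by positivity) (fun i ↦ (bd_dvP m i).2) hg.2 (polP c m l) s
  have hlogK' : 0 ≤ Real.log K3 / Real.log 2 := by positivity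
  constructor
  · have h1 : ((jP c D s m l).totalDegree : ℝ) ≤ 11 * D + 6 * s := by exact_mod_cast hdeg
    refine h1.trans ?_
    nlinarith [mul_nonneg hlogK' (by positivity : (0 : ℝ) ≤ D + s + 1)]
  · set T : ℝ := D + s + 2 with hT
    have hT2 : 2 ≤ T := by rw [hT]; linarith
    have hT0 : 0 < T := by linarith
    have hmT : 1 + (m : ℝ) ≤ T := by rw [hT]; linarith
    have hdT : ((polP c m l).totalDegree : ℝ) + (6 : ℕ) * s ≤ 11 * T := by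
      have h1 : ((polP c m l).totalDegree : ℝ) ≤ 11 * D := by exact_mod_cast hpol.1
      rw [hT]; push_cast; linarith
    have hDT : (D : ℝ) ≤ T := by rw [hT]; linarith
    have hT3 : T ^ 2 ≤ T ^ 3 := pow_le_pow_right₀ (by linarith) (by norm_num)
    have hbase : 28 * (1 + m) * (((polP c m l).totalDegree : ℝ) + (6 : ℕ) * s) +
        K2 c * D * (1 + m) ^ 2 ≤ K3 * T ^ 3 := by
      calc 28 * (1 + m) * (((polP c m l).totalDegree : ℝ) + (6 : ℕ) * s) +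
            K2 c * D * (1 + m) ^ 2 ≤ 28 * T * (11 * T) + K2 c * T * T ^ 2 := by
            gcongr
        _ = 308 * T ^ 2 + K2 c * T ^ 3 := by ring
        _ ≤ 308 * T ^ 3 + K2 c * T ^ 3 := by gcongr
        _ ≤ K3 * T ^ 3 := by rw [hK3]; nlinarith [pow_pos hT0 3]
    have hbase2 : 4 * K0 c * (1 + m) ≤ K3 * T ^ 3 := by
      calc 4 * K0 c * (1 + m) ≤ 4 * K0 c * T := by gcongr
        _ ≤ 4 * K0 c * T ^ 3 := by
            have : T ≤ T ^ 3 := by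
              calc T = T ^ 1 := (pow_one T).symm
                _ ≤ T ^ 3 := pow_le_pow_right₀ (by linarith) (by norm_num)
            gcongr
        _ ≤ K3 * T ^ 3 := by
            have : 4 * K0 c ≤ K3 := by rw [hK3]; linarith
            gcongr
    have hb0 : 0 ≤ 28 * (1 + (m : ℝ)) * (((polP c m l).totalDegree : ℝ) + (6 : ℕ) * s) +
        K2 c * D * (1 + m) ^ 2 := by positivity
    have hb1 : 1 ≤ K3 * T ^ 3 := by
      have : 1 ≤ T ^ 3 := one_le_pow₀ (by linarith)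
      nlinarith
    have hall : nrm (jP c D s m l) ≤ (K3 * T ^ 3) ^ (s + 2 * D) := by
      calc nrm (jP c D s m l) ≤ _ := hnrm
        _ ≤ (K3 * T ^ 3) ^ s * (K3 * T ^ 3) ^ (2 * D) := by
            refine mul_le_mul (pow_le_pow_left₀ hb0 hbase s) ?_ (H32.T3.nrm_nonneg _)
              (by positivity)
            exact hpol.2.trans (pow_le_pow_left₀ (by positivity) hbase2 _)
        _ = _ := (pow_add _ _ _).symm
    refine hall.trans ?_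
    have hpos : 0 < K3 * T ^ 3 := by linarith
    rw [← Real.exp_log (pow_pos hpos (s + 2 * D))]
    apply Real.exp_le_exp.mpr
    rw [Real.log_pow, Real.log_mul (by linarith) (by positivity), Real.log_pow]
    have hlT : Real.log 2 ≤ Real.log T := Real.log_le_log (by norm_num) hT2
    have hlT0 : 0 < Real.log T := lt_of_lt_of_le hlog2 hlT
    have h1 : Real.log K3 ≤ Real.log K3 / Real.log 2 * Real.log T := by
      rw [div_mul_eq_mul_div, le_div_iff₀ hlog2]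
      exact mul_le_mul_of_nonneg_left hlT hlogK
    have h2 : ((s + 2 * D : ℕ) : ℝ) ≤ 2 * (D + s + 1) := by push_cast; linarith
    calc ((s + 2 * D : ℕ) : ℝ) * (Real.log K3 + (3 : ℕ) * Real.log T)
        ≤ (2 * (D + s + 1)) * (Real.log K3 / Real.log 2 * Real.log T + 3 * Real.log T) := by
          push_cast at h2 ⊢
          gcongr
      _ = (2 * (Real.log K3 / Real.log 2 + 3)) * (D + s + 1) * Real.log T := by ring
      _ ≤ (11 + 2 * (Real.log K3 / Real.log 2 + 3)) * (D + s + 1) * Real.log T := by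
          gcongr
          linarith

end CZ
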