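import Mathlib

/-!
# MP_ede373, cubic points, row Xa: near roots, and adjoining a root

`near_root`: `f = lc ∏ (X - z_i)`, so `‖f(y)‖ = ‖lc‖ ∏ ‖y - z_i‖`; if all `‖y - z_i‖ ^ n > ε / c0` then
`(∏ ‖y - z_i‖) ^ n > (ε/c0)^n`, so `∏ > ε/c0` and `‖f(y)‖ > ε` (`c0 ≤ ‖lc‖`).

`adjoin_root_nf`: `E' = AdjoinRoot ψ` (`AdjoinRoot.instField`, `Fact (Irreducible ψ)`), `ρ = AdjoinRoot.root ψ`,
finite over `E` of degree `natDegree ψ` (`AdjoinRoot.powerBasis`, `PowerBasis.finrank`), so a number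
field; `φ' = AdjoinRoot.lift φ z h`.
-/

set_option autoImplicit false

namespace CZ

open Polynomial

theorem Xa_prod {r : ℝ} (hr : 0 ≤ r) (g : ℂ → ℝ) (s : Multiset ℂ) (h : ∀ z ∈ s, r < g z) :
    r ^ s.card ≤ (s.map g).prod ∧ 0 < (s.map g).prod ∧ (s ≠ 0 → r ^ s.card < (s.map g).prod) := by
  induction s using Multiset.induction with
  | empty => simp
  | cons a s ih =>
    obtain ⟨h1, h2, -⟩ := ih (fun z hz => h z (Multiset.mem_cons_of_mem hz))
    have ha : r < g a := h a (Multiset.mem_cons_self a s)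
    have h3 : r ^ (a ::ₘ s).card < ((a ::ₘ s).map g).prod := by
      rw [Multiset.card_cons, Multiset.map_cons, Multiset.prod_cons, pow_succ]
      calc r ^ s.card * r ≤ (s.map g).prod * r := mul_le_mul_of_nonneg_right h1 hr
        _ < (s.map g).prod * g a := mul_lt_mul_of_pos_left ha h2
        _ = g a * (s.map g).prod := mul_comm _ _
    have h4 : 0 < ((a ::ₘ s).map g).prod := lt_of_le_of_lt (pow_nonneg hr _) h3
    exact ⟨h3.le, h4, fun _ => h3⟩

theorem near_root (f : ℂ[X]) (n : ℕ) (hn : 0 < n) (hf : f.natDegree = n) (y : ℂ) (c0 ε : ℝ)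
    (hc : 0 < c0) (hl : c0 ≤ ‖f.leadingCoeff‖) (h : ‖f.eval y‖ ≤ ε) :
    ∃ z ∈ f.roots, ‖z - y‖ ^ n ≤ ε / c0 := by
  by_contra hcon
  push Not at hcon
  have hε : 0 ≤ ε := (norm_nonneg _).trans h
  have hδ : 0 ≤ ε / c0 := div_nonneg hε hc.le
  have hsp : f.Splits := IsAlgClosed.splits f
  have hcard : f.roots.card = n := by rw [← hsp.natDegree_eq_card_roots, hf]
  have hne : f.roots ≠ 0 := by
    intro h0
    rw [h0, Multiset.card_zero] at hcard
    omega
  have hn' : n ≠ 0 := by omega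
  set r : ℝ := (ε / c0) ^ ((n : ℝ)⁻¹) with hr
  have hr0 : 0 ≤ r := Real.rpow_nonneg hδ _
  have hrn : r ^ n = ε / c0 := Real.rpow_inv_natCast_pow hδ hn'
  have hlt : ∀ z ∈ f.roots, r < ‖y - z‖ := by
    intro z hz
    have h1 := hcon z hz
    rw [← hrn, norm_sub_rev] at h1
    exact lt_of_pow_lt_pow_left₀ n (norm_nonneg _) h1
  obtain ⟨-, -, h2⟩ := Xa_prod hr0 (fun z => ‖y - z‖) f.roots hlt
  have h3 := h2 hne
  rw [hcard, hrn] at h3
  have h4 : ‖f.eval y‖ = ‖f.leadingCoeff‖ * (f.roots.map (fun z => ‖y - z‖)).prod := by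
    rw [hsp.eval_eq_prod_roots, norm_mul]
    congr 1
    have := map_multiset_prod (normHom : ℂ →*₀ ℝ) (f.roots.map (fun z => y - z))
    rw [Multiset.map_map] at this
    exact this
  have h5 : ε < ‖f.eval y‖ := by
    rw [h4]
    calc ε = c0 * (ε / c0) := by field_simp
      _ < c0 * (f.roots.map (fun z => ‖y - z‖)).prod := mul_lt_mul_of_pos_left h3 hc
      _ ≤ _ := mul_le_mul_of_nonneg_right hl (hδ.trans h3.le)
  linarith

theorem Xa_nf (E E' : Type) [Field E] [NumberField E] [Field E'] [Algebra E E'] [FiniteDimensional E E'] :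
    ∃ _ : NumberField E', Module.finrank ℚ E' = Module.finrank E E' * Module.finrank ℚ E := by
  have : CharZero E' := charZero_of_injective_algebraMap (algebraMap E E').injective
  have : FiniteDimensional ℚ E' := FiniteDimensional.trans ℚ E E'
  refine ⟨⟨⟩, ?_⟩
  rw [mul_comm]
  exact (Module.finrank_mul_finrank ℚ E E').symm

theorem adjoin_root_nf (E : Type) [Field E] [NumberField E] (ψ : E[X]) (hψ : Irreducible ψ) :
    ∃ (E' : Type) (_ : Field E') (_ : NumberField E') (_ : Algebra E E') (ρ : E'),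
      aeval ρ ψ = 0 ∧ Module.finrank E E' = ψ.natDegree ∧
      Module.finrank ℚ E' = ψ.natDegree * Module.finrank ℚ E ∧
      ∀ (φ : E →+* ℂ) (z : ℂ), (ψ.map φ).eval z = 0 →
        ∃ φ' : E' →+* ℂ, φ'.comp (algebraMap E E') = φ ∧ φ' ρ = z := by
  have : Fact (Irreducible ψ) := ⟨hψ⟩
  have h0 : ψ ≠ 0 := hψ.ne_zero
  have : FiniteDimensional E (AdjoinRoot ψ) := (AdjoinRoot.powerBasis h0).finite
  have hfr : Module.finrank E (AdjoinRoot ψ) = ψ.natDegree := by
    rw [(AdjoinRoot.powerBasis h0).finrank, AdjoinRoot.powerBasis_dim]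
  obtain ⟨hN, hfin⟩ := Xa_nf E (AdjoinRoot ψ)
  refine ⟨AdjoinRoot ψ, inferInstance, hN, inferInstance, AdjoinRoot.root ψ, ?_, hfr, ?_, ?_⟩
  · rw [AdjoinRoot.aeval_eq, AdjoinRoot.mk_self]
  · rw [hfin, hfr]
  · intro φ z hz
    have hz' : ψ.eval₂ φ z = 0 := by rwa [eval_map] at hz
    refine ⟨AdjoinRoot.lift φ z hz', ?_, AdjoinRoot.lift_root hz'⟩
    rw [AdjoinRoot.algebraMap_eq]
    exact AdjoinRoot.lift_comp_of hz'

end CZ
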